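import Mathlib

/-!
# Definitions: `p`-adic representations of the absolute Galois group of `ℚ`
-/

namespace Pool.Agent.GSem

open NumberField TensorProduct Module Polynomial

section galC

variable {p : ℕ} [hp : Fact p.Prime]

theorem norm_gal (σ : Gal(PadicAlgCl p/ℚ_[p])) (x : PadicAlgCl p) : ‖σ x‖ = ‖x‖ :=
  (spectralNorm_eq_of_equiv σ x).symm

theorem isometry_gal (σ : Gal(PadicAlgCl p/ℚ_[p])) : Isometry (σ : PadicAlgCl p → PadicAlgCl p) :=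
  AddMonoidHomClass.isometry_of_norm σ (norm_gal σ)

theorem continuous_gal (σ : Gal(PadicAlgCl p/ℚ_[p])) :
    Continuous ((σ : PadicAlgCl p ≃+* PadicAlgCl p) : PadicAlgCl p →+* PadicAlgCl p) :=
  (isometry_gal σ).continuous

/-- The continuous extension to `ℂ_[p]` of an automorphism of the algebraic closure of `ℚ_[p]`. -/
noncomputable def galC (σ : Gal(PadicAlgCl p/ℚ_[p])) : ℂ_[p] →+* ℂ_[p] :=
  UniformSpace.Completion.mapRingHom
    ((σ : PadicAlgCl p ≃+* PadicAlgCl p) : PadicAlgCl p →+* PadicAlgCl p) (continuous_gal σ)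

@[simp]
theorem galC_coe (σ : Gal(PadicAlgCl p/ℚ_[p])) (x : PadicAlgCl p) :
    galC σ (x : ℂ_[p]) = ((σ x : PadicAlgCl p) : ℂ_[p]) :=
  UniformSpace.Completion.mapRingHom_coe (continuous_gal σ) x

@[simp]
theorem galC_algebraMap (σ : Gal(PadicAlgCl p/ℚ_[p])) (a : ℚ_[p]) :
    galC σ (algebraMap ℚ_[p] ℂ_[p] a) = algebraMap ℚ_[p] ℂ_[p] a := by
  have h : algebraMap ℚ_[p] ℂ_[p] a = ((algebraMap ℚ_[p] (PadicAlgCl p) a : PadicAlgCl p) : ℂ_[p]) :=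
    rfl
  rw [h, galC_coe, AlgEquiv.commutes]

/-- `galC σ` as a `ℚ_[p]`-linear map. -/
noncomputable def galCLin (σ : Gal(PadicAlgCl p/ℚ_[p])) : ℂ_[p] →ₗ[ℚ_[p]] ℂ_[p] where
  toFun := galC σ
  map_add' := map_add _
  map_smul' a x := by
    rw [Algebra.smul_def, Algebra.smul_def, map_mul, galC_algebraMap, RingHom.id_apply]

end galC

section cyc

variable (p : ℕ) [hp : Fact p.Prime]

/-- The `p`-adic cyclotomic character of the Galois group of `Ω / ℚ`. -/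
noncomputable def cyc (Ω : Type*) [Field Ω] [CharZero Ω] : Gal(Ω/ℚ) →* ℤ_[p]ˣ :=
  (cyclotomicCharacter Ω p).comp (MulSemiringAction.toRingAut Gal(Ω/ℚ) Ω)

variable {p}
variable {Ω : Type*} [Field Ω] [CharZero Ω]

/-- The inclusion of the units of `ℤ_[p]` in `ℚ_[p]`. -/
noncomputable def toQ : ℤ_[p]ˣ →* ℚ_[p] :=
  (PadicInt.Coe.ringHom (p := p)).toMonoidHom.comp (Units.coeHom ℤ_[p])

/-- `φ` is an (arithmetic) Frobenius element at the rational prime `q`: it acts as `x ↦ x ^ q`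
modulo a prime above `q` of the ring of all algebraic integers in `Ω`. -/
def IsFrobAt (q : ℕ) (φ : Gal(Ω/ℚ)) : Prop :=
  ∃ Q : Ideal (𝓞 Ω), Q.IsPrime ∧ (q : 𝓞 Ω) ∈ Q ∧ ∀ x : 𝓞 Ω, φ • x - x ^ q ∈ Q

/-- The element `g` of the global Galois group is induced by the element `σ` of the local one. -/
def Compat (ι : Ω →+* PadicAlgCl p) (σ : Gal(PadicAlgCl p/ℚ_[p])) (g : Gal(Ω/ℚ)) : Prop :=
  ∀ x, ι (g x) = σ (ι x)

end cyc

section rep

variable {p : ℕ} [hp : Fact p.Prime] {Ω : Type*} [Field Ω] [CharZero Ω]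
variable {V : Type*} [AddCommGroup V] [Module ℚ_[p] V]

/-- The semilinear operator `σ ⊗ T` on `ℂ_p ⊗ V`. -/
noncomputable def semi (σ : Gal(PadicAlgCl p/ℚ_[p])) (T : V →ₗ[ℚ_[p]] V) :
    (ℂ_[p] ⊗[ℚ_[p]] V) →ₗ[ℚ_[p]] (ℂ_[p] ⊗[ℚ_[p]] V) :=
  TensorProduct.map (galCLin σ) T

/-- The matrix coefficients of `ρ` are continuous. -/
def IsContinuousRep (ρ : Representation ℚ_[p] Gal(Ω/ℚ) V) : Prop :=
  ∀ (v : V) (f : Dual ℚ_[p] V), Continuous fun g => f (ρ g v)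

/-- `ρ` is Hodge–Tate at `p` with weights `h` (relative to the embedding `ι` of `Ω` in the algebraic
closure of `ℚ_[p]`): the basis `e` of `ℂ_p ⊗ V` is such that the decomposition group at `p` acts on
`e i` through the power `- h i` of the cyclotomic character. -/
def IsHTBasis (ι : Ω →+* PadicAlgCl p) (ρ : Representation ℚ_[p] Gal(Ω/ℚ) V) {n : ℕ}
    (h : Fin n → ℤ) (e : Basis (Fin n) ℂ_[p] (ℂ_[p] ⊗[ℚ_[p]] V)) : Prop :=
  ∀ σ g, Compat ι σ g → ∀ i, semi σ (ρ g) (e i) =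
    algebraMap ℚ_[p] ℂ_[p] (toQ (cyc p Ω g) ^ (-h i)) • e i

/-- `ρ` is Hodge–Tate at `p` with weights `h`. -/
def IsHodgeTate (ρ : Representation ℚ_[p] Gal(Ω/ℚ) V) {n : ℕ} (h : Fin n → ℤ) : Prop :=
  ∃ (ι : Ω →+* PadicAlgCl p) (e : Basis (Fin n) ℂ_[p] (ℂ_[p] ⊗[ℚ_[p]] V)), IsHTBasis ι ρ h e

/-- `T` is pure of weight `w` at `q` (arithmetic normalisation): all its eigenvalues are algebraic
numbers all of whose complex conjugates have absolute value `q ^ (-w / 2)`. -/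
def IsPureOp (q : ℕ) (w : ℤ) (T : V →ₗ[ℚ_[p]] V) : Prop :=
  ∃ P : ℚ[X], P ≠ 0 ∧ (∀ z : ℂ, aeval z P = 0 → ‖z‖ ^ 2 = (q : ℝ) ^ (-w)) ∧
    aeval T (P.map (algebraMap ℚ ℚ_[p])) = 0

/-- `ρ` is pure of weight `w` at some prime `q ≠ p`. -/
def IsPureSomewhere (ρ : Representation ℚ_[p] Gal(Ω/ℚ) V) (w : ℤ) : Prop :=
  ∃ (q : ℕ) (φ : Gal(Ω/ℚ)), q.Prime ∧ q ≠ p ∧ IsFrobAt q φ ∧ IsPureOp q w (ρ φ)

/-- `B` is a nondegenerate pairing `V × V → ℚ_p(-w)` compatible with the Galois action. -/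
def IsPolarization (ρ : Representation ℚ_[p] Gal(Ω/ℚ) V) (w : ℤ)
    (B : V →ₗ[ℚ_[p]] V →ₗ[ℚ_[p]] ℚ_[p]) : Prop :=
  (∀ x, (∀ y, B x y = 0) → x = 0) ∧
    ∀ g x y, B (ρ g x) (ρ g y) = toQ (cyc p Ω g) ^ (-w) * B x y

/-- Every stable subspace has a stable complement. -/
def HasStableComplements (ρ : Representation ℚ_[p] Gal(Ω/ℚ) V) : Prop :=
  ∀ W : Submodule ℚ_[p] V, (∀ g, ∀ x ∈ W, ρ g x ∈ W) →
    ∃ W' : Submodule ℚ_[p] V, (∀ g, ∀ x ∈ W', ρ g x ∈ W') ∧ IsCompl W W'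

end rep

section monodromy

variable {k V : Type*} [Field k] [AddCommGroup V] [Module k V]

/-- The exponential of a nilpotent operator on a finite-dimensional space. -/
noncomputable def nexp (N : V →ₗ[k] V) : V →ₗ[k] V :=
  ∑ i ∈ Finset.range (finrank k V + 1), ((i.factorial : k)⁻¹) • N ^ i

/-- All complex roots of `P` have absolute value `q ^ (-i / 2)`. -/
def HasWeight (q : ℕ) (i : ℤ) (P : ℚ[X]) : Prop :=
  P ≠ 0 ∧ ∀ z : ℂ, aeval z P = 0 → ‖z‖ ^ 2 = (q : ℝ) ^ (-i)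

/-- The kernel of `P i` evaluated at the operator `T`. -/
noncomputable def wtPart [CharZero k] (T : V →ₗ[k] V) (P : ℤ → ℚ[X]) (i : ℤ) : Submodule k V :=
  LinearMap.ker (aeval T ((P i).map (algebraMap ℚ k)))

end monodromy

end Pool.Agent.GSem
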