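import Mathlib

/-!
# Cyclotomic extensions of `ℚ_[p]` generated by roots of unity of order a power of `p`
-/

namespace Pool.Agent.GSem

open Polynomial IntermediateField

variable {p : ℕ} [hp : Fact p.Prime]

section irred

theorem cyclotomic_irreducible_padicInt (n : ℕ) :
    Irreducible (((cyclotomic (p ^ (n + 1)) ℤ).comp (X + 1)).map (Int.castRingHom ℤ_[p])) := by
  set f : ℤ[X] := (cyclotomic (p ^ (n + 1)) ℤ).comp (X + 1) with hf
  have hE : f.IsEisensteinAt (Submodule.span ℤ {(p : ℤ)}) :=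
    cyclotomic_prime_pow_comp_X_add_one_isEisensteinAt p n
  have hfm : f.Monic := by
    rw [hf, show (X + 1 : ℤ[X]) = X + C 1 by simp]
    refine (cyclotomic.monic _ ℤ).comp (monic_X_add_C 1) fun h => ?_
    rw [natDegree_X_add_C] at h
    exact zero_ne_one h.symm
  have hdeg : f.natDegree = (p ^ (n + 1)).totient := by
    rw [hf, natDegree_comp, show (X + 1 : ℤ[X]) = X + C 1 by simp, natDegree_X_add_C, mul_one,
      natDegree_cyclotomic]
  have hprime : (Ideal.span {(p : ℤ_[p])}).IsPrime :=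
    (Ideal.span_singleton_prime (by exact_mod_cast hp.out.ne_zero)).2 PadicInt.prime_p
  have hgE : (f.map (Int.castRingHom ℤ_[p])).IsEisensteinAt (Ideal.span {(p : ℤ_[p])}) := by
    refine (hfm.map _).isEisensteinAt_of_mem_of_notMem hprime.ne_top ?_ ?_
    · intro i hi
      rw [hfm.natDegree_map] at hi
      have h1 := hE.mem hi
      rw [Ideal.submodule_span_eq, Ideal.mem_span_singleton] at h1
      rw [Ideal.mem_span_singleton, coeff_map]
      have := map_dvd (Int.castRingHom ℤ_[p]) h1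
      simpa using this
    · rw [coeff_map, hf, coeff_zero_eq_eval_zero, eval_comp,
        cyclotomic_prime_pow_eq_geom_sum hp.out, eval_add, eval_X, eval_one, zero_add,
        eval_finsetSum]
      simp only [eval_pow, eval_X, one_pow, Finset.sum_const, Finset.card_range,
        Nat.smul_one_eq_cast, map_natCast, Ideal.span_singleton_pow, Ideal.mem_span_singleton]
      intro h
      obtain ⟨k, hk⟩ := h
      have h0 : (p : ℤ_[p]) ≠ 0 := by exact_mod_cast hp.out.ne_zero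
      have h1 : (1 : ℤ_[p]) = p * k := by
        apply mul_left_cancel₀ h0
        rw [mul_one]
        calc (p : ℤ_[p]) = p ^ 2 * k := hk
          _ = _ := by ring
      exact PadicInt.p_nonunit (isUnit_iff_exists_inv.2 ⟨k, h1.symm⟩)
  refine hgE.irreducible hprime (hfm.map _).isPrimitive ?_
  rw [hfm.natDegree_map, hdeg]
  exact Nat.totient_pos.2 (pow_pos hp.out.pos _)

theorem cyclotomic_irreducible_padic (n : ℕ) :
    Irreducible (cyclotomic (p ^ (n + 1)) ℚ_[p]) := by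
  have h1 := cyclotomic_irreducible_padicInt (p := p) n
  have hfm : ((cyclotomic (p ^ (n + 1)) ℤ).comp (X + 1)).Monic := by
    rw [show (X + 1 : ℤ[X]) = X + C 1 by simp]
    refine (cyclotomic.monic _ ℤ).comp (monic_X_add_C 1) fun h => ?_
    rw [natDegree_X_add_C] at h
    exact zero_ne_one h.symm
  rw [Monic.irreducible_iff_irreducible_map_fraction_map (K := ℚ_[p]) (hfm.map _)] at h1
  rw [← MulEquiv.irreducible_iff (taylorEquiv (1 : ℚ_[p]))]
  have e : taylorEquiv (1 : ℚ_[p]) (cyclotomic (p ^ (n + 1)) ℚ_[p]) =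
      (((cyclotomic (p ^ (n + 1)) ℤ).comp (X + 1)).map (Int.castRingHom ℤ_[p])).map
        (algebraMap ℤ_[p] ℚ_[p]) := by
    rw [Polynomial.map_map, Polynomial.map_comp, map_cyclotomic]
    change taylor 1 _ = _
    rw [taylor_apply]
    simp
  rw [e]
  exact h1

/-- The minimal polynomial over `ℚ_[p]` of a primitive `p ^ (n + 1)`-th root of unity. -/
theorem minpoly_root {L : Type*} [Field L] [Algebra ℚ_[p] L] [CharZero L] {n : ℕ} {ζ : L}
    (hζ : IsPrimitiveRoot ζ (p ^ (n + 1))) :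
    minpoly ℚ_[p] ζ = cyclotomic (p ^ (n + 1)) ℚ_[p] := by
  symm
  apply minpoly.eq_of_irreducible_of_monic (cyclotomic_irreducible_padic n)
  · rw [← eval_map_algebraMap, map_cyclotomic]
    have : NeZero ((p ^ (n + 1) : ℕ) : L) := ⟨by exact_mod_cast (pow_pos hp.out.pos _).ne'⟩
    exact (isRoot_cyclotomic_iff.2 hζ)
  · exact cyclotomic.monic _ _

theorem isIntegral_root {L : Type*} [Field L] [Algebra ℚ_[p] L] {n : ℕ} {ζ : L}
    (hζ : IsPrimitiveRoot ζ (p ^ n)) : IsIntegral ℚ_[p] ζ :=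
  (hζ.isIntegral (pow_pos hp.out.pos n)).tower_top

end irred

section norms

variable {L : Type*} [NormedField L] [IsUltrametricDist L] [CharZero L]

theorem norm_eq_one_of_pow {n : ℕ} (hn : 0 < n) {ζ : L} (h : ζ ^ n = 1) : ‖ζ‖ = 1 := by
  have h1 : ‖ζ‖ ^ n = 1 := by rw [← norm_pow, h, norm_one]
  exact (pow_eq_one_iff_of_nonneg (norm_nonneg _) hn.ne').1 h1

theorem norm_one_sub_pow_le {ζ : L} (h : ‖ζ‖ ≤ 1) (a : ℕ) : ‖1 - ζ ^ a‖ ≤ ‖1 - ζ‖ := by
  rw [← mul_neg_geom_sum, norm_mul]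
  have : ‖∑ i ∈ Finset.range a, ζ ^ i‖ ≤ 1 := by
    apply IsUltrametricDist.norm_sum_le_of_forall_le_of_nonneg zero_le_one
    intro i _
    rw [norm_pow]
    exact pow_le_one₀ (norm_nonneg _) h
  exact mul_le_of_le_one_right (norm_nonneg _) this

theorem norm_one_sub_root {n : ℕ} {ζ : L} (hζ : IsPrimitiveRoot ζ (p ^ (n + 1)))
    (hnat : ‖(p : L)‖ = (p : ℝ)⁻¹) :
    ‖1 - ζ‖ ^ (p ^ (n + 1)).totient = (p : ℝ)⁻¹ := by
  have hpos : 0 < p ^ (n + 1) := pow_pos hp.out.pos _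
  have hζ1 : ‖ζ‖ = 1 := norm_eq_one_of_pow hpos hζ.pow_eq_one
  have h1 : eval 1 (cyclotomic (p ^ (n + 1)) L) = p := eval_one_cyclotomic_prime_pow n
  rw [cyclotomic_eq_prod_X_sub_primitiveRoots hζ, eval_prod] at h1
  rw [← hnat, ← h1, norm_prod, ← hζ.card_primitiveRoots, ← Finset.prod_const]
  apply Finset.prod_congr rfl
  intro μ hμ
  rw [eval_sub, eval_X, eval_C]
  have hμ' : IsPrimitiveRoot μ (p ^ (n + 1)) := (mem_primitiveRoots hpos).1 hμ
  have hμ1 : ‖μ‖ = 1 := norm_eq_one_of_pow hpos hμ'.pow_eq_one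
  have : NeZero (p ^ (n + 1)) := ⟨hpos.ne'⟩
  obtain ⟨a, _, ha⟩ := hζ.eq_pow_of_pow_eq_one hμ'.pow_eq_one
  obtain ⟨b, _, hb⟩ := hμ'.eq_pow_of_pow_eq_one hζ.pow_eq_one
  apply le_antisymm
  · rw [← hb]; exact norm_one_sub_pow_le hμ1.le b
  · rw [← ha]; exact norm_one_sub_pow_le hζ1.le a

/-- In an ultrametric sum whose nonzero terms have distinct norms, every term is bounded by the
norm of the sum. -/
theorem norm_term_le_sum {ι : Type*} (s : Finset ι) (f : ι → L)
    (hs : ∀ i ∈ s, ∀ j ∈ s, f i ≠ 0 → f j ≠ 0 → ‖f i‖ = ‖f j‖ → i = j) (i : ι) (hi : i ∈ s) :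
    ‖f i‖ ≤ ‖∑ j ∈ s, f j‖ := by
  classical
  by_cases h0 : f i = 0
  · rw [h0, norm_zero]; exact norm_nonneg _
  have h1 : ∑ j ∈ s, f j = ∑ j ∈ s.filter (fun j => f j ≠ 0), f j := by
    rw [Finset.sum_filter_ne_zero]
  have h2 := IsUltrametricDist.nnnorm_sum_eq_sup_of_pairwise_ne
    (s := s.filter (fun j => f j ≠ 0)) (f := f) (by
      intro a ha b hb hab heq
      simp only [Finset.coe_filter, Set.mem_ofPred_eq] at ha hb
      apply hab
      exact hs a ha.1 b hb.1 ha.2 hb.2 (by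
        have := congrArg NNReal.toReal heq
        simpa using this))
  rw [h1]
  have h3 : ‖f i‖₊ ≤ ‖∑ j ∈ s.filter (fun j => f j ≠ 0), f j‖₊ := by
    rw [h2]
    exact Finset.le_sup (f := fun j => ‖f j‖₊) (Finset.mem_filter.2 ⟨hi, h0⟩)
  exact_mod_cast h3

end norms

section coeffs

variable {L : Type*} [NormedField L] [IsUltrametricDist L] [CharZero L] [NormedAlgebra ℚ_[p] L]

theorem norm_coeff_bound {n : ℕ} {ζ : L} (hζ : IsPrimitiveRoot ζ (p ^ (n + 1)))
    (g : ℚ_[p][X]) (hg : g.natDegree < (p ^ (n + 1)).totient) (i : ℕ) :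
    ‖g.coeff i‖ ≤ p * ‖aeval (ζ - 1) g‖ := by
  set N := (p ^ (n + 1)).totient with hN
  have hp1 : (1 : ℝ) < p := by exact_mod_cast hp.out.one_lt
  have hp0 : (0 : ℝ) < p := by linarith
  have hpL : ‖(p : L)‖ = (p : ℝ)⁻¹ := by
    have : (p : L) = algebraMap ℚ_[p] L p := by simp
    rw [this, norm_algebraMap', Padic.norm_p]
  have hπ : ‖ζ - 1‖ ^ N = (p : ℝ)⁻¹ := by
    rw [norm_sub_rev]; exact norm_one_sub_root hζ hpL
  have hNpos : 0 < N := Nat.totient_pos.2 (pow_pos hp.out.pos _)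
  have hπ0 : 0 < ‖ζ - 1‖ := by
    rcases (norm_nonneg (ζ - 1)).lt_or_eq with h | h
    · exact h
    · rw [← h, zero_pow hNpos.ne'] at hπ
      exact absurd hπ.symm (inv_ne_zero hp0.ne')
  have hπ1 : ‖ζ - 1‖ ≤ 1 := by
    by_contra hcon
    push Not at hcon
    have : 1 < ‖ζ - 1‖ ^ N := one_lt_pow₀ hcon hNpos.ne'
    rw [hπ] at this
    have h2 : (p : ℝ)⁻¹ < 1 := inv_lt_one_of_one_lt₀ hp1
    linarith
  have hsum : aeval (ζ - 1) g = ∑ j ∈ Finset.range N, (algebraMap ℚ_[p] L (g.coeff j)) * (ζ - 1) ^ j := by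
    conv_lhs => rw [g.as_sum_range' N hg]
    rw [map_sum]
    apply Finset.sum_congr rfl
    intro j _
    rw [aeval_monomial]
  by_cases hi : i < N
  swap
  · rw [coeff_eq_zero_of_natDegree_lt (lt_of_lt_of_le hg (not_lt.1 hi)), norm_zero]
    positivity
  have key : ‖(algebraMap ℚ_[p] L (g.coeff i)) * (ζ - 1) ^ i‖ ≤ ‖aeval (ζ - 1) g‖ := by
    rw [hsum]
    refine norm_term_le_sum (Finset.range N)
      (fun j => (algebraMap ℚ_[p] L (g.coeff j)) * (ζ - 1) ^ j) ?_ i (Finset.mem_range.2 hi)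
    intro a ha b hb ha0 hb0 hab
    have ha' : g.coeff a ≠ 0 := by
      intro h; apply ha0; simp [h]
    have hb' : g.coeff b ≠ 0 := by
      intro h; apply hb0; simp [h]
    rw [Finset.mem_range] at ha hb
    simp only [norm_mul, norm_pow, norm_algebraMap'] at hab
    rw [Padic.norm_eq_zpow_neg_valuation ha', Padic.norm_eq_zpow_neg_valuation hb'] at hab
    have h1 := congrArg (fun t : ℝ => t ^ N) hab
    simp only [mul_pow] at h1
    rw [← pow_mul, ← pow_mul, mul_comm a N, mul_comm b N, pow_mul, pow_mul, hπ] at h1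
    have h2 : ∀ (v : ℤ) (c : ℕ), ((p : ℝ) ^ (-v)) ^ N * ((p : ℝ)⁻¹) ^ c =
        (p : ℝ) ^ (-(v * N + c)) := by
      intro v c
      rw [← zpow_natCast, ← zpow_mul, ← zpow_natCast, inv_zpow', ← zpow_add₀ hp0.ne']
      congr 1
      ring
    rw [h2, h2] at h1
    have h3 := zpow_right_injective₀ hp0 hp1.ne' h1
    have h4 : (g.coeff a).valuation * N + a = (g.coeff b).valuation * N + b := by linarith
    have h5 : (a : ℤ) % N = (b : ℤ) % N := by
      have := congrArg (fun t : ℤ => t % N) h4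
      simpa [Int.add_emod, Int.mul_emod] using this
    rw [Int.emod_eq_of_lt (by positivity) (by exact_mod_cast ha),
      Int.emod_eq_of_lt (by positivity) (by exact_mod_cast hb)] at h5
    exact_mod_cast h5
  rw [norm_mul, norm_pow, norm_algebraMap'] at key
  have hlow : (p : ℝ)⁻¹ ≤ ‖ζ - 1‖ ^ i := by
    rw [← hπ]
    exact pow_le_pow_of_le_one hπ0.le hπ1 hi.le
  have h1 : ‖g.coeff i‖ * (p : ℝ)⁻¹ ≤ ‖aeval (ζ - 1) g‖ :=
    (mul_le_mul_of_nonneg_left hlow (norm_nonneg _)).trans key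
  calc ‖g.coeff i‖ = p * (‖g.coeff i‖ * (p : ℝ)⁻¹) := by field_simp
    _ ≤ p * ‖aeval (ζ - 1) g‖ := by gcongr

end coeffs

end Pool.Agent.GSem
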