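import Mathlib
import Pool.Agent.Lib.Helper90.GSem.Cyc

/-!
# Normalised traces in the cyclotomic tower
-/

namespace Pool.Agent.GSem

open Polynomial IntermediateField

variable {p : ℕ} [hp : Fact p.Prime]

theorem nextCoeff_cyclotomic_eq_zero (j : ℕ) :
    (cyclotomic (p ^ (j + 2)) ℚ_[p]).nextCoeff = 0 := by
  have hdeg : (cyclotomic (p ^ (j + 2)) ℚ_[p]).natDegree = p ^ (j + 1) * (p - 1) := by
    rw [natDegree_cyclotomic, Nat.totient_prime_pow hp.out (Nat.succ_pos _)]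
    rfl
  have hp2 := hp.out.two_le
  have hpos : 0 < p ^ (j + 1) * (p - 1) := Nat.mul_pos (pow_pos hp.out.pos _) (by omega)
  rw [nextCoeff_of_natDegree_pos (by rw [hdeg]; exact hpos), hdeg,
    cyclotomic_prime_pow_eq_geom_sum hp.out, finset_sum_coeff]
  apply Finset.sum_eq_zero
  intro i _
  rw [← pow_mul, coeff_X_pow, if_neg]
  intro h
  have h2 : 2 ≤ p ^ (j + 1) := by
    calc 2 ≤ p := hp2
      _ = p ^ 1 := (pow_one p).symm
      _ ≤ p ^ (j + 1) := Nat.pow_le_pow_right hp.out.pos (by omega)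
  have h3 : p ^ (j + 1) * (p - 1) = p ^ (j + 1) * i + 1 := by omega
  have h4 : p ^ (j + 1) ∣ 1 := by
    have : p ^ (j + 1) ∣ p ^ (j + 1) * i + 1 := h3 ▸ Dvd.intro _ rfl
    exact (Nat.dvd_add_right (Dvd.intro _ rfl)).1 this
  have := Nat.le_of_dvd one_pos h4
  omega

theorem norm_nextCoeff_cyclotomic_le (n : ℕ) :
    ‖(cyclotomic n ℚ_[p]).nextCoeff‖ ≤ 1 := by
  have : (cyclotomic n ℚ_[p]).nextCoeff = (((cyclotomic n ℤ).nextCoeff : ℤ) : ℚ_[p]) := by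
    rw [← map_cyclotomic n (Int.castRingHom ℚ_[p]), nextCoeff_map (RingHom.injective_int _)]
    simp
  rw [this]
  exact Padic.norm_int_le_one _

variable {L : Type*} [NormedField L] [IsUltrametricDist L] [CharZero L] [NormedAlgebra ℚ_[p] L]

theorem finrank_root {n : ℕ} {ζ : L} (hζ : IsPrimitiveRoot ζ (p ^ (n + 1))) :
    Module.finrank ℚ_[p] ℚ_[p]⟮ζ⟯ = p ^ n * (p - 1) := by
  rw [IntermediateField.adjoin.finrank (isIntegral_root hζ), minpoly_root hζ,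
    natDegree_cyclotomic, Nat.totient_prime_pow hp.out (Nat.succ_pos _)]
  rfl

theorem finiteDimensional_root {n : ℕ} {ζ : L} (hζ : IsPrimitiveRoot ζ (p ^ n)) :
    FiniteDimensional ℚ_[p] ℚ_[p]⟮ζ⟯ :=
  IntermediateField.adjoin.finiteDimensional (isIntegral_root hζ)

theorem norm_trace_root_le {n : ℕ} {ζ : L} (hζ : IsPrimitiveRoot ζ (p ^ (n + 1)))
    (ξ : ℚ_[p]⟮ζ⟯) (hξ : ξ ^ (p ^ (n + 1)) = 1) :
    ‖Algebra.trace ℚ_[p] ℚ_[p]⟮ζ⟯ ξ‖ ≤ ((p : ℝ)⁻¹) ^ n := by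
  have := finiteDimensional_root hζ
  have hfr := finrank_root hζ
  have hpn : ‖((p ^ n : ℕ) : ℚ_[p])‖ = ((p : ℝ)⁻¹) ^ n := by
    push_cast
    rw [norm_pow, Padic.norm_p]
  obtain ⟨k, hk, hξk⟩ : ∃ k ≤ n + 1, orderOf ξ = p ^ k :=
    (Nat.dvd_prime_pow hp.out).1 (orderOf_dvd_of_pow_eq_one hξ)
  have hprim : IsPrimitiveRoot ξ (p ^ k) := hξk ▸ IsPrimitiveRoot.orderOf ξ
  rcases k with _ | k
  · have h1 : ξ = 1 := by simpa using hprim.pow_eq_one
    rw [h1, Algebra.trace_eq_matrix_trace (Module.finBasis ℚ_[p] ℚ_[p]⟮ζ⟯), map_one,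
      Matrix.trace_one, Fintype.card_fin, hfr, Nat.cast_mul, norm_mul, hpn]
    exact mul_le_of_le_one_right (by positivity) (by exact_mod_cast Padic.norm_int_le_one _)
  · rw [trace_eq_finrank_mul_minpoly_nextCoeff, minpoly_root hprim]
    rcases k with _ | k
    · have h1 : Module.finrank ℚ_[p] ℚ_[p]⟮ξ⟯ = p - 1 := by
        rw [IntermediateField.adjoin.finrank (isIntegral_root hprim), minpoly_root hprim,
          natDegree_cyclotomic, Nat.totient_prime_pow hp.out (Nat.succ_pos _)]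
        simp
      have h2 := Module.finrank_mul_finrank ℚ_[p] ℚ_[p]⟮ξ⟯ ℚ_[p]⟮ζ⟯
      rw [h1, hfr, mul_comm] at h2
      have hp2 := hp.out.two_le
      have h3 : Module.finrank ℚ_[p]⟮ξ⟯ ℚ_[p]⟮ζ⟯ = p ^ n :=
        Nat.eq_of_mul_eq_mul_right (by omega) h2
      rw [h3, norm_mul, hpn, norm_neg]
      exact mul_le_of_le_one_right (by positivity) (norm_nextCoeff_cyclotomic_le _)
    · rw [nextCoeff_cyclotomic_eq_zero, neg_zero, mul_zero, norm_zero]
      positivity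

theorem norm_trace_aeval_le {n : ℕ} {ζ : L} (hζ : IsPrimitiveRoot ζ (p ^ (n + 1)))
    (h : ℤ[X]) :
    ‖Algebra.trace ℚ_[p] ℚ_[p]⟮ζ⟯ (aeval (AdjoinSimple.gen ℚ_[p] ζ) h)‖ ≤ ((p : ℝ)⁻¹) ^ n := by
  rw [aeval_eq_sum_range, map_sum]
  apply IsUltrametricDist.norm_sum_le_of_forall_le_of_nonneg (by positivity)
  intro i _
  rw [map_zsmul, zsmul_eq_mul, norm_mul]
  have h1 : ‖Algebra.trace ℚ_[p] ℚ_[p]⟮ζ⟯ ((AdjoinSimple.gen ℚ_[p] ζ) ^ i)‖ ≤ ((p : ℝ)⁻¹) ^ n := by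
    apply norm_trace_root_le hζ
    rw [← pow_mul, mul_comm, pow_mul]
    have : (AdjoinSimple.gen ℚ_[p] ζ) ^ p ^ (n + 1) = 1 := by
      apply Subtype.ext
      simpa using hζ.pow_eq_one
    rw [this, one_pow]
  calc _ ≤ 1 * ((p : ℝ)⁻¹) ^ n := by
        gcongr
        exact Padic.norm_int_le_one _
    _ = _ := one_mul _

/-- The key bound on traces in the cyclotomic tower. -/
theorem norm_trace_le {n : ℕ} {ζ : L} (hζ : IsPrimitiveRoot ζ (p ^ (n + 1)))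
    (y : ℚ_[p]⟮ζ⟯) :
    ‖Algebra.trace ℚ_[p] ℚ_[p]⟮ζ⟯ y‖ ≤ ((p : ℝ)⁻¹) ^ n * (p * ‖(y : L)‖) := by
  have hint := isIntegral_root hζ
  obtain ⟨f, hf, hy⟩ := (IntermediateField.adjoin.powerBasis hint).exists_eq_aeval y
  rw [IntermediateField.adjoin.powerBasis_gen] at hy
  rw [IntermediateField.adjoin.powerBasis_dim, minpoly_root hζ, natDegree_cyclotomic] at hf
  set g := taylor (1 : ℚ_[p]) f with hg
  have hgdeg : g.natDegree < (p ^ (n + 1)).totient := by rw [hg, natDegree_taylor]; exact hf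
  have hgy : ∀ (A : Type _) [CommRing A] [Algebra ℚ_[p] A] (a : A), aeval (a - 1) g = aeval a f := by
    intro A _ _ a
    rw [hg, taylor_apply, aeval_comp]
    simp
  have hyL : (y : L) = aeval (ζ - 1) g := by
    rw [hgy, hy]
    simp
  have hyK : y = aeval (AdjoinSimple.gen ℚ_[p] ζ - 1) g := by
    rw [hgy, hy]
  have hb := norm_coeff_bound hζ g hgdeg
  rw [← hyL] at hb
  conv_lhs => rw [hyK, aeval_eq_sum_range, map_sum]
  apply IsUltrametricDist.norm_sum_le_of_forall_le_of_nonneg (by positivity)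
  intro i _
  rw [map_smul, smul_eq_mul, norm_mul, mul_comm]
  have h1 : ‖Algebra.trace ℚ_[p] ℚ_[p]⟮ζ⟯ ((AdjoinSimple.gen ℚ_[p] ζ - 1) ^ i)‖ ≤
      ((p : ℝ)⁻¹) ^ n := by
    have := norm_trace_aeval_le hζ ((X - 1) ^ i)
    simpa using this
  gcongr
  exact hb i

end Pool.Agent.GSem
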