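import Mathlib

/-!
# A logarithm on the units of `ℤ_[p]`
-/

namespace Pool.Agent.GSem

open Filter Topology

section

variable {p : ℕ} [hp : Fact p.Prime]

theorem norm_pow_sub_le {w : ℚ_[p]} (hw : ‖w‖ ≤ 1) (m : ℕ) :
    ‖(1 + w) ^ m - 1 - m * w‖ ≤ ‖w‖ ^ 2 := by
  induction m with
  | zero => simp
  | succ m ih =>
    have e : (1 + w) ^ (m + 1) - 1 - ((m + 1 : ℕ) : ℚ_[p]) * w =
        ((1 + w) ^ m - 1 - m * w) * (1 + w) + m * w ^ 2 := by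
      push_cast; ring
    rw [e]
    refine (IsUltrametricDist.norm_add_le_max _ _).trans (max_le ?_ ?_)
    · rw [norm_mul]
      have h1 : ‖1 + w‖ ≤ 1 := (IsUltrametricDist.norm_add_le_max _ _).trans (max_le (by simp) hw)
      calc _ ≤ ‖w‖ ^ 2 * 1 := mul_le_mul ih h1 (norm_nonneg _) (by positivity)
        _ = _ := mul_one _
    · rw [norm_mul, norm_pow]
      have h1 : ‖(m : ℚ_[p])‖ ≤ 1 := by
        exact_mod_cast Padic.norm_int_le_one (p := p) (m : ℤ)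
      calc _ ≤ 1 * ‖w‖ ^ 2 := mul_le_mul_of_nonneg_right h1 (by positivity)
        _ = _ := one_mul _

/-- The approximations of the logarithm. -/
noncomputable def approx (p : ℕ) [Fact p.Prime] (x : ℚ_[p]) (n : ℕ) : ℚ_[p] :=
  (x ^ (p ^ n) - 1) / p ^ n

theorem norm_approx_aux {x : ℚ_[p]} (hx : ‖x - 1‖ ≤ (p : ℝ) ^ (-2 : ℤ)) (n : ℕ) :
    ‖x ^ (p ^ n) - 1‖ ≤ (p : ℝ)⁻¹ ^ n * ‖x - 1‖ := by
  have hp0 : (0 : ℝ) < p := by exact_mod_cast hp.out.pos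
  have hp1 : (1 : ℝ) < p := by exact_mod_cast hp.out.one_lt
  have hi1 : (p : ℝ)⁻¹ ≤ 1 := inv_le_one_of_one_le₀ hp1.le
  have hi0 : (0 : ℝ) ≤ (p : ℝ)⁻¹ := by positivity
  have hxi : ‖x - 1‖ ≤ (p : ℝ)⁻¹ := by
    refine hx.trans ?_
    rw [zpow_neg, ← one_div, ← one_div]
    refine one_div_le_one_div_of_le hp0 ?_
    rw [zpow_ofNat]
    nlinarith
  induction n with
  | zero => simp
  | succ n ih =>
    set w := x ^ (p ^ n) - 1 with hw
    have hwn : ‖w‖ ≤ (p : ℝ)⁻¹ := by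
      refine ih.trans ?_
      calc (p : ℝ)⁻¹ ^ n * ‖x - 1‖ ≤ 1 * (p : ℝ)⁻¹ :=
            mul_le_mul (pow_le_one₀ hi0 hi1) hxi (norm_nonneg _) zero_le_one
        _ = _ := one_mul _
    have e : x ^ (p ^ (n + 1)) - 1 = ((1 + w) ^ p - 1 - p * w) + p * w := by
      have : 1 + w = x ^ (p ^ n) := by rw [hw]; ring
      rw [this, ← pow_mul, ← pow_succ]; ring
    rw [e]
    refine (IsUltrametricDist.norm_add_le_max _ _).trans (max_le ?_ ?_)
    · refine (norm_pow_sub_le (hwn.trans hi1) p).trans ?_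
      rw [pow_two]
      calc ‖w‖ * ‖w‖ ≤ (p : ℝ)⁻¹ * ((p : ℝ)⁻¹ ^ n * ‖x - 1‖) :=
            mul_le_mul hwn ih (norm_nonneg _) hi0
        _ = _ := by rw [pow_succ]; ring
    · rw [norm_mul, Padic.norm_p]
      calc (p : ℝ)⁻¹ * ‖w‖ ≤ (p : ℝ)⁻¹ * ((p : ℝ)⁻¹ ^ n * ‖x - 1‖) :=
            mul_le_mul_of_nonneg_left ih hi0
        _ = _ := by rw [pow_succ]; ring

theorem norm_approx_succ_sub {x : ℚ_[p]} (hx : ‖x - 1‖ ≤ (p : ℝ) ^ (-2 : ℤ)) (n : ℕ) :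
    ‖approx p x (n + 1) - approx p x n‖ ≤ (p : ℝ)⁻¹ ^ (n + 1) * ‖x - 1‖ := by
  have hp0 : (0 : ℝ) < p := by exact_mod_cast hp.out.pos
  have hp1 : (1 : ℝ) < p := by exact_mod_cast hp.out.one_lt
  have hpQ : (p : ℚ_[p]) ≠ 0 := by exact_mod_cast hp.out.ne_zero
  have hi1 : (p : ℝ)⁻¹ ≤ 1 := inv_le_one_of_one_le₀ hp1.le
  have hi0 : (0 : ℝ) ≤ (p : ℝ)⁻¹ := by positivity
  set w := x ^ (p ^ n) - 1 with hw
  have ih := norm_approx_aux hx n
  rw [← hw] at ih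
  have hx1 : ‖x - 1‖ ≤ 1 := hx.trans (zpow_le_one_of_nonpos₀ hp1.le (by norm_num))
  have hw1 : ‖w‖ ≤ 1 := by
    refine ih.trans ?_
    calc (p : ℝ)⁻¹ ^ n * ‖x - 1‖ ≤ 1 * 1 :=
          mul_le_mul (pow_le_one₀ hi0 hi1) hx1 (norm_nonneg _) zero_le_one
      _ = _ := one_mul _
  have e : approx p x (n + 1) - approx p x n = ((1 + w) ^ p - 1 - p * w) / p ^ (n + 1) := by
    have h1 : 1 + w = x ^ (p ^ n) := by rw [hw]; ring
    rw [h1, ← pow_mul, ← pow_succ, approx, approx, ← hw]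
    field_simp
    ring
  rw [e, norm_div, norm_pow, Padic.norm_p]
  rw [div_le_iff₀ (by positivity)]
  refine (norm_pow_sub_le hw1 p).trans ?_
  have h2 : ‖w‖ ^ 2 ≤ ((p : ℝ)⁻¹ ^ n * ‖x - 1‖) * ((p : ℝ)⁻¹ ^ n * (p : ℝ) ^ (-2 : ℤ)) := by
    rw [pow_two]
    refine mul_le_mul ih (ih.trans ?_) (norm_nonneg _) (by positivity)
    exact mul_le_mul_of_nonneg_left hx (by positivity)
  refine h2.trans (le_of_eq ?_)
  rw [zpow_neg, zpow_ofNat]
  have h3 : (p : ℝ) ^ 2 ≠ 0 := by positivity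
  have h4 : ((p : ℝ) ^ 2)⁻¹ = (p : ℝ)⁻¹ * (p : ℝ)⁻¹ := by
    rw [pow_two, mul_inv]
  rw [h4]
  ring

theorem exists_limit {x : ℚ_[p]} (hx : ‖x - 1‖ ≤ (p : ℝ) ^ (-2 : ℤ)) :
    ∃ l : ℚ_[p], Tendsto (approx p x) atTop (𝓝 l) ∧ ‖l‖ = ‖x - 1‖ := by
  have hp1 : (1 : ℝ) < p := by exact_mod_cast hp.out.one_lt
  have hi1 : (p : ℝ)⁻¹ < 1 := inv_lt_one_of_one_lt₀ hp1
  have hi0 : (0 : ℝ) ≤ (p : ℝ)⁻¹ := by positivity
  have hc : CauchySeq (approx p x) := by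
    apply cauchySeq_of_le_geometric (p : ℝ)⁻¹ ((p : ℝ)⁻¹ * ‖x - 1‖) hi1
    intro n
    rw [dist_comm, dist_eq_norm]
    refine (norm_approx_succ_sub hx n).trans (le_of_eq ?_)
    rw [pow_succ]; ring
  obtain ⟨l, hl⟩ := cauchySeq_tendsto_of_complete hc
  refine ⟨l, hl, ?_⟩
  have h0 : approx p x 0 = x - 1 := by simp [approx]
  have hle : ∀ n, ‖approx p x n - (x - 1)‖ ≤ (p : ℝ)⁻¹ * ‖x - 1‖ := by
    intro n
    induction n with
    | zero => rw [h0, sub_self, norm_zero]; positivity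
    | succ n ih =>
      have e : approx p x (n + 1) - (x - 1) =
          (approx p x (n + 1) - approx p x n) + (approx p x n - (x - 1)) := by ring
      rw [e]
      refine (IsUltrametricDist.norm_add_le_max _ _).trans (max_le ?_ ih)
      refine (norm_approx_succ_sub hx n).trans ?_
      refine mul_le_mul_of_nonneg_right ?_ (norm_nonneg _)
      rw [pow_succ]
      exact mul_le_of_le_one_left hi0 (pow_le_one₀ hi0 hi1.le)
  have hlim : ‖l - (x - 1)‖ ≤ (p : ℝ)⁻¹ * ‖x - 1‖ :=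
    le_of_tendsto (hl.sub_const _).norm (Eventually.of_forall hle)
  by_cases hx0 : x - 1 = 0
  · rw [hx0, norm_zero, mul_zero, sub_zero] at hlim
    rw [hx0, norm_zero]
    exact le_antisymm hlim (norm_nonneg _)
  · have hpos : 0 < ‖x - 1‖ := norm_pos_iff.2 hx0
    have hlt : ‖l - (x - 1)‖ < ‖x - 1‖ := lt_of_le_of_lt hlim (by nlinarith)
    have e : l = (l - (x - 1)) + (x - 1) := by ring
    rw [e, IsUltrametricDist.norm_add_eq_max_of_norm_ne_norm hlt.ne, max_eq_right hlt.le]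

theorem limit_mul {x y l m k : ℚ_[p]} (hx : ‖x - 1‖ ≤ (p : ℝ) ^ (-2 : ℤ))
    (hl : Tendsto (approx p x) atTop (𝓝 l))
    (hm : Tendsto (approx p y) atTop (𝓝 m)) (hk : Tendsto (approx p (x * y)) atTop (𝓝 k)) :
    k = l + m := by
  have hp1 : (1 : ℝ) < p := by exact_mod_cast hp.out.one_lt
  have hpQ : (p : ℚ_[p]) ≠ 0 := by exact_mod_cast hp.out.ne_zero
  have hi1 : (p : ℝ)⁻¹ < 1 := inv_lt_one_of_one_lt₀ hp1
  have hi0 : (0 : ℝ) ≤ (p : ℝ)⁻¹ := by positivity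
  have hw : Tendsto (fun n => x ^ (p ^ n) - 1) atTop (𝓝 0) := by
    rw [tendsto_zero_iff_norm_tendsto_zero]
    refine squeeze_zero (fun n => norm_nonneg _) (norm_approx_aux hx) ?_
    have := (tendsto_pow_atTop_nhds_zero_of_lt_one hi0 hi1).mul_const ‖x - 1‖
    rwa [zero_mul] at this
  have e : approx p (x * y) = fun n => approx p x n + approx p y n +
      (x ^ (p ^ n) - 1) * approx p y n := by
    funext n
    rw [approx, approx, approx, mul_pow]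
    field_simp
    ring
  rw [e] at hk
  have h2 := (hl.add hm).add (hw.mul hm)
  rw [zero_mul, add_zero] at h2
  exact tendsto_nhds_unique hk h2

/-- **A logarithm** on `ℤ_[p]ˣ`. -/
theorem exists_log (p : ℕ) [hp : Fact p.Prime] : ∃ (L : ℤ_[p]ˣ → ℤ_[p]) (N : ℕ), 0 < N ∧
    (∀ u v, L (u * v) = L u + L v) ∧ Continuous L ∧ ∀ u, L u = 0 → u ^ N = 1 := by
  classical
  have hp1 : (1 : ℝ) < p := by exact_mod_cast hp.out.one_lt
  -- the logarithm on the principal units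
  let S : ℤ_[p]ˣ → Prop := fun u => ‖(((u : ℤ_[p]) : ℚ_[p]) - 1)‖ ≤ (p : ℝ) ^ (-2 : ℤ)
  have hex : ∀ u : ℤ_[p]ˣ, ∃ l : ℤ_[p], S u →
      (Tendsto (approx p ((u : ℤ_[p]) : ℚ_[p])) atTop (𝓝 (l : ℚ_[p])) ∧
        ‖(l : ℚ_[p])‖ = ‖(((u : ℤ_[p]) : ℚ_[p]) - 1)‖) := by
    intro u
    by_cases hu : S u
    · obtain ⟨l, hl, hl'⟩ := exists_limit hu
      have : ‖l‖ ≤ 1 := by
        rw [hl']
        exact hu.trans (zpow_le_one_of_nonpos₀ hp1.le (by norm_num))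
      exact ⟨⟨l, this⟩, fun _ => ⟨hl, hl'⟩⟩
    · exact ⟨0, fun h => absurd h hu⟩
  choose L hL using hex
  set N := Nat.totient (p ^ 2) with hN
  have hNpos : 0 < N := Nat.totient_pos.2 (pow_pos hp.out.pos 2)
  have hS : ∀ u : ℤ_[p]ˣ, S (u ^ N) := by
    intro u
    have h1 : (Units.map (PadicInt.toZModPow (p := p) 2).toMonoidHom u) ^ N = 1 :=
      ZMod.pow_totient _
    have h2 : PadicInt.toZModPow (p := p) 2 (((u ^ N : ℤ_[p]ˣ) : ℤ_[p]) - 1) = 0 := by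
      have h3 := congrArg Units.val h1
      rw [Units.val_pow_eq_pow_val, Units.coe_map, Units.val_one] at h3
      rw [map_sub, map_one, Units.val_pow_eq_pow_val, map_pow]
      exact sub_eq_zero.2 h3
    rw [← RingHom.mem_ker, PadicInt.ker_toZModPow, ← PadicInt.norm_le_pow_iff_mem_span_pow] at h2
    have h4 : ‖(((u ^ N : ℤ_[p]ˣ) : ℤ_[p]) : ℚ_[p]) - 1‖ =
        ‖(((u ^ N : ℤ_[p]ˣ) : ℤ_[p]) - 1)‖ := by
      rw [PadicInt.norm_def, PadicInt.coe_sub, PadicInt.coe_one]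
    change ‖(((u ^ N : ℤ_[p]ˣ) : ℤ_[p]) : ℚ_[p]) - 1‖ ≤ _
    rw [h4]
    exact_mod_cast h2
  have hmul : ∀ u v : ℤ_[p]ˣ, L ((u * v) ^ N) = L (u ^ N) + L (v ^ N) := by
    intro u v
    have h1 := (hL _ (hS u)).1
    have h2 := (hL _ (hS v)).1
    have h3 := (hL _ (hS (u * v))).1
    have e : ((((u * v) ^ N : ℤ_[p]ˣ) : ℤ_[p]) : ℚ_[p]) =
        (((u ^ N : ℤ_[p]ˣ) : ℤ_[p]) : ℚ_[p]) * (((v ^ N : ℤ_[p]ˣ) : ℤ_[p]) : ℚ_[p]) := by
      push_cast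
      ring
    rw [e] at h3
    have h4 := limit_mul (hS u) h1 h2 h3
    apply Subtype.ext
    rw [h4]
    rfl
  have hnorm : ∀ u : ℤ_[p]ˣ, ‖L (u ^ N)‖ = ‖(((u ^ N : ℤ_[p]ˣ) : ℤ_[p]) - 1)‖ := by
    intro u
    have h1 := (hL _ (hS u)).2
    rw [PadicInt.norm_def, h1, PadicInt.norm_def, PadicInt.coe_sub, PadicInt.coe_one]
  refine ⟨fun u => L (u ^ N), N, hNpos, hmul, ?_, ?_⟩
  · rw [continuous_iff_continuousAt]
    intro v
    rw [ContinuousAt, tendsto_iff_norm_sub_tendsto_zero]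
    have e : ∀ u : ℤ_[p]ˣ, ‖L (u ^ N) - L (v ^ N)‖ =
        ‖((((u * v⁻¹) ^ N : ℤ_[p]ˣ) : ℤ_[p]) - 1)‖ := by
      intro u
      rw [← hnorm]
      congr 1
      have h1 := hmul (u * v⁻¹) v
      rw [inv_mul_cancel_right] at h1
      rw [h1]; ring
    have hcont : Continuous fun u : ℤ_[p]ˣ => ‖((((u * v⁻¹) ^ N : ℤ_[p]ˣ) : ℤ_[p]) - 1)‖ :=
      ((Units.continuous_val.comp ((continuous_id.mul continuous_const).pow N)).sub
        continuous_const).norm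
    have h1 := hcont.tendsto v
    rw [mul_inv_cancel, one_pow, Units.val_one, sub_self, norm_zero] at h1
    exact (tendsto_congr e).2 h1
  · intro u hu
    have h1 := hnorm u
    dsimp only at hu
    rw [hu, norm_zero] at h1
    have h2 := norm_eq_zero.1 h1.symm
    exact Units.ext (sub_eq_zero.1 h2)

end

end Pool.Agent.GSem
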