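import Mathlib

/-!
# Ax's lemma

Let `L` be an algebraically closed non-archimedean normed field over a field `K`, such that every
`K`-automorphism of `L` is an isometry.  If all conjugates of `α` over `K` are at distance at most
`r` from `α`, then `α` is at distance at most `p ^ p * r` from an element of `K`.
-/

namespace Pool.Agent.GSem

open Polynomial

section coeffs

variable {L : Type*} [NormedField L] [IsUltrametricDist L]

theorem norm_coeff_prod_le (s : Multiset L) (r : ℝ) (hr : 0 ≤ r) (hs : ∀ t ∈ s, ‖t‖ ≤ r) (j : ℕ) :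
    ‖((s.map fun t => X - C t).prod).coeff j‖ * r ^ j ≤ r ^ (Multiset.card s) := by
  induction s using Multiset.induction_on generalizing j with
  | empty =>
    simp only [Multiset.map_zero, Multiset.prod_zero, Multiset.card_zero, pow_zero]
    rcases j with _ | j
    · simp
    · simp [Polynomial.coeff_one]
  | cons a s ih =>
    have ha : ‖a‖ ≤ r := hs a (Multiset.mem_cons_self a s)
    have hs' : ∀ t ∈ s, ‖t‖ ≤ r := fun t ht => hs t (Multiset.mem_cons_of_mem ht)
    have ih' := ih hs'
    rw [Multiset.map_cons, Multiset.prod_cons, Multiset.card_cons, sub_mul, coeff_sub,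
      coeff_C_mul]
    rcases j with _ | j
    · rw [show (X * (Multiset.map (fun t => X - C t) s).prod).coeff 0 = 0 by simp, zero_sub,
        norm_neg, norm_mul, pow_zero, mul_one]
      have := ih' 0
      rw [pow_zero, mul_one] at this
      rw [pow_succ, mul_comm (r ^ _)]
      exact mul_le_mul ha this (norm_nonneg _) hr
    · rw [coeff_X_mul]
      have h1 := ih' j
      have h2 := ih' (j + 1)
      have h3 : ‖((s.map fun t => X - C t).prod).coeff j -
          a * ((s.map fun t => X - C t).prod).coeff (j + 1)‖ ≤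
          max ‖((s.map fun t => X - C t).prod).coeff j‖
            ‖a * ((s.map fun t => X - C t).prod).coeff (j + 1)‖ := by
        rw [sub_eq_add_neg, ← norm_neg (a * _)]
        exact IsUltrametricDist.norm_add_le_max _ _
      rcases le_max_iff.1 h3 with h4 | h4
      · calc _ ≤ ‖((s.map fun t => X - C t).prod).coeff j‖ * r ^ (j + 1) := by gcongr
          _ = (‖((s.map fun t => X - C t).prod).coeff j‖ * r ^ j) * r := by ring
          _ ≤ r ^ (Multiset.card s) * r := by gcongr
          _ = _ := by ring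
      · calc _ ≤ ‖a * ((s.map fun t => X - C t).prod).coeff (j + 1)‖ * r ^ (j + 1) := by gcongr
          _ = ‖a‖ * (‖((s.map fun t => X - C t).prod).coeff (j + 1)‖ * r ^ (j + 1)) := by
            rw [norm_mul]; ring
          _ ≤ r * r ^ (Multiset.card s) := by gcongr
          _ = _ := by ring

end coeffs

section binom

variable {p : ℕ} [hp : Fact p.Prime]

theorem choose_mul_prime_pow (m d : ℕ) :
    ((p ^ m * d).choose (p ^ m) : ℤ) ≡ d [ZMOD p] := by
  induction m with
  | zero => simp
  | succ m ih =>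
    have h := Choose.choose_modEq_choose_mod_mul_choose_div (n := p ^ (m + 1) * d)
      (k := p ^ (m + 1)) (p := p)
    have h1 : p ^ (m + 1) * d % p = 0 :=
      Nat.mod_eq_zero_of_dvd (Dvd.dvd.mul_right (dvd_pow_self p (Nat.succ_ne_zero m)) d)
    have h2 : p ^ (m + 1) % p = 0 := Nat.mod_eq_zero_of_dvd (dvd_pow_self p (Nat.succ_ne_zero m))
    have h3 : p ^ (m + 1) * d / p = p ^ m * d := by
      rw [pow_succ, mul_assoc, mul_comm p d, ← mul_assoc, Nat.mul_div_cancel _ hp.out.pos]
    have h4 : p ^ (m + 1) / p = p ^ m := by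
      rw [pow_succ, Nat.mul_div_cancel _ hp.out.pos]
    rw [h1, h2, h3, h4] at h
    simp only [Nat.choose_self, Nat.cast_one, one_mul] at h
    exact h.trans ih

theorem norm_choose_eq_one {m d : ℕ} (hd : ¬ p ∣ d) :
    ‖(((p ^ m * d).choose (p ^ m) : ℕ) : ℚ_[p])‖ = 1 := by
  rw [Padic.norm_natCast_eq_one_iff]
  rw [Nat.Prime.coprime_iff_not_dvd hp.out]
  intro h
  apply hd
  have h1 := choose_mul_prime_pow (p := p) m d
  have h2 : ((p : ℕ) : ℤ) ∣ ((p ^ m * d).choose (p ^ m) : ℤ) := by exact_mod_cast h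
  have h3 : ((p : ℕ) : ℤ) ∣ (d : ℤ) := by
    rw [Int.ModEq] at h1
    exact Int.dvd_of_emod_eq_zero (h1 ▸ Int.emod_eq_zero_of_dvd h2)
  exact_mod_cast h3

theorem norm_choose_prime_pow (m : ℕ) :
    ‖(((p ^ (m + 1)).choose (p ^ m) : ℕ) : ℚ_[p])‖ = (p : ℝ)⁻¹ := by
  have hle : p ^ m ≤ p ^ (m + 1) := Nat.pow_le_pow_right hp.out.pos (Nat.le_succ m)
  have h := Nat.Prime.emultiplicity_choose_prime_pow hp.out hle (pow_pos hp.out.pos m).ne'
  have h2 : multiplicity p (p ^ m) = m := by
    apply multiplicity_pow_self_of_prime hp.out.prime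
  rw [h2, Nat.add_sub_cancel_left] at h
  have h3 : p ∣ (p ^ (m + 1)).choose (p ^ m) := by
    have := pow_dvd_of_le_emultiplicity (a := p) (b := (p ^ (m + 1)).choose (p ^ m)) (k := 1)
      (le_of_eq h.symm)
    simpa using this
  obtain ⟨k, hk⟩ := h3
  have h4 : ¬ p ∣ k := by
    rintro ⟨l, rfl⟩
    have : p ^ 2 ∣ (p ^ (m + 1)).choose (p ^ m) := ⟨l, by rw [hk]; ring⟩
    have h5 := le_emultiplicity_of_pow_dvd this
    rw [h] at h5
    norm_cast at h5
  rw [hk, Nat.cast_mul, norm_mul, Padic.norm_p]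
  have h5 : ‖(k : ℚ_[p])‖ = 1 := by
    rw [Padic.norm_natCast_eq_one_iff, Nat.Prime.coprime_iff_not_dvd hp.out]
    exact h4
  rw [h5, mul_one]

end binom

section ax

variable {p : ℕ} [hp : Fact p.Prime]
variable {L : Type*} [NormedField L] [IsUltrametricDist L] [IsAlgClosed L] [CharZero L]
variable {K : Type*} [Field K] [Algebra K L] [CharZero K] [Normal K L]

/-- Key step: a root of a divided derivative is close to `α`. -/
theorem ax_step (hnat : ∀ n : ℕ, ‖(n : L)‖ = ‖(n : ℚ_[p])‖)
    (α : L) (r : ℝ) (hr : 0 < r) (hα : ∀ σ : Gal(L/K), ‖σ α - α‖ ≤ r)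
    (q : ℕ) (hq0 : 0 < q) (hq : q < (minpoly K α).natDegree)
    (c : ℝ) (hc : 0 ≤ c)
    (hbin : 1 ≤ c ^ ((minpoly K α).natDegree - q) *
      ‖(((minpoly K α).natDegree.choose q : ℕ) : ℚ_[p])‖) :
    ∃ β : L, (minpoly K β).natDegree ≤ (minpoly K α).natDegree - q ∧ ‖α - β‖ ≤ c * r := by
  set n := (minpoly K α).natDegree with hn
  have hint : IsIntegral K α := Algebra.IsIntegral.isIntegral α
  set P := minpoly K α with hP
  set PL := P.map (algebraMap K L) with hPL
  have hmon : PL.Monic := (minpoly.monic hint).map _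
  have hdegPL : PL.natDegree = n := by
    rw [hPL, natDegree_map]
  have hsplit : PL.Splits := IsAlgClosed.splits PL
  have hprod : PL = (PL.roots.map fun x => X - C x).prod := by
    have := hsplit.eq_prod_roots
    rw [hmon.leadingCoeff, C_1, one_mul] at this
    exact this
  have hcard : Multiset.card PL.roots = n := by
    rw [← hsplit.natDegree_eq_card_roots, hdegPL]
  -- the roots are conjugates
  have hroot : ∀ x ∈ PL.roots, ‖x - α‖ ≤ r := by
    intro x hx
    have hx' : IsConjRoot K α x := by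
      rw [isConjRoot_iff_mem_minpoly_aroots hint]
      exact hx
    obtain ⟨σ, hσ⟩ := (isConjRoot_iff_exists_algEquiv (K := K) (L := L)).1 hx'
    -- σ x = α
    have h1 : x = σ.symm α := by rw [← hσ]; simp
    rw [h1]
    exact hα σ.symm
  -- the taylor expansion
  have htaylor : taylor α PL = ((PL.roots.map fun x => x - α).map fun t => X - C t).prod := by
    conv_lhs => rw [hprod]
    change taylorAlgHom α _ = _
    rw [map_multiset_prod, Multiset.map_map, Multiset.map_map]
    congr 1
    apply Multiset.map_congr rfl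
    intro x _
    simp only [Function.comp_apply]
    change taylor α (X - C x) = _
    simp only [map_sub, taylor_X, taylor_C]
    ring
  have hcq : ‖eval α (hasseDeriv q PL)‖ * r ^ q ≤ r ^ n := by
    rw [← taylor_coeff, htaylor]
    have := norm_coeff_prod_le (PL.roots.map fun x => x - α) r hr.le (by
      intro t ht
      obtain ⟨x, hx, rfl⟩ := Multiset.mem_map.1 ht
      exact hroot x hx) q
    rwa [Multiset.card_map, hcard] at this
  have hcq' : ‖eval α (hasseDeriv q PL)‖ ≤ r ^ (n - q) := by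
    have h1 : r ^ n = r ^ (n - q) * r ^ q := by
      rw [← pow_add]; congr 1; omega
    rw [h1] at hcq
    exact le_of_mul_le_mul_right hcq (pow_pos hr q)
  -- the divided derivative over K
  set D := hasseDeriv q P with hD
  have hDmap : D.map (algebraMap K L) = hasseDeriv q PL := by
    ext j
    simp [hD, hPL, coeff_map, hasseDeriv_coeff]
  have hchoose : ((n.choose q : ℕ) : K) ≠ 0 := by
    exact_mod_cast (Nat.choose_pos hq.le).ne'
  have hDcoeff : D.coeff (n - q) = ((n.choose q : ℕ) : K) := by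
    rw [hD, hasseDeriv_coeff, Nat.sub_add_cancel hq.le]
    have : P.coeff n = 1 := by
      rw [hn]; exact (minpoly.monic hint).coeff_natDegree
    rw [this, mul_one]
  have hDdeg : D.natDegree = n - q := by
    apply le_antisymm
    · exact (natDegree_hasseDeriv_le P q)
    · apply le_natDegree_of_ne_zero
      rw [hDcoeff]
      exact hchoose
  have hD0 : D ≠ 0 := by
    intro h
    rw [h, coeff_zero] at hDcoeff
    exact hchoose hDcoeff.symm
  set DL := D.map (algebraMap K L) with hDL
  have hDLdeg : DL.natDegree = n - q := by rw [hDL, natDegree_map, hDdeg]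
  have hDLlead : DL.leadingCoeff = ((n.choose q : ℕ) : L) := by
    rw [leadingCoeff, hDLdeg, hDL, coeff_map, hDcoeff, map_natCast]
  have hDLs : DL.Splits := IsAlgClosed.splits DL
  have hDLcard : Multiset.card DL.roots = n - q := by
    rw [← hDLs.natDegree_eq_card_roots, hDLdeg]
  have heval : ‖eval α DL‖ = ‖((n.choose q : ℕ) : ℚ_[p])‖ *
      (DL.roots.map fun x => ‖α - x‖).prod := by
    rw [hDLs.eval_eq_prod_roots, norm_mul, hDLlead, hnat]
    congr 1
    have h1 := map_multiset_prod (normHom : L →*₀ ℝ) (DL.roots.map fun x => α - x)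
    rw [Multiset.map_map] at h1
    exact h1
  have hbound : ‖((n.choose q : ℕ) : ℚ_[p])‖ * (DL.roots.map fun x => ‖α - x‖).prod ≤
      r ^ (n - q) := by
    rw [← heval, hDmap]
    exact hcq'
  -- find a close root
  have hex : ∃ β ∈ DL.roots, ‖α - β‖ ≤ c * r := by
    by_contra hcon
    push Not at hcon
    have hcr : 0 ≤ c * r := mul_nonneg hc hr.le
    have hlt : ∀ s : Multiset L, s ≤ DL.roots → s ≠ 0 →
        (c * r) ^ (Multiset.card s) < (s.map fun x => ‖α - x‖).prod := by
      intro s
      induction s using Multiset.induction_on with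
      | empty => intro _ h; exact absurd rfl h
      | cons a s ih =>
        intro hs _
        rw [Multiset.map_cons, Multiset.prod_cons, Multiset.card_cons, pow_succ, mul_comm]
        have ha : c * r < ‖α - a‖ := hcon a (Multiset.mem_of_le hs (Multiset.mem_cons_self a s))
        by_cases hs0 : s = 0
        · subst hs0; simpa using ha
        · have := ih ((Multiset.le_cons_self s a).trans hs) hs0
          exact mul_lt_mul'' ha this hcr (pow_nonneg hcr _)
    have hne : DL.roots ≠ 0 := by
      intro h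
      rw [h, Multiset.card_zero] at hDLcard
      omega
    have h1 := hlt DL.roots le_rfl hne
    rw [hDLcard] at h1
    have hpos : 0 < ‖((n.choose q : ℕ) : ℚ_[p])‖ := by
      rw [norm_pos_iff]
      exact_mod_cast (Nat.choose_pos hq.le).ne'
    have h2 : ‖((n.choose q : ℕ) : ℚ_[p])‖ * (c * r) ^ (n - q) <
        ‖((n.choose q : ℕ) : ℚ_[p])‖ * (DL.roots.map fun x => ‖α - x‖).prod :=
      mul_lt_mul_of_pos_left h1 hpos
    have h3 : r ^ (n - q) ≤ ‖((n.choose q : ℕ) : ℚ_[p])‖ * (c * r) ^ (n - q) := by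
      rw [mul_pow]
      have h4 : 0 < r ^ (n - q) := pow_pos hr _
      nlinarith [hbin, h4]
    linarith
  obtain ⟨β, hβ, hβ'⟩ := hex
  refine ⟨β, ?_, hβ'⟩
  rw [← hDdeg]
  have hroot' : aeval β D = 0 := by
    have := (mem_roots'.1 hβ).2
    rwa [hDL, IsRoot.def, eval_map_algebraMap] at this
  exact natDegree_le_of_dvd (minpoly.dvd K β hroot') hD0

/-- **Ax's lemma**. -/
theorem ax (hnat : ∀ n : ℕ, ‖(n : L)‖ = ‖(n : ℚ_[p])‖)
    (hiso : ∀ (σ : Gal(L/K)) (x : L), ‖σ x‖ = ‖x‖) :
    ∀ (n : ℕ) (α : L), (minpoly K α).natDegree = n → ∀ r : ℝ, 0 < r →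
    (∀ σ : Gal(L/K), ‖σ α - α‖ ≤ r) →
    ∃ b : K, ‖α - algebraMap K L b‖ ≤ (p : ℝ) ^ ((p : ℝ) - (p : ℝ) / n) * r := by
  intro n
  induction n using Nat.strong_induction_on with
  | _ n ih =>
    intro α hn r hr hα
    have hp1 : (1 : ℝ) < p := by exact_mod_cast hp.out.one_lt
    have hp0 : (0 : ℝ) < p := by linarith
    have hint : IsIntegral K α := Algebra.IsIntegral.isIntegral α
    have hnpos : 0 < n := by rw [← hn]; exact minpoly.natDegree_pos hint
    rcases Nat.lt_or_ge 1 n with h1n | h1n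
    swap
    · -- degree one
      have hn1 : n = 1 := by omega
      subst hn1
      have hmem : α ∈ (algebraMap K L).range := minpoly.natDegree_eq_one_iff.1 hn
      obtain ⟨b, hb⟩ := hmem
      refine ⟨b, ?_⟩
      rw [hb, sub_self, norm_zero]
      positivity
    -- write n = p ^ m * d with p not dividing d
    obtain ⟨m, d, hd, hmd⟩ := Nat.exists_eq_pow_mul_and_not_dvd hnpos.ne' p hp.out.ne_one
    -- a general closing step
    have key : ∀ (q : ℕ) (c : ℝ), 0 < q → q < n → 1 ≤ c →
        1 ≤ c ^ (n - q) * ‖((n.choose q : ℕ) : ℚ_[p])‖ →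
        (∀ n' : ℕ, 0 < n' → n' ≤ n - q →
          c * (p : ℝ) ^ ((p : ℝ) - (p : ℝ) / n') ≤ (p : ℝ) ^ ((p : ℝ) - (p : ℝ) / n)) →
        ∃ b : K, ‖α - algebraMap K L b‖ ≤ (p : ℝ) ^ ((p : ℝ) - (p : ℝ) / n) * r := by
      intro q c hq0 hqn hc hbin hcn
      obtain ⟨β, hβdeg, hβ⟩ := ax_step (p := p) (K := K) hnat α r hr hα q hq0 (by rw [hn]; exact hqn)
        c (by linarith) (by rw [hn]; exact hbin)
      rw [hn] at hβdeg
      set n' := (minpoly K β).natDegree with hn'
      have hn'pos : 0 < n' := minpoly.natDegree_pos (Algebra.IsIntegral.isIntegral β)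
      have hcr : 0 < c * r := by positivity
      have hσβ : ∀ σ : Gal(L/K), ‖σ β - β‖ ≤ c * r := by
        intro σ
        have e : σ β - β = (σ (β - α)) + ((σ α - α) + (α - β)) := by
          rw [map_sub]; ring
        rw [e]
        refine (IsUltrametricDist.norm_add_le_max _ _).trans (max_le ?_ ?_)
        · rw [hiso, ← norm_neg, neg_sub]; exact hβ
        · refine (IsUltrametricDist.norm_add_le_max _ _).trans (max_le ?_ hβ)
          refine (hα σ).trans ?_
          nlinarith
      obtain ⟨b, hb⟩ := ih n' (by omega) β rfl (c * r) hcr hσβ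
      refine ⟨b, ?_⟩
      have e : α - algebraMap K L b = (α - β) + (β - algebraMap K L b) := by ring
      rw [e]
      have hcn' := hcn n' hn'pos hβdeg
      have hge1 : (1 : ℝ) ≤ (p : ℝ) ^ ((p : ℝ) - (p : ℝ) / n') := by
        apply Real.one_le_rpow hp1.le
        have : (1 : ℝ) ≤ n' := by exact_mod_cast hn'pos
        have : (p : ℝ) / n' ≤ p := div_le_self hp0.le this
        linarith
      refine (IsUltrametricDist.norm_add_le_max _ _).trans (max_le ?_ ?_)
      · refine hβ.trans ?_
        have : c ≤ c * (p : ℝ) ^ ((p : ℝ) - (p : ℝ) / n') := le_mul_of_one_le_right (by linarith) hge1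
        have : c ≤ (p : ℝ) ^ ((p : ℝ) - (p : ℝ) / n) := this.trans hcn'
        gcongr
      · refine hb.trans ?_
        calc (p : ℝ) ^ ((p : ℝ) - (p : ℝ) / n') * (c * r)
            = (c * (p : ℝ) ^ ((p : ℝ) - (p : ℝ) / n')) * r := by ring
          _ ≤ (p : ℝ) ^ ((p : ℝ) - (p : ℝ) / n) * r := by gcongr
    have hmono : ∀ n' : ℕ, 0 < n' → n' ≤ n →
        (p : ℝ) ^ ((p : ℝ) - (p : ℝ) / n') ≤ (p : ℝ) ^ ((p : ℝ) - (p : ℝ) / n) := by
      intro n' h0 hle
      apply Real.rpow_le_rpow_of_exponent_le hp1.le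
      have h1 : (n' : ℝ) ≤ n := by exact_mod_cast hle
      have h2 : (0 : ℝ) < n' := by exact_mod_cast h0
      have : (p : ℝ) / n ≤ (p : ℝ) / n' := by gcongr
      linarith
    rcases Nat.lt_or_ge 1 d with h1d | h1d
    · -- n is not a power of p
      have hqn : p ^ m < n := by
        rw [hmd]
        have : 0 < p ^ m := pow_pos hp.out.pos m
        nlinarith
      apply key (p ^ m) 1 (pow_pos hp.out.pos m) hqn le_rfl
      · rw [one_pow, one_mul, hmd, norm_choose_eq_one hd]
      · intro n' h0 hle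
        rw [one_mul]
        exact hmono n' h0 (hle.trans (Nat.sub_le _ _))
    · -- n is a power of p
      have hd1 : d = 1 := by
        rcases Nat.eq_zero_or_pos d with h | h
        · subst h; simp at hd
        · omega
      subst hd1
      rw [mul_one] at hmd
      obtain ⟨k, rfl⟩ : ∃ k, m = k + 1 := by
        rcases m with _ | k
        · simp at hmd; omega
        · exact ⟨k, rfl⟩
      have hqn : p ^ k < n := by
        rw [hmd]; exact Nat.pow_lt_pow_right hp.out.one_lt (Nat.lt_succ_self k)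
      have hnq : 0 < n - p ^ k := by omega
      have hnq' : (0 : ℝ) < ((n - p ^ k : ℕ) : ℝ) := by exact_mod_cast hnq
      set c : ℝ := (p : ℝ) ^ ((1 : ℝ) / ((n - p ^ k : ℕ) : ℝ)) with hc
      have hc1 : 1 ≤ c := Real.one_le_rpow hp1.le (by positivity)
      have hcpow : c ^ (n - p ^ k) = p := by
        rw [hc, ← Real.rpow_natCast, ← Real.rpow_mul hp0.le, one_div, inv_mul_cancel₀ hnq'.ne',
          Real.rpow_one]
      apply key (p ^ k) c (pow_pos hp.out.pos k) hqn hc1
      · rw [hcpow, hmd, norm_choose_prime_pow, mul_inv_cancel₀ hp0.ne']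
      · intro n' h0 hle
        rw [hc, ← Real.rpow_add hp0]
        apply Real.rpow_le_rpow_of_exponent_le hp1.le
        have h2 : (0 : ℝ) < n' := by exact_mod_cast h0
        have hle' : (n' : ℝ) ≤ ((n - p ^ k : ℕ) : ℝ) := by exact_mod_cast hle
        have hnR : (n : ℝ) = (p : ℝ) ^ (k + 1) := by rw [hmd]; push_cast; ring
        have hsub : ((n - p ^ k : ℕ) : ℝ) = (n : ℝ) - (p : ℝ) ^ k := by
          rw [Nat.cast_sub hqn.le]; push_cast; ring
        have hn0 : (0 : ℝ) < n := by exact_mod_cast hnpos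
        have h3 : (p : ℝ) / ((n - p ^ k : ℕ) : ℝ) ≤ (p : ℝ) / n' := by gcongr
        have h4 : (1 : ℝ) / ((n - p ^ k : ℕ) : ℝ) = (p : ℝ) / ((n - p ^ k : ℕ) : ℝ) - (p : ℝ) / n := by
          rw [hsub, hnR]
          have h5 : (p : ℝ) ^ (k + 1) - (p : ℝ) ^ k ≠ 0 := by
            rw [← hnR, ← hsub]; exact hnq'.ne'
          have h6 : (p : ℝ) ^ (k + 1) ≠ 0 := by positivity
          field_simp
          ring
        linarith

/-- **Ax's lemma**, with a uniform constant. -/
theorem ax_uniform (hnat : ∀ n : ℕ, ‖(n : L)‖ = ‖(n : ℚ_[p])‖)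
    (hiso : ∀ (σ : Gal(L/K)) (x : L), ‖σ x‖ = ‖x‖) (α : L) (r : ℝ) (hr : 0 < r)
    (hα : ∀ σ : Gal(L/K), ‖σ α - α‖ ≤ r) :
    ∃ b : K, ‖α - algebraMap K L b‖ ≤ (p : ℝ) ^ (p : ℝ) * r := by
  obtain ⟨b, hb⟩ := ax (p := p) hnat hiso _ α rfl r hr hα
  refine ⟨b, hb.trans ?_⟩
  have hp1 : (1 : ℝ) < p := by exact_mod_cast hp.out.one_lt
  gcongr
  · exact hp1.le
  · have : (0 : ℝ) ≤ (p : ℝ) / ((minpoly K α).natDegree : ℝ) := by positivity
    linarith

end ax

end Pool.Agent.GSem
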