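import Mathlib
import Pool.Agent.Lib.Helper90.GSem.Defs

/-!
# The action of the absolute Galois group of `ℚ_[p]` on `ℂ_[p]`
-/

namespace Pool.Agent.GSem

variable {p : ℕ} [hp : Fact p.Prime]

theorem continuous_galC (σ : Gal(PadicAlgCl p/ℚ_[p])) : Continuous (galC σ) :=
  UniformSpace.Completion.continuous_map

@[simp]
theorem norm_galC (σ : Gal(PadicAlgCl p/ℚ_[p])) (x : ℂ_[p]) : ‖galC σ x‖ = ‖x‖ := by
  induction x using UniformSpace.Completion.induction_on with
  | hp => exact isClosed_eq (continuous_norm.comp (continuous_galC σ)) continuous_norm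
  | ih a =>
    rw [galC_coe, PadicComplex.norm_extends, PadicComplex.norm_extends, norm_gal]

theorem galC_mul (σ τ : Gal(PadicAlgCl p/ℚ_[p])) (x : ℂ_[p]) :
    galC (σ * τ) x = galC σ (galC τ x) := by
  induction x using UniformSpace.Completion.induction_on with
  | hp => exact isClosed_eq (continuous_galC _) ((continuous_galC σ).comp (continuous_galC τ))
  | ih a => simp

@[simp]
theorem galC_one (x : ℂ_[p]) : galC (1 : Gal(PadicAlgCl p/ℚ_[p])) x = x := by
  induction x using UniformSpace.Completion.induction_on with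
  | hp => exact isClosed_eq (continuous_galC _) continuous_id
  | ih a => simp

@[simp]
theorem galCLin_apply (σ : Gal(PadicAlgCl p/ℚ_[p])) (x : ℂ_[p]) : galCLin σ x = galC σ x := rfl

theorem galC_pow_apply (σ : Gal(PadicAlgCl p/ℚ_[p])) (x : ℂ_[p]) (l : ℚ_[p])
    (h : galC σ x = algebraMap ℚ_[p] ℂ_[p] l * x) (k : ℕ) :
    galC (σ ^ k) x = algebraMap ℚ_[p] ℂ_[p] (l ^ k) * x := by
  induction k with
  | zero => simp
  | succ k ih =>
    rw [pow_succ, galC_mul, h, map_mul, galC_algebraMap, ih, pow_succ, map_mul]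
    ring

/-- For every `x : ℂ_[p]` and `ε > 0`, elements of the Galois group close to `1` move `x` by at most
`ε`. -/
theorem exists_open_galC (x : ℂ_[p]) {ε : ℝ} (hε : 0 < ε) :
    ∃ E : IntermediateField ℚ_[p] (PadicAlgCl p), FiniteDimensional ℚ_[p] E ∧
      ∀ σ ∈ E.fixingSubgroup, ‖galC σ x - x‖ ≤ ε := by
  obtain ⟨a, ha⟩ := (UniformSpace.Completion.denseRange_coe (α := PadicAlgCl p)).exists_dist_lt x hε
  refine ⟨IntermediateField.adjoin ℚ_[p] {a}, IntermediateField.adjoin.finiteDimensional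
    (Algebra.IsIntegral.isIntegral a), fun σ hσ => ?_⟩
  have h1 : σ a = a := hσ ⟨a, IntermediateField.mem_adjoin_simple_self ℚ_[p] a⟩
  rw [dist_eq_norm] at ha
  have e : galC σ x - x = galC σ (x - (a : ℂ_[p])) + -(x - (a : ℂ_[p])) := by
    rw [map_sub, galC_coe, h1]; ring
  rw [e]
  refine (IsUltrametricDist.norm_add_le_max _ _).trans (max_le ?_ ?_)
  · rw [norm_galC]; exact ha.le
  · rw [norm_neg]; exact ha.le

end Pool.Agent.GSem
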