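import Mathlib
import Pool.Agent.Lib.Helper90.GSem.Ax
import Pool.Agent.Lib.Helper90.GSem.CycTrace
import Pool.Agent.Lib.Helper90.GSem.GalC

/-!
# Tate's theorem for characters of cyclotomic type

If a nonzero `x : ℂ_[p]` is multiplied by a scalar `lam σ : ℚ_[p]` by every `σ` in the absolute
Galois group of `ℚ_[p]`, and `lam` is trivial on the automorphisms fixing all roots of unity of order
a power of `p`, then `lam` has finite order values.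
-/

namespace Pool.Agent.GSem

open Polynomial IntermediateField

variable {p : ℕ} [hp : Fact p.Prime]

theorem continuous_galC_apply (x : ℂ_[p]) :
    Continuous fun σ : Gal(PadicAlgCl p/ℚ_[p]) => galC σ x := by
  rw [continuous_iff_continuousAt]
  intro σ₀
  rw [ContinuousAt, Metric.tendsto_nhds]
  intro ε hε
  obtain ⟨E, hE, hEx⟩ := exists_open_galC x (half_pos hε)
  have hopen : IsOpen {σ : Gal(PadicAlgCl p/ℚ_[p]) | σ₀⁻¹ * σ ∈ E.fixingSubgroup} :=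
    (IntermediateField.fixingSubgroup_isOpen E).preimage (continuous_const_mul σ₀⁻¹)
  have hmem : σ₀ ∈ {σ : Gal(PadicAlgCl p/ℚ_[p]) | σ₀⁻¹ * σ ∈ E.fixingSubgroup} := by
    simp only [Set.mem_ofPred_eq, inv_mul_cancel]
    exact one_mem _
  filter_upwards [hopen.mem_nhds hmem] with σ hσ
  have h1 := hEx _ hσ
  have h2 : galC σ x = galC σ₀ (galC (σ₀⁻¹ * σ) x) := by
    rw [← galC_mul, mul_inv_cancel_left]
  rw [dist_eq_norm, h2, ← map_sub, norm_galC]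
  linarith

theorem isClosed_fix (ζ : PadicAlgCl p) :
    IsClosed {σ : Gal(PadicAlgCl p/ℚ_[p]) | σ ζ = ζ} := by
  have h : IsClosed {σ : Gal(PadicAlgCl p/ℚ_[p]) | galC σ (ζ : ℂ_[p]) = (ζ : ℂ_[p])} :=
    isClosed_eq (continuous_galC_apply _) continuous_const
  have e : {σ : Gal(PadicAlgCl p/ℚ_[p]) | σ ζ = ζ} =
      {σ : Gal(PadicAlgCl p/ℚ_[p]) | galC σ (ζ : ℂ_[p]) = (ζ : ℂ_[p])} := by
    ext σ
    simp only [Set.mem_ofPred_eq, galC_coe]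
    exact (UniformSpace.Completion.coe_injective _).eq_iff.symm
  rw [e]
  exact h

/-- `σ` fixes all `p ^ n`-th roots of unity. -/
def FixesLevel (n : ℕ) (σ : Gal(PadicAlgCl p/ℚ_[p])) : Prop :=
  ∀ ζ : PadicAlgCl p, ζ ^ (p ^ n) = 1 → σ ζ = ζ

theorem exists_level (x : ℂ_[p])
    (hker : ∀ σ : Gal(PadicAlgCl p/ℚ_[p]), (∀ n, FixesLevel n σ) → galC σ x = x)
    {ε : ℝ} (hε : 0 < ε) :
    ∃ n, ∀ σ : Gal(PadicAlgCl p/ℚ_[p]), FixesLevel n σ → ‖galC σ x - x‖ ≤ ε := by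
  by_contra hcon
  push Not at hcon
  let F : ℕ → Set Gal(PadicAlgCl p/ℚ_[p]) := fun n =>
    {σ | FixesLevel n σ} ∩ {σ | ε ≤ ‖galC σ x - x‖}
  have hclosed : ∀ n, IsClosed (F n) := by
    intro n
    refine IsClosed.inter ?_ (isClosed_le continuous_const
      ((continuous_galC_apply x).sub continuous_const).norm)
    have : {σ : Gal(PadicAlgCl p/ℚ_[p]) | FixesLevel n σ} =
        ⋂ ζ : PadicAlgCl p, ⋂ _ : ζ ^ (p ^ n) = 1, {σ | σ ζ = ζ} := by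
      ext σ; simp [FixesLevel]
    rw [this]
    exact isClosed_iInter fun ζ => isClosed_iInter fun _ => isClosed_fix ζ
  have hne : (⋂ n, F n).Nonempty := by
    apply IsCompact.nonempty_iInter_of_sequence_nonempty_isCompact_isClosed
    · intro n σ hσ
      refine ⟨fun ζ hζ => hσ.1 ζ ?_, hσ.2⟩
      rw [pow_succ, pow_mul, hζ, one_pow]
    · intro n
      obtain ⟨σ, hσ, hσ'⟩ := hcon n
      exact ⟨σ, hσ, hσ'.le⟩
    · exact (hclosed 0).isCompact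
    · exact hclosed
  obtain ⟨σ, hσ⟩ := hne
  rw [Set.mem_iInter] at hσ
  have h1 := hker σ fun n => (hσ n).1
  have h2 := (hσ 0).2
  simp only [Set.mem_ofPred_eq, h1, sub_self, norm_zero] at h2
  linarith

theorem norm_natCast_algCl (n : ℕ) : ‖(n : PadicAlgCl p)‖ = ‖(n : ℚ_[p])‖ := by
  rw [← map_natCast (algebraMap ℚ_[p] (PadicAlgCl p)), norm_algebraMap']

/-- Approximation of `x` by elements of cyclotomic fields. -/
theorem exists_approx (x : ℂ_[p])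
    (hker : ∀ σ : Gal(PadicAlgCl p/ℚ_[p]), (∀ n, FixesLevel n σ) → galC σ x = x)
    {ε : ℝ} (hε : 0 < ε) :
    ∃ n, ∀ ζ : PadicAlgCl p, IsPrimitiveRoot ζ (p ^ n) →
      ∃ b ∈ ℚ_[p]⟮ζ⟯, ‖x - (b : ℂ_[p])‖ ≤ (p : ℝ) ^ (p : ℝ) * ε := by
  obtain ⟨n, hn⟩ := exists_level x hker hε
  refine ⟨n, fun ζ hζ => ?_⟩
  obtain ⟨a, ha⟩ := (UniformSpace.Completion.denseRange_coe (α := PadicAlgCl p)).exists_dist_lt x hε
  rw [dist_eq_norm] at ha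
  have hp1 : (1 : ℝ) ≤ (p : ℝ) ^ (p : ℝ) :=
    Real.one_le_rpow (by exact_mod_cast hp.out.one_lt.le) (by positivity)
  have hα : ∀ σ : Gal(PadicAlgCl p/ℚ_[p]⟮ζ⟯), ‖σ a - a‖ ≤ ε := by
    intro σ
    set τ : Gal(PadicAlgCl p/ℚ_[p]) := σ.restrictScalars ℚ_[p] with hτ
    have hτζ : τ ζ = ζ := by
      have := σ.commutes (AdjoinSimple.gen ℚ_[p] ζ)
      change σ ζ = ζ
      simpa using this
    have hfix : FixesLevel n τ := by
      intro ξ hξ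
      have : NeZero (p ^ n) := ⟨(pow_pos hp.out.pos n).ne'⟩
      obtain ⟨i, _, rfl⟩ := hζ.eq_pow_of_pow_eq_one hξ
      rw [map_pow, hτζ]
    have h1 := hn τ hfix
    have h2 : ‖τ a - a‖ ≤ ε := by
      rw [← PadicComplex.norm_extends]
      have e : ((τ a - a : PadicAlgCl p) : ℂ_[p]) =
          galC τ ((a : ℂ_[p]) - x) + ((galC τ x - x) + (x - (a : ℂ_[p]))) := by
        rw [UniformSpace.Completion.coe_sub, map_sub, galC_coe]; ring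
      rw [e]
      refine (IsUltrametricDist.norm_add_le_max _ _).trans (max_le ?_ ?_)
      · rw [norm_galC, ← norm_neg, neg_sub]; exact ha.le
      · exact (IsUltrametricDist.norm_add_le_max _ _).trans (max_le h1 ha.le)
    exact h2
  obtain ⟨b, hb⟩ := ax_uniform (p := p) (L := PadicAlgCl p) (K := ℚ_[p]⟮ζ⟯)
    norm_natCast_algCl (fun σ y => norm_gal (σ.restrictScalars ℚ_[p]) y) a ε hε hα
  refine ⟨b, b.2, ?_⟩
  have e : x - ((b : PadicAlgCl p) : ℂ_[p]) =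
      (x - (a : ℂ_[p])) + ((a - (b : PadicAlgCl p) : PadicAlgCl p) : ℂ_[p]) := by
    rw [UniformSpace.Completion.coe_sub]; ring
  rw [e]
  refine (IsUltrametricDist.norm_add_le_max _ _).trans (max_le ?_ ?_)
  · refine ha.le.trans ?_
    nlinarith
  · rw [PadicComplex.norm_extends]
    exact hb

theorem trace_gal {n : ℕ} {ζ : PadicAlgCl p} (hζ : IsPrimitiveRoot ζ (p ^ n))
    (σ : Gal(PadicAlgCl p/ℚ_[p])) (y y' : ℚ_[p]⟮ζ⟯) (h : σ (y : PadicAlgCl p) = y') :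
    Algebra.trace ℚ_[p] ℚ_[p]⟮ζ⟯ y' = Algebra.trace ℚ_[p] ℚ_[p]⟮ζ⟯ y := by
  have := finiteDimensional_root hζ
  rw [trace_eq_finrank_mul_minpoly_nextCoeff, trace_eq_finrank_mul_minpoly_nextCoeff]
  have hm : minpoly ℚ_[p] y' = minpoly ℚ_[p] y := by
    rw [← minpoly.algebraMap_eq (A := ℚ_[p]) (B := ℚ_[p]⟮ζ⟯) (B' := PadicAlgCl p)
      (algebraMap ℚ_[p]⟮ζ⟯ (PadicAlgCl p)).injective y',
      ← minpoly.algebraMap_eq (A := ℚ_[p]) (B := ℚ_[p]⟮ζ⟯) (B' := PadicAlgCl p)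
      (algebraMap ℚ_[p]⟮ζ⟯ (PadicAlgCl p)).injective y]
    have h2 : algebraMap ℚ_[p]⟮ζ⟯ (PadicAlgCl p) y' = σ (algebraMap ℚ_[p]⟮ζ⟯ (PadicAlgCl p) y) := h.symm
    rw [h2, minpoly.algEquiv_eq]
  have hy : ∀ z : ℚ_[p]⟮ζ⟯, Module.finrank ℚ_[p] ℚ_[p]⟮z⟯ = (minpoly ℚ_[p] z).natDegree :=
    fun z => IntermediateField.adjoin.finrank (Algebra.IsIntegral.isIntegral z)
  have h1 := Module.finrank_mul_finrank ℚ_[p] ℚ_[p]⟮y⟯ ℚ_[p]⟮ζ⟯
  have h2 := Module.finrank_mul_finrank ℚ_[p] ℚ_[p]⟮y'⟯ ℚ_[p]⟮ζ⟯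
  rw [hy] at h1 h2
  rw [hm] at h2
  have hpos : 0 < (minpoly ℚ_[p] y).natDegree := minpoly.natDegree_pos (Algebra.IsIntegral.isIntegral y)
  have h3 : Module.finrank ℚ_[p]⟮y'⟯ ℚ_[p]⟮ζ⟯ = Module.finrank ℚ_[p]⟮y⟯ ℚ_[p]⟮ζ⟯ :=
    Nat.eq_of_mul_eq_mul_left hpos (h2.trans h1.symm)
  rw [hm, h3]

/-- **Tate's theorem** for characters of cyclotomic type. -/
theorem tate (x : ℂ_[p]) (hx : x ≠ 0) (lam : Gal(PadicAlgCl p/ℚ_[p]) → ℚ_[p])
    (h : ∀ σ, galC σ x = algebraMap ℚ_[p] ℂ_[p] (lam σ) * x)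
    (hker : ∀ σ : Gal(PadicAlgCl p/ℚ_[p]), (∀ n, FixesLevel n σ) → lam σ = 1)
    (γ : Gal(PadicAlgCl p/ℚ_[p])) : ∃ k, 0 < k ∧ lam γ ^ k = 1 := by
  by_contra hcon
  push Not at hcon
  set l := lam γ with hl
  have hp1 : (1 : ℝ) < p := by exact_mod_cast hp.out.one_lt
  have hp0 : (0 : ℝ) < p := by linarith
  have hxn : 0 < ‖x‖ := norm_pos_iff.2 hx
  have hl1 : ‖l‖ = 1 := by
    have h1 := congrArg (fun z : ℂ_[p] => ‖z‖) (h γ)
    simp only [norm_galC, norm_mul, norm_algebraMap'] at h1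
    have : ‖lam γ‖ * ‖x‖ = 1 * ‖x‖ := by rw [one_mul]; exact h1.symm
    exact mul_right_cancel₀ hxn.ne' this
  have hker' : ∀ σ : Gal(PadicAlgCl p/ℚ_[p]), (∀ n, FixesLevel n σ) → galC σ x = x := by
    intro σ hσ
    rw [h σ, hker σ hσ, map_one, one_mul]
  set A : ℝ := (p : ℝ) ^ (p : ℝ) with hA
  have hA1 : 1 ≤ A := Real.one_le_rpow hp1.le hp0.le
  have hA0 : 0 < A := by linarith
  -- first approximation
  set ε₁ : ℝ := ‖x‖ / (2 * p * A) with hε₁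
  have hε₁0 : 0 < ε₁ := by positivity
  obtain ⟨n₁, hn₁⟩ := exists_approx x hker' hε₁0
  obtain ⟨ζ₁, hζ₁⟩ := HasEnoughRootsOfUnity.exists_primitiveRoot (PadicAlgCl p) (p ^ n₁)
  obtain ⟨b₁, hb₁m, hb₁⟩ := hn₁ ζ₁ hζ₁
  have hAε₁ : A * ε₁ = ‖x‖ / (2 * p) := by
    rw [hε₁]; field_simp
  rw [← hA, hAε₁] at hb₁
  have hsmall : ‖x‖ / (2 * p) < ‖x‖ := by
    rw [div_lt_iff₀ (by positivity)]
    nlinarith
  have norm_eq : ∀ b : PadicAlgCl p, ‖x - (b : ℂ_[p])‖ ≤ ‖x‖ / (2 * p) → ‖b‖ = ‖x‖ := by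
    intro b hb
    have h1 : ‖x - (b : ℂ_[p])‖ < ‖x‖ := lt_of_le_of_lt hb hsmall
    have h2 : ‖x - (x - (b : ℂ_[p]))‖ = ‖x‖ := by
      rw [sub_eq_add_neg]
      have h3 : ‖x‖ ≠ ‖-(x - (b : ℂ_[p]))‖ := by rw [norm_neg]; exact h1.ne'
      rw [IsUltrametricDist.norm_add_eq_max_of_norm_ne_norm h3, norm_neg]
      exact max_eq_left h1.le
    rw [sub_sub_cancel, PadicComplex.norm_extends] at h2
    exact h2
  have hb₁x : ‖b₁‖ = ‖x‖ := norm_eq b₁ hb₁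
  -- a power of γ fixes b₁
  obtain ⟨k, hk0, hk⟩ : ∃ k, 0 < k ∧ (γ ^ k) b₁ = b₁ := by
    have hfin : (Set.range fun i : ℕ => (γ ^ i) b₁).Finite := by
      apply Set.Finite.subset ((minpoly ℚ_[p] b₁).rootSet_finite (PadicAlgCl p))
      rintro _ ⟨i, rfl⟩
      rw [mem_rootSet]
      refine ⟨minpoly.ne_zero (Algebra.IsIntegral.isIntegral b₁), ?_⟩
      simp only []
      rw [← minpoly.algEquiv_eq (γ ^ i) b₁]
      exact minpoly.aeval _ _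
    have hninj : ¬ Function.Injective fun i : ℕ => (γ ^ i) b₁ := by
      intro hinj
      exact Set.infinite_range_of_injective hinj hfin
    rw [Function.not_injective_iff] at hninj
    obtain ⟨i, j, hij, hne⟩ := hninj
    wlog hlt : i < j generalizing i j
    · exact this j i hij.symm hne.symm (lt_of_le_of_ne (not_lt.1 hlt) hne.symm)
    refine ⟨j - i, by omega, ?_⟩
    have h1 : (γ ^ j) b₁ = (γ ^ i) ((γ ^ (j - i)) b₁) := by
      rw [← AlgEquiv.mul_apply, ← pow_add]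
      congr 2
      omega
    rw [h1] at hij
    exact ((γ ^ i).injective hij).symm
  -- second approximation
  have hlk : l ^ k ≠ 1 := hcon k hk0
  have hlk' : 0 < ‖1 - l ^ k‖ := norm_pos_iff.2 (sub_ne_zero.2 (Ne.symm hlk))
  set δ : ℝ := min 1 ‖1 - l ^ k‖ with hδ
  have hδ0 : 0 < δ := lt_min one_pos hlk'
  set ε₂ : ℝ := ‖x‖ * δ / (2 * p * A) with hε₂
  have hε₂0 : 0 < ε₂ := by positivity
  obtain ⟨n₂, hn₂⟩ := exists_approx x hker' hε₂0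
  obtain ⟨ζ₂, hζ₂⟩ := HasEnoughRootsOfUnity.exists_primitiveRoot (PadicAlgCl p) (p ^ n₂)
  obtain ⟨b₂, hb₂m, hb₂⟩ := hn₂ ζ₂ hζ₂
  have hAε₂ : A * ε₂ = ‖x‖ * δ / (2 * p) := by
    rw [hε₂]; field_simp
  rw [← hA, hAε₂] at hb₂
  have hb₂' : ‖x - (b₂ : ℂ_[p])‖ ≤ ‖x‖ / (2 * p) := by
    refine hb₂.trans ?_
    have : δ ≤ 1 := min_le_left _ _
    gcongr
    nlinarith
  -- common cyclotomic field
  set m := max n₁ n₂ with hm
  obtain ⟨ζ, hζ⟩ := HasEnoughRootsOfUnity.exists_primitiveRoot (PadicAlgCl p) (p ^ (m + 1))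
  have hpow : ∀ (n : ℕ), n ≤ m + 1 → ∀ ξ : PadicAlgCl p, ξ ^ (p ^ n) = 1 → ξ ∈ ℚ_[p]⟮ζ⟯ := by
    intro n hn ξ hξ
    have : NeZero (p ^ (m + 1)) := ⟨(pow_pos hp.out.pos _).ne'⟩
    have h1 : ξ ^ (p ^ (m + 1)) = 1 := by
      obtain ⟨c, hc⟩ := Nat.exists_eq_add_of_le hn
      rw [hc, pow_add, pow_mul, hξ, one_pow]
    obtain ⟨i, _, rfl⟩ := hζ.eq_pow_of_pow_eq_one h1
    exact pow_mem (mem_adjoin_simple_self _ _) i
  have hsub : ∀ (n : ℕ), n ≤ m + 1 → ∀ ξ : PadicAlgCl p, ξ ^ (p ^ n) = 1 → ∀ b ∈ ℚ_[p]⟮ξ⟯,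
      b ∈ ℚ_[p]⟮ζ⟯ := by
    intro n hn ξ hξ b hb
    have : ℚ_[p]⟮ξ⟯ ≤ ℚ_[p]⟮ζ⟯ := by
      rw [adjoin_simple_le_iff]
      exact hpow n hn ξ hξ
    exact this hb
  have hb₁K : b₁ ∈ ℚ_[p]⟮ζ⟯ := hsub n₁ (by omega) ζ₁ hζ₁.pow_eq_one b₁ hb₁m
  have hb₂K : b₂ ∈ ℚ_[p]⟮ζ⟯ := hsub n₂ (by omega) ζ₂ hζ₂.pow_eq_one b₂ hb₂m
  set τ := γ ^ k with hτ
  have hτK : ∀ b ∈ ℚ_[p]⟮ζ⟯, τ b ∈ ℚ_[p]⟮ζ⟯ := by
    intro b hb
    have h1 : ℚ_[p]⟮ζ⟯ ≤ (ℚ_[p]⟮ζ⟯).comap (τ : PadicAlgCl p →ₐ[ℚ_[p]] PadicAlgCl p) := by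
      rw [adjoin_simple_le_iff]
      change τ ζ ∈ ℚ_[p]⟮ζ⟯
      apply hpow (m + 1) le_rfl
      rw [← map_pow, hζ.pow_eq_one, map_one]
    exact h1 hb
  have hb₁0 : b₁ ≠ 0 := by
    rw [← norm_pos_iff, hb₁x]; exact hxn
  set z : PadicAlgCl p := b₂ / b₁ with hz
  have hzK : z ∈ ℚ_[p]⟮ζ⟯ := div_mem hb₂K hb₁K
  have hτz : τ z = τ b₂ / b₁ := by rw [hz, map_div₀, hk]
  set zK : ℚ_[p]⟮ζ⟯ := ⟨z, hzK⟩ with hzKdef
  set zK' : ℚ_[p]⟮ζ⟯ := ⟨τ z, hτK z hzK⟩ with hzK'def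
  set T := Algebra.trace ℚ_[p] ℚ_[p]⟮ζ⟯ with hT
  have htr : T zK' = T zK := trace_gal hζ τ zK zK' rfl
  have hfr := finrank_root hζ
  have hfd := finiteDimensional_root hζ
  have hT1 : T 1 = ((p ^ m * (p - 1) : ℕ) : ℚ_[p]) := by
    rw [hT, Algebra.trace_eq_matrix_trace (Module.finBasis ℚ_[p] ℚ_[p]⟮ζ⟯), map_one,
      Matrix.trace_one, Fintype.card_fin, hfr]
  have hp2 := hp.out.two_le
  have hT1n : ‖T 1‖ = ((p : ℝ)⁻¹) ^ m := by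
    rw [hT1, Nat.cast_mul, norm_mul, Nat.cast_pow, norm_pow, Padic.norm_p]
    have : ‖((p - 1 : ℕ) : ℚ_[p])‖ = 1 := by
      rw [Padic.norm_natCast_eq_one_iff, Nat.Prime.coprime_iff_not_dvd hp.out]
      intro hd
      have := Nat.le_of_dvd (by omega) hd
      omega
    rw [this, mul_one]
  have hbound := norm_trace_le hζ
  have hpm : 0 < ((p : ℝ)⁻¹) ^ m := by positivity
  -- the first estimate
  have hest1 : ‖T zK‖ ≤ ((p : ℝ)⁻¹) ^ m * (1 / 2) := by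
    have h1 : T (zK' - (l ^ k) • zK) = (1 - l ^ k) * T zK := by
      rw [map_sub, map_smul, htr, smul_eq_mul]; ring
    have h2 : ‖((zK' - (l ^ k) • zK : ℚ_[p]⟮ζ⟯) : PadicAlgCl p)‖ ≤ δ / (2 * p) := by
      have e : ((zK' - (l ^ k) • zK : ℚ_[p]⟮ζ⟯) : PadicAlgCl p) =
          (τ b₂ - algebraMap ℚ_[p] (PadicAlgCl p) (l ^ k) * b₂) / b₁ := by
        have : ((zK' - (l ^ k) • zK : ℚ_[p]⟮ζ⟯) : PadicAlgCl p) = τ z - (l ^ k) • z := rfl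
        rw [this, hτz, hz, Algebra.smul_def]
        field_simp
      rw [e, norm_div, hb₁x, div_le_iff₀ hxn]
      have e2 : ((τ b₂ - algebraMap ℚ_[p] (PadicAlgCl p) (l ^ k) * b₂ : PadicAlgCl p) : ℂ_[p]) =
          -(galC τ (x - (b₂ : ℂ_[p]))) + algebraMap ℚ_[p] ℂ_[p] (l ^ k) * (x - (b₂ : ℂ_[p])) := by
        rw [UniformSpace.Completion.coe_sub, UniformSpace.Completion.coe_mul, map_sub, galC_coe,
          galC_pow_apply γ x l (h γ) k]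
        have : algebraMap ℚ_[p] ℂ_[p] (l ^ k) =
          ((algebraMap ℚ_[p] (PadicAlgCl p) (l ^ k) : PadicAlgCl p) : ℂ_[p]) := rfl
        rw [this]
        ring
      rw [← PadicComplex.norm_extends, e2]
      have hgoal : ‖x - (b₂ : ℂ_[p])‖ ≤ δ / (2 * p) * ‖x‖ := by
        refine hb₂.trans (le_of_eq ?_); ring
      refine (IsUltrametricDist.norm_add_le_max _ _).trans (max_le ?_ ?_)
      · rw [norm_neg, norm_galC]; exact hgoal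
      · rw [norm_mul, norm_algebraMap', norm_pow, hl1, one_pow, one_mul]; exact hgoal
    have h3 := hbound (zK' - (l ^ k) • zK)
    rw [← hT, h1, norm_mul] at h3
    have h4 : ‖1 - l ^ k‖ * ‖T zK‖ ≤ ((p : ℝ)⁻¹) ^ m * (δ / 2) := by
      refine h3.trans ?_
      have : (p : ℝ) * (δ / (2 * p)) = δ / 2 := by field_simp
      rw [← this]
      gcongr
    have h5 : δ ≤ ‖1 - l ^ k‖ := min_le_right _ _
    have h6 : δ * ‖T zK‖ ≤ δ * (((p : ℝ)⁻¹) ^ m * (1 / 2)) := by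
      calc δ * ‖T zK‖ ≤ ‖1 - l ^ k‖ * ‖T zK‖ := by gcongr
        _ ≤ ((p : ℝ)⁻¹) ^ m * (δ / 2) := h4
        _ = _ := by ring
    exact le_of_mul_le_mul_left h6 hδ0
  -- the second estimate
  have hest2 : ‖T zK - T 1‖ ≤ ((p : ℝ)⁻¹) ^ m * (1 / 2) := by
    have h1 : T zK - T 1 = T (zK - 1) := by rw [map_sub]
    rw [h1]
    refine (hbound (zK - 1)).trans ?_
    have h2 : ‖((zK - 1 : ℚ_[p]⟮ζ⟯) : PadicAlgCl p)‖ ≤ 1 / (2 * p) := by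
      have e : ((zK - 1 : ℚ_[p]⟮ζ⟯) : PadicAlgCl p) = (b₂ - b₁) / b₁ := by
        have : ((zK - 1 : ℚ_[p]⟮ζ⟯) : PadicAlgCl p) = z - 1 := rfl
        rw [this, hz]
        field_simp
      rw [e, norm_div, hb₁x, div_le_iff₀ hxn, ← PadicComplex.norm_extends,
        UniformSpace.Completion.coe_sub]
      have e2 : (b₂ : ℂ_[p]) - (b₁ : ℂ_[p]) = -(x - (b₂ : ℂ_[p])) + (x - (b₁ : ℂ_[p])) := by ring
      rw [e2]
      have hgoal : ‖x‖ / (2 * p) = 1 / (2 * p) * ‖x‖ := by ring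
      rw [← hgoal]
      refine (IsUltrametricDist.norm_add_le_max _ _).trans (max_le ?_ hb₁)
      rw [norm_neg]
      exact hb₂'
    calc ((p : ℝ)⁻¹) ^ m * (p * ‖((zK - 1 : ℚ_[p]⟮ζ⟯) : PadicAlgCl p)‖)
        ≤ ((p : ℝ)⁻¹) ^ m * (p * (1 / (2 * p))) := by gcongr
      _ = ((p : ℝ)⁻¹) ^ m * (1 / 2) := by field_simp
  have hfinal : ‖T 1‖ ≤ ((p : ℝ)⁻¹) ^ m * (1 / 2) := by
    have e : T 1 = T zK + -(T zK - T 1) := by ring
    rw [e]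
    refine (IsUltrametricDist.norm_add_le_max _ _).trans (max_le hest1 ?_)
    rw [norm_neg]
    exact hest2
  rw [hT1n] at hfinal
  linarith

end Pool.Agent.GSem
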