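import Mathlib
import Pool.Agent.Lib.Helper90.GSem.Log
import Pool.Agent.Lib.Helper90.GSem.Tate
import Pool.Agent.Lib.Helper90.GSem.CycTrace

/-!
# The cyclotomic character
-/

namespace Pool.Agent.GSem

open NumberField IntermediateField Filter Topology

section log

variable {p : ℕ} [hp : Fact p.Prime]

theorem eq_one_of_pow_eq_one {x : ℚ_[p]} (hx : ‖x - 1‖ ≤ (p : ℝ) ^ (-2 : ℤ)) {k : ℕ} (hk : 0 < k)
    (h : x ^ k = 1) : x = 1 := by
  obtain ⟨l, hl, hl'⟩ := exists_limit hx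
  have hone : ∀ n, approx p 1 n = 0 := by intro n; simp [approx]
  have hp1 : (1 : ℝ) < p := by exact_mod_cast hp.out.one_lt
  have hxn : ‖x‖ ≤ 1 := by
    have e : x = (x - 1) + 1 := by ring
    rw [e]
    refine (IsUltrametricDist.norm_add_le_max _ _).trans (max_le ?_ (by simp))
    exact hx.trans (zpow_le_one_of_nonpos₀ hp1.le (by norm_num))
  have hxk : ∀ j : ℕ, ‖x ^ j - 1‖ ≤ (p : ℝ) ^ (-2 : ℤ) := by
    intro j
    induction j with
    | zero => rw [pow_zero, sub_self, norm_zero]; positivity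
    | succ j ih =>
      have e : x ^ (j + 1) - 1 = (x ^ j - 1) * x + (x - 1) := by ring
      rw [e]
      refine (IsUltrametricDist.norm_add_le_max _ _).trans (max_le ?_ hx)
      rw [norm_mul]
      exact (mul_le_of_le_one_right (norm_nonneg _) hxn).trans ih
  have hlim : ∀ j : ℕ, Tendsto (approx p (x ^ j)) atTop (𝓝 (j * l)) := by
    intro j
    induction j with
    | zero =>
      rw [pow_zero, Nat.cast_zero, zero_mul]
      exact tendsto_const_nhds.congr fun n => (hone n).symm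
    | succ j ih =>
      obtain ⟨m, hm, _⟩ := exists_limit (hxk (j + 1))
      rw [pow_succ] at hm
      have h1 := limit_mul (hxk j) ih hl hm
      rw [pow_succ, Nat.cast_succ, add_mul, one_mul, ← h1]
      exact hm
  have h1 := hlim k
  rw [h] at h1
  have h2 : Tendsto (approx p 1) atTop (𝓝 0) := tendsto_const_nhds.congr fun n => (hone n).symm
  have h3 := tendsto_nhds_unique h1 h2
  have h4 : l = 0 := (mul_eq_zero.1 h3).resolve_left (by exact_mod_cast hk.ne')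
  rw [h4, norm_zero] at hl'
  exact sub_eq_zero.1 (norm_eq_zero.1 hl'.symm)

end log

section cyc

variable (p : ℕ) [hp : Fact p.Prime]

theorem continuous_cyc (Ω : Type*) [Field Ω] [CharZero Ω] : Continuous (cyc p Ω) :=
  cyclotomicCharacter.continuous p ℚ Ω

variable {p}
variable {Ω : Type*} [Field Ω] [CharZero Ω] [IsAlgClosed Ω]

omit [IsAlgClosed Ω] in
theorem toRingAut_apply (g : Gal(Ω/ℚ)) (x : Ω) : MulSemiringAction.toRingAut Gal(Ω/ℚ) Ω g x = g x :=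
  rfl

theorem exists_primitive (Ω : Type*) [Field Ω] [CharZero Ω] [IsAlgClosed Ω] (n : ℕ) :
    ∃ ζ : Ω, IsPrimitiveRoot ζ (p ^ n) :=
  HasEnoughRootsOfUnity.exists_primitiveRoot Ω (p ^ n)

/-- Evaluation of the cyclotomic character modulo `p ^ n`. -/
theorem toZModPow_cyc {g : Gal(Ω/ℚ)} {n b : ℕ} {ζ : Ω} (hζ : IsPrimitiveRoot ζ (p ^ n))
    (h : g ζ = ζ ^ b) : PadicInt.toZModPow n ((cyc p Ω g : ℤ_[p]ˣ) : ℤ_[p]) = b := by
  have h1 := cyclotomicCharacter.spec p (MulSemiringAction.toRingAut Gal(Ω/ℚ) Ω g) ζ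
    hζ.pow_eq_one
  rw [toRingAut_apply, h] at h1
  have : NeZero (p ^ n) := ⟨pow_ne_zero _ hp.out.ne_zero⟩
  have h2 : b ≡ ((PadicInt.toZModPow n) ((cyc p Ω g : ℤ_[p]ˣ) : ℤ_[p])).val [MOD p ^ n] := by
    have h3 := (hζ.isOfFinOrder (NeZero.ne _)).pow_eq_pow_iff_modEq.1 h1
    rw [← hζ.eq_orderOf] at h3
    exact h3
  have h3 := (ZMod.natCast_eq_natCast_iff _ _ _).2 h2
  rw [h3, ZMod.natCast_val, ZMod.cast_id]

theorem cyc_eq_one {g : Gal(Ω/ℚ)} (h : ∀ (n : ℕ) (ζ : Ω), ζ ^ (p ^ n) = 1 → g ζ = ζ) :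
    cyc p Ω g = 1 := by
  apply Units.ext
  rw [Units.val_one, ← PadicInt.ext_of_toZModPow]
  intro n
  obtain ⟨ζ, hζ⟩ := exists_primitive (p := p) Ω n
  rw [toZModPow_cyc hζ (b := 1) (by rw [pow_one]; exact h n ζ hζ.pow_eq_one), map_one,
    Nat.cast_one]

/-- The value on an element acting on the roots of unity by a natural power. -/
theorem cyc_eq_natCast {g : Gal(Ω/ℚ)} {q : ℕ}
    (h : ∀ (n : ℕ) (ζ : Ω), ζ ^ (p ^ n) = 1 → g ζ = ζ ^ q) :
    ((cyc p Ω g : ℤ_[p]ˣ) : ℤ_[p]) = q := by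
  rw [← PadicInt.ext_of_toZModPow]
  intro n
  obtain ⟨ζ, hζ⟩ := exists_primitive (p := p) Ω n
  rw [toZModPow_cyc hζ (h n ζ hζ.pow_eq_one), map_natCast]

theorem cyc_frob {q : ℕ} (hq : q.Prime) (hqp : q ≠ p) {φ : Gal(Ω/ℚ)} (hφ : IsFrobAt q φ) :
    ((cyc p Ω φ : ℤ_[p]ˣ) : ℤ_[p]) = q := by
  obtain ⟨Q, hQ, hqQ, hφ⟩ := hφ
  have hqZ : Prime (q : ℤ) := Nat.prime_iff_prime_int.1 hq
  have hmax : (Ideal.span {(q : ℤ)}).IsMaximal :=
    PrincipalIdealRing.isMaximal_of_irreducible hqZ.irreducible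
  have hunder : Q.under ℤ = Ideal.span {(q : ℤ)} := by
    symm
    apply hmax.eq_of_le
    · exact Ideal.IsPrime.ne_top (Ideal.IsPrime.under ℤ Q)
    · rw [Ideal.span_singleton_le_iff_mem, Ideal.mem_comap, map_natCast]
      exact hqQ
  have hcard : Nat.card (ℤ ⧸ Q.under ℤ) = q := by
    rw [hunder, Nat.card_congr (Int.quotientSpanNatEquivZMod q).toEquiv, Nat.card_zmod]
  have hfrob : (MulSemiringAction.toAlgHom ℤ (𝓞 Ω) φ).IsArithFrobAt Q := by
    intro x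
    rw [hcard]
    exact hφ x
  have hpQ : ((p : ℤ) : 𝓞 Ω) ∉ Q := by
    intro h
    have h1 : (p : ℤ) ∈ Q.under ℤ := by
      rw [Ideal.mem_comap]
      exact h
    rw [hunder, Ideal.mem_span_singleton] at h1
    have h2 : q ∣ p := by exact_mod_cast h1
    exact hqp ((Nat.prime_dvd_prime_iff_eq hq hp.out).1 h2)
  apply cyc_eq_natCast
  intro n ζ hζ
  have hint : IsIntegral ℤ ζ := by
    refine IsIntegral.of_pow (pow_pos hp.out.pos n) ?_
    rw [hζ]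
    exact isIntegral_one
  set z : 𝓞 Ω := ⟨ζ, hint⟩ with hz
  have hz1 : z ^ (p ^ n) = 1 := by
    apply Subtype.ext
    exact hζ
  have h1 := hfrob.apply_of_pow_eq_one hz1 (by
    intro h
    apply hpQ
    push_cast at h
    exact_mod_cast hQ.mem_of_pow_mem _ h)
  rw [hcard] at h1
  exact congrArg (fun w : 𝓞 Ω => (w : Ω)) h1

end cyc

section local_

variable {p : ℕ} [hp : Fact p.Prime]
variable {Ω : Type*} [Field Ω] [CharZero Ω] [IsAlgClosed Ω]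

theorem cyc_eq_one_of_compat {ι : Ω →+* PadicAlgCl p} {σ : Gal(PadicAlgCl p/ℚ_[p])} {g : Gal(Ω/ℚ)}
    (hc : Compat ι σ g) (h : ∀ n, FixesLevel n σ) : cyc p Ω g = 1 := by
  apply cyc_eq_one
  intro n ζ hζ
  apply ι.injective
  rw [hc]
  apply h n
  rw [← map_pow, hζ, map_one]

omit [IsAlgClosed Ω] in
theorem exists_compat [Normal ℚ Ω] (ι : Ω →+* PadicAlgCl p) (σ : Gal(PadicAlgCl p/ℚ_[p])) :
    ∃ g : Gal(Ω/ℚ), Compat ι σ g := by
  let _ : Algebra Ω (PadicAlgCl p) := ι.toAlgebra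
  have hst : IsScalarTower ℚ Ω (PadicAlgCl p) :=
    IsScalarTower.of_algebraMap_eq (fun q => by simp)
  let σ' : PadicAlgCl p ≃ₐ[ℚ] PadicAlgCl p :=
    AlgEquiv.ofRingEquiv (f := (σ : PadicAlgCl p ≃+* PadicAlgCl p)) (fun q => by simp)
  refine ⟨σ'.restrictNormal Ω, ?_⟩
  intro x
  exact AlgEquiv.restrictNormal_commutes (F := ℚ) (K₁ := PadicAlgCl p) (K₂ := PadicAlgCl p) σ' Ω x

/-- There is an element fixing the roots of unity of level `2` but not those of level `3`. -/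
theorem exists_moving (p : ℕ) [hp : Fact p.Prime] : ∃ (σ : Gal(PadicAlgCl p/ℚ_[p]))
    (ζ : PadicAlgCl p), IsPrimitiveRoot ζ (p ^ 3) ∧ σ (ζ ^ p) = ζ ^ p ∧ σ ζ ≠ ζ := by
  obtain ⟨ζ, hζ⟩ := exists_primitive (p := p) (PadicAlgCl p) 3
  have hζ2 : IsPrimitiveRoot (ζ ^ p) (p ^ 2) := by
    have := hζ.pow (pow_pos hp.out.pos 3) (show p ^ 3 = p * p ^ 2 by ring)
    exact this
  by_contra hcon
  push Not at hcon
  have hmem : ζ ∈ ℚ_[p]⟮ζ ^ p⟯ := by
    rw [← InfiniteGalois.fixedField_fixingSubgroup (ℚ_[p]⟮ζ ^ p⟯), IntermediateField.mem_fixedField_iff]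
    intro σ hσ
    exact hcon σ ζ hζ (hσ ⟨ζ ^ p, mem_adjoin_simple_self ℚ_[p] (ζ ^ p)⟩)
  have hle : ℚ_[p]⟮ζ⟯ ≤ ℚ_[p]⟮ζ ^ p⟯ := by
    rw [IntermediateField.adjoin_simple_le_iff]
    exact hmem
  have hfd : FiniteDimensional ℚ_[p] ℚ_[p]⟮ζ ^ p⟯ := finiteDimensional_root hζ2
  have h1 := IntermediateField.finrank_le_of_le_right hle
  rw [finrank_root (n := 2) hζ, finrank_root (n := 1) hζ2] at h1
  have h2 : 0 < p - 1 := Nat.sub_pos_of_lt hp.out.one_lt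
  have h3 := Nat.le_of_mul_le_mul_right h1 h2
  have h4 : p ^ 1 < p ^ 2 := Nat.pow_lt_pow_right hp.out.one_lt (by norm_num)
  omega

/-- There is a local element whose cyclotomic character has infinite order. -/
theorem exists_infinite_order [Normal ℚ Ω] (ι : Ω →+* PadicAlgCl p) :
    ∃ (σ : Gal(PadicAlgCl p/ℚ_[p])) (g : Gal(Ω/ℚ)), Compat ι σ g ∧
      ∀ k : ℕ, 0 < k → (cyc p Ω g) ^ k ≠ 1 := by
  obtain ⟨σ, ζ, hζ, h1, h2⟩ := exists_moving p
  obtain ⟨g, hg⟩ := exists_compat ι σ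
  refine ⟨σ, g, hg, ?_⟩
  intro k hk hcon
  obtain ⟨ξ, hξ⟩ := exists_primitive (p := p) Ω 3
  have hξ' : IsPrimitiveRoot (ι ξ) (p ^ 3) := hξ.map_of_injective ι.injective
  have hpow : ∃ i, ι ξ ^ i = ζ := by
    have : NeZero (p ^ 3) := ⟨pow_ne_zero _ hp.out.ne_zero⟩
    obtain ⟨i, _, hi⟩ := hξ'.eq_pow_of_pow_eq_one hζ.pow_eq_one
    exact ⟨i, hi⟩
  have hpow' : ∃ i, ζ ^ i = ι ξ := by
    have : NeZero (p ^ 3) := ⟨pow_ne_zero _ hp.out.ne_zero⟩
    obtain ⟨i, _, hi⟩ := hζ.eq_pow_of_pow_eq_one hξ'.pow_eq_one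
    exact ⟨i, hi⟩
  -- `g` fixes `ξ ^ p` but not `ξ`
  have hg1 : g (ξ ^ p) = ξ ^ p := by
    apply ι.injective
    obtain ⟨i, hi⟩ := hpow'
    rw [hg, map_pow ι, ← hi, ← pow_mul, mul_comm, pow_mul, map_pow, h1]
  have hg2 : g ξ ≠ ξ := by
    intro h
    apply h2
    obtain ⟨i, hi⟩ := hpow
    have h3 := hg ξ
    rw [h] at h3
    rw [← hi, map_pow, ← h3]
  have hξ2 : IsPrimitiveRoot (ξ ^ p) (p ^ 2) :=
    hξ.pow (pow_pos hp.out.pos 3) (show p ^ 3 = p * p ^ 2 by ring)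
  have h3 := toZModPow_cyc (p := p) hξ2 (b := 1) (by rw [pow_one]; exact hg1)
  set u := ((cyc p Ω g : ℤ_[p]ˣ) : ℤ_[p]) with hu
  have h4 : ‖(u : ℚ_[p]) - 1‖ ≤ (p : ℝ) ^ (-2 : ℤ) := by
    have h5 : PadicInt.toZModPow (p := p) 2 (u - 1) = 0 := by
      rw [map_sub, map_one, h3, Nat.cast_one, sub_self]
    rw [← RingHom.mem_ker, PadicInt.ker_toZModPow, ← PadicInt.norm_le_pow_iff_mem_span_pow] at h5
    rw [PadicInt.norm_def, PadicInt.coe_sub, PadicInt.coe_one] at h5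
    exact_mod_cast h5
  have h5 : (u : ℚ_[p]) ^ k = 1 := by
    have h6 : u ^ k = 1 := by
      rw [hu, ← Units.val_pow_eq_pow_val, hcon, Units.val_one]
    rw [← PadicInt.coe_pow, h6, PadicInt.coe_one]
  have h6 := eq_one_of_pow_eq_one h4 hk h5
  have h7 : u = 1 := Subtype.ext h6
  apply hg2
  have h8 := cyclotomicCharacter.spec p (MulSemiringAction.toRingAut Gal(Ω/ℚ) Ω g) ξ
    hξ.pow_eq_one
  rw [toRingAut_apply] at h8
  have h9 : (cyclotomicCharacter Ω p (MulSemiringAction.toRingAut Gal(Ω/ℚ) Ω g)).val = u := rfl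
  have hfact : Fact (1 < p ^ 3) := ⟨Nat.one_lt_pow (by norm_num) hp.out.one_lt⟩
  rw [h9, h7, map_one, ZMod.val_one, pow_one] at h8
  exact h8

end local_

end Pool.Agent.GSem
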