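import Mathlib

/-!
# No real biquadratic field unramified outside 2
-/

namespace Pool.Agent.GSem

open NumberField Ideal

section

variable {K : Type*} [Field K] [NumberField K] [IsGalois ℚ K]

/-- A prime number does not lie in the square of an unramified prime ideal. -/
theorem natCast_notMem_sq {l : ℕ} (hl : l.Prime) (P : Ideal (𝓞 K)) [hP : P.IsMaximal]
    (hlP : (l : 𝓞 K) ∈ P) (hI : P.inertia Gal(K/ℚ) = ⊥) : (l : 𝓞 K) ∉ P ^ 2 := by
  have hl0 : (l : 𝓞 K) ≠ 0 := by exact_mod_cast hl.ne_zero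
  have hP0 : P ≠ ⊥ := Ideal.IsMaximal.ne_bot_of_isIntegral_int P
  have hlZ : Prime (l : ℤ) := Nat.prime_iff_prime_int.1 hl
  have hunder : P.under ℤ = Ideal.span {(l : ℤ)} := by
    have hmax : (Ideal.span {(l : ℤ)}).IsMaximal :=
      PrincipalIdealRing.isMaximal_of_irreducible hlZ.irreducible
    symm
    apply hmax.eq_of_le
    · exact Ideal.IsPrime.ne_top (Ideal.IsPrime.under ℤ P)
    · rw [Ideal.span_singleton_le_iff_mem, Ideal.mem_comap]
      simpa using hlP
  have hram : P.ramificationIdx ℤ = 1 := by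
    rw [← ramificationIdxIn_eq_ramificationIdx (P.under ℤ) P Gal(K/ℚ),
      ← card_inertia_eq_ramificationIdxIn (R := ℤ) (G := Gal(K/ℚ)) (P.under ℤ) P, hI,
      Subgroup.card_bot]
  have h1 : (P.under ℤ).map (algebraMap ℤ (𝓞 K)) = Ideal.span {(l : 𝓞 K)} := by
    rw [hunder, Ideal.map_span, Set.image_singleton]; simp
  have hmult : multiplicity P (Ideal.span {(l : 𝓞 K)}) = 1 := by
    rw [← hram, IsDedekindDomain.ramificationIdx_eq_multiplicity (P.under ℤ) P (by
      rw [h1]; simpa using hl0), h1]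
  intro h2
  have hfin : FiniteMultiplicity P (Ideal.span {(l : 𝓞 K)}) :=
    FiniteMultiplicity.of_prime_left (Ideal.prime_of_isPrime hP0 hP.isPrime) (by simpa using hl0)
  have h3 : P ^ 2 ∣ Ideal.span {(l : 𝓞 K)} := by rw [Ideal.dvd_span_singleton]; exact h2
  have h4 := hfin.le_multiplicity_of_pow_dvd h3
  omega

/-- The square root of a rational number generating an extension unramified outside `2`. -/
theorem exists_sq_eq_two
    (hunr : ∀ P : Ideal (𝓞 K), P.IsMaximal → (2 : 𝓞 K) ∉ P → P.inertia Gal(K/ℚ) = ⊥)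
    (φ : K →+* ℝ) (α : K) (hα0 : α ≠ 0) (q : ℚ) (hα : α ^ 2 = q)
    (hirr : ¬ ∃ r : ℚ, α = r) : ∃ r : ℚ, r ≠ 0 ∧ (r * α) ^ 2 = 2 := by
  have hq0 : 0 < q := by
    have h1 : φ α ^ 2 = (q : ℝ) := by rw [← map_pow, hα]; simp
    have h2 : φ α ≠ 0 := by rwa [Ne, map_eq_zero]
    have h3 : (0 : ℝ) < q := by rw [← h1]; positivity
    exact_mod_cast h3
  -- natural number with the same square class
  set N : ℕ := q.num.natAbs * q.den with hN
  have hNpos : 0 < N := Nat.mul_pos (Int.natAbs_pos.2 (Rat.num_ne_zero.2 hq0.ne')) q.den_pos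
  obtain ⟨a, b, hab, hsq⟩ := Nat.sq_mul_squarefree N
  have hb0 : b ≠ 0 := by rintro rfl; simp at hab; omega
  have ha0 : a ≠ 0 := by rintro rfl; simp at hab; omega
  have hqN : (q : K) * (q.den : K) ^ 2 = N := by
    have h1 : (q.num.natAbs : ℤ) = q.num := Int.natAbs_of_nonneg (Rat.num_nonneg.2 hq0.le)
    have h2 : (q.num.natAbs : K) = (q.num : K) := by
      have := congrArg (fun z : ℤ => (z : K)) h1
      simpa using this
    have h3 : (q.den : K) ≠ 0 := by exact_mod_cast q.den_ne_zero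
    rw [hN, Nat.cast_mul, h2]
    conv_lhs => rw [Rat.cast_def q]
    field_simp
  set r : ℚ := q.den / b with hr
  have hr0 : r ≠ 0 := by
    rw [hr]; exact div_ne_zero (by exact_mod_cast q.den_ne_zero) (by exact_mod_cast hb0)
  set β : K := r * α with hβ
  have hβ2 : β ^ 2 = a := by
    have hbK : (b : K) ≠ 0 := by exact_mod_cast hb0
    have h1 : (r : K) = (q.den : K) / b := by rw [hr]; push_cast; rfl
    rw [hβ, mul_pow, hα, h1, div_pow]
    have h2 : ((b : K) ^ 2) * a = N := by exact_mod_cast congrArg (fun z : ℕ => (z : K)) hab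
    field_simp
    rw [mul_comm, hqN, ← h2]
  have hβint : IsIntegral ℤ β := by
    apply IsIntegral.of_pow (n := 2) (by norm_num)
    rw [hβ2]
    exact isIntegral_algebraMap (R := ℤ) (x := (a : ℤ)) |> fun h => by simpa using h
  set βO : 𝓞 K := ⟨β, hβint⟩ with hβO
  have hβO2 : βO ^ 2 = (a : 𝓞 K) := by
    apply RingOfIntegers.ext
    simp only [map_pow, map_natCast]
    exact hβ2
  -- no odd prime divides a
  have hodd : ∀ l : ℕ, l.Prime → l ≠ 2 → ¬ l ∣ a := by
    intro l hl hl2 hla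
    have hlZ : Prime (l : ℤ) := Nat.prime_iff_prime_int.1 hl
    have hmax : (Ideal.span {(l : ℤ)}).IsMaximal :=
      PrincipalIdealRing.isMaximal_of_irreducible hlZ.irreducible
    obtain ⟨P, hP, hPl⟩ := Ideal.exists_maximal_ideal_liesOver_of_isIntegral (S := 𝓞 K)
      (Ideal.span {(l : ℤ)})
    have hmem : ∀ n : ℕ, (n : 𝓞 K) ∈ P → l ∣ n := by
      intro n hn
      have h1 : (n : ℤ) ∈ P.under ℤ := by
        rw [Ideal.mem_comap]; simpa using hn
      rw [← hPl.over, Ideal.mem_span_singleton] at h1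
      exact_mod_cast h1
    have hlP : (l : 𝓞 K) ∈ P := by
      have h1 : (l : ℤ) ∈ P.under ℤ := by
        rw [← hPl.over]; exact Ideal.mem_span_singleton_self _
      rw [Ideal.mem_comap] at h1
      simpa using h1
    have h2P : (2 : 𝓞 K) ∉ P := by
      intro h2
      have := hmem 2 (by exact_mod_cast h2)
      rw [Nat.prime_dvd_prime_iff_eq hl Nat.prime_two] at this
      exact hl2 this
    have hnot := natCast_notMem_sq hl P hlP (hunr P hP h2P)
    obtain ⟨c, hc⟩ := hla
    have hlc : ¬ l ∣ c := by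
      rintro ⟨d, hd⟩
      have : l * l ∣ a := ⟨d, by rw [hc, hd]; ring⟩
      have := hsq l this
      exact hl.one_lt.ne' (Nat.isUnit_iff.1 this)
    have haP : βO ^ 2 ∈ P := by
      rw [hβO2, hc, Nat.cast_mul]; exact P.mul_mem_right _ hlP
    have hβP : βO ∈ P := hP.isPrime.mem_of_pow_mem 2 haP
    have h5 : (l : 𝓞 K) * (c : 𝓞 K) ∈ P ^ 2 := by
      have h6 : (l : 𝓞 K) * (c : 𝓞 K) = βO ^ 2 := by rw [hβO2, hc, Nat.cast_mul]
      rw [h6]
      exact Ideal.pow_mem_pow hβP 2
    rw [mul_comm] at h5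
    rcases Ideal.IsPrime.mul_mem_pow P h5 with h | h
    · exact hlc (hmem c h)
    · exact hnot h
  have ha2 : a = 2 := by
    by_contra hne
    have ha1 : a ≠ 1 := by
      rintro rfl
      have h1 : (β - 1) * (β + 1) = 0 := by
        have : β ^ 2 = 1 := by simpa using hβ2
        linear_combination this
      have hrK : (r : K) ≠ 0 := by exact_mod_cast hr0
      rcases mul_eq_zero.1 h1 with h | h
      · apply hirr
        refine ⟨r⁻¹, ?_⟩
        have h2 : (r : K) * α = 1 := by rw [← hβ]; linear_combination h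
        push_cast
        field_simp
        linear_combination h2
      · apply hirr
        refine ⟨-r⁻¹, ?_⟩
        have h2 : (r : K) * α = -1 := by rw [← hβ]; linear_combination h
        push_cast
        field_simp
        linear_combination h2
    -- a is a power of 2, squarefree
    obtain ⟨k, hk⟩ : ∃ k, a = 2 ^ k := by
      refine ⟨a.primeFactorsList.length, Nat.eq_prime_pow_of_unique_prime_dvd ha0 ?_⟩
      intro l hl hla
      by_contra hl2
      exact hodd l hl hl2 hla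
    rcases k with _ | _ | k
    · exact ha1 (by simpa using hk)
    · exact hne (by simpa using hk)
    · have : 2 * 2 ∣ a := ⟨2 ^ k, by rw [hk]; ring⟩
      have := hsq 2 this
      simp at this
  refine ⟨r, hr0, ?_⟩
  rw [← hβ, hβ2, ha2]
  norm_num

theorem no_real_biquadratic (hcard : Nat.card Gal(K/ℚ) = 4) (hexp : ∀ σ : Gal(K/ℚ), σ ^ 2 = 1)
    (hcomm : ∀ σ τ : Gal(K/ℚ), σ * τ = τ * σ)
    (hunr : ∀ P : Ideal (𝓞 K), P.IsMaximal → (2 : 𝓞 K) ∉ P → P.inertia Gal(K/ℚ) = ⊥)
    (φ : K →+* ℝ) : False := by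
  obtain ⟨τ₁, hτ₁⟩ : ∃ τ : Gal(K/ℚ), τ ≠ 1 := by
    by_contra hcon
    push Not at hcon
    have : Nat.card Gal(K/ℚ) ≤ 1 := by
      rw [Finite.card_le_one_iff_subsingleton]
      exact ⟨fun a b => by rw [hcon a, hcon b]⟩
    omega
  have hord : ∀ τ : Gal(K/ℚ), τ ≠ 1 → Nat.card (Subgroup.zpowers τ) = 2 := by
    intro τ hτ
    rw [Nat.card_zpowers]
    exact orderOf_eq_prime (hexp τ) hτ
  obtain ⟨τ₂, hτ₂⟩ : ∃ τ : Gal(K/ℚ), τ ∉ Subgroup.zpowers τ₁ := by
    by_contra hcon
    push Not at hcon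
    have h1 : Subgroup.zpowers τ₁ = ⊤ := by rw [eq_top_iff]; intro g _; exact hcon g
    have h2 := hord τ₁ hτ₁
    rw [h1, Subgroup.card_top, hcard] at h2
    omega
  have hτ₂1 : τ₂ ≠ 1 := by rintro rfl; exact hτ₂ (one_mem _)
  have hτ₁₂ : τ₁ ∉ Subgroup.zpowers τ₂ := by
    intro h
    have hle : Subgroup.zpowers τ₁ ≤ Subgroup.zpowers τ₂ := by rwa [Subgroup.zpowers_le]
    have heq : Subgroup.zpowers τ₁ = Subgroup.zpowers τ₂ :=
      Subgroup.eq_of_le_of_card_ge hle (by rw [hord τ₁ hτ₁, hord τ₂ hτ₂1])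
    exact hτ₂ (heq ▸ Subgroup.mem_zpowers τ₂)
  have hrat : ∀ x : K, τ₁ x = x → τ₂ x = x → ∃ q : ℚ, x = q := by
    intro x h1 h2
    have hgen : (MulAction.stabilizer Gal(K/ℚ) x) = ⊤ := by
      have hle : Subgroup.zpowers τ₁ ≤ MulAction.stabilizer Gal(K/ℚ) x := by
        rw [Subgroup.zpowers_le]; exact h1
      have hlt : Subgroup.zpowers τ₁ < MulAction.stabilizer Gal(K/ℚ) x :=
        lt_of_le_of_ne hle fun h => hτ₂ (h ▸ h2)
      have hd : Nat.card (MulAction.stabilizer Gal(K/ℚ) x) ∣ 4 :=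
        hcard ▸ Subgroup.card_subgroup_dvd_card _
      have h4 : 2 < Nat.card (MulAction.stabilizer Gal(K/ℚ) x) := by
        have := Set.ncard_lt_ncard (show (Subgroup.zpowers τ₁ : Set Gal(K/ℚ)) ⊂
          MulAction.stabilizer Gal(K/ℚ) x from hlt) (Set.toFinite _)
        rw [← hord τ₁ hτ₁]
        exact this
      have h5 : Nat.card (MulAction.stabilizer Gal(K/ℚ) x) = 4 := by
        have := Nat.le_of_dvd (by norm_num) hd
        interval_cases h : Nat.card (MulAction.stabilizer Gal(K/ℚ) x)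
        · omega
        · rfl
      exact Subgroup.eq_top_of_card_eq _ (h5.trans hcard.symm)
    have h1 : x ∈ (⊥ : IntermediateField ℚ K) := by
      rw [← IsGalois.fixedField_top (F := ℚ) (E := K), IntermediateField.mem_fixedField_iff]
      intro σ _
      have : σ ∈ MulAction.stabilizer Gal(K/ℚ) x := by rw [hgen]; trivial
      exact this
    obtain ⟨q, hq⟩ := IntermediateField.mem_bot.1 h1
    exact ⟨q, by rw [← hq]; simp⟩
  have key : ∀ σ τ : Gal(K/ℚ), τ ∉ Subgroup.zpowers σ →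
      (∀ x : K, σ x = x → τ x = x → ∃ q : ℚ, x = q) →
      ∃ β : K, β ^ 2 = 2 ∧ σ β = β ∧ τ β = -β := by
    intro σ τ hτσ hrat'
    obtain ⟨y, hy1, hy2⟩ : ∃ y : K, σ y = y ∧ τ y ≠ y := by
      by_contra hcon
      push Not at hcon
      have hle : IntermediateField.fixedField (Subgroup.zpowers σ) ≤
          IntermediateField.fixedField (Subgroup.zpowers τ) := by
        intro y hy
        rw [IntermediateField.mem_fixedField_iff] at hy ⊢
        have h1 := hcon y (hy σ (Subgroup.mem_zpowers σ))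
        intro g hg
        have h2 : τ ∈ MulAction.stabilizer Gal(K/ℚ) y := h1
        have h3 : g ∈ MulAction.stabilizer Gal(K/ℚ) y := (Subgroup.zpowers_le.2 h2) hg
        exact h3
      have h3 := IntermediateField.fixingSubgroup_le hle
      rw [IntermediateField.fixingSubgroup_fixedField, IntermediateField.fixingSubgroup_fixedField]
        at h3
      exact hτσ (h3 (Subgroup.mem_zpowers τ))
    set α := y - τ y with hα
    have hα0 : α ≠ 0 := by rw [hα, sub_ne_zero]; exact hy2.symm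
    have hστ : σ (τ y) = τ y := by
      have h1 : (σ * τ) y = (τ * σ) y := by rw [hcomm]
      simpa [hy1] using h1
    have hττ : τ (τ y) = y := by
      have h1 : (τ ^ 2) y = y := by rw [hexp]; rfl
      simpa [pow_two] using h1
    have hσα : σ α = α := by rw [hα, map_sub, hy1, hστ]
    have hτα : τ α = -α := by rw [hα, map_sub, hττ]; ring
    obtain ⟨q, hq⟩ := hrat' (α ^ 2) (by rw [map_pow, hσα]) (by rw [map_pow, hτα]; ring)
    have hirr : ¬ ∃ r : ℚ, α = r := by
      rintro ⟨r, hr⟩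
      rw [hr] at hτα
      have h1 : τ (r : K) = r := by simp
      rw [h1, ← hr] at hτα
      apply hα0
      have h2 : (2 : K) * α = 0 := by linear_combination hτα
      rcases mul_eq_zero.1 h2 with h | h
      · norm_num at h
      · exact h
    obtain ⟨r, hr0, hr⟩ := exists_sq_eq_two hunr φ α hα0 q hq hirr
    refine ⟨r * α, hr, ?_, ?_⟩
    · rw [map_mul, hσα]; simp
    · rw [map_mul, hτα]; simp
  obtain ⟨β₁, h11, h12, _⟩ := key τ₁ τ₂ hτ₂ hrat
  obtain ⟨β₂, h21, h22, h23⟩ := key τ₂ τ₁ hτ₁₂ (fun x h1 h2 => hrat x h2 h1)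
  have h0 : (β₁ - β₂) * (β₁ + β₂) = 0 := by linear_combination h11 - h21
  have hβ₂ : β₂ ≠ 0 := by rintro rfl; norm_num at h21
  have h2K : (2 : K) ≠ 0 := by norm_num
  rcases mul_eq_zero.1 h0 with h | h
  · have h1 : β₁ = β₂ := sub_eq_zero.1 h
    rw [h1, h23] at h12
    apply hβ₂
    have : (2 : K) * β₂ = 0 := by linear_combination -h12
    exact (mul_eq_zero.1 this).resolve_left h2K
  · have h1 : β₁ = -β₂ := eq_neg_of_add_eq_zero_left h
    rw [h1, map_neg, h23] at h12
    apply hβ₂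
    have : (2 : K) * β₂ = 0 := by linear_combination h12
    exact (mul_eq_zero.1 this).resolve_left h2K

end

end Pool.Agent.GSem
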