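import Mathlib

/-!
# Inertia groups and Minkowski's theorem

For a Galois number field `L`, a subgroup of `Gal(L/ℚ)` containing all inertia groups is everything.
-/

namespace Pool.Agent.GSem

open NumberField Ideal

section tower

variable (E L : Type*) [Field E] [NumberField E] [Field L] [NumberField L] [Algebra E L]
  [IsGalois ℚ L]

/-- If all elements of the inertia group of `P` (over `ℚ`) fix the subfield `E`, then `P ∩ E` is
unramified over `ℤ`. -/
theorem ramificationIdx_under_eq_one (P : Ideal (𝓞 L)) [P.IsMaximal]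
    (h : ∀ σ : Gal(L/ℚ), σ ∈ P.inertia Gal(L/ℚ) → ∀ x : E, σ (algebraMap E L x) = algebraMap E L x) :
    (P.under (𝓞 E)).ramificationIdx ℤ = 1 := by
  have : IsGalois E L := IsGalois.tower_top_of_isGalois ℚ E L
  have hP0 : P ≠ ⊥ := Ideal.IsMaximal.ne_bot_of_isIntegral_int P
  have h1 : Nat.card (P.inertia Gal(L/ℚ)) = P.ramificationIdx ℤ := by
    rw [card_inertia_eq_ramificationIdxIn (R := ℤ) (G := Gal(L/ℚ)) (P.under ℤ) P,
      ramificationIdxIn_eq_ramificationIdx (P.under ℤ) P Gal(L/ℚ)]
  have h2 : Nat.card (P.inertia Gal(L/E)) = P.ramificationIdx (𝓞 E) := by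
    rw [card_inertia_eq_ramificationIdxIn (R := 𝓞 E) (G := Gal(L/E)) (P.under (𝓞 E)) P,
      ramificationIdxIn_eq_ramificationIdx (P.under (𝓞 E)) P Gal(L/E)]
  have h3 : P.ramificationIdx ℤ = (P.under (𝓞 E)).ramificationIdx ℤ * P.ramificationIdx (𝓞 E) :=
    ramificationIdx_tower (R := ℤ) (P.under (𝓞 E)) P
  have h4 : Nat.card (P.inertia Gal(L/ℚ)) ≤ Nat.card (P.inertia Gal(L/E)) := by
    refine Nat.card_le_card_of_injective (fun σ => ⟨AlgEquiv.ofRingEquiv (f := (σ.1 : L ≃+* L))
      (fun x => h σ.1 σ.2 x), fun x => ?_⟩) ?_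
    · exact σ.2 x
    · intro σ τ hστ
      apply Subtype.ext
      apply AlgEquiv.ext
      intro x
      have := congrArg (fun z : P.inertia Gal(L/E) => z.1 x) hστ
      exact this
  have h5 : 0 < P.ramificationIdx (𝓞 E) := ramificationIdx_pos P (𝓞 E)
  have h6 : 0 < (P.under (𝓞 E)).ramificationIdx ℤ := ramificationIdx_pos _ ℤ
  rw [h1, h2, h3] at h4
  nlinarith

end tower

section minkowski

variable (L : Type*) [Field L] [NumberField L] [IsGalois ℚ L]

/-- **Minkowski**: `Gal(L/ℚ)` is generated by the inertia groups. -/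
theorem eq_top_of_inertia_le (H : Subgroup Gal(L/ℚ))
    (h : ∀ P : Ideal (𝓞 L), P.IsMaximal → P.inertia Gal(L/ℚ) ≤ H) : H = ⊤ := by
  set E := IntermediateField.fixedField H with hE
  have hNF : NumberField E := inferInstance
  have hall : ∀ (q : Ideal (𝓞 E)) (_ : q.IsMaximal), Algebra.IsUnramifiedAt ℤ q := by
    intro q hq
    obtain ⟨P, hP, hPq⟩ := Ideal.exists_maximal_ideal_liesOver_of_isIntegral (S := 𝓞 L) q
    have hq' : q = P.under (𝓞 E) := hPq.over
    rw [← Ideal.ramificationIdx_eq_one_iff, hq']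
    apply ramificationIdx_under_eq_one E L P
    intro σ hσ x
    exact (IntermediateField.mem_fixedField_iff H _).1 x.2 σ (h P hP hσ)
  have hrank : Module.finrank ℚ E = 1 := by
    by_contra hne
    obtain ⟨q, hq, hq'⟩ := NumberField.exists_not_isUnramifiedAt_int (K := E) (𝒪 := 𝓞 E) hne
    exact hq' (hall q hq)
  have hbot : E = ⊥ := IntermediateField.finrank_eq_one_iff.1 hrank
  have h2 : E.fixingSubgroup = H := IntermediateField.fixingSubgroup_fixedField H
  rw [← h2, hbot, IntermediateField.fixingSubgroup_bot]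

end minkowski

end Pool.Agent.GSem
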