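import Mathlib

/-!
# Number fields attached to open normal subgroups
-/

namespace Pool.Agent.GSem

open NumberField

section

variable {Ω : Type*} [Field Ω] [CharZero Ω] [IsGalois ℚ Ω]

/-- The fixed field of an open subgroup. -/
noncomputable def ofOpen (N : Subgroup Gal(Ω/ℚ)) : IntermediateField ℚ Ω :=
  IntermediateField.fixedField N

theorem fixingSubgroup_ofOpen {N : Subgroup Gal(Ω/ℚ)} (hN : IsOpen (N : Set Gal(Ω/ℚ))) :
    (ofOpen N).fixingSubgroup = N := by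
  have h := InfiniteGalois.fixingSubgroup_fixedField (k := ℚ) (K := Ω)
    ⟨N, Subgroup.isClosed_of_isOpen N hN⟩
  exact h

theorem finiteDimensional_ofOpen {N : Subgroup Gal(Ω/ℚ)} (hN : IsOpen (N : Set Gal(Ω/ℚ))) :
    FiniteDimensional ℚ (ofOpen N) := by
  rw [← InfiniteGalois.isOpen_iff_finite]
  have h := fixingSubgroup_ofOpen hN
  have h2 : ((ofOpen N).fixingSubgroup.carrier : Set Gal(Ω/ℚ)) = (N : Set Gal(Ω/ℚ)) := by
    rw [h]; rfl
  rw [h2]
  exact hN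

theorem numberField_ofOpen {N : Subgroup Gal(Ω/ℚ)} (hN : IsOpen (N : Set Gal(Ω/ℚ))) :
    NumberField (ofOpen N) :=
  { to_charZero := inferInstance
    to_finiteDimensional := finiteDimensional_ofOpen hN }

theorem isGalois_ofOpen {N : Subgroup Gal(Ω/ℚ)} (hN : IsOpen (N : Set Gal(Ω/ℚ))) [hn : N.Normal] :
    IsGalois ℚ (ofOpen N) := by
  have h1 : (ofOpen N).fixingSubgroup.Normal := by
    rw [fixingSubgroup_ofOpen hN]; exact hn
  exact (InfiniteGalois.normal_iff_isGalois (ofOpen N)).1 h1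

theorem mem_of_fixes {N : Subgroup Gal(Ω/ℚ)} (hN : IsOpen (N : Set Gal(Ω/ℚ))) (g : Gal(Ω/ℚ))
    (h : ∀ x ∈ ofOpen N, g x = x) : g ∈ N := by
  rw [← fixingSubgroup_ofOpen hN]
  intro x
  exact h x x.2

theorem fixes_of_mem {N : Subgroup Gal(Ω/ℚ)} {g : Gal(Ω/ℚ)} (hg : g ∈ N) (x : Ω)
    (hx : x ∈ ofOpen N) : g x = x :=
  (IntermediateField.mem_fixedField_iff N x).1 hx g hg

/-- Restriction to the fixed field of an open normal subgroup. -/
theorem exists_restrict_ofOpen {N : Subgroup Gal(Ω/ℚ)} (hN : IsOpen (N : Set Gal(Ω/ℚ)))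
    [hn : N.Normal] : ∃ r : Gal(Ω/ℚ) →* Gal(ofOpen N/ℚ), Function.Surjective r ∧ r.ker = N ∧
      ∀ (g : Gal(Ω/ℚ)) (x : ofOpen N), ((r g x : ofOpen N) : Ω) = g (x : Ω) := by
  have hG : IsGalois ℚ (ofOpen N) := isGalois_ofOpen hN
  have hcomm : ∀ (g : Gal(Ω/ℚ)) (x : ofOpen N),
      (((AlgEquiv.restrictNormalHom (F := ℚ) (K₁ := Ω) (ofOpen N)) g x : ofOpen N) : Ω) =
        g (x : Ω) := fun g x =>
    AlgEquiv.restrictNormal_commutes (F := ℚ) (K₁ := Ω) (K₂ := Ω) g (ofOpen N) x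
  refine ⟨AlgEquiv.restrictNormalHom (F := ℚ) (K₁ := Ω) (ofOpen N),
    AlgEquiv.restrictNormalHom_surjective (F := ℚ) (K₁ := ofOpen N) Ω, ?_, hcomm⟩
  ext g
  rw [MonoidHom.mem_ker]
  constructor
  · intro h
    apply mem_of_fixes hN
    intro x hx
    have h1 := hcomm g ⟨x, hx⟩
    rw [h] at h1
    exact h1.symm
  · intro h
    apply AlgEquiv.ext
    intro x
    apply Subtype.ext
    rw [hcomm]
    exact fixes_of_mem h _ x.2

end

end Pool.Agent.GSem
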