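import Mathlib

/-!
# Tame inertia in abelian extensions

An abstract version of: in an abelian extension of `ℚ`, an element of the inertia group at a prime
above `q`, of order prime to `q`, has order dividing `q - 1`.
-/

namespace Pool.Agent.GSem

section

variable {R : Type*} [CommRing R] [IsDedekindDomain R] {G : Type*} [Group G]
  [MulSemiringAction G R]

theorem smul_mem_pow {P : Ideal R} {g : G} (hg : ∀ x ∈ P, g • x ∈ P) (k : ℕ) :
    ∀ x ∈ P ^ k, g • x ∈ P ^ k := by
  intro x hx
  have h1 : Ideal.map (MulSemiringAction.toRingHom G R g) P ≤ P := by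
    rw [Ideal.map_le_iff_le_comap]
    intro y hy
    exact hg y hy
  have h2 : MulSemiringAction.toRingHom G R g x ∈
      Ideal.map (MulSemiringAction.toRingHom G R g) (P ^ k) := Ideal.mem_map_of_mem _ hx
  rw [Ideal.map_pow] at h2
  exact Ideal.pow_right_mono h1 k h2

/-- An element of `G` acting trivially on `R / P` and on `P / P ^ 2`, of order prime to `P`, acts
trivially. -/
theorem wild_trivial (P : Ideal R) [hP : P.IsPrime] (hP0 : P ≠ ⊥) (τ : G)
    (h1 : ∀ x : R, τ • x - x ∈ P) (h2 : ∀ x ∈ P, τ • x - x ∈ P ^ 2)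
    (n : ℕ) (hn : τ ^ n = 1) (hnP : (n : R) ∉ P) (x : R) : τ • x = x := by
  have hτP : ∀ x ∈ P, τ • x ∈ P := by
    intro x hx
    have := P.add_mem (h1 x) hx
    simpa using this
  -- triviality on P ^ k / P ^ (k + 1)
  have hgr : ∀ k : ℕ, ∀ y ∈ P ^ k, τ • y - y ∈ P ^ (k + 1) := by
    intro k
    induction k with
    | zero => intro y _; simpa using h1 y
    | succ k ih =>
      intro y hy
      rw [pow_succ] at hy
      refine Submodule.mul_induction_on hy ?_ ?_
      · intro a ha b hb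
        have e : τ • (a * b) - a * b = (τ • a - a) * (τ • b) + a * (τ • b - b) := by
          rw [smul_mul']; ring
        rw [e]
        refine Ideal.add_mem _ ?_ ?_
        · rw [pow_succ (n := k + 1)]
          exact Ideal.mul_mem_mul (ih a ha) (hτP b hb)
        · have : a * (τ • b - b) ∈ P ^ k * P ^ 2 := Ideal.mul_mem_mul ha (h2 b hb)
          rwa [← pow_add] at this
      · intro a b ha hb
        have e : τ • (a + b) - (a + b) = (τ • a - a) + (τ • b - b) := by
          rw [smul_add]; ring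
        rw [e]
        exact Ideal.add_mem _ ha hb
  have key : ∀ k : ℕ, ∀ x : R, τ • x - x ∈ P ^ k := by
    intro k
    induction k with
    | zero => intro x; simp
    | succ k ih =>
      intro x
      set c := τ • x - x with hc
      have hck : c ∈ P ^ k := ih x
      have hj : ∀ j : ℕ, (τ ^ j) • x - x - j * c ∈ P ^ (k + 1) := by
        intro j
        induction j with
        | zero => simp
        | succ j ihj =>
          have e : (τ ^ (j + 1)) • x - x - ((j + 1 : ℕ) : R) * c =
              τ • ((τ ^ j) • x - x - j * c) + j * (τ • c - c) := by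
            rw [pow_succ', mul_smul, smul_sub, smul_sub, smul_mul']
            have : τ • (j : R) = j := map_natCast (MulSemiringAction.toRingHom G R τ) j
            rw [this]
            have : τ • x = x + c := by rw [hc]; ring
            rw [this]
            push_cast
            ring
          rw [e]
          refine Ideal.add_mem _ (smul_mem_pow hτP (k + 1) _ ihj) (Ideal.mul_mem_left _ _ (hgr k c hck))
      have hn' := hj n
      rw [hn, one_smul, sub_self, zero_sub, neg_mem_iff] at hn'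
      rcases Ideal.IsPrime.mul_mem_pow P hn' with h | h
      · exact absurd h hnP
      · exact h
  have hzero : τ • x - x ∈ (⨅ i, P ^ i : Ideal R) := by
    rw [Submodule.mem_iInf]
    intro i
    exact key i x
  rw [Ideal.iInf_pow_eq_bot_of_isDomain P hP.ne_top] at hzero
  exact sub_eq_zero.1 hzero

/-- Tame inertia: an element `σ` of the inertia group, commuting with a Frobenius `φ` for the
residue cardinality `q`, and of order prime to `P`, satisfies `σ ^ (q - 1) = 1`. -/
theorem tame (P : Ideal R) [hP : P.IsPrime] (hP0 : P ≠ ⊥) (q : ℕ) (hq : 2 ≤ q)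
    (σ φ : G) (hσ : ∀ x : R, σ • x - x ∈ P) (hφ : ∀ x : R, φ • x - x ^ q ∈ P)
    (hcomm : σ * φ = φ * σ) (n : ℕ) (hn : σ ^ n = 1) (hnP : (n : R) ∉ P) (x : R) :
    (σ ^ (q - 1)) • x = x := by
  have hσP : ∀ x ∈ P, σ • x ∈ P := by
    intro x hx
    have := P.add_mem (hσ x) hx
    simpa using this
  have hφP : ∀ x ∈ P, φ • x ∈ P := by
    intro x hx
    have := P.add_mem (hφ x) (P.pow_mem_of_mem hx q (by omega))
    simpa using this
  have hφP' : ∀ x ∈ P, φ⁻¹ • x ∈ P := by
    intro x hx
    have h1 := hφ (φ⁻¹ • x)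
    rw [smul_inv_smul] at h1
    have h2 := P.sub_mem hx h1
    rw [sub_sub_cancel] at h2
    exact hP.mem_of_pow_mem q h2
  obtain ⟨π, hπ, hπ2⟩ := Ideal.exists_mem_pow_notMem_pow_succ P hP0 hP.ne_top 1
  rw [pow_one] at hπ
  have hπ1 : π ∈ P ^ 1 := by rwa [pow_one]
  obtain ⟨u, e, he, hu⟩ := Ideal.exists_mul_add_mem_pow_succ hP0 π (σ • π) hπ1 hπ2
    (by rw [pow_one]; exact hσP π hπ)
  obtain ⟨b, e', he', hb⟩ := Ideal.exists_mul_add_mem_pow_succ hP0 π (φ • π) hπ1 hπ2
    (by rw [pow_one]; exact hφP π hπ)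
  have hbP : b ∉ P := by
    intro hb'
    have h1 : φ • π ∈ P ^ 2 := by
      rw [← hb]
      refine Ideal.add_mem _ ?_ he'
      rw [pow_two]
      exact Ideal.mul_mem_mul hπ hb'
    have h2 := smul_mem_pow hφP' 2 _ h1
    rw [inv_smul_smul] at h2
    exact hπ2 h2
  have hσP' : ∀ x ∈ P, σ⁻¹ • x ∈ P := by
    intro x hx
    have h1 := hσ (σ⁻¹ • x)
    rw [smul_inv_smul] at h1
    have h2 := P.sub_mem hx h1
    rwa [sub_sub_cancel] at h2
  have huP : u ∉ P := by
    intro hu'
    have h1 : σ • π ∈ P ^ 2 := by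
      rw [← hu]
      refine Ideal.add_mem _ ?_ he
      rw [pow_two]
      exact Ideal.mul_mem_mul hπ hu'
    have h2 := smul_mem_pow hσP' 2 _ h1
    rw [inv_smul_smul] at h2
    exact hπ2 h2
  -- compare σ φ π and φ σ π
  have hc1 : φ • (σ • π) - π * (b * (φ • u)) ∈ P ^ 2 := by
    rw [← hu, smul_add, smul_mul', ← hb]
    have h3 := smul_mem_pow hφP 2 _ he
    have h4 : e' * (φ • u) ∈ P ^ 2 := Ideal.mul_mem_right _ _ he'
    have e1 : (π * b + e') * φ • u + φ • e - π * (b * φ • u) = e' * (φ • u) + φ • e := by ring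
    rw [e1]
    exact Ideal.add_mem _ h4 h3
  have hc2 : σ • (φ • π) - π * (b * u) ∈ P ^ 2 := by
    rw [← hb, smul_add, smul_mul', ← hu]
    have h3 := smul_mem_pow hσP 2 _ he'
    have h4 : e * (σ • b) ∈ P ^ 2 := Ideal.mul_mem_right _ _ he
    have h5 : (π * u) * (σ • b - b) ∈ P ^ 2 := by
      rw [pow_two]
      exact Ideal.mul_mem_mul (P.mul_mem_right _ hπ) (hσ b)
    have e1 : (π * u + e) * σ • b + σ • e' - π * (b * u) =
        (π * u) * (σ • b - b) + e * (σ • b) + σ • e' := by ring
    rw [e1]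
    exact Ideal.add_mem _ (Ideal.add_mem _ h5 h4) h3
  have hc3 : π * (b * (φ • u - u)) ∈ P ^ 2 := by
    have h1 : σ • (φ • π) = φ • (σ • π) := by rw [← mul_smul, hcomm, mul_smul]
    rw [h1] at hc2
    have h2 := Ideal.sub_mem _ hc2 hc1
    have e1 : φ • σ • π - π * (b * u) - (φ • σ • π - π * (b * φ • u)) =
        π * (b * (φ • u - u)) := by ring
    rwa [e1] at h2
  have hc4 : φ • u - u ∈ P := by
    have h1 := Ideal.mem_prime_of_mul_mem_pow hP0 hπ2 hc3
    rcases hP.mem_or_mem h1 with h | h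
    · exact absurd h hbP
    · exact h
  have hc5 : u ^ (q - 1) - 1 ∈ P := by
    have h1 : u * (u ^ (q - 1) - 1) ∈ P := by
      have h2 := P.sub_mem hc4 (hφ u)
      have e1 : φ • u - u - (φ • u - u ^ q) = u * (u ^ (q - 1) - 1) := by
        have : u ^ q = u * u ^ (q - 1) := by
          rw [← pow_succ']; congr 1; omega
        rw [this]; ring
      rwa [e1] at h2
    rcases hP.mem_or_mem h1 with h | h
    · exact absurd h huP
    · exact h
  -- σ ^ k acts on P / P ^ 2 by u ^ k
  have hpow : ∀ k : ℕ, (σ ^ k) • π - π * u ^ k ∈ P ^ 2 := by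
    intro k
    induction k with
    | zero => simp
    | succ k ih =>
      have h1 := smul_mem_pow hσP 2 _ ih
      have h2 : (π * u) * (σ • (u ^ k) - u ^ k) ∈ P ^ 2 := by
        rw [pow_two]
        exact Ideal.mul_mem_mul (P.mul_mem_right _ hπ) (hσ _)
      have h4 : e * (σ • (u ^ k)) ∈ P ^ 2 := Ideal.mul_mem_right _ _ he
      have e1 : (σ ^ (k + 1)) • π - π * u ^ (k + 1) =
          σ • ((σ ^ k) • π - π * u ^ k) + ((π * u) * (σ • (u ^ k) - u ^ k) + e * (σ • (u ^ k))) := by
        rw [smul_sub, smul_mul', ← hu, pow_succ', mul_smul]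
        ring
      rw [e1]
      exact Ideal.add_mem _ h1 (Ideal.add_mem _ h2 h4)
  set τ := σ ^ (q - 1) with hτ
  have hτ1 : ∀ k : ℕ, ∀ x : R, (σ ^ k) • x - x ∈ P := by
    intro k
    induction k with
    | zero => intro x; simp
    | succ k ih =>
      intro x
      have e1 : (σ ^ (k + 1)) • x - x = (σ • ((σ ^ k) • x) - (σ ^ k) • x) + ((σ ^ k) • x - x) := by
        rw [pow_succ', mul_smul]; ring
      rw [e1]
      exact P.add_mem (hσ _) (ih x)
  have hτP : ∀ x ∈ P, τ • x ∈ P := by
    intro x hx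
    have := P.add_mem (hτ1 (q - 1) x) hx
    simpa using this
  have hτπ : τ • π - π ∈ P ^ 2 := by
    have h1 := hpow (q - 1)
    have h2 : π * (u ^ (q - 1) - 1) ∈ P ^ 2 := by
      rw [pow_two]; exact Ideal.mul_mem_mul hπ hc5
    have e1 : τ • π - π = (τ • π - π * u ^ (q - 1)) + π * (u ^ (q - 1) - 1) := by ring
    rw [e1]
    exact Ideal.add_mem _ h1 h2
  have hτ2 : ∀ x ∈ P, τ • x - x ∈ P ^ 2 := by
    intro x hx
    obtain ⟨d, f, hf, hd⟩ := Ideal.exists_mul_add_mem_pow_succ hP0 π x hπ1 hπ2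
      (by rw [pow_one]; exact hx)
    have h1 : τ • f ∈ P ^ 2 := smul_mem_pow hτP 2 _ hf
    have h2 : π * (τ • d - d) ∈ P ^ 2 := by
      rw [pow_two]; exact Ideal.mul_mem_mul hπ (hτ1 (q - 1) d)
    have h3 : (τ • π - π) * (τ • d) ∈ P ^ 2 := Ideal.mul_mem_right _ _ hτπ
    have e1 : τ • x - x = (τ • π - π) * (τ • d) + π * (τ • d - d) + (τ • f - f) := by
      rw [← hd, smul_add, smul_mul']; ring
    rw [e1]
    exact Ideal.add_mem _ (Ideal.add_mem _ h3 h2) (Ideal.sub_mem _ h1 hf)
  exact wild_trivial P hP0 τ (hτ1 (q - 1)) hτ2 n (by rw [hτ, ← pow_mul, mul_comm, pow_mul, hn, one_pow])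
    hnP x

end

end Pool.Agent.GSem
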