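import Mathlib
import Pool.Agent.Lib.Helper90.GSem.Cyc

/-!
# No totally ramified elementary abelian extensions of rank two

Let `p` be an odd prime.  A group of order `p ^ 2` and exponent `p` cannot act faithfully and
isometrically on a discretely valued field with fixed field `ℚ`, residue field `𝔽_p` and
ramification index `p ^ 2`.
-/

namespace Pool.Agent.GSem

open Polynomial

/-- The binomial identity for a geometric sum in a ring. -/
theorem geom_sum_choose {R : Type*} [Ring R] (e : R) (n : ℕ) :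
    ∑ j ∈ Finset.range n, e ^ j =
      ∑ k ∈ Finset.range n, ((n.choose (k + 1) : ℕ) : R) * (e - 1) ^ k := by
  induction n with
  | zero => simp
  | succ n ih =>
    rw [Finset.sum_range_succ, ih]
    have h1 : e ^ n = ∑ k ∈ Finset.range (n + 1), ((n.choose k : ℕ) : R) * (e - 1) ^ k := by
      have h2 : e = (e - 1) + 1 := by rw [sub_add_cancel]
      conv_lhs => rw [h2]
      rw [(Commute.one_right (e - 1)).add_pow]
      apply Finset.sum_congr rfl
      intro k _
      rw [one_pow, mul_one, Nat.cast_comm]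
    have h3 : ∑ k ∈ Finset.range n, ((n.choose (k + 1) : ℕ) : R) * (e - 1) ^ k =
        ∑ k ∈ Finset.range (n + 1), ((n.choose (k + 1) : ℕ) : R) * (e - 1) ^ k := by
      rw [Finset.sum_range_succ, Nat.choose_succ_self, Nat.cast_zero, zero_mul, add_zero]
    rw [h1, h3, ← Finset.sum_add_distrib]
    apply Finset.sum_congr rfl
    intro k _
    rw [Nat.choose_succ_succ, Nat.cast_add, add_mul, add_comm]

section LL

variable {p : ℕ} [hp : Fact p.Prime] {L : Type*} [NormedField L] [IsUltrametricDist L] [CharZero L]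

theorem norm_natCast_le_one' (n : ℕ) : ‖(n : L)‖ ≤ 1 := by
  induction n with
  | zero => simp
  | succ n ih =>
    rw [Nat.cast_succ]
    exact (IsUltrametricDist.norm_add_le_max _ _).trans (max_le ih (by rw [norm_one]))

theorem norm_intCast_le_one' (n : ℤ) : ‖(n : L)‖ ≤ 1 := by
  obtain ⟨m, rfl | rfl⟩ := Int.eq_nat_or_neg n
  · rw [Int.cast_natCast]; exact norm_natCast_le_one' (L := L) m
  · rw [Int.cast_neg, Int.cast_natCast, norm_neg]; exact norm_natCast_le_one' (L := L) m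

theorem norm_natCast_eq_one' (hpn : ‖(p : L)‖ < 1) {n : ℕ} (hn : ¬ p ∣ n) : ‖(n : L)‖ = 1 := by
  have hcop : Nat.Coprime p n := (Nat.Prime.coprime_iff_not_dvd hp.out).2 hn
  have hcop' : IsCoprime (p : ℤ) (n : ℤ) := Nat.isCoprime_iff_coprime.2 hcop
  obtain ⟨a, b, hab⟩ := hcop'
  have h1 : (a : L) * p + b * n = 1 := by exact_mod_cast congrArg (fun z : ℤ => (z : L)) hab
  apply le_antisymm (norm_natCast_le_one' n)
  by_contra hlt
  push Not at hlt
  have h2 : ‖(1 : L)‖ < 1 := by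
    rw [← h1]
    refine lt_of_le_of_lt (IsUltrametricDist.norm_add_le_max _ _) (max_lt ?_ ?_)
    · rw [norm_mul]
      calc ‖(a : L)‖ * ‖(p : L)‖ ≤ 1 * ‖(p : L)‖ := by gcongr; exact norm_intCast_le_one' a
        _ < 1 := by rw [one_mul]; exact hpn
    · rw [norm_mul]
      calc ‖(b : L)‖ * ‖(n : L)‖ ≤ 1 * ‖(n : L)‖ := by gcongr; exact norm_intCast_le_one' b
        _ < 1 := by rw [one_mul]; exact hlt
  rw [norm_one] at h2
  exact lt_irrefl _ h2

theorem norm_ratCast (hpn : ‖(p : L)‖ < 1) (q : ℚ) (hq : q ≠ 0) :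
    ∃ k : ℤ, ‖(q : L)‖ = ‖(p : L)‖ ^ k := by
  have hnat : ∀ n : ℕ, n ≠ 0 → ∃ k : ℕ, ‖(n : L)‖ = ‖(p : L)‖ ^ k := by
    intro n hn
    obtain ⟨k, m, hm, hnk⟩ := Nat.exists_eq_pow_mul_and_not_dvd hn p hp.out.ne_one
    refine ⟨k, ?_⟩
    rw [hnk, Nat.cast_mul, norm_mul, norm_natCast_eq_one' hpn hm, mul_one, Nat.cast_pow, norm_pow]
  obtain ⟨k₁, hk₁⟩ := hnat q.num.natAbs (by simpa using hq)
  obtain ⟨k₂, hk₂⟩ := hnat q.den q.den_ne_zero
  refine ⟨(k₁ : ℤ) - k₂, ?_⟩
  have hp0 : ‖(p : L)‖ ≠ 0 := by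
    rw [norm_ne_zero_iff]; exact_mod_cast hp.out.ne_zero
  have h1 : ‖(q.num : L)‖ = ‖(q.num.natAbs : L)‖ := by
    generalize q.num = z
    obtain ⟨m, rfl | rfl⟩ := Int.eq_nat_or_neg z
    · simp
    · simp
  rw [Rat.cast_def, norm_div, h1, hk₁, hk₂, zpow_sub₀ hp0, zpow_natCast, zpow_natCast]

variable {G : Type*} [Group G] [Finite G] [MulSemiringAction G L]

/-- The subgroup of units `u` with `‖u - 1‖ ≤ r`, as an additive subgroup of `Additive Lˣ`. -/
def unitBall (r : ℝ) (hr0 : 0 ≤ r) (hr : r < 1) : AddSubgroup (Additive Lˣ) where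
  carrier := {u | ‖((Additive.toMul u : Lˣ) : L) - 1‖ ≤ r}
  zero_mem' := by simpa using hr0
  add_mem' := by
    intro a b ha hb
    simp only [Set.mem_ofPred_eq] at ha hb ⊢
    have ha1 : ‖((Additive.toMul a : Lˣ) : L)‖ ≤ 1 := by
      have e : ((Additive.toMul a : Lˣ) : L) = (((Additive.toMul a : Lˣ) : L) - 1) + 1 := by ring
      rw [e]
      exact (IsUltrametricDist.norm_add_le_max _ _).trans (max_le (ha.trans hr.le) (by rw [norm_one]))
    rw [toMul_add, Units.val_mul]
    have e : ((Additive.toMul a : Lˣ) : L) * ((Additive.toMul b : Lˣ) : L) - 1 =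
        ((Additive.toMul a : Lˣ) : L) * (((Additive.toMul b : Lˣ) : L) - 1) +
          (((Additive.toMul a : Lˣ) : L) - 1) := by ring
    rw [e]
    refine (IsUltrametricDist.norm_add_le_max _ _).trans (max_le ?_ ha)
    rw [norm_mul]
    calc _ ≤ 1 * r := by gcongr
      _ = r := one_mul r
  neg_mem' := by
    intro a ha
    simp only [Set.mem_ofPred_eq] at ha ⊢
    have ha1 : ‖((Additive.toMul a : Lˣ) : L)‖ = 1 := by
      have h1 : ‖((Additive.toMul a : Lˣ) : L) - 1‖ < ‖(1 : L)‖ := by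
        rw [norm_one]; exact lt_of_le_of_lt ha hr
      have e : ((Additive.toMul a : Lˣ) : L) = (((Additive.toMul a : Lˣ) : L) - 1) + 1 := by ring
      rw [e, IsUltrametricDist.norm_add_eq_max_of_norm_ne_norm h1.ne, max_eq_right h1.le, norm_one]
    rw [toMul_neg, Units.val_inv_eq_inv_val]
    have h0 : ((Additive.toMul a : Lˣ) : L) ≠ 0 := Units.ne_zero _
    have e : ((Additive.toMul a : Lˣ) : L)⁻¹ - 1 =
        -(((Additive.toMul a : Lˣ) : L) - 1) * ((Additive.toMul a : Lˣ) : L)⁻¹ := by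
      field_simp
      ring
    rw [e, norm_mul, norm_neg, norm_inv, ha1, inv_one, mul_one]
    exact ha

theorem mem_unitBall {r : ℝ} {hr0 : 0 ≤ r} {hr : r < 1} {u : Additive Lˣ} :
    u ∈ unitBall (L := L) r hr0 hr ↔ ‖((Additive.toMul u : Lˣ) : L) - 1‖ ≤ r := Iff.rfl

/-- `p`-th powers of units close to `1`. -/
theorem norm_pow_sub_one_le (u : L) (r : ℝ) (hr0 : 0 ≤ r) (hr : r ≤ 1) (hu : ‖u - 1‖ ≤ r) :
    ‖u ^ p - 1‖ ≤ max ‖(p : L)‖ (r ^ p) := by
  have e : u ^ p = ((u - 1) + 1) ^ p := by rw [sub_add_cancel]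
  rw [e, add_pow]
  simp only [one_pow, mul_one]
  rw [Finset.sum_range_succ']
  have h1 : (u - 1) ^ 0 * ((p.choose 0 : ℕ) : L) = 1 := by simp
  rw [h1, add_sub_cancel_right]
  apply IsUltrametricDist.norm_sum_le_of_forall_le_of_nonneg
    (le_max_of_le_left (norm_nonneg _))
  intro k hk
  rw [Finset.mem_range] at hk
  rw [norm_mul, norm_pow]
  by_cases hkp : k + 1 = p
  · rw [hkp, Nat.choose_self, Nat.cast_one, norm_one, mul_one]
    exact le_max_of_le_right (by gcongr)
  · have hlt : k + 1 < p := by omega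
    apply le_max_of_le_left
    obtain ⟨c, hc⟩ := hp.out.dvd_choose_self (Nat.succ_ne_zero k) hlt
    rw [hc, Nat.cast_mul, norm_mul]
    have h2 : ‖u - 1‖ ^ (k + 1) ≤ 1 := pow_le_one₀ (norm_nonneg _) (hu.trans hr)
    have h3 := norm_natCast_le_one' (L := L) c
    calc ‖u - 1‖ ^ (k + 1) * (‖(p : L)‖ * ‖(c : L)‖) ≤ 1 * (‖(p : L)‖ * 1) := by gcongr
      _ = _ := by ring

/-- The endomorphism of `Additive Lˣ` induced by a group element. -/
def unitEnd (g : G) : AddMonoid.End (Additive Lˣ) :=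
  MonoidHom.toAdditive (Units.map (MulSemiringAction.toRingHom G L g : L →* L))

theorem unitEnd_apply (g : G) (u : Additive Lˣ) :
    ((Additive.toMul (unitEnd g u) : Lˣ) : L) = g • ((Additive.toMul u : Lˣ) : L) := rfl

omit [IsUltrametricDist L] [CharZero L] in
theorem end_mul_apply (E F : AddMonoid.End (Additive Lˣ)) (u : Additive Lˣ) :
    (E * F) u = E (F u) := rfl

omit [IsUltrametricDist L] [CharZero L] in
theorem end_sum_apply (s : Finset ℕ) (F : ℕ → AddMonoid.End (Additive Lˣ)) (u : Additive Lˣ) :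
    (∑ k ∈ s, F k) u = ∑ k ∈ s, F k u := by
  induction s using Finset.cons_induction with
  | empty => simp
  | cons a s ha ih =>
    rw [Finset.sum_cons, Finset.sum_cons, ← ih]
    rfl

theorem unitEnd_pow_apply (g : G) (j : ℕ) (u : Additive Lˣ) :
    ((Additive.toMul ((unitEnd g ^ j) u) : Lˣ) : L) = (g ^ j) • ((Additive.toMul u : Lˣ) : L) := by
  induction j with
  | zero => simp
  | succ j ih =>
    rw [pow_succ', pow_succ', end_mul_apply, unitEnd_apply, ih, mul_smul]

/-- The norm of a unit congruent to `1` modulo `π ^ 2` for an automorphism of order `p` acting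
wildly is congruent to `1` modulo a power of `π` larger than `p`. -/
theorem norm_prod_sub_one_lt (ρ : ℝ) (hρ0 : 0 < ρ) (hρ1 : ρ < 1)
    (hpn : ‖(p : L)‖ ≤ ρ ^ (p + 1)) (η : G)
    (hη : ∀ x : L, ‖η • x - x‖ ≤ ρ * ‖x‖) (U : L) (hU : ‖U - 1‖ ≤ ρ ^ 2) :
    ‖∏ j ∈ Finset.range p, (η ^ j) • U - 1‖ ≤ ρ ^ (p + 1) := by
  have hp2 := hp.out.two_le
  have hρn : ∀ n : ℕ, 0 ≤ ρ ^ n := fun n => by positivity
  have hρn1 : ∀ n : ℕ, 0 < n → ρ ^ n < 1 := fun n hn => pow_lt_one₀ hρ0.le hρ1 hn.ne'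
  have hU0 : U ≠ 0 := by
    rintro rfl
    rw [zero_sub, norm_neg, norm_one] at hU
    exact absurd (hρn1 2 (by norm_num)) (not_lt.2 hU)
  set u : Additive Lˣ := Additive.ofMul (Units.mk0 U hU0) with hu
  set e := unitEnd (L := L) η with he
  -- the iterated differences are closer and closer to 1
  have hstep : ∀ k : ℕ, ((e - 1) ^ k) u ∈ unitBall (L := L) (ρ ^ (k + 2)) (hρn _)
      (hρn1 _ (by omega)) := by
    intro k
    induction k with
    | zero => simpa [mem_unitBall, hu] using hU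
    | succ k ih =>
      rw [mem_unitBall, pow_succ' (e - 1) k, end_mul_apply]
      set v := ((e - 1) ^ k) u with hv
      rw [mem_unitBall] at ih
      have h1 : ((Additive.toMul ((e - 1) v) : Lˣ) : L) =
          (η • ((Additive.toMul v : Lˣ) : L)) / ((Additive.toMul v : Lˣ) : L) := by
        have : (e - 1) v = e v - v := rfl
        rw [this, toMul_sub, Units.val_div_eq_div_val, he, unitEnd_apply]
      rw [h1]
      set V : L := ((Additive.toMul v : Lˣ) : L) with hV
      have hV0 : V ≠ 0 := Units.ne_zero _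
      have hV1 : ‖V‖ = 1 := by
        have h2 : ‖V - 1‖ < ‖(1 : L)‖ := by
          rw [norm_one]; exact lt_of_le_of_lt ih (hρn1 _ (by omega))
        have e3 : V = (V - 1) + 1 := by ring
        rw [e3, IsUltrametricDist.norm_add_eq_max_of_norm_ne_norm h2.ne, max_eq_right h2.le,
          norm_one]
      have e4 : η • V / V - 1 = (η • (V - 1) - (V - 1)) / V := by
        rw [smul_sub, smul_one]
        field_simp
        ring
      rw [e4, norm_div, hV1, div_one]
      refine (hη (V - 1)).trans ?_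
      calc ρ * ‖V - 1‖ ≤ ρ * ρ ^ (k + 2) := by gcongr
        _ = ρ ^ (k + 1 + 2) := by ring
  -- the total sum
  have hsum : ∑ j ∈ Finset.range p, (e ^ j) u ∈ unitBall (L := L) (ρ ^ (p + 1)) (hρn _)
      (hρn1 _ (by omega)) := by
    have h1 : ∑ j ∈ Finset.range p, (e ^ j) u =
        ∑ k ∈ Finset.range p, (p.choose (k + 1)) • (((e - 1) ^ k) u) := by
      rw [← end_sum_apply, geom_sum_choose e p, end_sum_apply]
      apply Finset.sum_congr rfl
      intro k _
      rw [end_mul_apply, AddMonoid.End.natCast_apply]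
    rw [h1]
    apply AddSubgroup.sum_mem
    intro k hk
    rw [Finset.mem_range] at hk
    by_cases hkp : k + 1 = p
    · have h3 : p.choose (k + 1) = 1 := by rw [hkp, Nat.choose_self]
      rw [h3, one_smul]
      have h4 := hstep k
      rw [mem_unitBall] at h4 ⊢
      refine h4.trans (le_of_eq ?_)
      congr 1
      omega
    · have hlt : k + 1 < p := by omega
      obtain ⟨c, hc⟩ := hp.out.dvd_choose_self (Nat.succ_ne_zero k) hlt
      rw [hc, mul_comm, mul_smul]
      apply AddSubgroup.nsmul_mem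
      rw [mem_unitBall, toMul_nsmul, Units.val_pow_eq_pow_val]
      have h4 := hstep k
      rw [mem_unitBall] at h4
      refine (norm_pow_sub_one_le _ _ (hρn _) (hρn1 _ (by omega)).le h4).trans (max_le hpn ?_)
      rw [← pow_mul]
      apply pow_le_pow_of_le_one hρ0.le hρ1.le
      nlinarith
  rw [mem_unitBall] at hsum
  have hprod : ((Additive.toMul (∑ j ∈ Finset.range p, (e ^ j) u) : Lˣ) : L) =
      ∏ j ∈ Finset.range p, (η ^ j) • U := by
    rw [toMul_sum, Units.coe_prod]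
    apply Finset.prod_congr rfl
    intro j _
    rw [he, unitEnd_pow_apply]
    rfl
  rw [hprod] at hsum
  exact hsum

omit [Finite G] in
/-- An isometric automorphism of `p`-power order acts trivially on graded pieces. -/
theorem wild_action (ρ : ℝ) (hρ0 : 0 < ρ) (hρ1 : ρ < 1)
    (hval : ∀ x : L, x ≠ 0 → ∃ k : ℤ, ‖x‖ = ρ ^ k)
    (hpn : ‖(p : L)‖ < 1) (hres : ∀ x : L, ‖x‖ ≤ 1 → ∃ n : ℤ, ‖x - n‖ < 1)
    (σ : G) (hσ : σ ^ p = 1) (hiso : ∀ x : L, ‖σ • x‖ = ‖x‖) (x : L) :
    ‖σ • x - x‖ ≤ ρ * ‖x‖ := by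
  by_cases hx : x = 0
  · subst hx; simp
  have hxn : 0 < ‖x‖ := norm_pos_iff.2 hx
  set y := σ • x / x with hy
  have hy1 : ‖y‖ = 1 := by rw [hy, norm_div, hiso, div_self hxn.ne']
  obtain ⟨n, hn⟩ := hres y hy1.le
  have hsmulnat : ∀ (m : ℤ), σ • (m : L) = m := fun m =>
    map_intCast (MulSemiringAction.toRingHom G L σ) m
  have hn1 : ‖(n : L)‖ ≤ 1 := norm_intCast_le_one' n
  -- σ ^ j x / x ≡ n ^ j
  have hj : ∀ j : ℕ, ‖(σ ^ j) • x / x - (n : L) ^ j‖ < 1 := by
    intro j
    induction j with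
    | zero => simp [div_self hx]
    | succ j ih =>
      have e : (σ ^ (j + 1)) • x / x - (n : L) ^ (j + 1) =
          σ • ((σ ^ j) • x / x - (n : L) ^ j) * y + (n : L) ^ j * (y - n) := by
        have h1 : σ • ((σ ^ j) • x / x - (n : L) ^ j) = (σ ^ (j + 1)) • x / (σ • x) - (n : L) ^ j := by
          rw [smul_sub, smul_div₀', smul_pow', hsmulnat, pow_succ', mul_smul]
        have hσx : σ • x ≠ 0 := by
          rw [← norm_pos_iff, hiso]; exact hxn
        rw [h1, hy]
        field_simp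
        ring
      rw [e]
      refine lt_of_le_of_lt (IsUltrametricDist.norm_add_le_max _ _) (max_lt ?_ ?_)
      · rw [norm_mul, hiso, hy1, mul_one]; exact ih
      · rw [norm_mul, norm_pow]
        calc ‖(n : L)‖ ^ j * ‖y - n‖ ≤ 1 * ‖y - n‖ := by
              gcongr
              exact pow_le_one₀ (norm_nonneg _) hn1
          _ < 1 := by rw [one_mul]; exact hn
  have h1 := hj p
  rw [hσ, one_smul, div_self hx] at h1
  -- n ^ p ≡ n
  have h2 : ‖(n : L) ^ p - n‖ < 1 := by
    have hdvd : (p : ℤ) ∣ n ^ p - n := by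
      rw [← ZMod.intCast_zmod_eq_zero_iff_dvd]
      push_cast
      rw [ZMod.pow_card, sub_self]
    obtain ⟨c, hc⟩ := hdvd
    have e : (n : L) ^ p - n = (p : L) * c := by exact_mod_cast congrArg (fun z : ℤ => (z : L)) hc
    rw [e, norm_mul]
    calc ‖(p : L)‖ * ‖(c : L)‖ ≤ ‖(p : L)‖ * 1 := by gcongr; exact norm_intCast_le_one' c
      _ < 1 := by rw [mul_one]; exact hpn
  have h3 : ‖y - 1‖ < 1 := by
    have e : y - 1 = (y - n) + (-((n : L) ^ p - n) + -(1 - (n : L) ^ p)) := by ring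
    rw [e]
    refine lt_of_le_of_lt (IsUltrametricDist.norm_add_le_max _ _) (max_lt hn ?_)
    refine lt_of_le_of_lt (IsUltrametricDist.norm_add_le_max _ _) (max_lt ?_ ?_)
    · rw [norm_neg]; exact h2
    · rw [norm_neg]; exact h1
  have h4 : ‖y - 1‖ ≤ ρ := by
    by_cases h0 : y - 1 = 0
    · rw [h0, norm_zero]; exact hρ0.le
    obtain ⟨k, hk⟩ := hval _ h0
    rw [hk] at h3 ⊢
    have hk1 : 1 ≤ k := by
      by_contra hcon
      have : (1 : ℝ) ≤ ρ ^ k := one_le_zpow_of_nonpos₀ hρ0 hρ1.le (by omega)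
      linarith
    calc ρ ^ k ≤ ρ ^ (1 : ℤ) := zpow_le_zpow_right_of_le_one₀ hρ0 hρ1.le hk1
      _ = ρ := zpow_one ρ
  have e : σ • x - x = (y - 1) * x := by rw [hy]; field_simp
  rw [e, norm_mul]
  gcongr

/-- The main contradiction. -/
theorem no_elementary_abelian (hp3 : p ≠ 2) (hcard : Nat.card G = p ^ 2)
    (hexp : ∀ σ : G, σ ^ p = 1) (hcomm : ∀ σ τ : G, σ * τ = τ * σ)
    (hiso : ∀ (σ : G) (x : L), ‖σ • x‖ = ‖x‖)
    (hfix : ∀ y : L, (∀ σ : G, σ • y = y) → ∃ q : ℚ, y = q)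
    (ρ : ℝ) (hρ0 : 0 < ρ) (hρ1 : ρ < 1)
    (hval : ∀ x : L, x ≠ 0 → ∃ k : ℤ, ‖x‖ = ρ ^ k) (π : L) (hπ : ‖π‖ = ρ)
    (hpn : ‖(p : L)‖ = ρ ^ (p ^ 2))
    (hres : ∀ x : L, ‖x‖ ≤ 1 → ∃ n : ℤ, ‖x - n‖ < 1) : False := by
  have hp2 := hp.out.two_le
  have hp3' : 3 ≤ p := by omega
  have hpn1 : ‖(p : L)‖ < 1 := by
    rw [hpn]; exact pow_lt_one₀ hρ0.le hρ1 (pow_pos hp.out.pos 2).ne'
  have hwild : ∀ (σ : G) (x : L), ‖σ • x - x‖ ≤ ρ * ‖x‖ := fun σ x =>
    wild_action ρ hρ0 hρ1 hval hpn1 hres σ (hexp σ) (hiso σ) x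
  have hπ0 : π ≠ 0 := by rw [← norm_pos_iff, hπ]; exact hρ0
  -- Step B: an element τ ≠ 1 with ‖τ π - π‖ ≤ ρ ^ 3
  obtain ⟨τ, hτ1, hτ3⟩ : ∃ τ : G, τ ≠ 1 ∧ ‖τ • π - π‖ ≤ ρ ^ 3 := by
    have hn : ∀ σ : G, ∃ n : ℤ, ‖(σ • π - π) / π ^ 2 - n‖ < 1 := by
      intro σ
      apply hres
      rw [norm_div, norm_pow, hπ, div_le_one (by positivity)]
      have := hwild σ π
      rw [hπ] at this
      calc _ ≤ ρ * ρ := this
        _ = ρ ^ 2 := by ring
    choose n hn using hn
    have : Fintype G := Fintype.ofFinite G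
    have hlt : Fintype.card (ZMod p) < Fintype.card G := by
      rw [ZMod.card, ← Nat.card_eq_fintype_card, hcard]
      nlinarith
    obtain ⟨σ₁, σ₂, hne, heq⟩ := Fintype.exists_ne_map_eq_of_card_lt
      (fun σ => ((n σ : ℤ) : ZMod p)) hlt
    refine ⟨σ₁⁻¹ * σ₂, ?_, ?_⟩
    · intro h
      exact hne (inv_mul_eq_one.1 h)
    · rw [← hiso σ₁, smul_sub, mul_smul, smul_inv_smul]
      have hdvd : (p : ℤ) ∣ n σ₂ - n σ₁ := by
        rw [← ZMod.intCast_zmod_eq_zero_iff_dvd]
        push_cast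
        rw [heq, sub_self]
      obtain ⟨c, hc⟩ := hdvd
      have hc' : ((n σ₂ : L) - (n σ₁ : L)) = (p : L) * c := by
        exact_mod_cast congrArg (fun z : ℤ => (z : L)) hc
      have e : σ₂ • π - σ₁ • π = π ^ 2 * (((σ₂ • π - π) / π ^ 2 - n σ₂) +
          (-((σ₁ • π - π) / π ^ 2 - n σ₁) + (p : L) * c)) := by
        rw [← hc']
        field_simp
        ring
      rw [e, norm_mul, norm_pow, hπ]
      have h1 : ‖((σ₂ • π - π) / π ^ 2 - n σ₂) +
          (-((σ₁ • π - π) / π ^ 2 - n σ₁) + (p : L) * c)‖ < 1 := by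
        refine lt_of_le_of_lt (IsUltrametricDist.norm_add_le_max _ _) (max_lt (hn σ₂) ?_)
        refine lt_of_le_of_lt (IsUltrametricDist.norm_add_le_max _ _) (max_lt ?_ ?_)
        · rw [norm_neg]; exact hn σ₁
        · rw [norm_mul]
          calc ‖(p : L)‖ * ‖(c : L)‖ ≤ ‖(p : L)‖ * 1 := by gcongr; exact norm_intCast_le_one' c
            _ < 1 := by rw [mul_one]; exact hpn1
      have h2 : ∀ w : L, ‖w‖ < 1 → ‖w‖ ≤ ρ := by
        intro w hw
        by_cases h0 : w = 0
        · rw [h0, norm_zero]; exact hρ0.le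
        obtain ⟨k, hk⟩ := hval _ h0
        rw [hk] at hw ⊢
        have hk1 : 1 ≤ k := by
          by_contra hcon
          have : (1 : ℝ) ≤ ρ ^ k := one_le_zpow_of_nonpos₀ hρ0 hρ1.le (by omega)
          linarith
        calc ρ ^ k ≤ ρ ^ (1 : ℤ) := zpow_le_zpow_right_of_le_one₀ hρ0 hρ1.le hk1
          _ = ρ := zpow_one ρ
      calc ρ ^ 2 * _ ≤ ρ ^ 2 * ρ := by gcongr; exact h2 _ h1
        _ = ρ ^ 3 := by ring
  -- Step C: a second generator
  have hord : orderOf τ = p := orderOf_eq_prime (hexp τ) hτ1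
  obtain ⟨η, hη⟩ : ∃ η : G, η ∉ Subgroup.zpowers τ := by
    by_contra hcon
    push Not at hcon
    have h1 : Subgroup.zpowers τ = ⊤ := by
      rw [eq_top_iff]; intro g _; exact hcon g
    have h2 : Nat.card (Subgroup.zpowers τ) = p := by rw [Nat.card_zpowers, hord]
    rw [h1, Subgroup.card_top, hcard] at h2
    nlinarith
  have hgen : ∀ S : Subgroup G, τ ∈ S → η ∈ S → S = ⊤ := by
    intro S hτS hηS
    have hle : Subgroup.zpowers τ ≤ S := by rwa [Subgroup.zpowers_le]
    have hlt : Subgroup.zpowers τ < S := lt_of_le_of_ne hle fun h => hη (h ▸ hηS)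
    have h2 : Nat.card (Subgroup.zpowers τ) = p := by rw [Nat.card_zpowers, hord]
    have h3 : Nat.card S ∣ p ^ 2 := hcard ▸ Subgroup.card_subgroup_dvd_card S
    obtain ⟨k, hk, hk'⟩ := (Nat.dvd_prime_pow hp.out).1 h3
    have h4 : p < Nat.card S := by
      have := Set.ncard_lt_ncard (show (Subgroup.zpowers τ : Set G) ⊂ S from hlt) (Set.toFinite _)
      rw [← h2]
      exact this
    have h5 : k = 2 := by
      rw [hk'] at h4
      by_contra hne
      have hk1 : k ≤ 1 := by omega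
      have : p ^ k ≤ p ^ 1 := Nat.pow_le_pow_right hp.out.pos hk1
      rw [pow_one] at this
      omega
    rw [h5, ← hcard] at hk'
    exact Subgroup.eq_top_of_card_eq S hk'
  have hfix' : ∀ y : L, τ • y = y → η • y = y → ∃ q : ℚ, y = q := by
    intro y h1 h2
    apply hfix
    have h3 := hgen (MulAction.stabilizer G y) h1 h2
    intro σ
    have : σ ∈ MulAction.stabilizer G y := by rw [h3]; trivial
    exact this
  -- rational numbers have norm a power of ρ ^ (p ^ 2)
  have hrat : ∀ q : ℚ, q ≠ 0 → ∃ k : ℤ, ‖(q : L)‖ = ρ ^ ((p : ℤ) ^ 2 * k) := by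
    intro q hq
    obtain ⟨k, hk⟩ := norm_ratCast (p := p) (L := L) hpn1 q hq
    refine ⟨k, ?_⟩
    rw [hk, hpn, zpow_mul]
    congr 1
  -- Step D: the norm of π to the fixed field of η
  set y : L := ∏ j ∈ Finset.range p, (η ^ j) • π with hy
  have hcyc : ∀ (g : G) (z : L), g • (∏ j ∈ Finset.range p, (g ^ j) • z) =
      ∏ j ∈ Finset.range p, (g ^ j) • z := by
    intro g z
    by_cases hz : z = 0
    · subst hz; simp [hp.out.ne_zero]
    have h1 : g • (∏ j ∈ Finset.range p, (g ^ j) • z) = ∏ j ∈ Finset.range p, (g ^ (j + 1)) • z := by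
      rw [Finset.smul_prod']
      apply Finset.prod_congr rfl
      intro j _
      rw [pow_succ', mul_smul]
    have h2 := Finset.prod_range_succ (fun j => (g ^ j) • z) p
    rw [Finset.prod_range_succ' (fun j => (g ^ j) • z) p, hexp g, pow_zero, one_smul] at h2
    rw [h1]
    exact mul_right_cancel₀ hz h2
  have hyη : η • y = y := hcyc η π
  have hyn : ‖y‖ = ρ ^ p := by
    rw [hy, norm_prod]
    simp only [hiso, hπ, Finset.prod_const, Finset.card_range]
  have hy0 : y ≠ 0 := by rw [← norm_pos_iff, hyn]; positivity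
  have hτy : ‖τ • y - y‖ ≤ ρ ^ (2 * p + 1) := by
    set U := τ • π / π with hU
    have hU1 : ‖U - 1‖ ≤ ρ ^ 2 := by
      have e : U - 1 = (τ • π - π) / π := by rw [hU]; field_simp
      rw [e, norm_div, hπ, div_le_iff₀ hρ0]
      calc _ ≤ ρ ^ 3 := hτ3
        _ = ρ ^ 2 * ρ := by ring
    have h1 : ‖∏ j ∈ Finset.range p, (η ^ j) • U - 1‖ ≤ ρ ^ (p + 1) := by
      apply norm_prod_sub_one_lt ρ hρ0 hρ1 _ η (hwild η) U hU1
      rw [hpn]
      apply pow_le_pow_of_le_one hρ0.le hρ1.le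
      nlinarith
    have h2 : τ • y - y = y * (∏ j ∈ Finset.range p, (η ^ j) • U - 1) := by
      have h3 : τ • y = y * ∏ j ∈ Finset.range p, (η ^ j) • U := by
        rw [hy, Finset.smul_prod', ← Finset.prod_mul_distrib]
        apply Finset.prod_congr rfl
        intro j _
        have hc : τ * η ^ j = η ^ j * τ := hcomm _ _
        rw [← mul_smul, hc, mul_smul, ← smul_mul', hU]
        congr 1
        field_simp
      rw [h3]; ring
    rw [h2, norm_mul, hyn]
    calc ρ ^ p * _ ≤ ρ ^ p * ρ ^ (p + 1) := by gcongr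
      _ = ρ ^ (2 * p + 1) := by ring
  -- Step E: the Eisenstein polynomial
  set F : L[X] := ∏ j ∈ Finset.range p, (X - C ((τ ^ j) • y)) with hF
  have hFmap : ∀ g : G, F.map (MulSemiringAction.toRingHom G L g) =
      ∏ j ∈ Finset.range p, (X - C (g • ((τ ^ j) • y))) := by
    intro g
    rw [hF, Polynomial.map_prod]
    apply Finset.prod_congr rfl
    intro j _
    simp
  have hFη : F.map (MulSemiringAction.toRingHom G L η) = F := by
    rw [hFmap, hF]
    apply Finset.prod_congr rfl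
    intro j _
    rw [← mul_smul, hcomm η (τ ^ j), mul_smul, hyη]
  have hFτ : F.map (MulSemiringAction.toRingHom G L τ) = F := by
    rw [hFmap, hF]
    have h2 := Finset.prod_range_succ (fun j => (X - C ((τ ^ j) • y) : L[X])) p
    rw [Finset.prod_range_succ' (fun j => (X - C ((τ ^ j) • y) : L[X])) p, hexp τ, pow_zero,
      one_smul] at h2
    have h3 := mul_right_cancel₀ (X_sub_C_ne_zero y) h2
    rw [← h3]
    apply Finset.prod_congr rfl
    intro j _
    rw [pow_succ', mul_smul]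
  have hcoeff : ∀ i, ∃ q : ℚ, F.coeff i = q := by
    intro i
    apply hfix'
    · conv_rhs => rw [← hFτ]
      rw [coeff_map]; rfl
    · conv_rhs => rw [← hFη]
      rw [coeff_map]; rfl
  have hFdeg : F.natDegree = p := by
    rw [hF, natDegree_prod_of_monic _ _ (fun j _ => monic_X_sub_C _)]
    simp
  have hFmon : F.Monic := monic_prod_of_monic _ _ (fun j _ => monic_X_sub_C _)
  have hF' : (derivative F).natDegree < p := by
    have := natDegree_derivative_lt (p := F) (by rw [hFdeg]; exact hp.out.ne_zero)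
    rwa [hFdeg] at this
  have hevalsum : eval y (derivative F) =
      ∑ i ∈ Finset.range p, (F.coeff (i + 1) * ((i : L) + 1)) * y ^ i := by
    rw [eval_eq_sum_range' hF']
    apply Finset.sum_congr rfl
    intro i _
    rw [coeff_derivative]
  have hlow : ρ ^ (p ^ 2 + p * (p - 1)) ≤ ‖eval y (derivative F)‖ := by
    have h1 := norm_term_le_sum (Finset.range p)
      (fun i => (F.coeff (i + 1) * ((i : L) + 1)) * y ^ i) (by
        intro a ha b hb ha0 hb0 hab
        rw [Finset.mem_range] at ha hb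
        have hnorm : ∀ i : ℕ, (F.coeff (i + 1) * ((i : L) + 1)) * y ^ i ≠ 0 →
            ∃ k : ℤ, ‖(F.coeff (i + 1) * ((i : L) + 1)) * y ^ i‖ =
              ρ ^ ((p : ℤ) ^ 2 * k + p * i) := by
          intro i hi
          obtain ⟨q, hq⟩ := hcoeff (i + 1)
          have hq2 : F.coeff (i + 1) * ((i : L) + 1) = ((q * (i + 1) : ℚ) : L) := by
            rw [hq]; push_cast; ring
          have hq0 : (q * (i + 1) : ℚ) ≠ 0 := by
            intro h0
            apply hi
            rw [hq2, h0, Rat.cast_zero, zero_mul]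
          obtain ⟨k, hk⟩ := hrat _ hq0
          refine ⟨k, ?_⟩
          rw [hq2, norm_mul, norm_pow, hyn, hk, zpow_add₀ hρ0.ne', ← pow_mul]
          congr 1
        obtain ⟨k₁, hk₁⟩ := hnorm a ha0
        obtain ⟨k₂, hk₂⟩ := hnorm b hb0
        rw [hk₁, hk₂] at hab
        have h2 := zpow_right_injective₀ hρ0 hρ1.ne hab
        have hp0 : (p : ℤ) ≠ 0 := by exact_mod_cast hp.out.ne_zero
        have h3 : (p : ℤ) * k₁ + a = p * k₂ + b := by
          apply mul_left_cancel₀ hp0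
          linear_combination h2
        have h4 : (a : ℤ) % p = (b : ℤ) % p := by
          have := congrArg (fun t : ℤ => t % p) h3
          simpa [Int.add_emod, Int.mul_emod] using this
        rw [Int.emod_eq_of_lt (by positivity) (by exact_mod_cast ha),
          Int.emod_eq_of_lt (by positivity) (by exact_mod_cast hb)] at h4
        exact_mod_cast h4) (p - 1) (Finset.mem_range.2 (by omega))
    rw [← hevalsum] at h1
    refine le_trans (le_of_eq ?_) h1
    have h2 : F.coeff (p - 1 + 1) = 1 := by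
      rw [Nat.sub_add_cancel (by omega)]
      conv_lhs => rw [← hFdeg]
      exact hFmon.coeff_natDegree
    have h3 : ((p - 1 : ℕ) : L) + 1 = p := by
      rw [Nat.cast_sub (by omega)]; push_cast; ring
    rw [h2, h3, one_mul, norm_mul, norm_pow, hpn, hyn, pow_add, ← pow_mul]
  -- the product formula for the derivative
  have hF1 : F = (X - C y) * ∏ j ∈ Finset.range (p - 1), (X - C ((τ ^ (j + 1)) • y)) := by
    rw [hF]
    conv_lhs => rw [show p = (p - 1) + 1 by omega]
    rw [Finset.prod_range_succ']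
    simp only [pow_zero, one_smul]
    rw [mul_comm]
  have heval : eval y (derivative F) = ∏ j ∈ Finset.range (p - 1), (y - (τ ^ (j + 1)) • y) := by
    rw [hF1, derivative_mul, eval_add, eval_mul, eval_mul, eval_sub, eval_X, eval_C, sub_self,
      zero_mul, add_zero]
    simp [eval_prod]
  set δ := ‖τ • y - y‖ with hδ
  have hδj : ∀ j : ℕ, ‖y - (τ ^ (j + 1)) • y‖ ≤ δ := by
    intro j
    induction j with
    | zero => rw [zero_add, pow_one, norm_sub_rev]
    | succ j ih =>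
      have e : y - (τ ^ (j + 1 + 1)) • y = (y - (τ ^ (j + 1)) • y) +
          -((τ ^ (j + 1)) • (τ • y - y)) := by
        rw [smul_sub, ← mul_smul, ← pow_succ]; ring
      rw [e]
      refine (IsUltrametricDist.norm_add_le_max _ _).trans (max_le ih ?_)
      rw [norm_neg, hiso]
  have hup : ‖eval y (derivative F)‖ ≤ δ ^ (p - 1) := by
    rw [heval, norm_prod]
    calc _ ≤ ∏ _j ∈ Finset.range (p - 1), δ :=
          Finset.prod_le_prod (fun _ _ => norm_nonneg _) (fun j _ => hδj j)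
      _ = δ ^ (p - 1) := by rw [Finset.prod_const, Finset.card_range]
  -- δ is a power of ρ ^ p
  have hw0 : τ • y - y ≠ 0 := by
    intro h0
    rw [hδ, h0, norm_zero, zero_pow (by omega)] at hup
    have : 0 < ρ ^ (p ^ 2 + p * (p - 1)) := by positivity
    linarith
  set w := τ • y - y with hw
  obtain ⟨k, hk⟩ := hval w hw0
  have hwη : η • w = w := by
    rw [hw, smul_sub, ← mul_smul, hcomm η τ, mul_smul, hyη]
  obtain ⟨q, hq⟩ := hfix' (∏ j ∈ Finset.range p, (τ ^ j) • w) (hcyc τ w) (by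
    rw [Finset.smul_prod']
    apply Finset.prod_congr rfl
    intro j _
    rw [← mul_smul, hcomm η (τ ^ j), mul_smul, hwη])
  have hnq : ‖(q : L)‖ = ρ ^ (k * p) := by
    rw [← hq, norm_prod]
    simp only [hiso, hk, Finset.prod_const, Finset.card_range]
    rw [zpow_mul, zpow_natCast]
  have hq0 : q ≠ 0 := by
    rintro rfl
    rw [Rat.cast_zero, norm_zero] at hnq
    exact absurd hnq.symm (zpow_pos hρ0 _).ne'
  obtain ⟨m, hm⟩ := hrat q hq0
  rw [hnq] at hm
  have hkm := zpow_right_injective₀ hρ0 hρ1.ne hm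
  have hp0 : (p : ℤ) ≠ 0 := by exact_mod_cast hp.out.ne_zero
  have hkm' : k = p * m := by
    apply mul_right_cancel₀ hp0
    linear_combination hkm
  -- k > 2 p, hence k ≥ 3 p
  have hk2 : (2 * p + 1 : ℤ) ≤ k := by
    by_contra hcon
    push Not at hcon
    have h1 : ρ ^ (k : ℤ) ≤ ρ ^ ((2 * p + 1 : ℕ) : ℤ) := by
      rw [← hk, zpow_natCast]; exact hτy
    have h2 : ρ ^ ((2 * p + 1 : ℕ) : ℤ) < ρ ^ (k : ℤ) := by
      apply zpow_lt_zpow_right_of_lt_one₀ hρ0 hρ1
      push_cast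
      exact hcon
    linarith
  have hm3 : 3 ≤ m := by
    by_contra hcon
    have hm2 : m ≤ 2 := by omega
    have hpp : (0 : ℤ) < p := by exact_mod_cast hp.out.pos
    nlinarith
  have hk3 : (3 * p : ℤ) ≤ k := by
    have hpp : (0 : ℤ) < p := by exact_mod_cast hp.out.pos
    rw [hkm']; nlinarith
  have hδle : δ ≤ ρ ^ (3 * p) := by
    rw [hδ, hk]
    calc ρ ^ k ≤ ρ ^ ((3 * p : ℕ) : ℤ) :=
          zpow_le_zpow_right_of_le_one₀ hρ0 hρ1.le (by push_cast; exact hk3)
      _ = _ := zpow_natCast _ _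
  have hfinal : ρ ^ (p ^ 2 + p * (p - 1)) ≤ ρ ^ (3 * p * (p - 1)) := by
    calc _ ≤ δ ^ (p - 1) := hlow.trans hup
      _ ≤ (ρ ^ (3 * p)) ^ (p - 1) := by gcongr
      _ = _ := by rw [← pow_mul]
  have h5 : 3 * p * (p - 1) ≤ p ^ 2 + p * (p - 1) := by
    by_contra hcon
    push Not at hcon
    have := pow_lt_pow_right_of_lt_one₀ hρ0 hρ1 hcon
    linarith
  obtain ⟨t, rfl⟩ : ∃ t, p = t + 3 := ⟨p - 3, by omega⟩
  have h6 : t + 3 - 1 = t + 2 := by omega
  rw [h6] at h5
  nlinarith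

end LL

end Pool.Agent.GSem
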