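import Mathlib
import Pool.Agent.Lib.Helper90.GSem.Wild

/-!
# No totally ramified elementary abelian number field of rank two
-/

namespace Pool.Agent.GSem

open NumberField Ideal IsDedekindDomain

variable {p : ℕ} [hp : Fact p.Prime]

section

variable {K : Type*} [Field K] [NumberField K] (v : HeightOneSpectrum (𝓞 K))

theorem adicAbv_zpow (x : K) (hx : x ≠ 0) :
    ∃ k : ℤ, NumberField.HeightOneSpectrum.adicAbv K v x = (((absNorm v.asIdeal : ℕ) : ℝ)⁻¹) ^ k := by
  have hv : v.valuation K x ≠ 0 := (Valuation.ne_zero_iff _).2 hx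
  refine ⟨-(WithZero.unzero hv).toAdd, ?_⟩
  rw [NumberField.HeightOneSpectrum.adicAbv_def, WithZeroMulInt.toNNReal_neg_apply _ hv]
  push_cast
  rw [inv_zpow', neg_neg]

theorem adicAbv_int (x : 𝓞 K) (hx : x ≠ 0) :
    NumberField.HeightOneSpectrum.adicAbv K v (x : K) =
      (((absNorm v.asIdeal : ℕ) : ℝ)⁻¹) ^ (multiplicity v.asIdeal (Ideal.span {x})) := by
  have h1 : v.valuation K (x : K) = WithZero.exp (-(multiplicity v.asIdeal (Ideal.span {x}) : ℤ)) := by
    have := HeightOneSpectrum.valuation_of_algebraMap (K := K) v x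
    rw [HeightOneSpectrum.intValuation_eq_exp_neg_multiplicity v hx] at this
    exact this
  have hv : v.valuation K (x : K) ≠ 0 := by rw [h1]; exact WithZero.exp_ne_zero
  rw [NumberField.HeightOneSpectrum.adicAbv_def, WithZeroMulInt.toNNReal_neg_apply _ hv]
  rw [WithZero.toAdd_unzero_eq_log, h1, WithZero.log_exp]
  push_cast
  rw [zpow_neg, zpow_natCast, inv_pow]

/-- Invariance of the absolute value under automorphisms stabilising the prime. -/
theorem adicAbv_smul [IsGalois ℚ K] (σ : Gal(K/ℚ))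
    (hσ : ∀ x : 𝓞 K, x ∈ v.asIdeal → σ • x ∈ v.asIdeal)
    (hσ' : ∀ x : 𝓞 K, x ∈ v.asIdeal → σ⁻¹ • x ∈ v.asIdeal) (x : K) :
    NumberField.HeightOneSpectrum.adicAbv K v (σ x) =
      NumberField.HeightOneSpectrum.adicAbv K v x := by
  have hpow : ∀ (g : Gal(K/ℚ)), (∀ x : 𝓞 K, x ∈ v.asIdeal → g • x ∈ v.asIdeal) →
      ∀ (k : ℕ) (x : 𝓞 K), x ∈ v.asIdeal ^ k → g • x ∈ v.asIdeal ^ k := by
    intro g hg k x hx
    have h1 : Ideal.map (MulSemiringAction.toRingHom Gal(K/ℚ) (𝓞 K) g) v.asIdeal ≤ v.asIdeal := by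
      rw [Ideal.map_le_iff_le_comap]
      intro y hy
      exact hg y hy
    have h2 : MulSemiringAction.toRingHom Gal(K/ℚ) (𝓞 K) g x ∈
        Ideal.map (MulSemiringAction.toRingHom Gal(K/ℚ) (𝓞 K) g) (v.asIdeal ^ k) :=
      Ideal.mem_map_of_mem _ hx
    rw [Ideal.map_pow] at h2
    exact Ideal.pow_right_mono h1 k h2
  have hint : ∀ a : 𝓞 K, NumberField.HeightOneSpectrum.adicAbv K v (σ (a : K)) =
      NumberField.HeightOneSpectrum.adicAbv K v (a : K) := by
    intro a
    by_cases ha : a = 0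
    · subst ha; simp
    have ha' : σ • a ≠ 0 := by
      intro h
      apply ha
      have := congrArg (fun z => σ⁻¹ • z) h
      simpa using this
    have h1 : (σ (a : K)) = ((σ • a : 𝓞 K) : K) := rfl
    rw [h1, adicAbv_int v _ ha', adicAbv_int v _ ha]
    congr 1
    have h2 : emultiplicity v.asIdeal (Ideal.span {σ • a}) = emultiplicity v.asIdeal (Ideal.span {a}) := by
      rw [emultiplicity_eq_emultiplicity_iff]
      intro n
      rw [Ideal.dvd_span_singleton, Ideal.dvd_span_singleton]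
      constructor
      · intro h
        have := hpow σ⁻¹ hσ' n _ h
        rwa [inv_smul_smul] at this
      · exact hpow σ hσ n a
    exact multiplicity_eq_of_emultiplicity_eq h2
  obtain ⟨a, b, hb, rfl⟩ := IsFractionRing.div_surjective (𝓞 K) x
  rw [map_div₀, map_div₀, map_div₀]
  exact congrArg₂ _ (hint a) (hint b)

end

/-- There is no Galois number field with group of order `p ^ 2` and exponent `p`, totally ramified
at `p`, for `p` odd. -/
theorem no_totally_ramified (hp3 : p ≠ 2) (K : Type*) [Field K] [NumberField K] [IsGalois ℚ K]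
    (hcard : Nat.card Gal(K/ℚ) = p ^ 2) (hexp : ∀ σ : Gal(K/ℚ), σ ^ p = 1)
    (hcomm : ∀ σ τ : Gal(K/ℚ), σ * τ = τ * σ) (P : Ideal (𝓞 K)) [hP : P.IsMaximal]
    (hpP : (p : 𝓞 K) ∈ P) (hI : P.inertia Gal(K/ℚ) = ⊤) : False := by
  have hP0 : P ≠ ⊥ := Ideal.IsMaximal.ne_bot_of_isIntegral_int P
  set v : HeightOneSpectrum (𝓞 K) := ⟨P, hP.isPrime, hP0⟩ with hv
  have hp0 : (p : 𝓞 K) ≠ 0 := by exact_mod_cast hp.out.ne_zero
  have hpZ : Prime (p : ℤ) := Nat.prime_iff_prime_int.1 hp.out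
  have hunder : P.under ℤ = Ideal.span {(p : ℤ)} := by
    have hmax : (Ideal.span {(p : ℤ)}).IsMaximal :=
      PrincipalIdealRing.isMaximal_of_irreducible hpZ.irreducible
    symm
    apply hmax.eq_of_le
    · exact Ideal.IsPrime.ne_top (Ideal.IsPrime.under ℤ P)
    · rw [Ideal.span_singleton_le_iff_mem, Ideal.mem_comap]
      simpa using hpP
  -- ramification index
  have hram : P.ramificationIdx ℤ = p ^ 2 := by
    rw [← ramificationIdxIn_eq_ramificationIdx (P.under ℤ) P Gal(K/ℚ),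
      ← card_inertia_eq_ramificationIdxIn (R := ℤ) (G := Gal(K/ℚ)) (P.under ℤ) P, hI,
      Subgroup.card_top, hcard]
  have hmult : multiplicity P (Ideal.span {(p : 𝓞 K)}) = p ^ 2 := by
    rw [← hram]
    have h1 : (P.under ℤ).map (algebraMap ℤ (𝓞 K)) = Ideal.span {(p : 𝓞 K)} := by
      rw [hunder, Ideal.map_span, Set.image_singleton]; simp
    rw [IsDedekindDomain.ramificationIdx_eq_multiplicity (P.under ℤ) P (by
      rw [h1]; simpa using hp0), h1]
  -- residue field
  have hinertia : P.inertiaDeg ℤ = 1 := by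
    have h1 := ncard_primesOver_mul_card_inertia_mul_finrank (R := ℤ) (G := Gal(K/ℚ)) (P.under ℤ) P
    rw [hI, Subgroup.card_top] at h1
    have hpos : 0 < Nat.card Gal(K/ℚ) := Nat.card_pos
    have h2 : ((P.under ℤ).primesOver (𝓞 K)).ncard * P.inertiaDeg ℤ = 1 := by
      apply Nat.eq_of_mul_eq_mul_left hpos
      rw [mul_one]
      linear_combination h1
    exact Nat.eq_one_of_mul_eq_one_left h2
  have hLO : P.LiesOver (Ideal.span {(p : ℤ)}) := ⟨hunder.symm⟩
  have hN : absNorm P = p := by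
    rw [← Ideal.pow_inertiaDeg p P, hinertia, pow_one]
  have hresO : ∀ a : 𝓞 K, ∃ n : ℤ, a - n ∈ P := by
    intro a
    have hfin : Finite (𝓞 K ⧸ P) := P.finiteQuotientOfFreeOfNeBot hP0
    have : Fintype (𝓞 K ⧸ P) := Fintype.ofFinite _
    have hc : Fintype.card (𝓞 K ⧸ P) = p := by
      rw [← Nat.card_eq_fintype_card, ← hN, Ideal.absNorm_apply, Submodule.cardQuot_apply]
    let e := ZMod.ringEquivOfPrime (𝓞 K ⧸ P) hp.out hc
    obtain ⟨z, hz⟩ := e.surjective (Ideal.Quotient.mk P a)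
    obtain ⟨n, rfl⟩ := ZMod.intCast_surjective z
    refine ⟨n, ?_⟩
    rw [← Ideal.Quotient.eq_zero_iff_mem, map_sub, ← hz, map_intCast, map_intCast, sub_self]
  set f := NumberField.HeightOneSpectrum.adicAbv K v with hf
  have hna : ∀ x y : K, f (x + y) ≤ max (f x) (f y) := fun x y =>
    NumberField.HeightOneSpectrum.adicAbv_add_le_max K v x y
  set ρ : ℝ := ((absNorm v.asIdeal : ℕ) : ℝ)⁻¹ with hρ
  have hp1 : (1 : ℝ) < p := by exact_mod_cast hp.out.one_lt
  have hρp : ρ = (p : ℝ)⁻¹ := by rw [hρ, hv, hN]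
  have hρ0 : 0 < ρ := by rw [hρp]; positivity
  have hρ1 : ρ < 1 := by rw [hρp]; exact inv_lt_one_of_one_lt₀ hp1
  have hint : ∀ (a : 𝓞 K) (_ : a ≠ 0), f (a : K) = ρ ^ (multiplicity P (Ideal.span {a})) :=
    fun a ha => adicAbv_int v a ha
  have hlt : ∀ a : 𝓞 K, a ∈ P → f (a : K) < 1 := by
    intro a ha
    by_cases ha0 : a = 0
    · subst ha0; simp
    rw [hint a ha0]
    apply pow_lt_one₀ hρ0.le hρ1
    have h1 : FiniteMultiplicity P (Ideal.span {a}) :=
      FiniteMultiplicity.of_prime_left v.prime (by simpa using ha0)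
    rw [Ne, multiplicity_eq_zero, Ideal.dvd_span_singleton]
    exact not_not.2 ha
  have hres : ∀ x : K, f x ≤ 1 → ∃ n : ℤ, f (x - n) < 1 := by
    intro x hx
    have hmono := WithZeroMulInt.toNNReal_strictMono
      (NumberField.HeightOneSpectrum.one_lt_absNorm_nnreal v)
    have hvx : v.valuation K x ≤ 1 := by
      rw [← hmono.le_iff_le, map_one]
      have : f x = WithZeroMulInt.toNNReal (NumberField.HeightOneSpectrum.absNorm_ne_zero v)
        (v.valuation K x) := rfl
      rw [this] at hx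
      exact_mod_cast hx
    obtain ⟨a, ha⟩ := HeightOneSpectrum.exists_valuation_sub_lt_of_integer v hvx 1
    have ha' : f ((a : K) - x) < 1 := by
      have : f ((a : K) - x) = WithZeroMulInt.toNNReal
        (NumberField.HeightOneSpectrum.absNorm_ne_zero v) (v.valuation K ((a : K) - x)) := rfl
      rw [this]
      have h2 := hmono ha
      rw [Units.val_one, map_one] at h2
      exact_mod_cast h2
    obtain ⟨n, hn⟩ := hresO a
    refine ⟨n, ?_⟩
    have e : x - n = -((a : K) - x) + ((a - n : 𝓞 K) : K) := by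
      have h3 : (((n : ℤ) : 𝓞 K) : K) = (n : K) := by simp
      have h4 : ((a - n : 𝓞 K) : K) = (a : K) - (((n : ℤ) : 𝓞 K) : K) := rfl
      rw [h4, h3]
      ring
    rw [e]
    refine lt_of_le_of_lt (hna _ _) (max_lt ?_ (hlt _ hn))
    rw [AbsoluteValue.map_neg]
    exact ha'
  have hinv : ∀ (σ : Gal(K/ℚ)) (x : K), f (σ x) = f x := by
    intro σ x
    have hall : ∀ g : Gal(K/ℚ), ∀ x : 𝓞 K, x ∈ P → g • x ∈ P := by
      intro g x hx
      have h1 : g ∈ P.inertia Gal(K/ℚ) := by rw [hI]; trivial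
      have h2 : g • x - x ∈ P := h1 x
      have := P.add_mem h2 hx
      simpa using this
    exact adicAbv_smul v σ (hall σ) (hall σ⁻¹) x
  obtain ⟨π, hπ⟩ : ∃ π : K, f π = ρ := by
    obtain ⟨π, hπ1, hπ2⟩ := Ideal.exists_mem_pow_notMem_pow_succ P hP0 hP.ne_top 1
    have hπ0 : π ≠ 0 := by rintro rfl; exact hπ2 (zero_mem _)
    refine ⟨π, ?_⟩
    rw [hint π hπ0]
    have h1 : multiplicity P (Ideal.span {π}) = 1 := by
      apply multiplicity_eq_of_dvd_of_not_dvd
      · rw [Ideal.dvd_span_singleton]; exact hπ1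
      · rw [Ideal.dvd_span_singleton]; exact hπ2
    rw [h1, pow_one]
  let NF : NormedField K := f.toNormedField
  have hnorm : ∀ x : K, ‖x‖ = f x := fun x => rfl
  have : IsUltrametricDist K := by
    apply IsUltrametricDist.isUltrametricDist_of_forall_norm_add_le_max_norm
    intro x y
    exact hna x y
  refine no_elementary_abelian (p := p) (L := K) (G := Gal(K/ℚ)) hp3 hcard hexp hcomm
    (fun σ x => hinv σ x) ?_ ρ hρ0 hρ1 ?_ π hπ ?_ hres
  · intro y hy
    have h1 : y ∈ (⊥ : IntermediateField ℚ K) := by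
      rw [← IsGalois.fixedField_top (F := ℚ) (E := K)]
      rw [IntermediateField.mem_fixedField_iff]
      intro σ _
      exact hy σ
    obtain ⟨q, hq⟩ := IntermediateField.mem_bot.1 h1
    refine ⟨q, ?_⟩
    rw [← hq]
    simp
  · intro x hx
    obtain ⟨k, hk⟩ := adicAbv_zpow v x hx
    exact ⟨k, hk⟩
  · have h1 : ‖(p : K)‖ = f (((p : 𝓞 K) : 𝓞 K) : K) := by
      rw [hnorm]; congr 1
    rw [h1, hint _ hp0, hmult]

end Pool.Agent.GSem
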