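import Mathlib
import Pool.Agent.Lib.Helper90.GSem.Tame
import Pool.Agent.Lib.Helper90.GSem.Mink
import Pool.Agent.Lib.Helper90.GSem.WildField
import Pool.Agent.Lib.Helper90.GSem.Biquad
import Pool.Agent.Lib.Helper90.GSem.OpenField

/-!
# The absolute Galois group of `ℚ` has at most one independent homomorphism to `ℤ_[p]`
-/

namespace Pool.Agent.GSem

open NumberField Ideal

section

variable {p : ℕ} [hp : Fact p.Prime] {Ω : Type*} [Field Ω] [CharZero Ω] [IsGalois ℚ Ω]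

/-- A continuous homomorphism to `ℤ_[p]`. -/
structure ContHom (p : ℕ) [Fact p.Prime] (Ω : Type*) [Field Ω] [CharZero Ω] where
  /-- the underlying function -/
  toFun : Gal(Ω/ℚ) → ℤ_[p]
  map_mul : ∀ a b, toFun (a * b) = toFun a + toFun b
  cont : Continuous toFun

namespace ContHom

omit [IsGalois ℚ Ω] in
theorem map_one (f : ContHom p Ω) : f.toFun 1 = 0 := by
  have h := f.map_mul 1 1
  rw [mul_one] at h
  simpa using h

omit [IsGalois ℚ Ω] in
theorem map_pow (f : ContHom p Ω) (g : Gal(Ω/ℚ)) (n : ℕ) : f.toFun (g ^ n) = n * f.toFun g := by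
  induction n with
  | zero => simp [f.map_one]
  | succ n ih => rw [pow_succ, f.map_mul, ih]; push_cast; ring

/-- The reduction of a pair of homomorphisms modulo `p ^ k`. -/
noncomputable def pair (f κ : ContHom p Ω) (k : ℕ) :
    Gal(Ω/ℚ) →* Multiplicative (ZMod (p ^ k) × ZMod (p ^ k)) where
  toFun g := Multiplicative.ofAdd (PadicInt.toZModPow k (f.toFun g), PadicInt.toZModPow k (κ.toFun g))
  map_one' := by rw [f.map_one, κ.map_one]; simp
  map_mul' a b := by rw [f.map_mul, κ.map_mul, _root_.map_add, _root_.map_add]; rfl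

omit [IsGalois ℚ Ω] in
theorem mem_ker_pair (f κ : ContHom p Ω) (k : ℕ) (g : Gal(Ω/ℚ)) :
    g ∈ (pair f κ k).ker ↔ (p : ℤ_[p]) ^ k ∣ f.toFun g ∧ (p : ℤ_[p]) ^ k ∣ κ.toFun g := by
  rw [MonoidHom.mem_ker]
  have h1 : ∀ x : ℤ_[p], PadicInt.toZModPow k x = 0 ↔ (p : ℤ_[p]) ^ k ∣ x := by
    intro x
    rw [← RingHom.mem_ker, PadicInt.ker_toZModPow, Ideal.mem_span_singleton]
  rw [← h1, ← h1]
  constructor
  · intro h
    have h2 : (PadicInt.toZModPow k (f.toFun g), PadicInt.toZModPow k (κ.toFun g)) = (0, 0) := h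
    exact Prod.mk.inj h2
  · rintro ⟨h2, h3⟩
    change Multiplicative.ofAdd (PadicInt.toZModPow k (f.toFun g),
      PadicInt.toZModPow k (κ.toFun g)) = 1
    rw [h2, h3]; rfl

omit [IsGalois ℚ Ω] in
theorem isOpen_ker_pair (f κ : ContHom p Ω) (k : ℕ) :
    IsOpen ((pair f κ k).ker : Set Gal(Ω/ℚ)) := by
  have hball : IsOpen {x : ℤ_[p] | (p : ℤ_[p]) ^ k ∣ x} := by
    have e : {x : ℤ_[p] | (p : ℤ_[p]) ^ k ∣ x} = Metric.closedBall 0 ((p : ℝ) ^ (-k : ℤ)) := by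
      ext x
      rw [Metric.mem_closedBall, dist_zero_right, PadicInt.norm_le_pow_iff_mem_span_pow,
        Ideal.mem_span_singleton]
      rfl
    rw [e]
    exact IsUltrametricDist.isOpen_closedBall _ (zpow_pos (by exact_mod_cast hp.out.pos) _).ne'
  have e : ((pair f κ k).ker : Set Gal(Ω/ℚ)) =
      f.toFun ⁻¹' {x : ℤ_[p] | (p : ℤ_[p]) ^ k ∣ x} ∩ κ.toFun ⁻¹' {x : ℤ_[p] | (p : ℤ_[p]) ^ k ∣ x} := by
    ext g
    exact mem_ker_pair f κ k g
  rw [e]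
  exact (hball.preimage f.cont).inter (hball.preimage κ.cont)

end ContHom

omit [IsGalois ℚ Ω] in
/-- Existence of the level subgroups. -/
theorem exists_level_subgroup (f κ : ContHom p Ω) (k : ℕ) : ∃ N : Subgroup Gal(Ω/ℚ), N.Normal ∧
    IsOpen (N : Set Gal(Ω/ℚ)) ∧
    ∀ g, g ∈ N ↔ (p : ℤ_[p]) ^ k ∣ f.toFun g ∧ (p : ℤ_[p]) ^ k ∣ κ.toFun g :=
  ⟨(ContHom.pair f κ k).ker, inferInstance, ContHom.isOpen_ker_pair f κ k,
    ContHom.mem_ker_pair f κ k⟩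

/-- Away from `p`, the field cut out by a pair of homomorphisms modulo `p` is unramified. -/
theorem inertia_eq_bot (f κ : ContHom p Ω) (N₁ : Subgroup Gal(Ω/ℚ))
    (hN₁ : ∀ g, g ∈ N₁ ↔ (p : ℤ_[p]) ∣ f.toFun g ∧ (p : ℤ_[p]) ∣ κ.toFun g)
    [hNF : NumberField (ofOpen N₁)] [hGal : IsGalois ℚ (ofOpen N₁)]
    (P : Ideal (𝓞 (ofOpen N₁))) [hP : P.IsMaximal]
    (hpP : (p : 𝓞 (ofOpen N₁)) ∉ P) :
    P.inertia Gal(ofOpen N₁/ℚ) = ⊥ := by
  -- the level
  obtain ⟨q, hq⟩ : ∃ q : ℕ, q = Nat.card (ℤ ⧸ P.under ℤ) := ⟨_, rfl⟩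
  have hkq : q < p ^ q := Nat.lt_pow_self hp.out.one_lt
  have hP0 : P ≠ ⊥ := Ideal.IsMaximal.ne_bot_of_isIntegral_int P
  have hq2 : 2 ≤ q := by
    have hfin : Finite (𝓞 (ofOpen N₁) ⧸ P) := Ideal.finiteQuotientOfFreeOfNeBot P hP0
    have hfin' : Finite (ℤ ⧸ P.under ℤ) :=
      .of_injective _ (Ideal.algebraMap_quotient_injective (I := P))
    have hnt : Nontrivial (ℤ ⧸ P.under ℤ) :=
      Ideal.Quotient.nontrivial_iff.2 (Ideal.IsPrime.under ℤ P).ne_top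
    rw [hq]
    exact Finite.one_lt_card
  obtain ⟨Nk, hNkn, hopen, hNk⟩ := exists_level_subgroup f κ q
  have hle : Nk ≤ N₁ := by
    intro g hg
    rw [hNk] at hg
    rw [hN₁]
    have h1 : (p : ℤ_[p]) ∣ (p : ℤ_[p]) ^ q := dvd_pow_self _ (by omega)
    exact ⟨h1.trans hg.1, h1.trans hg.2⟩
  have hNFk : NumberField (ofOpen Nk) := numberField_ofOpen hopen
  have hGk : IsGalois ℚ (ofOpen Nk) := isGalois_ofOpen hopen
  have hLE : ofOpen N₁ ≤ ofOpen Nk := IntermediateField.fixedField_antitone hle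
  let _ : Algebra (ofOpen N₁) (ofOpen Nk) := (IntermediateField.inclusion hLE).toRingHom.toAlgebra
  obtain ⟨Q, hQ, hQP⟩ := Ideal.exists_maximal_ideal_liesOver_of_isIntegral
    (S := 𝓞 (ofOpen Nk)) P
  obtain ⟨r, hrs, hrk, hr⟩ := exists_restrict_ofOpen hopen
  have hQ0 : Q ≠ ⊥ := Ideal.IsMaximal.ne_bot_of_isIntegral_int Q
  have hQfin : Finite (𝓞 (ofOpen Nk) ⧸ Q) := Ideal.finiteQuotientOfFreeOfNeBot Q hQ0
  obtain ⟨φ, hφ⟩ := IsArithFrobAt.exists_of_isInvariant ℤ Gal(ofOpen Nk/ℚ) Q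
  have hQq : Nat.card (ℤ ⧸ Q.under ℤ) = q := by
    rw [hq, hQP.over, Ideal.under_under]
  have hcomm : ∀ a b : Gal(ofOpen Nk/ℚ), a * b = b * a := by
    intro a b
    obtain ⟨g, rfl⟩ := hrs a
    obtain ⟨h, rfl⟩ := hrs b
    rw [← map_mul, ← map_mul, ← inv_mul_eq_one, ← map_inv, ← map_mul]
    rw [← MonoidHom.mem_ker, hrk, hNk]
    have e : ∀ u : ContHom p Ω, u.toFun ((g * h)⁻¹ * (h * g)) = 0 := by
      intro u
      have h1 := u.map_mul (g * h) ((g * h)⁻¹ * (h * g))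
      rw [mul_inv_cancel_left, u.map_mul, u.map_mul] at h1
      linear_combination -h1
    rw [e, e]
    exact ⟨dvd_zero _, dvd_zero _⟩
  have hexp : ∀ a : Gal(ofOpen Nk/ℚ), a ^ (p ^ q) = 1 := by
    intro a
    obtain ⟨g, rfl⟩ := hrs a
    rw [← map_pow, ← MonoidHom.mem_ker, hrk, hNk, ContHom.map_pow, ContHom.map_pow]
    push_cast
    exact ⟨dvd_mul_right _ _, dvd_mul_right _ _⟩
  have hpQ : ((p ^ q : ℕ) : 𝓞 (ofOpen Nk)) ∉ Q := by
    intro h
    push_cast at h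
    have h1 := hQ.isPrime.mem_of_pow_mem _ h
    apply hpP
    rw [hQP.over, Ideal.mem_comap, map_natCast]
    exact h1
  have hfix : ∀ σ : Gal(ofOpen Nk/ℚ), σ ∈ Q.inertia Gal(ofOpen Nk/ℚ) → ∀ x : ofOpen N₁,
      σ (algebraMap (ofOpen N₁) (ofOpen Nk) x) = algebraMap (ofOpen N₁) (ofOpen Nk) x := by
    intro σ hσ x
    have h1 : ∀ x : 𝓞 (ofOpen Nk), (σ ^ (q - 1)) • x = x := by
      intro x
      refine tame Q hQ0 q hq2 σ φ (fun x => hσ x) (fun x => ?_) (hcomm _ _) (p ^ q) (hexp σ) hpQ x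
      have := hφ x
      rw [hQq] at this
      exact this
    have h2 : σ ^ (q - 1) = 1 := by
      apply AlgEquiv.ext
      intro y
      obtain ⟨u, v, _, rfl⟩ := IsFractionRing.div_surjective (A := 𝓞 (ofOpen Nk)) y
      have h3 : ∀ z : 𝓞 (ofOpen Nk), (σ ^ (q - 1)) (algebraMap (𝓞 (ofOpen Nk)) (ofOpen Nk) z) =
          algebraMap (𝓞 (ofOpen Nk)) (ofOpen Nk) z := fun z =>
        congrArg (fun w : 𝓞 (ofOpen Nk) => (w : ofOpen Nk)) (h1 z)
      rw [map_div₀, h3, h3]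
      rfl
    obtain ⟨g, rfl⟩ := hrs σ
    rw [← map_pow, ← MonoidHom.mem_ker, hrk, hNk, ContHom.map_pow, ContHom.map_pow] at h2
    have hdiv : ∀ z : ℤ_[p], (p : ℤ_[p]) ^ q ∣ ((q - 1 : ℕ) : ℤ_[p]) * z → (p : ℤ_[p]) ∣ z := by
      intro z hz
      by_contra hcon
      have hz1 : IsUnit z := by
        rw [PadicInt.isUnit_iff]
        by_contra h
        apply hcon
        rw [← PadicInt.norm_lt_one_iff_dvd]
        exact lt_of_le_of_ne (PadicInt.norm_le_one z) h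
      rw [hz1.dvd_mul_right] at hz
      have h5 : (p ^ q : ℕ) ∣ (q - 1) := by
        have := (PadicInt.pow_p_dvd_int_iff (p := p) q (q - 1 : ℕ)).1 (by exact_mod_cast hz)
        exact_mod_cast this
      have h6 := Nat.le_of_dvd (by omega) h5
      omega
    have hgN : g ∈ N₁ := (hN₁ g).2 ⟨hdiv _ h2.1, hdiv _ h2.2⟩
    apply Subtype.ext
    rw [hr]
    exact fixes_of_mem hgN _ x.2
  have h1 := ramificationIdx_under_eq_one (ofOpen N₁) (ofOpen Nk) Q hfix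
  rw [← hQP.over] at h1
  have h2 : Nat.card (P.inertia Gal(ofOpen N₁/ℚ)) = 1 := by
    rw [card_inertia_eq_ramificationIdxIn (R := ℤ) (G := Gal(ofOpen N₁/ℚ)) (P.under ℤ) P,
      ramificationIdxIn_eq_ramificationIdx (P.under ℤ) P Gal(ofOpen N₁/ℚ), h1]
  exact (Subgroup.card_eq_one).1 h2

end

end Pool.Agent.GSem
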