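import Mathlib
import Pool.Agent.Lib.Helper90.GSem.KW

/-!
# Linear dependence of the `p`-adic characters of the absolute Galois group of `ℚ`
-/

namespace Pool.Agent.GSem

open NumberField Ideal

section

variable {p : ℕ} [hp : Fact p.Prime] {Ω : Type*} [Field Ω] [CharZero Ω] [IsGalois ℚ Ω]

/-- A nonzero homomorphism is a multiple of one which takes the value `1`. -/
theorem ContHom.normalize (u : ContHom p Ω) (hu : ∃ g, u.toFun g ≠ 0) :
    ∃ (g : Gal(Ω/ℚ)) (v : ContHom p Ω), u.toFun g ≠ 0 ∧ v.toFun g = 1 ∧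
      ∀ x, u.toFun x = u.toFun g * v.toFun x := by
  obtain ⟨g, _, hg⟩ := isCompact_univ.exists_isMaxOn (Set.univ_nonempty (α := Gal(Ω/ℚ)))
    (f := fun x => ‖u.toFun x‖) (u.cont.norm.continuousOn)
  have hg' : ∀ x, ‖u.toFun x‖ ≤ ‖u.toFun g‖ := fun x => hg (Set.mem_univ x)
  have hg0 : u.toFun g ≠ 0 := by
    obtain ⟨x, hx⟩ := hu
    intro h
    have := hg' x
    rw [h, norm_zero] at this
    exact hx (norm_le_zero_iff.1 this)
  have hgq : ((u.toFun g : ℤ_[p]) : ℚ_[p]) ≠ 0 := by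
    intro h
    exact hg0 (Subtype.ext h)
  have hnorm : ∀ x, ‖((u.toFun x : ℤ_[p]) : ℚ_[p]) / ((u.toFun g : ℤ_[p]) : ℚ_[p])‖ ≤ 1 := by
    intro x
    rw [norm_div]
    exact div_le_one_of_le₀ (hg' x) (norm_nonneg _)
  refine ⟨g, ⟨fun x => ⟨((u.toFun x : ℤ_[p]) : ℚ_[p]) / ((u.toFun g : ℤ_[p]) : ℚ_[p]), hnorm x⟩,
    ?_, ?_⟩, hg0, ?_, ?_⟩
  · intro a b
    apply Subtype.ext
    change ((u.toFun (a * b) : ℤ_[p]) : ℚ_[p]) / _ = _ / _ + _ / _
    rw [u.map_mul]
    push_cast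
    rw [add_div]
  · apply Continuous.subtype_mk
    exact (continuous_subtype_val.comp u.cont).div_const _
  · apply Subtype.ext
    change ((u.toFun g : ℤ_[p]) : ℚ_[p]) / _ = 1
    exact div_self hgq
  · intro x
    apply Subtype.ext
    change ((u.toFun x : ℤ_[p]) : ℚ_[p]) = _ * (_ / _)
    field_simp

/-- The inertia groups of conjugate primes in an abelian extension agree. -/
theorem inertia_le_of_comm {K : Type*} [Field K] [NumberField K] [IsGalois ℚ K]
    (hcomm : ∀ σ τ : Gal(K/ℚ), σ * τ = τ * σ) (P P' : Ideal (𝓞 K)) [hP : P.IsMaximal]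
    [hP' : P'.IsMaximal] (h : P.under ℤ = P'.under ℤ) :
    P'.inertia Gal(K/ℚ) ≤ P.inertia Gal(K/ℚ) := by
  obtain ⟨σ, hσ⟩ := Algebra.IsInvariant.exists_smul_of_under_eq ℤ (𝓞 K) Gal(K/ℚ) P P' h
  intro τ hτ x
  have h1 := hτ (σ • x)
  rw [Submodule.mem_toAddSubgroup] at h1
  rw [hσ] at h1
  have h2 : τ • σ • x - σ • x = σ • (τ • x - x) := by
    rw [smul_sub, ← mul_smul, ← mul_smul, hcomm]
  rw [h2, Ideal.smul_mem_pointwise_smul_iff] at h1
  exact h1

/-- **Kronecker–Weber for `ℤ_[p]`-extensions**: there are no two homomorphisms which are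
simultaneously normalised. -/
theorem no_normalized_pair (f κ : ContHom p Ω) (g₁ g₂ : Gal(Ω/ℚ)) (hf1 : f.toFun g₁ = 0)
    (hκ1 : κ.toFun g₁ = 1) (hf2 : f.toFun g₂ = 1) : False := by
  obtain ⟨N, hNn, hopen, hN⟩ := exists_level_subgroup f κ 1
  have hN' : ∀ g, g ∈ N ↔ (p : ℤ_[p]) ∣ f.toFun g ∧ (p : ℤ_[p]) ∣ κ.toFun g := by
    intro g
    rw [hN, pow_one]
  have hNF : NumberField (ofOpen N) := numberField_ofOpen hopen
  have hGal : IsGalois ℚ (ofOpen N) := isGalois_ofOpen hopen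
  obtain ⟨r, hrs, hrk, hr⟩ := exists_restrict_ofOpen hopen
  have hcomm : ∀ a b : Gal(ofOpen N/ℚ), a * b = b * a := by
    intro a b
    obtain ⟨g, rfl⟩ := hrs a
    obtain ⟨h, rfl⟩ := hrs b
    rw [← map_mul, ← map_mul, ← inv_mul_eq_one, ← map_inv, ← map_mul]
    rw [← MonoidHom.mem_ker, hrk, hN']
    have e : ∀ u : ContHom p Ω, u.toFun ((g * h)⁻¹ * (h * g)) = 0 := by
      intro u
      have h1 := u.map_mul (g * h) ((g * h)⁻¹ * (h * g))
      rw [mul_inv_cancel_left, u.map_mul, u.map_mul] at h1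
      linear_combination -h1
    rw [e, e]
    exact ⟨dvd_zero _, dvd_zero _⟩
  have hexp : ∀ a : Gal(ofOpen N/ℚ), a ^ p = 1 := by
    intro a
    obtain ⟨g, rfl⟩ := hrs a
    rw [← map_pow, ← MonoidHom.mem_ker, hrk, hN', ContHom.map_pow, ContHom.map_pow]
    exact ⟨dvd_mul_right _ _, dvd_mul_right _ _⟩
  have hcard : Nat.card Gal(ofOpen N/ℚ) = p ^ 2 := by
    have hker : (ContHom.pair f κ 1).ker = N := by
      ext g
      rw [ContHom.mem_ker_pair, hN]
    have hsurj : Function.Surjective (ContHom.pair f κ 1) := by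
      have hp1 : ∀ z : ZMod (p ^ 1), ∃ n : ℕ, (n : ZMod (p ^ 1)) = z := by
        intro z
        have : NeZero (p ^ 1) := ⟨pow_ne_zero _ hp.out.ne_zero⟩
        exact ⟨z.val, ZMod.natCast_zmod_val z⟩
      intro y
      obtain ⟨⟨a, b⟩, rfl⟩ : ∃ z : ZMod (p ^ 1) × ZMod (p ^ 1), Multiplicative.ofAdd z = y :=
        ⟨_, rfl⟩
      obtain ⟨m, hm⟩ := hp1 a
      obtain ⟨n, hn⟩ := hp1 (b - m * PadicInt.toZModPow 1 (κ.toFun g₂))
      refine ⟨g₂ ^ m * g₁ ^ n, ?_⟩
      have h1 : f.toFun (g₂ ^ m * g₁ ^ n) = m := by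
        rw [f.map_mul, f.map_pow, f.map_pow, hf1, hf2]; ring
      have h2 : κ.toFun (g₂ ^ m * g₁ ^ n) = m * κ.toFun g₂ + n := by
        rw [κ.map_mul, κ.map_pow, κ.map_pow, hκ1]; ring
      change Multiplicative.ofAdd (PadicInt.toZModPow 1 (f.toFun (g₂ ^ m * g₁ ^ n)),
        PadicInt.toZModPow 1 (κ.toFun (g₂ ^ m * g₁ ^ n))) = _
      rw [h1, h2, map_add, map_mul, map_natCast, map_natCast, hm, hn]
      congr 2
      rw [← hm]; ring
    have e1 := Nat.card_congr (QuotientGroup.quotientKerEquivOfSurjective _ hrs).toEquiv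
    have e2 := Nat.card_congr (QuotientGroup.quotientKerEquivOfSurjective _ hsurj).toEquiv
    have e3 : Nat.card (Gal(Ω/ℚ) ⧸ r.ker) = Nat.card (Gal(Ω/ℚ) ⧸ (ContHom.pair f κ 1).ker) := by
      rw [hrk, hker]
    rw [← e1, e3, e2]
    have e4 : Nat.card (Multiplicative (ZMod (p ^ 1) × ZMod (p ^ 1))) =
        Nat.card (ZMod (p ^ 1) × ZMod (p ^ 1)) := rfl
    rw [e4, Nat.card_prod, Nat.card_zmod, pow_one, pow_two]
  -- a prime above `p`
  have hpZ : Prime (p : ℤ) := Nat.prime_iff_prime_int.1 hp.out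
  have hmax : (Ideal.span {(p : ℤ)}).IsMaximal :=
    PrincipalIdealRing.isMaximal_of_irreducible hpZ.irreducible
  have hunder : ∀ P : Ideal (𝓞 (ofOpen N)), P.IsMaximal → (p : 𝓞 (ofOpen N)) ∈ P →
      P.under ℤ = Ideal.span {(p : ℤ)} := by
    intro P hP hpP
    symm
    apply hmax.eq_of_le
    · exact Ideal.IsPrime.ne_top (Ideal.IsPrime.under ℤ P)
    · rw [Ideal.span_singleton_le_iff_mem, Ideal.mem_comap, map_natCast]
      exact hpP
  obtain ⟨P, hP, hPp⟩ := Ideal.exists_maximal_ideal_liesOver_of_isIntegral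
    (S := 𝓞 (ofOpen N)) (Ideal.span {(p : ℤ)})
  have hpP : (p : 𝓞 (ofOpen N)) ∈ P := by
    have h1 : (p : ℤ) ∈ P.under ℤ := by
      rw [← hPp.over]
      exact Ideal.mem_span_singleton_self _
    rw [Ideal.mem_comap, map_natCast] at h1
    exact h1
  have hI : P.inertia Gal(ofOpen N/ℚ) = ⊤ := by
    apply eq_top_of_inertia_le
    intro P' hP'
    by_cases hpP' : (p : 𝓞 (ofOpen N)) ∈ P'
    · apply inertia_le_of_comm hcomm
      rw [hunder P hP hpP, hunder P' hP' hpP']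
    · rw [inertia_eq_bot f κ N hN' P' hpP']
      exact bot_le
  by_cases hp2 : p = 2
  · subst hp2
    -- complex conjugation
    let ι : Ω →ₐ[ℚ] ℂ := IsAlgClosed.lift
    let _ : Algebra Ω ℂ := ι.toRingHom.toAlgebra
    have hst : IsScalarTower ℚ Ω ℂ := IsScalarTower.of_algebraMap_eq (fun q => (ι.commutes q).symm)
    set c : Gal(Ω/ℚ) := (Complex.conjAe.restrictScalars ℚ).restrictNormal Ω with hc
    have hcι : ∀ x : Ω, ι (c x) = (starRingEnd ℂ) (ι x) := by
      intro x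
      exact AlgEquiv.restrictNormal_commutes (F := ℚ) (K₁ := ℂ) (K₂ := ℂ)
        (Complex.conjAe.restrictScalars ℚ) Ω x
    have hc2 : c ^ 2 = 1 := by
      apply AlgEquiv.ext
      intro x
      apply ι.injective
      rw [pow_two, AlgEquiv.mul_apply]
      change ι (c (c x)) = ι x
      rw [hcι, hcι, Complex.conj_conj]
    have hz : ∀ u : ContHom 2 Ω, u.toFun c = 0 := by
      intro u
      have h1 := u.map_pow c 2
      rw [hc2, u.map_one] at h1
      have h2 : ((2 : ℕ) : ℤ_[2]) ≠ 0 := by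
        exact_mod_cast (two_ne_zero : (2 : ℤ_[2]) ≠ 0)
      exact (mul_eq_zero.1 h1.symm).resolve_left h2
    have hcN : c ∈ N := by
      rw [hN', hz, hz]
      exact ⟨dvd_zero _, dvd_zero _⟩
    have hreal : ∀ x : ofOpen N, (ι (x : Ω)).im = 0 := by
      intro x
      have h1 := hcι (x : Ω)
      rw [fixes_of_mem hcN _ x.2] at h1
      exact Complex.conj_eq_iff_im.1 h1.symm
    let φ : ofOpen N →+* ℝ :=
      { toFun := fun x => (ι (x : Ω)).re
        map_one' := by simp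
        map_mul' := fun x y => by
          have h1 := hreal x
          have h2 := hreal y
          simp only [MulMemClass.coe_mul, map_mul, Complex.mul_re, h1, h2, mul_zero, sub_zero]
        map_zero' := by simp
        map_add' := fun x y => by simp }
    refine no_real_biquadratic (K := ofOpen N) (by rw [hcard]; norm_num) hexp hcomm ?_ φ
    intro P' hP' h2
    exact inertia_eq_bot f κ N hN' P' (by exact_mod_cast h2)
  · exact no_totally_ramified hp2 (ofOpen N) hcard hexp hcomm P hpP hI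

/-- **Linear dependence** of two continuous homomorphisms of the absolute Galois group of `ℚ` to
`ℤ_[p]`. -/
theorem exists_linear_relation (f κ : ContHom p Ω) (hκ : ∃ g, κ.toFun g ≠ 0) :
    ∃ a b : ℤ_[p], a ≠ 0 ∧ ∀ x, a * f.toFun x = b * κ.toFun x := by
  obtain ⟨g₁, κ₁, hg₁, h11, hκ₁⟩ := κ.normalize hκ
  -- subtract
  let f₁ : ContHom p Ω :=
    { toFun := fun x => f.toFun x - f.toFun g₁ * κ₁.toFun x
      map_mul := fun a b => by rw [f.map_mul, κ₁.map_mul]; ring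
      cont := f.cont.sub (continuous_const.mul κ₁.cont) }
  by_cases hf₁ : ∃ g, f₁.toFun g ≠ 0
  · exfalso
    obtain ⟨g₂, f₂, hg₂, h22, hf₂⟩ := f₁.normalize hf₁
    refine no_normalized_pair f₂ κ₁ g₁ g₂ ?_ h11 h22
    have h1 := hf₂ g₁
    have h2 : f₁.toFun g₁ = 0 := by
      change f.toFun g₁ - f.toFun g₁ * κ₁.toFun g₁ = 0
      rw [h11]; ring
    rw [h2] at h1
    exact (mul_eq_zero.1 h1.symm).resolve_left hg₂
  · push Not at hf₁
    refine ⟨κ.toFun g₁, f.toFun g₁, hg₁, ?_⟩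
    intro x
    have h1 : f.toFun x - f.toFun g₁ * κ₁.toFun x = 0 := hf₁ x
    rw [hκ₁ x]
    linear_combination κ.toFun g₁ * h1

end

end Pool.Agent.GSem
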