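import Mathlib
import Pool.Agent.Lib.Helper90.GSem.CycChar
import Pool.Agent.Lib.Helper90.GSem.KW2

/-!
# Characters of `G_ℚ` which are trivial over `ℂ_p` have finite order
-/

namespace Pool.Agent.GSem

open NumberField

section toQ

variable {p : ℕ} [hp : Fact p.Prime]

theorem toQ_apply (u : ℤ_[p]ˣ) : toQ u = (((u : ℤ_[p]) : ℤ_[p]) : ℚ_[p]) := rfl

theorem toQ_injective : Function.Injective (toQ (p := p)) := by
  intro u v h
  exact Units.ext (Subtype.ext h)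

theorem toQ_ne_zero (u : ℤ_[p]ˣ) : toQ u ≠ 0 := by
  intro h
  have h1 : toQ u * toQ u⁻¹ = 1 := by rw [← map_mul, mul_inv_cancel, map_one]
  rw [h, zero_mul] at h1
  exact zero_ne_one h1

theorem exists_toQ {x : ℚ_[p]} (hx : ‖x‖ = 1) : ∃ u : ℤ_[p]ˣ, toQ u = x :=
  ⟨PadicInt.mkUnits hx, PadicInt.mkUnits_eq hx⟩

end toQ

section

variable {p : ℕ} [hp : Fact p.Prime] {Ω : Type*} [Field Ω] [CharZero Ω] [IsAlgClosed Ω]
  [IsGalois ℚ Ω]

omit [IsAlgClosed Ω] [IsGalois ℚ Ω] in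
theorem Compat.unique {ι : Ω →+* PadicAlgCl p} {σ : Gal(PadicAlgCl p/ℚ_[p])} {g g' : Gal(Ω/ℚ)}
    (h : Compat ι σ g) (h' : Compat ι σ g') : g = g' := by
  apply AlgEquiv.ext
  intro x
  apply ι.injective
  rw [h, h']

omit [IsGalois ℚ Ω] in
/-- **Tate**: no nontrivial power of the cyclotomic character is trivialised by `ℂ_p`. -/
theorem exists_ne_twist [Normal ℚ Ω] (ι : Ω →+* PadicAlgCl p) (c : ℂ_[p]) (hc : c ≠ 0) (m : ℤ)
    (hm : m ≠ 0) : ∃ (σ : Gal(PadicAlgCl p/ℚ_[p])) (g : Gal(Ω/ℚ)), Compat ι σ g ∧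
      galC σ c ≠ algebraMap ℚ_[p] ℂ_[p] (toQ (cyc p Ω g) ^ m) * c := by
  by_contra hcon
  push Not at hcon
  choose r hr using fun σ => exists_compat (Ω := Ω) ι σ
  obtain ⟨γ, g₀, hg₀, hinf⟩ := exists_infinite_order (Ω := Ω) ι
  obtain ⟨k, hk, hk1⟩ := tate c hc (fun σ => toQ (cyc p Ω (r σ)) ^ m)
    (fun σ => hcon σ (r σ) (hr σ)) (fun σ hσ => by
      rw [cyc_eq_one_of_compat (hr σ) hσ, map_one, one_zpow]) γ
  have hrg : r γ = g₀ := (hr γ).unique hg₀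
  rw [hrg] at hk1
  have h1 : (cyc p Ω g₀ ^ m) ^ k = 1 := by
    apply toQ_injective
    rw [map_pow, map_zpow, hk1, map_one]
  rw [← zpow_natCast, ← zpow_mul] at h1
  have h2 : m * (k : ℤ) ≠ 0 := mul_ne_zero hm (by exact_mod_cast hk.ne')
  apply hinf (m * (k : ℤ)).natAbs (Int.natAbs_pos.2 h2)
  rcases Int.natAbs_eq (m * (k : ℤ)) with h3 | h3
  · rw [← zpow_natCast, ← h3, h1]
  · have h4 : ((m * (k : ℤ)).natAbs : ℤ) = -(m * k) := by omega
    rw [← zpow_natCast, h4, zpow_neg, h1, inv_one]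

/-- **Finiteness**: a continuous character of `G_ℚ` with values in `ℤ_[p]ˣ` whose restriction to the
decomposition group at `p` becomes trivial over `ℂ_p` has finite order. -/
theorem finite_order (ι : Ω →+* PadicAlgCl p) (ψ : Gal(Ω/ℚ) →* ℤ_[p]ˣ) (hψ : Continuous ψ)
    (x : ℂ_[p]) (hx : x ≠ 0)
    (h : ∀ σ g, Compat ι σ g →
      galC σ x = algebraMap ℚ_[p] ℂ_[p] (toQ (ψ g)) * x) :
    ∃ N : ℕ, 0 < N ∧ ∀ g, ψ g ^ N = 1 := by
  obtain ⟨L, N, hN, hLmul, hLc, hL0⟩ := exists_log p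
  have hL1 : L 1 = 0 := by
    have := hLmul 1 1
    rw [mul_one] at this
    simpa using this
  have hLpow : ∀ (u : ℤ_[p]ˣ) (k : ℕ), L (u ^ k) = k * L u := by
    intro u k
    induction k with
    | zero => rw [pow_zero, hL1]; simp
    | succ k ih => rw [pow_succ, hLmul, ih]; push_cast; ring
  let f : ContHom p Ω := ⟨fun g => L (ψ g), fun a b => by rw [map_mul, hLmul], hLc.comp hψ⟩
  let κ : ContHom p Ω := ⟨fun g => L (cyc p Ω g), fun a b => by rw [map_mul, hLmul],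
    hLc.comp (continuous_cyc p Ω)⟩
  obtain ⟨γ, g₀, hg₀, hinf⟩ := exists_infinite_order (Ω := Ω) ι
  have hκ0 : κ.toFun g₀ ≠ 0 := fun h0 => hinf N hN (hL0 _ h0)
  obtain ⟨a, b, ha, hab⟩ := exists_linear_relation f κ ⟨g₀, hκ0⟩
  have hker : ∀ g, cyc p Ω g = 1 → ψ g ^ N = 1 := by
    intro g hg
    apply hL0
    have h1 := hab g
    have h2 : κ.toFun g = 0 := by
      change L (cyc p Ω g) = 0
      rw [hg, hL1]
    rw [h2, mul_zero] at h1
    exact (mul_eq_zero.1 h1).resolve_left ha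
  choose r hr using fun σ => exists_compat (Ω := Ω) ι σ
  obtain ⟨k, hk, hk1⟩ := tate (x ^ N) (pow_ne_zero _ hx)
    (fun σ => toQ (ψ (r σ) ^ N))
    (fun σ => by
      rw [map_pow, h σ (r σ) (hr σ), mul_pow, map_pow, map_pow])
    (fun σ hσ => by
      rw [hker _ (cyc_eq_one_of_compat (hr σ) hσ), map_one]) γ
  have hrg : r γ = g₀ := (hr γ).unique hg₀
  rw [hrg] at hk1
  have h1 : (ψ g₀ ^ N) ^ k = 1 := by
    apply toQ_injective
    rw [map_pow, hk1, map_one]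
  have h2 : f.toFun g₀ = 0 := by
    have h3 : L ((ψ g₀ ^ N) ^ k) = 0 := by rw [h1, hL1]
    rw [hLpow, hLpow] at h3
    have h4 : (k : ℤ_[p]) ≠ 0 := by exact_mod_cast hk.ne'
    have h5 : (N : ℤ_[p]) ≠ 0 := by exact_mod_cast hN.ne'
    exact (mul_eq_zero.1 ((mul_eq_zero.1 h3).resolve_left h4)).resolve_left h5
  have h3 := hab g₀
  rw [h2, mul_zero] at h3
  have hb : b = 0 := (mul_eq_zero.1 h3.symm).resolve_right hκ0
  refine ⟨N, hN, fun g => hL0 _ ?_⟩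
  have h4 := hab g
  rw [hb, zero_mul] at h4
  exact (mul_eq_zero.1 h4).resolve_left ha

end

end Pool.Agent.GSem
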