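import Mathlib

/-!
# Linear algebra: isotropic subspaces, orthogonal complements, weights of determinants
-/

namespace Pool.Agent.GSem

open Polynomial Module

section perp

variable {k V : Type*} [Field k] [AddCommGroup V] [Module k V] [FiniteDimensional k V]

/-- An isotropic subspace of a nondegenerate subspace has dimension at most half. -/
theorem isotropic_bound (B : V →ₗ[k] V →ₗ[k] k) (S U : Submodule k V) (hU : U ≤ S)
    (hiso : ∀ x ∈ U, ∀ y ∈ U, B x y = 0) (hnd : ∀ x ∈ S, (∀ y ∈ S, B x y = 0) → x = 0) :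
    2 * finrank k U ≤ finrank k S := by
  -- the map `U → (S)^*`, with image in the annihilator of `U`
  let U' : Submodule k S := U.comap S.subtype
  let F : U →ₗ[k] Dual k S := (LinearMap.lcomp k k S.subtype ∘ₗ B) ∘ₗ U.subtype
  have hF : ∀ (x : U) (y : S), F x y = B x y := fun x y => rfl
  have hinj : Function.Injective F := by
    rw [← LinearMap.ker_eq_bot, LinearMap.ker_eq_bot']
    intro x hx
    apply Subtype.ext
    apply hnd x (hU x.2)
    intro y hy
    have := LinearMap.congr_fun hx ⟨y, hy⟩
    rw [hF] at this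
    exact this
  have hrange : LinearMap.range F ≤ U'.dualAnnihilator := by
    rintro _ ⟨x, rfl⟩
    rw [Submodule.mem_dualAnnihilator]
    intro y hy
    rw [hF]
    exact hiso x x.2 y hy
  have h1 : finrank k U ≤ finrank k U'.dualAnnihilator := by
    rw [← LinearMap.finrank_range_of_inj hinj]
    exact Submodule.finrank_mono hrange
  have h2 : finrank k U' = finrank k U :=
    (Submodule.comapSubtypeEquivOfLe hU).finrank_eq
  have h3 := Subspace.finrank_add_finrank_dualAnnihilator_eq U'
  omega

/-- The right orthogonal of a subspace. -/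
def perp (B : V →ₗ[k] V →ₗ[k] k) (W : Submodule k V) : Submodule k V where
  carrier := {y | ∀ x ∈ W, B x y = 0}
  add_mem' := by
    intro a b ha hb x hx
    rw [map_add, ha x hx, hb x hx, add_zero]
  zero_mem' := by
    intro x _
    rw [map_zero]
  smul_mem' := by
    intro c a ha x hx
    rw [map_smul, ha x hx, smul_zero]

omit [FiniteDimensional k V] in
theorem mem_perp {B : V →ₗ[k] V →ₗ[k] k} {W : Submodule k V} {y : V} :
    y ∈ perp B W ↔ ∀ x ∈ W, B x y = 0 := Iff.rfl

theorem isCompl_perp (B : V →ₗ[k] V →ₗ[k] k) (W : Submodule k V) (h : W ⊓ perp B W = ⊥) :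
    IsCompl W (perp B W) := by
  refine ⟨disjoint_iff.2 h, codisjoint_iff.2 ?_⟩
  rw [eq_top_iff]
  intro v _
  let F : W →ₗ[k] Dual k W := (LinearMap.lcomp k k W.subtype ∘ₗ B.flip) ∘ₗ W.subtype
  have hF : ∀ (x y : W), F y x = B x y := fun x y => rfl
  have hinj : Function.Injective F := by
    rw [← LinearMap.ker_eq_bot, LinearMap.ker_eq_bot']
    intro y hy
    have h1 : (y : V) ∈ W ⊓ perp B W := by
      refine ⟨y.2, fun x hx => ?_⟩
      have := LinearMap.congr_fun hy ⟨x, hx⟩
      rw [hF] at this
      exact this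
    rw [h, Submodule.mem_bot] at h1
    exact Subtype.ext h1
  have hsurj : Function.Surjective F :=
    (LinearMap.injective_iff_surjective_of_finrank_eq_finrank
      (Subspace.dual_finrank_eq (K := k) (V := W)).symm).1 hinj
  obtain ⟨y, hy⟩ := hsurj ((B.flip v).comp W.subtype)
  have h1 : v - y ∈ perp B W := by
    intro x hx
    have := LinearMap.congr_fun hy ⟨x, hx⟩
    rw [hF] at this
    rw [map_sub, this]
    simp
  rw [Submodule.mem_sup]
  exact ⟨y, y.2, v - y, h1, by abel⟩

end perp

section det

variable {k V : Type*} [Field k] [CharZero k] [AddCommGroup V] [Module k V] [FiniteDimensional k V]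

/-- **Weights of determinants.** If `T` is killed by a rational polynomial all of whose complex roots
have absolute value `q ^ (-w/2)`, and a power of the determinant of `T` is a power of `q`, then this
power is determined. -/
theorem det_weight (T : V →ₗ[k] V) (P : ℚ[X]) (hP0 : P ≠ 0) (q : ℕ) (hq : 1 < q) (w m : ℤ) (N : ℕ)
    (hP : ∀ z : ℂ, aeval z P = 0 → ‖z‖ ^ 2 = (q : ℝ) ^ (-w))
    (hT : aeval T (P.map (algebraMap ℚ k)) = 0) (hdet : (LinearMap.det T) ^ N = (q : k) ^ m) : 2 * m = -(w * finrank k V * N) := by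
  set K := AlgebraicClosure k with hK
  set T' := T.baseChange K with hT'
  have hT2 : aeval T' (P.map (algebraMap ℚ K)) = 0 := by
    have h1 := Polynomial.aeval_algHom_apply (Module.End.baseChangeHom k K V) T
      (P.map (algebraMap ℚ k))
    rw [hT, map_zero] at h1
    have h2 : (P.map (algebraMap ℚ k)).map (algebraMap k K) = P.map (algebraMap ℚ K) := by
      rw [Polynomial.map_map, ← IsScalarTower.algebraMap_eq]
    rw [← h2, Polynomial.aeval_map_algebraMap]
    exact h1
  have hsplit : T'.charpoly.Splits := IsAlgClosed.splits _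
  have hroot : ∀ α ∈ T'.charpoly.roots, aeval α P = 0 := by
    intro α hα
    rw [mem_roots (LinearMap.charpoly_monic _).ne_zero,
      ← Module.End.hasEigenvalue_iff_isRoot_charpoly] at hα
    obtain ⟨v, hv⟩ := hα.exists_hasEigenvector
    have h1 := Module.End.aeval_apply_of_hasEigenvector (p := P.map (algebraMap ℚ K)) hv
    rw [hT2, LinearMap.zero_apply, eval_map_algebraMap] at h1
    exact (smul_eq_zero.1 h1.symm).resolve_right hv.2
  have hdet' : LinearMap.det T' = T'.charpoly.roots.prod :=
    Module.End.det_eq_prod_roots_charpoly_of_splits hsplit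
  have hcard : T'.charpoly.roots.card = finrank k V := by
    rw [← hsplit.natDegree_eq_card_roots, LinearMap.charpoly_natDegree, finrank_baseChange]
  have hdet2 : (T'.charpoly.roots.prod) ^ N = (q : K) ^ m := by
    rw [← hdet', hT', LinearMap.det_baseChange, ← map_pow, hdet, map_zpow₀, map_natCast]
  -- embed in `ℂ`
  let Qb : IntermediateField ℚ K := algebraicClosure ℚ K
  have hmem : ∀ α ∈ T'.charpoly.roots, α ∈ Qb := fun α hα =>
    mem_algebraicClosure_iff.2 ⟨P, hP0, hroot α hα⟩
  let s : Multiset Qb := T'.charpoly.roots.attach.map (fun a => ⟨a.1, hmem a.1 a.2⟩)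
  have hs : s.map (algebraMap Qb K) = T'.charpoly.roots := by
    rw [Multiset.map_map]
    exact Multiset.attach_map_val _
  have hscard : s.card = finrank k V := by
    rw [Multiset.card_map, Multiset.card_attach, hcard]
  have hsprod : s.prod ^ N = (q : Qb) ^ m := by
    apply (algebraMap Qb K).injective
    rw [map_pow, map_multiset_prod, hs, hdet2, map_zpow₀, map_natCast]
  have halg : Algebra.IsAlgebraic ℚ Qb := algebraicClosure.isAlgebraic ℚ K
  let j : Qb →ₐ[ℚ] ℂ := IsAlgClosed.lift
  have hj : ∀ a ∈ s, ‖j a‖ ^ 2 = (q : ℝ) ^ (-w) := by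
    intro a ha
    apply hP
    rw [Multiset.mem_map] at ha
    obtain ⟨b, _, rfl⟩ := ha
    rw [Polynomial.aeval_algHom_apply]
    have h1 : aeval (⟨b.1, hmem b.1 b.2⟩ : Qb) P = 0 := by
      apply (algebraMap Qb K).injective
      rw [map_zero, ← Polynomial.aeval_algebraMap_apply]
      exact hroot b.1 b.2
    rw [h1, map_zero]
  have hprod : ‖j s.prod‖ ^ 2 = ((q : ℝ) ^ (-w)) ^ (finrank k V) := by
    rw [map_multiset_prod]
    rw [← hscard]
    clear_value s
    clear hs hscard hsprod
    induction s using Multiset.induction_on with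
    | empty => simp
    | cons a s ih =>
      rw [Multiset.map_cons, Multiset.prod_cons, norm_mul, mul_pow,
        hj a (Multiset.mem_cons_self a s), ih (fun b hb => hj b (Multiset.mem_cons_of_mem hb)),
        Multiset.card_cons, pow_succ']
  have h1 : ‖j (s.prod ^ N)‖ ^ 2 = (((q : ℝ) ^ (-w)) ^ (finrank k V)) ^ N := by
    rw [map_pow, norm_pow, ← hprod]; ring
  rw [hsprod, map_zpow₀, map_natCast, norm_zpow, Complex.norm_natCast] at h1
  have hq0 : (q : ℝ) ≠ 0 := by
    have : (0 : ℝ) < q := by exact_mod_cast (by omega : 0 < q)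
    exact this.ne'
  rw [← zpow_natCast ((q : ℝ) ^ m) 2, ← zpow_mul, ← zpow_natCast ((q : ℝ) ^ (-w)), ← zpow_mul,
    ← zpow_natCast ((q : ℝ) ^ (-w * (finrank k V : ℤ))), ← zpow_mul] at h1
  have h2 := zpow_right_injective₀ (by exact_mod_cast (by omega : 0 < q))
    (by exact_mod_cast (by omega : q ≠ 1)) h1
  push_cast at h2
  linarith

end det

end Pool.Agent.GSem
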