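import Mathlib
import Pool.Agent.Lib.Helper90.GSem.CharFin
import Pool.Agent.Lib.Helper90.GSem.LinAlg

/-!
# Hodge–Tate representations with distinct weights
-/

namespace Pool.Agent.GSem

open NumberField TensorProduct Module

section semi

variable {p : ℕ} [hp : Fact p.Prime] {Ω : Type*} [Field Ω] [CharZero Ω]
variable {V : Type*} [AddCommGroup V] [Module ℚ_[p] V]

theorem semi_tmul (σ : Gal(PadicAlgCl p/ℚ_[p])) (T : V →ₗ[ℚ_[p]] V) (c : ℂ_[p]) (v : V) :
    semi σ T (c ⊗ₜ v) = galC σ c ⊗ₜ T v := rfl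

theorem semi_smul (σ : Gal(PadicAlgCl p/ℚ_[p])) (T : V →ₗ[ℚ_[p]] V) (c : ℂ_[p])
    (x : ℂ_[p] ⊗[ℚ_[p]] V) : semi σ T (c • x) = galC σ c • semi σ T x := by
  induction x using TensorProduct.induction_on with
  | zero => simp
  | tmul a v =>
    rw [TensorProduct.smul_tmul', semi_tmul, semi_tmul, TensorProduct.smul_tmul', smul_eq_mul,
      smul_eq_mul, map_mul]
  | add x y hx hy => rw [smul_add, map_add, map_add, smul_add, hx, hy]

/-- The coordinates of the image of a vector. -/
theorem repr_semi {n : ℕ} (e : Basis (Fin n) ℂ_[p] (ℂ_[p] ⊗[ℚ_[p]] V))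
    (σ : Gal(PadicAlgCl p/ℚ_[p])) (T : V →ₗ[ℚ_[p]] V) (c : Fin n → ℂ_[p])
    (h : ∀ i, semi σ T (e i) = c i • e i) (x : ℂ_[p] ⊗[ℚ_[p]] V) (i : Fin n) :
    e.repr (semi σ T x) i = galC σ (e.repr x i) * c i := by
  conv_lhs => rw [← e.sum_repr x]
  rw [map_sum]
  have h1 : ∀ j, semi σ T (e.repr x j • e j) = (galC σ (e.repr x j) * c j) • e j := by
    intro j
    rw [semi_smul, h, smul_smul]
  rw [Finset.sum_congr rfl fun j _ => h1 j, e.repr_sum_self]

section extend

/-- The `ℂ_p`-span of a subspace. -/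
noncomputable def ext (U : Submodule ℚ_[p] V) : Submodule ℂ_[p] (ℂ_[p] ⊗[ℚ_[p]] V) :=
  Submodule.span ℂ_[p] ((fun u => (1 : ℂ_[p]) ⊗ₜ[ℚ_[p]] u) '' (U : Set V))

theorem one_tmul_mem_ext {U : Submodule ℚ_[p] V} {u : V} (hu : u ∈ U) :
    (1 : ℂ_[p]) ⊗ₜ[ℚ_[p]] u ∈ ext U :=
  Submodule.subset_span ⟨u, hu, rfl⟩

theorem semi_mem_ext {U : Submodule ℚ_[p] V} (σ : Gal(PadicAlgCl p/ℚ_[p])) (T : V →ₗ[ℚ_[p]] V)
    (hT : ∀ u ∈ U, T u ∈ U) (x : ℂ_[p] ⊗[ℚ_[p]] V) (hx : x ∈ ext U) : semi σ T x ∈ ext U := by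
  induction hx using Submodule.span_induction with
  | mem x hx =>
    obtain ⟨u, hu, rfl⟩ := hx
    rw [semi_tmul, map_one]
    exact one_tmul_mem_ext (hT u hu)
  | zero => rw [map_zero]; exact Submodule.zero_mem _
  | add x y _ _ hx hy => rw [map_add]; exact Submodule.add_mem _ hx hy
  | smul c x _ hx => rw [semi_smul]; exact Submodule.smul_mem _ _ hx

variable {d : ℕ} {U : Submodule ℚ_[p] V} (b : Basis (Fin d) ℚ_[p] U)

include b in
theorem mem_ext_iff (x : ℂ_[p] ⊗[ℚ_[p]] V) :
    x ∈ ext U ↔ ∃ c : Fin d → ℂ_[p], ∑ k, c k • ((1 : ℂ_[p]) ⊗ₜ[ℚ_[p]] (b k : V)) = x := by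
  rw [← Submodule.mem_span_range_iff_exists_fun]
  have : ext U = Submodule.span ℂ_[p]
      (Set.range fun k => (1 : ℂ_[p]) ⊗ₜ[ℚ_[p]] (b k : V)) := by
    apply le_antisymm
    · rw [ext, Submodule.span_le]
      rintro _ ⟨u, hu, rfl⟩
      have h1 : u = ∑ k, b.repr ⟨u, hu⟩ k • (b k : V) := by
        have := congrArg (fun z : U => (z : V)) (b.sum_repr ⟨u, hu⟩)
        simp only [AddSubmonoidClass.coe_finsetSum, SetLike.val_smul] at this
        exact this.symm
      change (1 : ℂ_[p]) ⊗ₜ[ℚ_[p]] u ∈ _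
      rw [h1, TensorProduct.tmul_sum]
      refine Submodule.sum_mem _ fun k _ => ?_
      rw [TensorProduct.tmul_smul]
      exact Submodule.smul_of_tower_mem _ _ (Submodule.subset_span ⟨k, rfl⟩)
    · rw [Submodule.span_le]
      rintro _ ⟨k, rfl⟩
      exact one_tmul_mem_ext (b k).2
  rw [this]

theorem linearIndependent_one_tmul :
    LinearIndependent ℂ_[p] (fun k => (1 : ℂ_[p]) ⊗ₜ[ℚ_[p]] (b k : V)) := by
  have h1 := (Algebra.TensorProduct.basis ℂ_[p] b).linearIndependent
  have hinj : Function.Injective (U.subtype.baseChange ℂ_[p]) :=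
    Module.Flat.lTensor_preserves_injective_linearMap (M := ℂ_[p]) U.subtype
      (Submodule.subtype_injective U)
  have h2 := h1.map' (U.subtype.baseChange ℂ_[p]) (LinearMap.ker_eq_bot.2 hinj)
  have h3 : (fun k => (1 : ℂ_[p]) ⊗ₜ[ℚ_[p]] (b k : V)) =
      (U.subtype.baseChange ℂ_[p]) ∘ (Algebra.TensorProduct.basis ℂ_[p] b) := by
    funext k
    rw [Function.comp_apply, Algebra.TensorProduct.basis_apply, LinearMap.baseChange_tmul]
    rfl
  rw [h3]
  exact h2

/-- **Determinant relation.** -/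
theorem det_relation (v : Fin d → ℂ_[p] ⊗[ℚ_[p]] V) (M : Matrix (Fin d) (Fin d) ℂ_[p])
    (hM : ∀ j, v j = ∑ k, M j k • ((1 : ℂ_[p]) ⊗ₜ[ℚ_[p]] (b k : V)))
    (σ : Gal(PadicAlgCl p/ℚ_[p])) (T : V →ₗ[ℚ_[p]] V) (hT : ∀ u ∈ U, T u ∈ U)
    (c : Fin d → ℂ_[p]) (hc : ∀ j, semi σ T (v j) = c j • v j) :
    galC σ M.det * algebraMap ℚ_[p] ℂ_[p] (LinearMap.det (T.restrict hT)) =
      (∏ j, c j) * M.det := by
  set R := LinearMap.toMatrix b b (T.restrict hT) with hR
  have hTb : ∀ k, T (b k : V) = ∑ l, R l k • (b l : V) := by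
    intro k
    have h1 := b.sum_repr (T.restrict hT (b k))
    have h2 := congrArg (fun z : U => (z : V)) h1
    simp only [AddSubmonoidClass.coe_finsetSum, SetLike.val_smul, LinearMap.coe_restrict_apply]
      at h2
    rw [← h2]
    refine Finset.sum_congr rfl fun l _ => ?_
    rw [hR, LinearMap.toMatrix_apply]
  have key : ∀ j l, ∑ k, galC σ (M j k) * algebraMap ℚ_[p] ℂ_[p] (R l k) = c j * M j l := by
    intro j
    have h1 := hc j
    rw [hM j, map_sum, Finset.smul_sum] at h1
    have h2 : ∀ k, semi σ T (M j k • ((1 : ℂ_[p]) ⊗ₜ[ℚ_[p]] (b k : V))) =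
        ∑ l, (galC σ (M j k) * algebraMap ℚ_[p] ℂ_[p] (R l k)) •
          ((1 : ℂ_[p]) ⊗ₜ[ℚ_[p]] (b l : V)) := by
      intro k
      rw [semi_smul, semi_tmul, map_one, hTb, TensorProduct.tmul_sum, Finset.smul_sum]
      refine Finset.sum_congr rfl fun l _ => ?_
      rw [TensorProduct.tmul_smul, ← algebraMap_smul ℂ_[p] (R l k), smul_smul]
    rw [Finset.sum_congr rfl fun k _ => h2 k, Finset.sum_comm] at h1
    simp_rw [← Finset.sum_smul, smul_smul] at h1
    have h3 : ∑ l, (∑ k, galC σ (M j k) * algebraMap ℚ_[p] ℂ_[p] (R l k) - c j * M j l) •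
        ((1 : ℂ_[p]) ⊗ₜ[ℚ_[p]] (b l : V)) = 0 := by
      simp_rw [sub_smul, Finset.sum_sub_distrib]
      rw [h1, sub_self]
    have h4 := Fintype.linearIndependent_iff.1 (linearIndependent_one_tmul b) _ h3
    intro l
    exact sub_eq_zero.1 (h4 l)
  have hmat : (M.map (galC σ)) * (R.map (algebraMap ℚ_[p] ℂ_[p])).transpose =
      Matrix.diagonal c * M := by
    ext j l
    rw [Matrix.diagonal_mul, Matrix.mul_apply, ← key j l]
    rfl
  have hdet := congrArg Matrix.det hmat
  rw [Matrix.det_mul, Matrix.det_mul, Matrix.det_transpose, Matrix.det_diagonal] at hdet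
  have e1 : (M.map (galC σ)).det = galC σ M.det := (RingHom.map_det (galC σ) M).symm
  have e2 : (R.map (algebraMap ℚ_[p] ℂ_[p])).det = algebraMap ℚ_[p] ℂ_[p] R.det :=
    (RingHom.map_det (algebraMap ℚ_[p] ℂ_[p]) R).symm
  have e3 : R.det = LinearMap.det (T.restrict hT) := by rw [hR, LinearMap.det_toMatrix]
  rw [e1, e2, e3] at hdet
  exact hdet

/-- The transition matrix is invertible. -/
theorem det_ne_zero_of_linearIndependent (v : Fin d → ℂ_[p] ⊗[ℚ_[p]] V)
    (M : Matrix (Fin d) (Fin d) ℂ_[p])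
    (hM : ∀ j, v j = ∑ k, M j k • ((1 : ℂ_[p]) ⊗ₜ[ℚ_[p]] (b k : V)))
    (hv : LinearIndependent ℂ_[p] v) : M.det ≠ 0 := by
  intro h
  obtain ⟨c, hc0, hc⟩ := Matrix.exists_vecMul_eq_zero_iff.2 h
  apply hc0
  have h1 : ∑ j, c j • v j = 0 := by
    simp_rw [hM, Finset.smul_sum, smul_smul]
    rw [Finset.sum_comm]
    refine Finset.sum_eq_zero fun k _ => ?_
    rw [← Finset.sum_smul]
    have := congrFun hc k
    rw [Matrix.vecMul, dotProduct] at this
    rw [this, Pi.zero_apply, zero_smul]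
  funext j
  exact Fintype.linearIndependent_iff.1 hv c h1 j

end extend

variable [IsAlgClosed Ω] [Normal ℚ Ω]

/-- A stable subspace is spanned by basis vectors, when the weights are distinct. -/
theorem basis_mem {n : ℕ} (e : Basis (Fin n) ℂ_[p] (ℂ_[p] ⊗[ℚ_[p]] V)) (ι : Ω →+* PadicAlgCl p)
    (ρ : Representation ℚ_[p] Gal(Ω/ℚ) V) (h : Fin n → ℤ) (hinj : Function.Injective h)
    (he : ∀ σ g, Compat ι σ g → ∀ i, semi σ (ρ g) (e i) =
      algebraMap ℚ_[p] ℂ_[p] (toQ (cyc p Ω g) ^ (-h i)) • e i)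
    (X : Submodule ℂ_[p] (ℂ_[p] ⊗[ℚ_[p]] V))
    (hX : ∀ σ g, Compat ι σ g → ∀ x ∈ X, semi σ (ρ g) x ∈ X) :
    ∀ (m : ℕ) (x : ℂ_[p] ⊗[ℚ_[p]] V), x ∈ X → (e.repr x).support.card = m →
      ∀ i, e.repr x i ≠ 0 → e i ∈ X := by
  classical
  intro m
  induction m using Nat.strong_induction_on with
  | _ m ih =>
    intro x hx hm i hi
    by_cases hone : ∀ k, e.repr x k ≠ 0 → k = i
    · -- `x` is a multiple of `e i`
      have h1 : x = e.repr x i • e i := by
        conv_lhs => rw [← e.sum_repr x]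
        rw [Finset.sum_eq_single i]
        · intro k _ hk
          have : e.repr x k = 0 := by
            by_contra h0
            exact hk (hone k h0)
          rw [this, zero_smul]
        · intro h0; exact absurd (Finset.mem_univ i) h0
      have h2 : (e.repr x i)⁻¹ • x = e i := (inv_smul_eq_iff₀ hi).2 h1
      rw [← h2]
      exact X.smul_mem _ hx
    · push Not at hone
      obtain ⟨k, hk, hki⟩ := hone
      have hsuppi : i ∈ (e.repr x).support := Finsupp.mem_support_iff.2 hi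
      have hsuppk : k ∈ (e.repr x).support := Finsupp.mem_support_iff.2 hk
      -- a twist moving the ratio of the two coordinates
      obtain ⟨σ, g, hc, hne⟩ := exists_ne_twist ι (e.repr x k / e.repr x i) (div_ne_zero hk hi)
        (h k - h i) (sub_ne_zero.2 fun hh => hki (hinj hh))
      set χ := toQ (cyc p Ω g) with hχ
      have hχ0 : χ ≠ 0 := toQ_ne_zero _
      have hrepr : ∀ j, e.repr (semi σ (ρ g) x) j =
          galC σ (e.repr x j) * algebraMap ℚ_[p] ℂ_[p] (χ ^ (-h j)) :=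
        fun j => repr_semi e σ (ρ g) _ (he σ g hc) x j
      have hgi : galC σ (e.repr x i) ≠ 0 := by
        intro h0
        rw [← norm_eq_zero, norm_galC, norm_eq_zero] at h0
        exact hi h0
      -- the vector with smaller support
      set y := (e.repr x i) • semi σ (ρ g) x -
        (galC σ (e.repr x i) * algebraMap ℚ_[p] ℂ_[p] (χ ^ (-h i))) • x with hy
      have hyX : y ∈ X := X.sub_mem (X.smul_mem _ (hX σ g hc x hx)) (X.smul_mem _ hx)
      have hyr : ∀ j, e.repr y j = e.repr x i * (galC σ (e.repr x j) *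
          algebraMap ℚ_[p] ℂ_[p] (χ ^ (-h j))) -
          (galC σ (e.repr x i) * algebraMap ℚ_[p] ℂ_[p] (χ ^ (-h i))) * e.repr x j := by
        intro j
        rw [hy, map_sub, map_smul, map_smul, Finsupp.sub_apply, Finsupp.smul_apply,
          Finsupp.smul_apply, hrepr, smul_eq_mul, smul_eq_mul]
      have hyi : e.repr y i = 0 := by rw [hyr]; ring
      have hysub : (e.repr y).support ⊆ (e.repr x).support.erase i := by
        intro j hj
        rw [Finsupp.mem_support_iff] at hj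
        rw [Finset.mem_erase, Finsupp.mem_support_iff]
        refine ⟨fun h0 => hj (h0 ▸ hyi), fun h0 => hj ?_⟩
        rw [hyr, h0]; simp
      have hyk : e.repr y k ≠ 0 := by
        intro h0
        apply hne
        rw [hyr] at h0
        rw [map_div₀, div_eq_iff hgi]
        have e1 : algebraMap ℚ_[p] ℂ_[p] (χ ^ (h k - h i)) =
            algebraMap ℚ_[p] ℂ_[p] (χ ^ (-h i)) / algebraMap ℚ_[p] ℂ_[p] (χ ^ (-h k)) := by
          rw [← map_div₀, ← zpow_sub₀ hχ0]
          congr 2
          ring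
        have hk0 : algebraMap ℚ_[p] ℂ_[p] (χ ^ (-h k)) ≠ 0 := by
          rw [Ne, map_eq_zero]
          exact zpow_ne_zero _ hχ0
        rw [e1]
        field_simp
        linear_combination h0
      have hcard : (e.repr y).support.card < m := by
        rw [← hm]
        refine lt_of_le_of_lt (Finset.card_le_card hysub) ?_
        exact Finset.card_erase_lt_of_mem hsuppi
      have hek : e k ∈ X := ih _ hcard y hyX rfl k hyk
      -- remove the `k`-th coordinate
      set z := x - e.repr x k • e k with hz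
      have hzX : z ∈ X := X.sub_mem hx (X.smul_mem _ hek)
      have hzr : ∀ j, e.repr z j = if j = k then 0 else e.repr x j := by
        intro j
        rw [hz, map_sub, map_smul, e.repr_self, Finsupp.sub_apply, Finsupp.smul_apply,
          Finsupp.single_apply]
        split_ifs with h1 h2 h2
        · rw [← h1]; simp
        · exact absurd h1.symm h2
        · exact absurd h2.symm h1
        · simp
      have hzsub : (e.repr z).support ⊆ (e.repr x).support.erase k := by
        intro j hj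
        rw [Finsupp.mem_support_iff, hzr] at hj
        rw [Finset.mem_erase, Finsupp.mem_support_iff]
        split_ifs at hj with h1
        · exact absurd rfl hj
        · exact ⟨h1, hj⟩
      have hcard' : (e.repr z).support.card < m := by
        rw [← hm]
        refine lt_of_le_of_lt (Finset.card_le_card hzsub) ?_
        exact Finset.card_erase_lt_of_mem hsuppk
      refine ih _ hcard' z hzX rfl i ?_
      rw [hzr, if_neg (Ne.symm hki)]
      exact hi

end semi

end Pool.Agent.GSem
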