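import Mathlib
import Pool.Agent.Lib.Helper90.GSem.HT

/-!
# Representations of `G_ℚ`: stable subspaces and their determinants
-/

namespace Pool.Agent.GSem

open NumberField TensorProduct Module Polynomial

section chars

variable {p : ℕ} [hp : Fact p.Prime] {Ω : Type*} [Field Ω] [CharZero Ω] [IsGalois ℚ Ω]

/-- A continuous multiplicative function on the Galois group has values in the units. -/
theorem exists_unit_char (D : Gal(Ω/ℚ) →* ℚ_[p]) (hD : Continuous D) :
    ∃ δ : Gal(Ω/ℚ) →* ℤ_[p]ˣ, Continuous δ ∧ ∀ g, toQ (δ g) = D g := by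
  obtain ⟨g₀, _, hg₀⟩ := isCompact_univ.exists_isMaxOn (Set.univ_nonempty (α := Gal(Ω/ℚ)))
    (f := fun x => ‖D x‖) (hD.norm.continuousOn)
  have hb : ∀ g, ‖D g‖ ≤ ‖D g₀‖ := fun g => hg₀ (Set.mem_univ g)
  have hle : ∀ g, ‖D g‖ ≤ 1 := by
    intro g
    by_contra hcon
    push Not at hcon
    obtain ⟨n, hn⟩ := pow_unbounded_of_one_lt ‖D g₀‖ hcon
    have h1 := hb (g ^ n)
    rw [map_pow, norm_pow] at h1
    linarith
  have hone : ∀ g, ‖D g‖ = 1 := by
    intro g
    have h1 : ‖D g‖ * ‖D g⁻¹‖ = 1 := by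
      rw [← norm_mul, ← map_mul, mul_inv_cancel, map_one, norm_one]
    have h2 := hle g
    have h3 := hle g⁻¹
    have h4 := norm_nonneg (D g)
    have h5 := norm_nonneg (D g⁻¹)
    nlinarith
  choose δ hδ using fun g => exists_toQ (hone g)
  refine ⟨⟨⟨δ, ?_⟩, ?_⟩, ?_, hδ⟩
  · apply toQ_injective
    rw [hδ, map_one, map_one]
  · intro a b
    apply toQ_injective
    rw [map_mul, hδ, hδ, hδ, map_mul]
  · have hval : Continuous fun g => ((δ g : ℤ_[p]ˣ) : ℤ_[p]) := by
      have h1 : (fun g => ((δ g : ℤ_[p]ˣ) : ℤ_[p])) = fun g => ⟨D g, (hone g).le⟩ := by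
        funext g
        apply Subtype.ext
        exact hδ g
      rw [h1]
      exact hD.subtype_mk _
    have hinv : ∀ g, ((δ g)⁻¹ : ℤ_[p]ˣ) = δ g⁻¹ := by
      intro g
      apply toQ_injective
      have h1 : toQ (δ g) * toQ (δ g)⁻¹ = 1 := by rw [← map_mul, mul_inv_cancel, map_one]
      have h2 : toQ (δ g) * toQ (δ g⁻¹) = 1 := by
        rw [hδ, hδ, ← map_mul, mul_inv_cancel, map_one]
      exact mul_left_cancel₀ (toQ_ne_zero (δ g)) (h1.trans h2.symm)
    change Continuous δ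
    rw [Units.continuous_iff]
    refine ⟨hval, ?_⟩
    have h3 : (fun g => (((δ g)⁻¹ : ℤ_[p]ˣ) : ℤ_[p])) = fun g => ((δ g⁻¹ : ℤ_[p]ˣ) : ℤ_[p]) := by
      funext g
      rw [hinv]
    exact h3 ▸ hval.comp continuous_inv

end chars

section rep

variable {p : ℕ} [hp : Fact p.Prime] {Ω : Type*} [Field Ω] [CharZero Ω]
variable {V : Type*} [AddCommGroup V] [Module ℚ_[p] V]

/-- The determinant on a stable subspace. -/
noncomputable def detOn (ρ : Representation ℚ_[p] Gal(Ω/ℚ) V) (U : Submodule ℚ_[p] V)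
    (hU : ∀ g, ∀ u ∈ U, ρ g u ∈ U) : Gal(Ω/ℚ) →* ℚ_[p] where
  toFun g := LinearMap.det ((ρ g).restrict (hU g))
  map_one' := by
    have h1 : (ρ 1).restrict (hU 1) = LinearMap.id := by
      ext u
      rw [LinearMap.coe_restrict_apply, map_one]
      rfl
    rw [h1, LinearMap.det_id]
  map_mul' a b := by
    have h1 : (ρ (a * b)).restrict (hU (a * b)) =
        (ρ a).restrict (hU a) * (ρ b).restrict (hU b) := by
      ext u
      rw [LinearMap.coe_restrict_apply, map_mul]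
      rfl
    rw [h1, map_mul]

theorem continuous_detOn [FiniteDimensional ℚ_[p] V] (ρ : Representation ℚ_[p] Gal(Ω/ℚ) V)
    (hρ : IsContinuousRep ρ) (U : Submodule ℚ_[p] V) (hU : ∀ g, ∀ u ∈ U, ρ g u ∈ U) :
    Continuous (detOn ρ U hU) := by
  set b := Module.finBasis ℚ_[p] U
  have h1 : ⇑(detOn ρ U hU) = fun g => (LinearMap.toMatrix b b ((ρ g).restrict (hU g))).det := by
    funext g
    rw [LinearMap.det_toMatrix]
    rfl
  rw [h1]
  apply Continuous.matrix_det
  apply continuous_matrix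
  intro i j
  obtain ⟨f, hf⟩ := LinearMap.exists_extend (b.coord i)
  have h2 : (fun g => LinearMap.toMatrix b b ((ρ g).restrict (hU g)) i j) =
      fun g => f (ρ g (b j : V)) := by
    funext g
    rw [LinearMap.toMatrix_apply]
    have h3 := LinearMap.congr_fun hf ((ρ g).restrict (hU g) (b j))
    rw [LinearMap.comp_apply, Submodule.subtype_apply, LinearMap.coe_restrict_apply] at h3
    rw [h3]
    rfl
  rw [h2]
  exact hρ _ _

/-- Evaluation of polynomials on stable subspaces. -/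
theorem aeval_restrict {k W : Type*} [Field k] [AddCommGroup W] [Module k W] (T : W →ₗ[k] W)
    (U : Submodule k W) (hU : ∀ u ∈ U, T u ∈ U) (P : k[X]) (u : U) :
    ((aeval (T.restrict hU) P u : U) : W) = aeval T P (u : W) := by
  induction P using Polynomial.induction_on' with
  | add P Q hP hQ =>
    rw [map_add, map_add, LinearMap.add_apply, LinearMap.add_apply, Submodule.coe_add, hP, hQ]
  | monomial n a =>
    rw [aeval_monomial, aeval_monomial, Module.End.mul_apply, Module.End.mul_apply,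
      Module.algebraMap_end_apply, Module.algebraMap_end_apply, Submodule.coe_smul]
    congr 1
    induction n with
    | zero => rfl
    | succ n ih =>
      rw [pow_succ', pow_succ', Module.End.mul_apply, Module.End.mul_apply,
        LinearMap.coe_restrict_apply, ih]

end rep

theorem prod_zpow_sum {k ι : Type*} [Field k] {a : k} (ha : a ≠ 0) (s : Finset ι) (f : ι → ℤ) :
    ∏ j ∈ s, a ^ f j = a ^ ∑ j ∈ s, f j := by
  classical
  induction s using Finset.induction_on with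
  | empty => simp
  | insert i s hi ih => rw [Finset.prod_insert hi, Finset.sum_insert hi, zpow_add₀ ha, ih]

section main

variable {p : ℕ} [hp : Fact p.Prime] {Ω : Type*} [Field Ω] [CharZero Ω]
variable {V : Type*} [AddCommGroup V] [Module ℚ_[p] V] [FiniteDimensional ℚ_[p] V]

variable [IsAlgClosed Ω] [IsGalois ℚ Ω]

/-- **Weights of a stable subspace.** -/
theorem exists_weights (ι : Ω →+* PadicAlgCl p) (ρ : Representation ℚ_[p] Gal(Ω/ℚ) V)
    (hρ : IsContinuousRep ρ) {n : ℕ} (h : Fin n → ℤ) (hinj : Function.Injective h)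
    (e : Basis (Fin n) ℂ_[p] (ℂ_[p] ⊗[ℚ_[p]] V)) (he : IsHTBasis ι ρ h e)
    (w : ℤ) {q : ℕ} (hq : q.Prime) (hqp : q ≠ p) {φ : Gal(Ω/ℚ)} (hφ : IsFrobAt q φ)
    (hpure : IsPureOp q w (ρ φ)) (U : Submodule ℚ_[p] V) (hU : ∀ g, ∀ u ∈ U, ρ g u ∈ U) :
    ∃ J : Finset (Fin n), J.card = finrank ℚ_[p] U ∧ (∀ j ∈ J, e j ∈ ext U) ∧
      ∑ j ∈ J, (2 * h j - w) = 0 := by
  classical
  set d := finrank ℚ_[p] U with hd
  let b : Basis (Fin d) ℚ_[p] U := Module.finBasis ℚ_[p] U
  have hX : ∀ σ g, Compat ι σ g → ∀ x ∈ ext U, semi σ (ρ g) x ∈ ext U :=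
    fun σ g _ x hx => semi_mem_ext σ (ρ g) (hU g) x hx
  set J : Finset (Fin n) := Finset.univ.filter (fun j => e j ∈ ext U) with hJ
  have hmemJ : ∀ j, j ∈ J ↔ e j ∈ ext U := by intro j; simp [hJ]
  have hcoord : ∀ x ∈ ext U, ∀ i, e.repr x i ≠ 0 → i ∈ J := fun x hx i hi =>
    (hmemJ i).2 (basis_mem e ι ρ h hinj he (ext U) hX _ x hx rfl i hi)
  -- the span of the basis vectors
  have hspan : ext U = Submodule.span ℂ_[p] (Set.range fun j : J => e j) := by
    apply le_antisymm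
    · intro x hx
      rw [← e.sum_repr x]
      refine Submodule.sum_mem _ fun i _ => ?_
      by_cases hi : e.repr x i = 0
      · rw [hi, zero_smul]; exact Submodule.zero_mem _
      · exact Submodule.smul_mem _ _ (Submodule.subset_span ⟨⟨i, hcoord x hx i hi⟩, rfl⟩)
    · rw [Submodule.span_le]
      rintro _ ⟨j, rfl⟩
      exact (hmemJ j).1 j.2
  have hli : LinearIndependent ℂ_[p] (fun j : J => e j) :=
    e.linearIndependent.comp _ Subtype.val_injective
  have hdim1 : finrank ℂ_[p] (ext U) = J.card := by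
    rw [hspan, finrank_span_eq_card hli, Fintype.card_coe]
  have hdim2 : finrank ℂ_[p] (ext U) = d := by
    have h1 : ext U = Submodule.span ℂ_[p]
        (Set.range fun k => (1 : ℂ_[p]) ⊗ₜ[ℚ_[p]] (b k : V)) := by
      ext x
      rw [mem_ext_iff b, Submodule.mem_span_range_iff_exists_fun]
    rw [h1, finrank_span_eq_card (linearIndependent_one_tmul b), Fintype.card_fin]
  have hcard : J.card = d := by rw [← hdim1, hdim2]
  refine ⟨J, hcard, fun j hj => (hmemJ j).1 hj, ?_⟩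
  -- the transition matrix
  let ε : Fin d ≃ J := (finCongr hcard.symm).trans J.equivFin.symm
  choose M hM using fun j : Fin d => (mem_ext_iff b (e (ε j))).1 ((hmemJ _).1 (ε j).2)
  have hM' : ∀ j, e (ε j) = ∑ k, (Matrix.of M) j k • ((1 : ℂ_[p]) ⊗ₜ[ℚ_[p]] (b k : V)) :=
    fun j => (hM j).symm
  have hdet0 : (Matrix.of M).det ≠ 0 :=
    det_ne_zero_of_linearIndependent b (fun j => e (ε j)) _ hM'
      (hli.comp _ ε.injective)
  have hrel : ∀ σ g, Compat ι σ g → galC σ (Matrix.of M).det *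
      algebraMap ℚ_[p] ℂ_[p] (detOn ρ U hU g) =
      algebraMap ℚ_[p] ℂ_[p] (toQ (cyc p Ω g) ^ (-∑ j ∈ J, h j)) * (Matrix.of M).det := by
    intro σ g hc
    have h1 := det_relation b (fun j => e (ε j)) (Matrix.of M) hM' σ (ρ g) (hU g)
      (fun j => algebraMap ℚ_[p] ℂ_[p] (toQ (cyc p Ω g) ^ (-h (ε j))))
      (fun j => he σ g hc (ε j))
    have h2 : ∏ j : Fin d, algebraMap ℚ_[p] ℂ_[p] (toQ (cyc p Ω g) ^ (-h (ε j))) =
        algebraMap ℚ_[p] ℂ_[p] (toQ (cyc p Ω g) ^ (-∑ j ∈ J, h j)) := by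
      rw [← map_prod]
      congr 1
      rw [Equiv.prod_comp ε (fun j : J => toQ (cyc p Ω g) ^ (-h j)),
        Finset.prod_coe_sort J (fun j => toQ (cyc p Ω g) ^ (-h j)), ← Finset.sum_neg_distrib,
        prod_zpow_sum (toQ_ne_zero _)]
    rw [h2] at h1
    exact h1
  obtain ⟨δ, hδc, hδ⟩ := exists_unit_char (detOn ρ U hU) (continuous_detOn ρ hρ U hU)
  -- the character
  set H : ℤ := ∑ j ∈ J, h j with hH
  let ψ : Gal(Ω/ℚ) →* ℤ_[p]ˣ := (cyc p Ω) ^ (-H) * δ⁻¹
  have hψ : ∀ g, ψ g = cyc p Ω g ^ (-H) * (δ g)⁻¹ := by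
    intro g
    rfl
  have hψc : Continuous ψ := by
    have h1 : (ψ : Gal(Ω/ℚ) → ℤ_[p]ˣ) = fun g => cyc p Ω g ^ (-H) * (δ g)⁻¹ := by
      funext g; exact hψ g
    rw [h1]
    exact ((continuous_cyc p Ω).zpow _).mul hδc.inv
  obtain ⟨N, hN, hNψ⟩ := finite_order ι ψ hψc (Matrix.of M).det hdet0 (by
    intro σ g hc
    have h1 := hrel σ g hc
    rw [← hδ] at h1
    have h2 : algebraMap ℚ_[p] ℂ_[p] (toQ (δ g)) ≠ 0 := by
      rw [Ne, map_eq_zero]
      exact toQ_ne_zero _
    rw [hψ, map_mul, map_zpow, map_mul]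
    have h3 : toQ (δ g)⁻¹ = (toQ (δ g))⁻¹ := map_inv _ _
    rw [h3, map_inv₀]
    field_simp
    linear_combination h1)
  -- evaluation at the Frobenius element
  have hφ1 := hNψ φ
  have hcycφ : toQ (cyc p Ω φ) = (q : ℚ_[p]) := by
    rw [toQ_apply, cyc_frob hq hqp hφ, PadicInt.coe_natCast]
  have hdetφ : (LinearMap.det ((ρ φ).restrict (hU φ))) ^ N = (q : ℚ_[p]) ^ (-(H * N)) := by
    have h1 : LinearMap.det ((ρ φ).restrict (hU φ)) = toQ (δ φ) := (hδ φ).symm
    rw [h1]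
    have h2 : (δ φ) ^ N = (cyc p Ω φ ^ (-H)) ^ N := by
      rw [hψ, mul_pow, inv_pow] at hφ1
      exact (mul_inv_eq_one.1 hφ1).symm
    rw [← map_pow, h2, map_pow, map_zpow, hcycφ, ← zpow_natCast, ← zpow_mul]
    congr 1
    ring
  obtain ⟨P, hP0, hP, hT⟩ := hpure
  have hTU : aeval ((ρ φ).restrict (hU φ)) (P.map (algebraMap ℚ ℚ_[p])) = 0 := by
    ext u
    rw [aeval_restrict, hT]
    rfl
  have hfin := det_weight ((ρ φ).restrict (hU φ)) P hP0 q hq.one_lt w (-(H * N)) N hP hTU hdetφ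
  rw [← hd] at hfin
  have hN' : (N : ℤ) ≠ 0 := by exact_mod_cast hN.ne'
  have h5 : (2 * H - w * d) * N = 0 := by linarith
  have h6 := (mul_eq_zero.1 h5).resolve_right hN'
  rw [Finset.sum_sub_distrib, ← Finset.mul_sum, Finset.sum_const, hcard, nsmul_eq_mul]
  linarith

end main

end Pool.Agent.GSem
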