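import Mathlib
import Pool.Agent.Lib.Helper90.GSem.Rep

/-!
# Polarised representations
-/

namespace Pool.Agent.GSem

open NumberField TensorProduct Module Polynomial

section pairing

variable {p : ℕ} [hp : Fact p.Prime] {Ω : Type*} [Field Ω] [CharZero Ω]
variable {V : Type*} [AddCommGroup V] [Module ℚ_[p] V]

/-- The base change of a pairing to `ℂ_p`. -/
noncomputable def pairC (B : V →ₗ[ℚ_[p]] V →ₗ[ℚ_[p]] ℚ_[p]) :
    (ℂ_[p] ⊗[ℚ_[p]] V) →ₗ[ℂ_[p]] (ℂ_[p] ⊗[ℚ_[p]] V) →ₗ[ℂ_[p]] ℂ_[p] :=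
  LinearMap.BilinForm.baseChange ℂ_[p] B

theorem pairC_tmul (B : V →ₗ[ℚ_[p]] V →ₗ[ℚ_[p]] ℚ_[p]) (a a' : ℂ_[p]) (x x' : V) :
    pairC B (a ⊗ₜ x) (a' ⊗ₜ x') = algebraMap ℚ_[p] ℂ_[p] (B x x') * (a * a') := by
  rw [pairC, LinearMap.BilinForm.baseChange_tmul, Algebra.smul_def]

theorem pairC_semi (B : V →ₗ[ℚ_[p]] V →ₗ[ℚ_[p]] ℚ_[p]) (σ : Gal(PadicAlgCl p/ℚ_[p]))
    (T : V →ₗ[ℚ_[p]] V) (c : ℚ_[p]) (hT : ∀ x y, B (T x) (T y) = c * B x y)
    (x y : ℂ_[p] ⊗[ℚ_[p]] V) :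
    pairC B (semi σ T x) (semi σ T y) = algebraMap ℚ_[p] ℂ_[p] c * galC σ (pairC B x y) := by
  induction x using TensorProduct.induction_on with
  | zero => simp
  | add x x' hx hx' =>
    rw [map_add, map_add, map_add, LinearMap.add_apply, LinearMap.add_apply, map_add, hx, hx']
    ring
  | tmul a v =>
    induction y using TensorProduct.induction_on with
    | zero => simp
    | add y y' hy hy' =>
      rw [map_add, map_add, map_add, map_add, hy, hy']
      ring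
    | tmul a' v' =>
      rw [semi_tmul, semi_tmul, pairC_tmul, pairC_tmul, hT, map_mul, map_mul, map_mul,
        galC_algebraMap]
      ring

theorem pairC_eq_zero (B : V →ₗ[ℚ_[p]] V →ₗ[ℚ_[p]] ℚ_[p]) (U : Submodule ℚ_[p] V)
    (hiso : ∀ x ∈ U, ∀ y ∈ U, B x y = 0) (x y : ℂ_[p] ⊗[ℚ_[p]] V) (hx : x ∈ ext U)
    (hy : y ∈ ext U) : pairC B x y = 0 := by
  induction hx using Submodule.span_induction with
  | mem x hx =>
    obtain ⟨u, hu, rfl⟩ := hx
    induction hy using Submodule.span_induction with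
    | mem y hy =>
      obtain ⟨v, hv, rfl⟩ := hy
      rw [pairC_tmul, hiso u hu v hv, map_zero, zero_mul]
    | zero => rw [map_zero]
    | add y y' _ _ hy hy' => rw [map_add, hy, hy', add_zero]
    | smul c y _ hy => rw [map_smul, hy, smul_zero]
  | zero => rw [map_zero, LinearMap.zero_apply]
  | add x x' _ _ hx hx' => rw [map_add, LinearMap.add_apply, hx, hx', add_zero]
  | smul c x _ hx => rw [map_smul, LinearMap.smul_apply, hx, smul_zero]

/-- Nondegeneracy is preserved. -/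
theorem eq_zero_of_pairC [FiniteDimensional ℚ_[p] V] (B : V →ₗ[ℚ_[p]] V →ₗ[ℚ_[p]] ℚ_[p])
    (hB : ∀ x, (∀ y, B x y = 0) → x = 0) (x : ℂ_[p] ⊗[ℚ_[p]] V) (hx : ∀ y, pairC B x y = 0) :
    x = 0 := by
  classical
  let b := Module.finBasis ℚ_[p] V
  let bC := Algebra.TensorProduct.basis ℂ_[p] b
  let G : Matrix (Fin (finrank ℚ_[p] V)) (Fin (finrank ℚ_[p] V)) ℚ_[p] :=
    Matrix.of fun k l => B (b k) (b l)
  have hG : G.det ≠ 0 := by
    intro h
    obtain ⟨c, hc0, hc⟩ := Matrix.exists_vecMul_eq_zero_iff.2 h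
    apply hc0
    have h1 : ∑ k, c k • b k = 0 := by
      apply hB
      intro y
      have h2 : B (∑ k, c k • b k) = 0 := by
        apply b.ext
        intro l
        have h3 := congrFun hc l
        rw [Matrix.vecMul, dotProduct] at h3
        rw [map_sum, LinearMap.sum_apply]
        simp only [map_smul, LinearMap.smul_apply, smul_eq_mul]
        exact h3
      rw [h2, LinearMap.zero_apply]
    funext k
    exact Fintype.linearIndependent_iff.1 b.linearIndependent c h1 k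
  have hGC : (G.map (algebraMap ℚ_[p] ℂ_[p])).det ≠ 0 := by
    have e1 : (G.map (algebraMap ℚ_[p] ℂ_[p])).det = algebraMap ℚ_[p] ℂ_[p] G.det :=
      (RingHom.map_det (algebraMap ℚ_[p] ℂ_[p]) G).symm
    rw [e1, Ne, map_eq_zero]
    exact hG
  have hv : Matrix.vecMul (fun k => bC.repr x k) (G.map (algebraMap ℚ_[p] ℂ_[p])) = 0 := by
    funext l
    have h1 := hx (bC l)
    rw [← bC.sum_repr x, map_sum, LinearMap.sum_apply] at h1
    rw [Matrix.vecMul, dotProduct, Pi.zero_apply, ← h1]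
    refine Finset.sum_congr rfl fun k _ => ?_
    have h2 : pairC B (bC k) (bC l) = algebraMap ℚ_[p] ℂ_[p] (G k l) := by
      rw [Algebra.TensorProduct.basis_apply, Algebra.TensorProduct.basis_apply, pairC_tmul,
        mul_one, mul_one]
      rfl
    rw [map_smul, LinearMap.smul_apply, smul_eq_mul, h2]
    rfl
  by_contra hx0
  apply hGC
  rw [← Matrix.exists_vecMul_eq_zero_iff]
  refine ⟨fun k => bC.repr x k, ?_, hv⟩
  intro h
  apply hx0
  rw [← bC.sum_repr x]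
  refine Finset.sum_eq_zero fun k _ => ?_
  have := congrFun h k
  rw [Pi.zero_apply] at this
  rw [this, zero_smul]

variable [FiniteDimensional ℚ_[p] V] [IsAlgClosed Ω] [IsGalois ℚ Ω]

omit [IsGalois ℚ Ω] in
/-- The weights of an isotropic stable subspace contain no opposite pair. -/
theorem no_opposite [Normal ℚ Ω] (ι : Ω →+* PadicAlgCl p) (ρ : Representation ℚ_[p] Gal(Ω/ℚ) V)
    {n : ℕ} (h : Fin n → ℤ) (hinj : Function.Injective h)
    (e : Basis (Fin n) ℂ_[p] (ℂ_[p] ⊗[ℚ_[p]] V)) (he : IsHTBasis ι ρ h e) (w : ℤ)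
    (B : V →ₗ[ℚ_[p]] V →ₗ[ℚ_[p]] ℚ_[p]) (hB : ∀ x, (∀ y, B x y = 0) → x = 0)
    (hBρ : ∀ g x y, B (ρ g x) (ρ g y) = toQ (cyc p Ω g) ^ (-w) * B x y)
    (U : Submodule ℚ_[p] V) (hiso : ∀ x ∈ U, ∀ y ∈ U, B x y = 0)
    (i j : Fin n) (hi : e i ∈ ext U) (hj : e j ∈ ext U) : h i + h j ≠ w := by
  intro hij
  -- some pairing with `e i` is nonzero
  obtain ⟨k, hk⟩ : ∃ k, pairC B (e i) (e k) ≠ 0 := by
    by_contra hcon
    push Not at hcon
    have h1 : pairC B (e i) = 0 := e.ext fun k => by rw [hcon k, LinearMap.zero_apply]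
    have h2 := eq_zero_of_pairC B hB (e i) (fun y => by rw [h1, LinearMap.zero_apply])
    exact e.ne_zero i h2
  have hw : h i + h k = w := by
    by_contra hne
    obtain ⟨σ, g, hc, hne'⟩ := exists_ne_twist ι (pairC B (e i) (e k)) hk (w - (h i + h k))
      (sub_ne_zero.2 (Ne.symm hne))
    apply hne'
    have h1 := pairC_semi B σ (ρ g) _ (hBρ g) (e i) (e k)
    rw [he σ g hc i, he σ g hc k, map_smul, map_smul, LinearMap.smul_apply, smul_eq_mul,
      smul_eq_mul] at h1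
    have hχ0 : toQ (cyc p Ω g) ≠ 0 := toQ_ne_zero _
    have e1 : algebraMap ℚ_[p] ℂ_[p] (toQ (cyc p Ω g) ^ (w - (h i + h k))) *
        algebraMap ℚ_[p] ℂ_[p] (toQ (cyc p Ω g) ^ (-w)) =
        algebraMap ℚ_[p] ℂ_[p] (toQ (cyc p Ω g) ^ (-h i)) *
        algebraMap ℚ_[p] ℂ_[p] (toQ (cyc p Ω g) ^ (-h k)) := by
      rw [← map_mul, ← map_mul, ← zpow_add₀ hχ0, ← zpow_add₀ hχ0]
      congr 2
      ring
    have e2 : algebraMap ℚ_[p] ℂ_[p] (toQ (cyc p Ω g) ^ (-w)) ≠ 0 := by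
      rw [Ne, map_eq_zero]
      exact zpow_ne_zero _ hχ0
    apply mul_left_cancel₀ e2
    rw [← h1]
    linear_combination (pairC B (e i) (e k)) * (-e1)
  have hkj : k = j := hinj (by omega)
  rw [hkj] at hk
  exact hk (pairC_eq_zero B U hiso _ _ hi hj)

end pairing

section involution

variable {k V : Type*} [Field k] [CharZero k] [AddCommGroup V] [Module k V] [FiniteDimensional k V]

/-- The bound on isotropic subspaces stable under an involution preserving the pairing. -/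
theorem involution_bound (B : V →ₗ[k] V →ₗ[k] k) (hB : ∀ x, (∀ y, B x y = 0) → x = 0)
    (T : V →ₗ[k] V) (hT : ∀ x, T (T x) = x) (hBT : ∀ x y, B (T x) (T y) = B x y)
    (U : Submodule k V) (hU : ∀ u ∈ U, T u ∈ U) (hiso : ∀ x ∈ U, ∀ y ∈ U, B x y = 0) :
    finrank k U ≤ finrank k (LinearMap.ker (T - LinearMap.id)) / 2 +
      finrank k (LinearMap.ker (T + LinearMap.id)) / 2 := by
  have two : (2 : k) ≠ 0 := two_ne_zero
  set S₁ := LinearMap.ker (T - LinearMap.id) with hS₁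
  set S₂ := LinearMap.ker (T + LinearMap.id) with hS₂
  have hm1 : ∀ x, x ∈ S₁ ↔ T x = x := by
    intro x
    rw [hS₁, LinearMap.mem_ker, LinearMap.sub_apply, LinearMap.id_apply, sub_eq_zero]
  have hm2 : ∀ x, x ∈ S₂ ↔ T x = -x := by
    intro x
    rw [hS₂, LinearMap.mem_ker, LinearMap.add_apply, LinearMap.id_apply, add_eq_zero_iff_eq_neg]
  have horth : ∀ x ∈ S₁, ∀ y ∈ S₂, B x y = 0 := by
    intro x hx y hy
    have h1 := hBT x y
    rw [(hm1 x).1 hx, (hm2 y).1 hy, map_neg] at h1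
    have h2 : (2 : k) * B x y = 0 := by linear_combination -h1
    exact (mul_eq_zero.1 h2).resolve_left two
  have horth' : ∀ x ∈ S₂, ∀ y ∈ S₁, B x y = 0 := by
    intro x hx y hy
    have h1 := hBT x y
    rw [(hm2 x).1 hx, (hm1 y).1 hy, map_neg, LinearMap.neg_apply] at h1
    have h2 : (2 : k) * B x y = 0 := by linear_combination -h1
    exact (mul_eq_zero.1 h2).resolve_left two
  have hdec : ∀ x, ∃ a ∈ S₁, ∃ b ∈ S₂, x = a + b ∧ (x ∈ U → a ∈ U ∧ b ∈ U) := by
    intro x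
    refine ⟨(2 : k)⁻¹ • (x + T x), ?_, (2 : k)⁻¹ • (x - T x), ?_, ?_, ?_⟩
    · rw [hm1, map_smul, map_add, hT, add_comm]
    · rw [hm2, map_smul, map_sub, hT, ← smul_neg, neg_sub]
    · rw [← smul_add]
      have : x + T x + (x - T x) = (2 : k) • x := by
        rw [two_smul]; abel
      rw [this, smul_smul, inv_mul_cancel₀ two, one_smul]
    · intro hx
      exact ⟨U.smul_mem _ (U.add_mem hx (hU x hx)), U.smul_mem _ (U.sub_mem hx (hU x hx))⟩
  have hnd1 : ∀ x ∈ S₁, (∀ y ∈ S₁, B x y = 0) → x = 0 := by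
    intro x hx hxy
    apply hB
    intro y
    obtain ⟨a, ha, b, hb, rfl, _⟩ := hdec y
    rw [map_add, hxy a ha, horth x hx b hb, add_zero]
  have hnd2 : ∀ x ∈ S₂, (∀ y ∈ S₂, B x y = 0) → x = 0 := by
    intro x hx hxy
    apply hB
    intro y
    obtain ⟨a, ha, b, hb, rfl, _⟩ := hdec y
    rw [map_add, hxy b hb, horth' x hx a ha, zero_add]
  have h1 := isotropic_bound B S₁ (U ⊓ S₁) inf_le_right (fun x hx y hy => hiso x hx.1 y hy.1) hnd1
  have h2 := isotropic_bound B S₂ (U ⊓ S₂) inf_le_right (fun x hx y hy => hiso x hx.1 y hy.1) hnd2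
  have h3 : U ≤ (U ⊓ S₁) ⊔ (U ⊓ S₂) := by
    intro x hx
    obtain ⟨a, ha, b, hb, hab, hmem⟩ := hdec x
    rw [hab]
    exact Submodule.add_mem_sup ⟨(hmem hx).1, ha⟩ ⟨(hmem hx).2, hb⟩
  have h4 := Submodule.finrank_mono h3
  have h5 := Submodule.finrank_add_le_finrank_add_finrank (U ⊓ S₁) (U ⊓ S₂)
  omega

end involution

end Pool.Agent.GSem
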