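import Mathlib
import Pool.Agent.Lib.Helper90.GSem.Pair

/-!
# Semisimplicity of polarised pure representations with distinct Hodge–Tate weights
-/

namespace Pool.Agent.GSem

open NumberField TensorProduct Module Polynomial

section main

variable {p : ℕ} [hp : Fact p.Prime] {Ω : Type*} [Field Ω] [CharZero Ω] [IsAlgClosed Ω]
  [IsGalois ℚ Ω]
variable {V : Type*} [AddCommGroup V] [Module ℚ_[p] V] [FiniteDimensional ℚ_[p] V]

omit [IsAlgClosed Ω] [IsGalois ℚ Ω] [FiniteDimensional ℚ_[p] V] in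
theorem perp_stable (ρ : Representation ℚ_[p] Gal(Ω/ℚ) V) (w : ℤ)
    (B : V →ₗ[ℚ_[p]] V →ₗ[ℚ_[p]] ℚ_[p])
    (hBρ : ∀ g x y, B (ρ g x) (ρ g y) = toQ (cyc p Ω g) ^ (-w) * B x y)
    (W : Submodule ℚ_[p] V) (hW : ∀ g, ∀ x ∈ W, ρ g x ∈ W) :
    ∀ g, ∀ x ∈ perp B W, ρ g x ∈ perp B W := by
  intro g y hy x hx
  have h1 := hBρ g (ρ g⁻¹ x) y
  have h2 : ρ g (ρ g⁻¹ x) = x := by
    have : ρ g (ρ g⁻¹ x) = (ρ g * ρ g⁻¹) x := rfl
    rw [this, ← map_mul, mul_inv_cancel, map_one]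
    rfl
  rw [h2, hy _ (hW g⁻¹ x hx), mul_zero] at h1
  exact h1

omit [IsAlgClosed Ω] [IsGalois ℚ Ω] in
/-- Reduction to isotropic subspaces. -/
theorem semisimple_of_isotropic (ρ : Representation ℚ_[p] Gal(Ω/ℚ) V) (w : ℤ)
    (B : V →ₗ[ℚ_[p]] V →ₗ[ℚ_[p]] ℚ_[p])
    (hBρ : ∀ g x y, B (ρ g x) (ρ g y) = toQ (cyc p Ω g) ^ (-w) * B x y)
    (h : ∀ U : Submodule ℚ_[p] V, (∀ g, ∀ x ∈ U, ρ g x ∈ U) →
      (∀ x ∈ U, ∀ y ∈ U, B x y = 0) → U = ⊥) : HasStableComplements ρ := by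
  intro W hW
  have hWp := perp_stable ρ w B hBρ W hW
  refine ⟨perp B W, hWp, isCompl_perp B W ?_⟩
  apply h
  · intro g x hx
    exact ⟨hW g x hx.1, hWp g x hx.2⟩
  · intro x hx y hy
    exact hy.2 x hx.1

/-- **Criterion.** -/
theorem semisimple_criterion (ρ : Representation ℚ_[p] Gal(Ω/ℚ) V) (hρ : IsContinuousRep ρ)
    (w : ℤ) (B : V →ₗ[ℚ_[p]] V →ₗ[ℚ_[p]] ℚ_[p]) (hB : ∀ x, (∀ y, B x y = 0) → x = 0)
    (hBρ : ∀ g x y, B (ρ g x) (ρ g y) = toQ (cyc p Ω g) ^ (-w) * B x y)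
    {n : ℕ} (h : Fin n → ℤ) (hinj : Function.Injective h)
    (ι : Ω →+* PadicAlgCl p) (e : Basis (Fin n) ℂ_[p] (ℂ_[p] ⊗[ℚ_[p]] V))
    (he : IsHTBasis ι ρ h e)
    {q : ℕ} (hq : q.Prime) (hqp : q ≠ p) {φ : Gal(Ω/ℚ)} (hφ : IsFrobAt q φ)
    (hpure : IsPureOp q w (ρ φ)) (c : Gal(Ω/ℚ)) (hc : c * c = 1)
    (hcrit : ∀ J : Finset (Fin n), J.Nonempty → 2 * J.card ≤ n →
      (∀ i ∈ J, ∀ j ∈ J, h i + h j ≠ w) → ∑ j ∈ J, (2 * h j - w) = 0 →
      Even w ∧ finrank ℚ_[p] (LinearMap.ker (ρ c - LinearMap.id)) / 2 +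
        finrank ℚ_[p] (LinearMap.ker (ρ c + LinearMap.id)) / 2 < J.card) :
    HasStableComplements ρ := by
  apply semisimple_of_isotropic ρ w B hBρ
  intro U hU hiso
  obtain ⟨J, hJcard, hJmem, hJsum⟩ := exists_weights ι ρ hρ h hinj e he w hq hqp hφ hpure U hU
  by_contra hU0
  have hdim : finrank ℚ_[p] V = n := by
    have h1 : finrank ℂ_[p] (ℂ_[p] ⊗[ℚ_[p]] V) = n := by
      rw [finrank_eq_card_basis e, Fintype.card_fin]
    rwa [finrank_baseChange] at h1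
  have hpos : 0 < finrank ℚ_[p] U := by
    rw [Nat.pos_iff_ne_zero]
    intro h0
    exact hU0 (Submodule.finrank_eq_zero.1 h0)
  have hne : J.Nonempty := by
    rw [← Finset.card_pos, hJcard]
    exact hpos
  have h2n : 2 * J.card ≤ n := by
    have h1 := isotropic_bound B ⊤ U le_top hiso (fun x _ hx => hB x (fun y => hx y trivial))
    rw [finrank_top, hdim] at h1
    rw [hJcard]
    exact h1
  obtain ⟨hw, hlt⟩ := hcrit J hne h2n (fun i hi j hj =>
    no_opposite ι ρ h hinj e he w B hB hBρ U hiso i j (hJmem i hi) (hJmem j hj)) hJsum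
  -- the involution
  have hχ : toQ (cyc p Ω c) ^ (-w) = 1 := by
    obtain ⟨m, hm⟩ := hw
    have h1 : toQ (cyc p Ω c) * toQ (cyc p Ω c) = 1 := by
      rw [← map_mul, ← map_mul, hc, map_one, map_one]
    have h2 : (-w) = 2 * (-m) := by omega
    rw [h2, zpow_mul, zpow_ofNat, pow_two, h1, one_zpow]
  have hT : ∀ x, ρ c (ρ c x) = x := by
    intro x
    have : ρ c (ρ c x) = (ρ c * ρ c) x := rfl
    rw [this, ← map_mul, hc, map_one]
    rfl
  have h3 := involution_bound B hB (ρ c) hT (fun x y => by rw [hBρ, hχ, one_mul]) U (hU c) hiso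
  omega

omit [IsAlgClosed Ω] [IsGalois ℚ Ω] in
/-- The eigenspaces of an involution. -/
theorem eigenspaces_le (T : V →ₗ[ℚ_[p]] V) :
    finrank ℚ_[p] (LinearMap.ker (T - LinearMap.id)) +
      finrank ℚ_[p] (LinearMap.ker (T + LinearMap.id)) ≤ finrank ℚ_[p] V := by
  have hdisj : (LinearMap.ker (T - LinearMap.id)) ⊓ (LinearMap.ker (T + LinearMap.id)) = ⊥ := by
    rw [eq_bot_iff]
    intro x hx
    have h0 := Submodule.mem_inf.1 hx
    have h1 : T x = x := by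
      have := h0.1
      rwa [LinearMap.mem_ker, LinearMap.sub_apply, LinearMap.id_apply, sub_eq_zero] at this
    have h2 : T x = -x := by
      have := h0.2
      rwa [LinearMap.mem_ker, LinearMap.add_apply, LinearMap.id_apply,
        add_eq_zero_iff_eq_neg] at this
    rw [h1] at h2
    have h3 : (2 : ℚ_[p]) • x = 0 := by
      rw [two_smul]
      nth_rewrite 1 [h2]
      exact neg_add_cancel x
    rw [Submodule.mem_bot]
    exact (smul_eq_zero.1 h3).resolve_left two_ne_zero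
  have h1 := Submodule.finrank_sup_add_finrank_inf_eq (LinearMap.ker (T - LinearMap.id))
    (LinearMap.ker (T + LinearMap.id))
  rw [hdisj, finrank_bot, add_zero] at h1
  rw [← h1]
  exact Submodule.finrank_le _

/-- The combinatorial condition holds in dimension at most six. -/
theorem crit_of_le_six {n : ℕ} (hn : n ≤ 6) (h : Fin n → ℤ) (w : ℤ) (a b : ℕ) (hab : a + b ≤ n)
    (h6 : n = 6 → Even w → Odd a) (J : Finset (Fin n)) (hJ : J.Nonempty) (h2 : 2 * J.card ≤ n)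
    (hop : ∀ i ∈ J, ∀ j ∈ J, h i + h j ≠ w) (hsum : ∑ j ∈ J, (2 * h j - w) = 0) :
    Even w ∧ a / 2 + b / 2 < J.card := by
  classical
  have hpos := hJ.card_pos
  have hcases : J.card = 1 ∨ J.card = 2 ∨ J.card = 3 := by omega
  rcases hcases with h1 | h1 | h1
  · obtain ⟨i, rfl⟩ := Finset.card_eq_one.1 h1
    rw [Finset.sum_singleton] at hsum
    exact absurd (by omega) (hop i (Finset.mem_singleton_self i) i (Finset.mem_singleton_self i))
  · obtain ⟨i, j, hij, rfl⟩ := Finset.card_eq_two.1 h1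
    rw [Finset.sum_pair hij] at hsum
    exact absurd (by omega) (hop i (by simp) j (by simp))
  · obtain ⟨i, j, k, hij, hik, hjk, rfl⟩ := Finset.card_eq_three.1 h1
    rw [Finset.sum_insert (by simp [hij, hik]), Finset.sum_pair hjk] at hsum
    have hn6 : n = 6 := by omega
    have hw : Even w := by
      rw [Int.even_iff]; omega
    obtain ⟨m, hm⟩ := h6 hn6 hw
    exact ⟨hw, by omega⟩

end main

end Pool.Agent.GSem
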