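import Mathlib
import Pool.Agent.Lib.Helper90.GSem.Main

/-!
# Determinants of stable subspaces of Hodge–Tate representations (arbitrary weights)
-/

namespace Pool.Agent.GSem

open NumberField TensorProduct Module Polynomial

section adapted

variable {p : ℕ} [hp : Fact p.Prime] {Ω : Type*} [Field Ω] [CharZero Ω]
variable {V : Type*} [AddCommGroup V] [Module ℚ_[p] V] [FiniteDimensional ℚ_[p] V]

/-- An adapted basis of a stable subspace. -/
theorem exists_adapted (ι : Ω →+* PadicAlgCl p) (ρ : Representation ℚ_[p] Gal(Ω/ℚ) V) {n : ℕ}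
    (h : Fin n → ℤ) (e : Basis (Fin n) ℂ_[p] (ℂ_[p] ⊗[ℚ_[p]] V)) (he : IsHTBasis ι ρ h e)
    (X : Submodule ℂ_[p] (ℂ_[p] ⊗[ℚ_[p]] V))
    (hX : ∀ σ g, Compat ι σ g → ∀ x ∈ X, semi σ (ρ g) x ∈ X) :
    ∃ (J : Fin (finrank ℂ_[p] X) → Fin n) (v : Fin (finrank ℂ_[p] X) → ℂ_[p] ⊗[ℚ_[p]] V),
      (∀ j, v j ∈ X) ∧ LinearIndependent ℂ_[p] v ∧
      ∀ σ g, Compat ι σ g → ∀ j, semi σ (ρ g) (v j) =
        algebraMap ℚ_[p] ℂ_[p] (toQ (cyc p Ω g) ^ (-h (J j))) • v j := by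
  classical
  obtain ⟨κ, a, ha, hspan, hli⟩ := exists_linearIndependent' (K := ℂ_[p])
    (fun i : Fin n => X.mkQ (e i))
  have hfin : Fintype κ := Fintype.ofInjective a ha
  have htop : Submodule.span ℂ_[p] (Set.range fun i : Fin n => X.mkQ (e i)) = ⊤ := by
    have h1 : (Set.range fun i : Fin n => X.mkQ (e i)) = X.mkQ '' (Set.range e) := by
      rw [← Set.range_comp]; rfl
    rw [h1, Submodule.span_image, e.span_eq, Submodule.map_top, LinearMap.range_eq_top]
    exact Submodule.mkQ_surjective X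
  rw [htop] at hspan
  -- coordinates
  have hc : ∀ i : Fin n, ∃ c : κ → ℂ_[p], ∑ k, c k • X.mkQ (e (a k)) = X.mkQ (e i) := by
    intro i
    have h1 : X.mkQ (e i) ∈ Submodule.span ℂ_[p]
        (Set.range ((fun i : Fin n => X.mkQ (e i)) ∘ a)) := by
      rw [hspan]; trivial
    exact (Submodule.mem_span_range_iff_exists_fun _).1 h1
  choose c hc using hc
  have hcardκ : Fintype.card κ + finrank ℂ_[p] X = n := by
    have h1 : finrank ℂ_[p] ((ℂ_[p] ⊗[ℚ_[p]] V) ⧸ X) = Fintype.card κ := by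
      rw [← finrank_top ℂ_[p] ((ℂ_[p] ⊗[ℚ_[p]] V) ⧸ X), ← hspan, finrank_span_eq_card hli]
    have h2 := Submodule.finrank_quotient_add_finrank X
    rw [h1, finrank_eq_card_basis e, Fintype.card_fin] at h2
    exact h2
  set Jc : Finset (Fin n) := (Finset.univ.image a)ᶜ with hJc
  have hJcard : Jc.card = finrank ℂ_[p] X := by
    rw [hJc, Finset.card_compl, Finset.card_image_of_injective _ ha, Finset.card_univ,
      Fintype.card_fin]
    omega
  have hmem : ∀ i, i ∈ Jc ↔ ∀ k, a k ≠ i := by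
    intro i
    rw [hJc, Finset.mem_compl, Finset.mem_image]
    push Not
    exact ⟨fun h k => h k (Finset.mem_univ k), fun h k _ => h k⟩
  let ε : Fin (finrank ℂ_[p] X) ≃ Jc := (finCongr hJcard.symm).trans Jc.equivFin.symm
  -- the vectors
  let u : Fin n → ℂ_[p] ⊗[ℚ_[p]] V := fun i => e i - ∑ k, c i k • e (a k)
  have huX : ∀ i, u i ∈ X := by
    intro i
    rw [← Submodule.ker_mkQ X, LinearMap.mem_ker, map_sub, map_sum]
    simp only [map_smul]
    rw [hc, sub_self]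
  have hrepr : ∀ i ∈ Jc, ∀ j, e.repr (u j) i = if j = i then 1 else 0 := by
    intro i hi j
    rw [map_sub, e.repr_self, Finsupp.sub_apply, Finsupp.single_apply, map_sum,
      Finsupp.finsetSum_apply]
    have h1 : ∑ k, e.repr (c j k • e (a k)) i = 0 := by
      refine Finset.sum_eq_zero fun k _ => ?_
      rw [map_smul, e.repr_self, Finsupp.smul_apply, Finsupp.single_apply,
        if_neg ((hmem i).1 hi k), smul_zero]
    rw [h1, sub_zero]
  -- vectors of `X` with zero coordinates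
  have hzero : ∀ z ∈ X, (∀ i ∈ Jc, e.repr z i = 0) → z = 0 := by
    intro z hz hz0
    have h1 : z = ∑ k, e.repr z (a k) • e (a k) := by
      conv_lhs => rw [← e.sum_repr z]
      have h2 : ∑ k, e.repr z (a k) • e (a k) =
          ∑ i ∈ Finset.univ.image a, e.repr z i • e i := by
        rw [Finset.sum_image (fun x _ y _ hxy => ha hxy)]
      rw [h2]
      symm
      apply Finset.sum_subset (Finset.subset_univ _)
      intro i _ hi
      rw [hz0 i (by rw [hJc, Finset.mem_compl]; exact hi), zero_smul]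
    have h2 : X.mkQ z = 0 := by
      rw [← LinearMap.mem_ker, Submodule.ker_mkQ]; exact hz
    rw [h1, map_sum] at h2
    simp only [map_smul] at h2
    have h3 := Fintype.linearIndependent_iff.1 hli _ h2
    rw [h1]
    exact Finset.sum_eq_zero fun k _ => by rw [h3 k, zero_smul]
  refine ⟨fun j => ε j, fun j => u (ε j), fun j => huX _, ?_, ?_⟩
  · rw [Fintype.linearIndependent_iff]
    intro g hg j
    have h1 := congrArg (fun z => e.repr z (ε j)) hg
    simp only [map_sum, map_smul, Finsupp.finsetSum_apply, Finsupp.smul_apply, map_zero,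
      Finsupp.zero_apply, smul_eq_mul] at h1
    rw [Finset.sum_eq_single j] at h1
    · rw [hrepr _ (ε j).2, if_pos rfl, mul_one] at h1
      exact h1
    · intro k _ hk
      rw [hrepr _ (ε j).2, if_neg, mul_zero]
      intro h2
      exact hk (ε.injective (Subtype.ext h2))
    · intro h2; exact absurd (Finset.mem_univ j) h2
  · intro σ g hcσ j
    rw [← sub_eq_zero]
    apply hzero
    · exact X.sub_mem (hX σ g hcσ _ (huX _)) (X.smul_mem _ (huX _))
    · intro i hi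
      rw [map_sub, Finsupp.sub_apply, map_smul, Finsupp.smul_apply,
        repr_semi e σ (ρ g) _ (he σ g hcσ), hrepr i hi, smul_eq_mul]
      split_ifs with h1
      · rw [map_one, one_mul, mul_one]
        dsimp only
        rw [h1, sub_self]
      · rw [map_zero, zero_mul, mul_zero, sub_self]

variable [IsAlgClosed Ω] [IsGalois ℚ Ω]

/-- **Determinants.** On a stable subspace of a Hodge–Tate representation the determinant is, up to
finite order, a power of the cyclotomic character. -/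
theorem exists_det_power (ι : Ω →+* PadicAlgCl p) (ρ : Representation ℚ_[p] Gal(Ω/ℚ) V)
    (hρ : IsContinuousRep ρ) {n : ℕ} (h : Fin n → ℤ)
    (e : Basis (Fin n) ℂ_[p] (ℂ_[p] ⊗[ℚ_[p]] V)) (he : IsHTBasis ι ρ h e)
    (U : Submodule ℚ_[p] V) (hU : ∀ g, ∀ u ∈ U, ρ g u ∈ U) :
    ∃ (H : ℤ) (N : ℕ), 0 < N ∧ ∀ g, detOn ρ U hU g ^ N = toQ (cyc p Ω g) ^ (-(H * N)) := by
  classical
  set d := finrank ℚ_[p] U with hd
  let b : Basis (Fin d) ℚ_[p] U := Module.finBasis ℚ_[p] U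
  have hX : ∀ σ g, Compat ι σ g → ∀ x ∈ ext U, semi σ (ρ g) x ∈ ext U :=
    fun σ g _ x hx => semi_mem_ext σ (ρ g) (hU g) x hx
  have hdim : finrank ℂ_[p] (ext U) = d := by
    have h1 : ext U = Submodule.span ℂ_[p]
        (Set.range fun k => (1 : ℂ_[p]) ⊗ₜ[ℚ_[p]] (b k : V)) := by
      ext x
      rw [mem_ext_iff b, Submodule.mem_span_range_iff_exists_fun]
    rw [h1, finrank_span_eq_card (linearIndependent_one_tmul b), Fintype.card_fin]
  obtain ⟨J, v, hvX, hvli, hvs⟩ := exists_adapted ι ρ h e he (ext U) hX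
  let ε : Fin d ≃ Fin (finrank ℂ_[p] (ext U)) := finCongr hdim.symm
  choose M hM using fun j : Fin d => (mem_ext_iff b (v (ε j))).1 (hvX _)
  have hM' : ∀ j, v (ε j) = ∑ k, (Matrix.of M) j k • ((1 : ℂ_[p]) ⊗ₜ[ℚ_[p]] (b k : V)) :=
    fun j => (hM j).symm
  have hdet0 : (Matrix.of M).det ≠ 0 :=
    det_ne_zero_of_linearIndependent b (fun j => v (ε j)) _ hM' (hvli.comp _ ε.injective)
  set H : ℤ := ∑ j : Fin d, h (J (ε j)) with hH
  have hrel : ∀ σ g, Compat ι σ g → galC σ (Matrix.of M).det *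
      algebraMap ℚ_[p] ℂ_[p] (detOn ρ U hU g) =
      algebraMap ℚ_[p] ℂ_[p] (toQ (cyc p Ω g) ^ (-H)) * (Matrix.of M).det := by
    intro σ g hc
    have h1 := det_relation b (fun j => v (ε j)) (Matrix.of M) hM' σ (ρ g) (hU g)
      (fun j => algebraMap ℚ_[p] ℂ_[p] (toQ (cyc p Ω g) ^ (-h (J (ε j)))))
      (fun j => hvs σ g hc (ε j))
    have h2 : ∏ j : Fin d, algebraMap ℚ_[p] ℂ_[p] (toQ (cyc p Ω g) ^ (-h (J (ε j)))) =
        algebraMap ℚ_[p] ℂ_[p] (toQ (cyc p Ω g) ^ (-H)) := by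
      rw [← map_prod]
      congr 1
      rw [hH, ← Finset.sum_neg_distrib, prod_zpow_sum (toQ_ne_zero _)]
    rw [h2] at h1
    exact h1
  obtain ⟨δ, hδc, hδ⟩ := exists_unit_char (detOn ρ U hU) (continuous_detOn ρ hρ U hU)
  let ψ : Gal(Ω/ℚ) →* ℤ_[p]ˣ := (cyc p Ω) ^ (-H) * δ⁻¹
  have hψ : ∀ g, ψ g = cyc p Ω g ^ (-H) * (δ g)⁻¹ := by
    intro g
    rfl
  have hψc : Continuous ψ := by
    have h1 : (ψ : Gal(Ω/ℚ) → ℤ_[p]ˣ) = fun g => cyc p Ω g ^ (-H) * (δ g)⁻¹ := by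
      funext g; exact hψ g
    rw [h1]
    exact ((continuous_cyc p Ω).zpow _).mul hδc.inv
  obtain ⟨N, hN, hNψ⟩ := finite_order ι ψ hψc (Matrix.of M).det hdet0 (by
    intro σ g hc
    have h1 := hrel σ g hc
    rw [← hδ] at h1
    have h2 : algebraMap ℚ_[p] ℂ_[p] (toQ (δ g)) ≠ 0 := by
      rw [Ne, map_eq_zero]
      exact toQ_ne_zero _
    rw [hψ, map_mul, map_zpow, map_mul]
    have h3 : toQ (δ g)⁻¹ = (toQ (δ g))⁻¹ := map_inv _ _
    rw [h3, map_inv₀]
    field_simp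
    linear_combination h1)
  refine ⟨H, N, hN, fun g => ?_⟩
  have hφ1 := hNψ g
  have h2 : (δ g) ^ N = (cyc p Ω g ^ (-H)) ^ N := by
    rw [hψ, mul_pow, inv_pow] at hφ1
    exact (mul_inv_eq_one.1 hφ1).symm
  rw [← hδ, ← map_pow, h2, map_pow, map_zpow, ← zpow_natCast, ← zpow_mul]
  congr 1
  ring

/-- **Determinants and purity.** -/
theorem exists_det_weight (ι : Ω →+* PadicAlgCl p) (ρ : Representation ℚ_[p] Gal(Ω/ℚ) V)
    (hρ : IsContinuousRep ρ) {n : ℕ} (h : Fin n → ℤ)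
    (e : Basis (Fin n) ℂ_[p] (ℂ_[p] ⊗[ℚ_[p]] V)) (he : IsHTBasis ι ρ h e)
    (w : ℤ) {q : ℕ} (hq : q.Prime) (hqp : q ≠ p) {φ : Gal(Ω/ℚ)} (hφ : IsFrobAt q φ)
    (hpure : IsPureOp q w (ρ φ)) (U : Submodule ℚ_[p] V) (hU : ∀ g, ∀ u ∈ U, ρ g u ∈ U) :
    ∃ (H : ℤ) (N : ℕ), 0 < N ∧ 2 * H = w * finrank ℚ_[p] U ∧
      ∀ g, detOn ρ U hU g ^ N = toQ (cyc p Ω g) ^ (-(H * N)) := by
  obtain ⟨H, N, hN, hdet⟩ := exists_det_power ι ρ hρ h e he U hU
  refine ⟨H, N, hN, ?_, hdet⟩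
  have hcycφ : toQ (cyc p Ω φ) = (q : ℚ_[p]) := by
    rw [toQ_apply, cyc_frob hq hqp hφ, PadicInt.coe_natCast]
  have hdetφ : (LinearMap.det ((ρ φ).restrict (hU φ))) ^ N = (q : ℚ_[p]) ^ (-(H * N)) := by
    have h1 := hdet φ
    rw [hcycφ] at h1
    exact h1
  obtain ⟨P, hP0, hP, hT⟩ := hpure
  have hTU : aeval ((ρ φ).restrict (hU φ)) (P.map (algebraMap ℚ ℚ_[p])) = 0 := by
    ext u
    rw [aeval_restrict, hT]
    rfl
  have hfin := det_weight ((ρ φ).restrict (hU φ)) P hP0 q hq.one_lt w (-(H * N)) N hP hTU hdetφ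
  have hN' : (N : ℤ) ≠ 0 := by exact_mod_cast hN.ne'
  have h5 : (2 * H - w * finrank ℚ_[p] U) * N = 0 := by linarith
  have h6 := (mul_eq_zero.1 h5).resolve_right hN'
  linarith

end adapted

end Pool.Agent.GSem
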