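import Mathlib
import Pool.Agent.Lib.Helper90.GSem.Weights2

/-!
# Principal unipotent monodromy
-/

namespace Pool.Agent.GSem

open NumberField TensorProduct Module Polynomial

section linear

variable {k V : Type*} [Field k] [AddCommGroup V] [Module k V] [FiniteDimensional k V]

omit [FiniteDimensional k V] in
theorem comm_pow (φ N : V →ₗ[k] V) (l : k) (hφN : ∀ x, φ (N x) = l • N (φ x)) (i : ℕ) (x : V) :
    φ ((N ^ i) x) = l ^ i • (N ^ i) (φ x) := by
  induction i generalizing x with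
  | zero => simp
  | succ i ih =>
    rw [pow_succ, Module.End.mul_apply, ih, hφN, map_smul, smul_smul, Module.End.mul_apply,
      pow_succ]

/-- Dimension of the kernel of a power. -/
theorem finrank_ker_pow_le (N : V →ₗ[k] V) (i : ℕ) :
    finrank k (LinearMap.ker (N ^ i)) ≤ i * finrank k (LinearMap.ker N) := by
  induction i with
  | zero =>
    have : LinearMap.ker (N ^ 0) = ⊥ := by
      rw [pow_zero]
      exact LinearMap.ker_id
    rw [this, finrank_bot]
    omega
  | succ i ih =>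
    -- the map `N ^ i : ker N ^ (i + 1) → ker N`
    let F : LinearMap.ker (N ^ (i + 1)) →ₗ[k] LinearMap.ker N :=
      LinearMap.codRestrict _ ((N ^ i) ∘ₗ (LinearMap.ker (N ^ (i + 1))).subtype) (by
        intro x
        exact (LinearMap.congr_fun (pow_succ' N i) (x : V)).symm.trans x.2)
    have h1 := LinearMap.finrank_range_add_finrank_ker F
    have h2 : finrank k (LinearMap.range F) ≤ finrank k (LinearMap.ker N) :=
      Submodule.finrank_le _
    have h3 : finrank k (LinearMap.ker F) ≤ finrank k (LinearMap.ker (N ^ i)) := by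
      have hmap : (LinearMap.ker F).map (LinearMap.ker (N ^ (i + 1))).subtype ≤
          LinearMap.ker (N ^ i) := by
        rintro _ ⟨x, hx, rfl⟩
        have := congrArg Subtype.val (LinearMap.mem_ker.1 hx)
        exact this
      calc finrank k (LinearMap.ker F)
          = finrank k ((LinearMap.ker F).map (LinearMap.ker (N ^ (i + 1))).subtype) :=
            (LinearEquiv.finrank_eq (Submodule.equivMapOfInjective _
              (Submodule.subtype_injective _) _))
        _ ≤ _ := Submodule.finrank_mono hmap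
    have h4 : (i + 1) * finrank k (LinearMap.ker N) =
        i * finrank k (LinearMap.ker N) + finrank k (LinearMap.ker N) := by ring
    omega

omit [FiniteDimensional k V] in
/-- The determinant in a cyclic situation. -/
theorem det_cyclic (φ N : V →ₗ[k] V) (l : k) (hφN : ∀ x, φ (N x) = l • N (φ x))
    (d : ℕ) (hd : finrank k V = d + 1) (v : V) (hv : (N ^ d) v ≠ 0) (hN : N ^ (d + 1) = 0) :
    ∃ c : k, LinearMap.det φ = c ^ (d + 1) * l ^ (∑ i ∈ Finset.range (d + 1), i) ∧
      φ ((N ^ d) v) = (l ^ d * c) • (N ^ d) v := by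
  classical
  have hNz : ∀ j, d + 1 ≤ j → N ^ j = 0 := by
    intro j hj
    obtain ⟨m, rfl⟩ := Nat.exists_eq_add_of_le hj
    rw [pow_add, hN, zero_mul]
  have hli : LinearIndependent k (fun i : Fin (d + 1) => (N ^ (i : ℕ)) v) := by
    rw [Fintype.linearIndependent_iff]
    intro c hc
    by_contra hcon
    push Not at hcon
    -- the least index with a nonzero coefficient
    have hex : ∃ m : ℕ, ∃ hm : m < d + 1, c ⟨m, hm⟩ ≠ 0 := by
      obtain ⟨i, hi⟩ := hcon
      exact ⟨i, i.2, hi⟩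
    obtain ⟨hm, hcm⟩ := Nat.find_spec hex
    set m := Nat.find hex with hmdef
    have hmin : ∀ i : Fin (d + 1), (i : ℕ) < m → c i = 0 := by
      intro i hi
      by_contra h0
      exact Nat.find_min hex hi ⟨i.2, h0⟩
    have h1 := congrArg (N ^ (d - m)) hc
    rw [map_sum, map_zero, Finset.sum_eq_single ⟨m, hm⟩] at h1
    · rw [map_smul, ← Module.End.mul_apply, ← pow_add] at h1
      have h2 : d - m + m = d := by omega
      simp only [h2] at h1
      exact hcm ((smul_eq_zero.1 h1).resolve_right hv)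
    · intro i _ hi
      rcases lt_trichotomy (i : ℕ) m with h2 | h2 | h2
      · rw [hmin i h2, zero_smul, map_zero]
      · exact absurd (Fin.ext h2) hi
      · rw [map_smul, ← Module.End.mul_apply, ← pow_add, hNz _ (by omega), LinearMap.zero_apply,
          smul_zero]
    · intro h2; exact absurd (Finset.mem_univ _) h2
  let b := basisOfLinearIndependentOfCardEqFinrank hli (by rw [Fintype.card_fin, hd])
  have hb : ∀ i, b i = (N ^ (i : ℕ)) v := by
    intro i
    rw [coe_basisOfLinearIndependentOfCardEqFinrank]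
  set c := fun j => b.repr (φ v) j with hcdef
  have hφv : φ v = ∑ j, c j • (N ^ (j : ℕ)) v := by
    conv_lhs => rw [← b.sum_repr (φ v)]
    exact Finset.sum_congr rfl fun j _ => by rw [hb]
  have hφb : ∀ i : Fin (d + 1), φ (b i) = ∑ j : Fin (d + 1),
      (if (i : ℕ) ≤ j then l ^ (i : ℕ) * c ⟨j - i, by omega⟩ else 0) • b j := by
    intro i
    rw [hb, comm_pow φ N l hφN, hφv, map_sum, Finset.smul_sum]
    simp_rw [map_smul, ← Module.End.mul_apply, ← pow_add, smul_smul]
    -- compare the sums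
    have h1 : ∑ j : Fin (d + 1), (l ^ (i : ℕ) * c j) • (N ^ ((i : ℕ) + j)) v =
        ∑ j ∈ Finset.univ.filter (fun j : Fin (d + 1) => (i : ℕ) + j < d + 1),
          (l ^ (i : ℕ) * c j) • (N ^ ((i : ℕ) + j)) v := by
      symm
      apply Finset.sum_subset (Finset.filter_subset _ _)
      intro j _ hj
      rw [Finset.mem_filter, not_and] at hj
      rw [hNz _ (not_lt.1 (hj (Finset.mem_univ _))), LinearMap.zero_apply, smul_zero]
    have h2 : ∑ j : Fin (d + 1),
        (if (i : ℕ) ≤ j then l ^ (i : ℕ) * c ⟨j - i, by omega⟩ else 0) • b j =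
        ∑ j ∈ Finset.univ.filter (fun j : Fin (d + 1) => (i : ℕ) ≤ j),
          (l ^ (i : ℕ) * c ⟨j - i, by omega⟩) • b j := by
      rw [Finset.sum_filter]
      refine Finset.sum_congr rfl fun j _ => ?_
      split_ifs
      · rfl
      · rw [zero_smul]
    rw [h1, h2]
    refine Finset.sum_bij' (fun j hj => ⟨(i : ℕ) + j, (Finset.mem_filter.1 hj).2⟩)
      (fun j _ => ⟨j - i, by omega⟩) ?_ ?_ ?_ ?_ ?_
    · intro j hj
      rw [Finset.mem_filter]
      exact ⟨Finset.mem_univ _, Nat.le_add_right _ _⟩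
    · intro j hj
      rw [Finset.mem_filter] at hj ⊢
      refine ⟨Finset.mem_univ _, ?_⟩
      have := j.2
      have := hj.2
      dsimp only
      omega
    · intro j hj
      apply Fin.ext
      dsimp only
      omega
    · intro j hj
      have := (Finset.mem_filter.1 hj).2
      apply Fin.ext
      dsimp only
      omega
    · intro j hj
      rw [hb]
      have h3 : (⟨(i : ℕ) + j - i, by omega⟩ : Fin (d + 1)) = j := by
        apply Fin.ext
        dsimp only
        omega
      dsimp only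
      rw [h3]
  have hmat : ∀ i j, LinearMap.toMatrix b b φ i j =
      if (j : ℕ) ≤ i then l ^ (j : ℕ) * c ⟨i - j, by omega⟩ else 0 := by
    intro i j
    rw [LinearMap.toMatrix_apply, hφb, b.repr_sum_self]
  refine ⟨c 0, ?_, ?_⟩
  · rw [← LinearMap.det_toMatrix b, Matrix.det_of_isLowerTriangular]
    · have h1 : ∀ i : Fin (d + 1), LinearMap.toMatrix b b φ i i = l ^ (i : ℕ) * c 0 := by
        intro i
        rw [hmat, if_pos le_rfl]
        congr 2
        apply Fin.ext
        simp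
      rw [Finset.prod_congr rfl fun i _ => h1 i, Finset.prod_mul_distrib, Finset.prod_const,
        Finset.card_univ, Fintype.card_fin, Finset.prod_pow_eq_pow_sum, mul_comm,
        Fin.sum_univ_eq_sum_range (fun i => i)]
    · intro i j hij
      rw [hmat, if_neg]
      have : (i : ℕ) < j := hij
      omega
  · have h1 := hφb (Fin.last d)
    rw [Finset.sum_eq_single (Fin.last d)] at h1
    · rw [hb, if_pos le_rfl] at h1
      simp only [Fin.val_last] at h1
      rw [h1]
      congr 3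
      apply Fin.ext
      simp
    · intro j _ hj
      rw [if_neg, zero_smul]
      rw [Fin.val_last]
      intro h2
      apply hj
      apply Fin.ext
      rw [Fin.val_last]
      have := j.2
      omega
    · intro h2; exact absurd (Finset.mem_univ _) h2

theorem pow_finrank_eq_zero (N : V →ₗ[k] V) (hN : IsNilpotent N) : N ^ finrank k V = 0 := by
  have h1 := (LinearMap.isNilpotent_iff_charpoly N).1 hN
  have h2 := LinearMap.aeval_self_charpoly N
  rw [h1, map_pow, aeval_X] at h2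
  exact h2

/-- A nilpotent operator is a polynomial in `E(N)` if the linear coefficient of `E` is not zero. -/
theorem mem_adjoin_of_coeff (N : V →ₗ[k] V) (hN : IsNilpotent N) (E : k[X]) (hE : E.coeff 1 ≠ 0) :
    N ∈ Algebra.adjoin k {aeval N E} := by
  set A := Algebra.adjoin k {aeval N E} with hA
  set n := finrank k V with hn
  have hNn := pow_finrank_eq_zero N hN
  rw [← hn] at hNn
  have hE0 : (E - C (E.coeff 0)).coeff 0 = 0 := by
    rw [coeff_sub, coeff_C_zero, sub_self]
  obtain ⟨u, hu⟩ := X_dvd_iff.2 hE0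
  have hu0 : u.coeff 0 = E.coeff 1 := by
    have h1 : (E - C (E.coeff 0)).coeff 1 = u.coeff 0 := by
      rw [hu, coeff_X_mul]
    rw [← h1, coeff_sub, coeff_C_succ, sub_zero]
  have hS : aeval N (X * u) ∈ A := by
    rw [← hu, map_sub, aeval_C]
    exact A.sub_mem (Algebra.subset_adjoin rfl) (A.algebraMap_mem _)
  have key : ∀ m : ℕ, ∀ j : ℕ, 1 ≤ j → n ≤ j + m → ∀ r : k[X], aeval N (X ^ j * r) ∈ A := by
    intro m
    induction m with
    | zero =>
      intro j hj hjn r
      have h1 : N ^ j = 0 := by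
        obtain ⟨i, rfl⟩ := Nat.exists_eq_add_of_le (show n ≤ j by omega)
        rw [pow_add, hNn, zero_mul]
      rw [map_mul, map_pow, aeval_X, h1, zero_mul]
      exact A.zero_mem
    | succ m ih =>
      intro j hj hjn r
      have hstep := ih (j + 1) (by omega) (by omega)
      -- first `X ^ j`
      have hXj : aeval N (X ^ j : k[X]) ∈ A := by
        have h1 : (u ^ j - C (u.coeff 0 ^ j)).coeff 0 = 0 := by
          rw [coeff_sub, coeff_C_zero, coeff_zero_eq_eval_zero, eval_pow,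
            ← coeff_zero_eq_eval_zero, sub_self]
        obtain ⟨v, hv⟩ := X_dvd_iff.2 h1
        have hc : u.coeff 0 ^ j ≠ 0 := pow_ne_zero _ (by rw [hu0]; exact hE)
        have h2 : C (u.coeff 0 ^ j) * (X : k[X]) ^ j = (X * u) ^ j - X ^ (j + 1) * v := by
          rw [mul_pow]
          linear_combination (-(X : k[X]) ^ j) * hv
        have h3 : (X : k[X]) ^ j = C ((u.coeff 0 ^ j)⁻¹) * ((X * u) ^ j - X ^ (j + 1) * v) := by
          rw [← h2, ← mul_assoc, ← C_mul, inv_mul_cancel₀ hc, C_1, one_mul]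
        rw [h3, map_mul, aeval_C, map_sub, map_pow]
        exact A.mul_mem (A.algebraMap_mem _) (A.sub_mem (A.pow_mem hS j) (hstep v))
      have h1 : r = C (r.coeff 0) + X * r.divX := by
        conv_lhs => rw [← divX_mul_X_add r]
        ring
      have h2 : X ^ j * r = C (r.coeff 0) * X ^ j + X ^ (j + 1) * r.divX := by
        conv_lhs => rw [h1]
        ring
      rw [h2, map_add, map_mul, aeval_C]
      exact A.add_mem (A.mul_mem (A.algebraMap_mem _) hXj) (hstep _)
  have h1 := key n 1 le_rfl (by omega) 1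
  rw [pow_one, mul_one, aeval_X] at h1
  exact h1

/-- The polynomial giving the exponential. -/
noncomputable def expPoly (k : Type*) [Field k] (n : ℕ) : k[X] :=
  ∑ i ∈ Finset.range (n + 1), C ((i.factorial : k)⁻¹) * X ^ i

omit [FiniteDimensional k V] in
theorem aeval_expPoly (N : V →ₗ[k] V) : aeval N (expPoly k (finrank k V)) = nexp N := by
  rw [expPoly, map_sum, nexp]
  refine Finset.sum_congr rfl fun i _ => ?_
  rw [map_mul, aeval_C, map_pow, aeval_X, Algebra.algebraMap_eq_smul_one, smul_mul_assoc, one_mul]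

theorem expPoly_coeff (n : ℕ) (i : ℕ) (hi : i < n + 1) :
    (expPoly k n).coeff i = (i.factorial : k)⁻¹ := by
  rw [expPoly, finsetSum_coeff]
  simp only [coeff_C_mul, coeff_X_pow, mul_ite, mul_one, mul_zero]
  rw [Finset.sum_ite_eq, if_pos (Finset.mem_range.2 hi)]

/-- A nilpotent operator is a polynomial in the powers of its exponential. -/
theorem mem_adjoin_nexp_pow [CharZero k] (N : V →ₗ[k] V) (hN : IsNilpotent N) (m : ℕ)
    (hm : 0 < m) : N ∈ Algebra.adjoin k {nexp N ^ m} := by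
  by_cases hn : finrank k V = 0
  · have h1 : N = 0 := by
      have h2 := pow_finrank_eq_zero N hN
      rw [hn, pow_zero] at h2
      rw [← one_mul N, h2, zero_mul]
    rw [h1]
    exact Subalgebra.zero_mem _
  · have h1 : aeval N (expPoly k (finrank k V) ^ m) = nexp N ^ m := by
      rw [map_pow, aeval_expPoly]
    rw [← h1]
    apply mem_adjoin_of_coeff N hN
    set E := expPoly k (finrank k V) with hE
    have h2 : (E ^ m).coeff 1 = (derivative (E ^ m)).coeff 0 := by
      rw [coeff_derivative]; simp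
    have h3 : (derivative E).coeff 0 = E.coeff 1 := by
      rw [coeff_derivative]; simp
    rw [h2, derivative_pow, mul_coeff_zero, mul_coeff_zero, h3, coeff_C_zero,
      expPoly_coeff _ 1 (by omega), coeff_zero_eq_eval_zero, eval_pow, ← coeff_zero_eq_eval_zero,
      expPoly_coeff _ 0 (by omega)]
    simp only [Nat.factorial, Nat.cast_one, inv_one, one_pow, mul_one]
    exact_mod_cast hm.ne'

omit [FiniteDimensional k V] in
theorem stable_of_mem_adjoin (S N : V →ₗ[k] V) (h : N ∈ Algebra.adjoin k {S})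
    (W : Submodule k V) (hW : ∀ x ∈ W, S x ∈ W) : ∀ x ∈ W, N x ∈ W := by
  induction h using Algebra.adjoin_induction with
  | mem y hy =>
    rw [Set.mem_singleton_iff] at hy
    subst hy
    exact hW
  | algebraMap r =>
    intro x hx
    rw [Module.algebraMap_end_apply]
    exact W.smul_mem _ hx
  | add y z _ _ hy hz => intro x hx; exact W.add_mem (hy x hx) (hz x hx)
  | mul y z _ _ hy hz => intro x hx; exact hy _ (hz x hx)

/-- A subspace stable under the exponential of `N` is stable under `N`. -/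
theorem stable_of_nexp [CharZero k] (N : V →ₗ[k] V) (hN : IsNilpotent N) (W : Submodule k V)
    (hW : ∀ x ∈ W, nexp N x ∈ W) : ∀ x ∈ W, N x ∈ W := by
  have h1 := mem_adjoin_nexp_pow N hN 1 one_pos
  rw [pow_one] at h1
  exact stable_of_mem_adjoin _ N h1 W hW

/-- Existence of a cyclic vector on a stable subspace. -/
theorem exists_cyclic (N : V →ₗ[k] V) (hN : IsNilpotent N) (hker : finrank k (LinearMap.ker N) ≤ 1)
    (d : ℕ) (hd : finrank k V = d + 1) : N ^ (d + 1) = 0 ∧ ∃ v, (N ^ d) v ≠ 0 := by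
  refine ⟨hd ▸ pow_finrank_eq_zero N hN, ?_⟩
  by_contra hcon
  push Not at hcon
  have h1 : LinearMap.ker (N ^ d) = ⊤ := by
    rw [LinearMap.ker_eq_top]
    ext v
    rw [hcon v, LinearMap.zero_apply]
  have h2 := finrank_ker_pow_le N d
  rw [h1, finrank_top, hd] at h2
  have h3 : d * finrank k (LinearMap.ker N) ≤ d * 1 := Nat.mul_le_mul_left _ hker
  omega

/-- In the principal case the stable subspaces are determined by their dimension. -/
theorem eq_of_finrank_eq (N : V →ₗ[k] V) (hN : IsNilpotent N)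
    (hker : finrank k (LinearMap.ker N) ≤ 1) (W₁ W₂ : Submodule k V)
    (h₁ : ∀ x ∈ W₁, N x ∈ W₁) (h₂ : ∀ x ∈ W₂, N x ∈ W₂)
    (h : finrank k W₁ = finrank k W₂) : W₁ = W₂ := by
  have key : ∀ W : Submodule k V, (∀ x ∈ W, N x ∈ W) →
      W = LinearMap.ker (N ^ finrank k W) := by
    intro W hW
    have hNW : IsNilpotent (N.restrict hW) := by
      obtain ⟨j, hj⟩ := hN
      refine ⟨j, ?_⟩
      ext x
      have h1 : ∀ i : ℕ, (((N.restrict hW) ^ i) x : V) = (N ^ i) (x : V) := by
        intro i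
        induction i with
        | zero => rfl
        | succ i ih =>
          rw [pow_succ', pow_succ', Module.End.mul_apply, Module.End.mul_apply,
            LinearMap.coe_restrict_apply, ih]
      rw [h1, hj]
      rfl
    have h1 := pow_finrank_eq_zero (N.restrict hW) hNW
    apply Submodule.eq_of_le_of_finrank_le
    · intro x hx
      have h2 : ∀ i : ℕ, (((N.restrict hW) ^ i) ⟨x, hx⟩ : V) = (N ^ i) x := by
        intro i
        induction i with
        | zero => rfl
        | succ i ih =>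
          rw [pow_succ', pow_succ', Module.End.mul_apply, Module.End.mul_apply,
            LinearMap.coe_restrict_apply, ih]
      rw [LinearMap.mem_ker, ← h2, h1]
      rfl
    · refine (finrank_ker_pow_le N _).trans ?_
      calc finrank k W * finrank k (LinearMap.ker N) ≤ finrank k W * 1 :=
            Nat.mul_le_mul_left _ hker
        _ = _ := mul_one _
  rw [key W₁ h₁, key W₂ h₂, h]

end linear

section main

variable {p : ℕ} [hp : Fact p.Prime] {Ω : Type*} [Field Ω] [CharZero Ω] [IsAlgClosed Ω]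
  [IsGalois ℚ Ω]
variable {V : Type*} [AddCommGroup V] [Module ℚ_[p] V] [FiniteDimensional ℚ_[p] V]

theorem zpow_natCast_injective {l : ℕ} (hl : 1 < l) {a b : ℤ} (h : (l : ℚ_[p]) ^ a = (l : ℚ_[p]) ^ b) :
    a = b := by
  have h1 : ((l : ℚ) ^ a : ℚ) = (l : ℚ) ^ b := by
    apply (algebraMap ℚ ℚ_[p]).injective
    rw [map_zpow₀, map_zpow₀, map_natCast, h]
  exact zpow_right_injective₀ (by exact_mod_cast (by omega : 0 < l))
    (by exact_mod_cast (by omega : l ≠ 1)) h1

/-- **Principal unipotent monodromy implies irreducibility.** -/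
theorem irreducible_of_principal (ι : Ω →+* PadicAlgCl p)
    (ρ : Representation ℚ_[p] Gal(Ω/ℚ) V)
    (hρ : IsContinuousRep ρ) {n : ℕ} (h : Fin n → ℤ)
    (e : Basis (Fin n) ℂ_[p] (ℂ_[p] ⊗[ℚ_[p]] V)) (he : IsHTBasis ι ρ h e)
    (w : ℤ) {q : ℕ} (hq : q.Prime) (hqp : q ≠ p) {φq : Gal(Ω/ℚ)} (hφq : IsFrobAt q φq)
    (hpure : IsPureOp q w (ρ φq)) {l : ℕ} (hl : l.Prime) (hlp : l ≠ p) {φ τ : Gal(Ω/ℚ)}
    (hφ : IsFrobAt l φ) (N : V →ₗ[ℚ_[p]] V) (hN : IsNilpotent N) (hτ : ρ τ = nexp N)
    (hφN : ∀ x, ρ φ (N x) = (l : ℚ_[p]) • N (ρ φ x))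
    (hker : finrank ℚ_[p] (LinearMap.ker N) ≤ 1)
    (W : Submodule ℚ_[p] V) (hW : ∀ g, ∀ x ∈ W, ρ g x ∈ W) : W = ⊥ ∨ W = ⊤ := by
  by_cases hW0 : W = ⊥
  · exact Or.inl hW0
  right
  have hWpos : 0 < finrank ℚ_[p] W := by
    rw [Nat.pos_iff_ne_zero]
    intro h0
    exact hW0 (Submodule.finrank_eq_zero.1 h0)
  have hle : finrank ℚ_[p] W ≤ finrank ℚ_[p] V := Submodule.finrank_le _
  obtain ⟨d, hd⟩ : ∃ d, finrank ℚ_[p] W = d + 1 := ⟨finrank ℚ_[p] W - 1, by omega⟩
  obtain ⟨m, hm⟩ : ∃ m, finrank ℚ_[p] V = m + 1 := ⟨finrank ℚ_[p] V - 1, by omega⟩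
  have hWN : ∀ x ∈ W, N x ∈ W := stable_of_nexp N hN W (fun x hx => by
    rw [← hτ]; exact hW τ x hx)
  -- the cyclic situations
  obtain ⟨hNm, v, hv⟩ := exists_cyclic N hN hker m hm
  have hNW : IsNilpotent (N.restrict hWN) := by
    obtain ⟨j, hj⟩ := hN
    refine ⟨j, ?_⟩
    ext x
    have h1 : ∀ i : ℕ, (((N.restrict hWN) ^ i) x : V) = (N ^ i) (x : V) := by
      intro i
      induction i with
      | zero => rfl
      | succ i ih =>
        rw [pow_succ', pow_succ', Module.End.mul_apply, Module.End.mul_apply,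
          LinearMap.coe_restrict_apply, ih]
    rw [h1, hj]
    rfl
  have hkerW : finrank ℚ_[p] (LinearMap.ker (N.restrict hWN)) ≤ 1 := by
    refine le_trans ?_ hker
    have hmap : (LinearMap.ker (N.restrict hWN)).map W.subtype ≤ LinearMap.ker N := by
      rintro _ ⟨x, hx, rfl⟩
      have := congrArg Subtype.val (LinearMap.mem_ker.1 hx)
      exact this
    calc finrank ℚ_[p] (LinearMap.ker (N.restrict hWN))
        = finrank ℚ_[p] ((LinearMap.ker (N.restrict hWN)).map W.subtype) :=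
          (LinearEquiv.finrank_eq (Submodule.equivMapOfInjective _
            (Submodule.subtype_injective _) _))
      _ ≤ _ := Submodule.finrank_mono hmap
  obtain ⟨hNd, v', hv'⟩ := exists_cyclic (N.restrict hWN) hNW hkerW d hd
  obtain ⟨c, hc1, hc2⟩ := det_cyclic (ρ φ) N (l : ℚ_[p]) hφN m hm v hv hNm
  obtain ⟨c', hc1', hc2'⟩ := det_cyclic ((ρ φ).restrict (hW φ)) (N.restrict hWN) (l : ℚ_[p])
    (fun x => Subtype.ext (hφN x)) d hd v' hv' hNd
  have hl0 : (l : ℚ_[p]) ≠ 0 := by exact_mod_cast hl.ne_zero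
  -- the eigenvalues on the socle agree
  have hsoc : (l : ℚ_[p]) ^ m * c = (l : ℚ_[p]) ^ d * c' := by
    set y : V := ((((N.restrict hWN) ^ d) v' : W) : V) with hy
    have hy0 : y ≠ 0 := fun h0 => hv' (Subtype.ext h0)
    have hyker : y ∈ LinearMap.ker N := by
      have h1 : (N.restrict hWN) (((N.restrict hWN) ^ d) v') = 0 := by
        rw [← Module.End.mul_apply, ← pow_succ', hNd, LinearMap.zero_apply]
      exact congrArg Subtype.val h1
    have hxker : (N ^ m) v ∈ LinearMap.ker N := by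
      rw [LinearMap.mem_ker, ← Module.End.mul_apply, ← pow_succ', hNm, LinearMap.zero_apply]
    have hφy : ρ φ y = ((l : ℚ_[p]) ^ d * c') • y := congrArg Subtype.val hc2'
    -- `y` is a multiple of `N ^ m v`
    obtain ⟨a, ha⟩ : ∃ a : ℚ_[p], a • (N ^ m) v = y := by
      have h1 : finrank ℚ_[p] (LinearMap.ker N) = 1 := by
        apply le_antisymm hker
        rw [Nat.succ_le_iff, Nat.pos_iff_ne_zero]
        intro h0
        have := Submodule.finrank_eq_zero.1 h0
        rw [this] at hyker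
        exact hy0 ((Submodule.mem_bot _).1 hyker)
      obtain ⟨a, ha⟩ := exists_smul_eq_of_finrank_eq_one h1
        (x := (⟨(N ^ m) v, hxker⟩ : LinearMap.ker N)) (fun h0 => hv (congrArg Subtype.val h0))
        (⟨y, hyker⟩ : LinearMap.ker N)
      exact ⟨a, congrArg Subtype.val ha⟩
    rw [← ha, map_smul, hc2, smul_smul, smul_smul] at hφy
    have h2 : (a * ((l : ℚ_[p]) ^ m * c) - (l : ℚ_[p]) ^ d * c' * a) • (N ^ m) v = 0 := by
      rw [sub_smul, hφy, sub_self]
    have h3 := (smul_eq_zero.1 h2).resolve_right hv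
    have ha0 : a ≠ 0 := by
      rintro rfl
      rw [zero_smul] at ha
      exact hy0 ha.symm
    have h4 : a * ((l : ℚ_[p]) ^ m * c - (l : ℚ_[p]) ^ d * c') = 0 := by
      linear_combination h3
    exact sub_eq_zero.1 ((mul_eq_zero.1 h4).resolve_left ha0)
  -- the determinants
  obtain ⟨H₁, N₁, hN₁, hH₁, hdet₁⟩ := exists_det_weight ι ρ hρ h e he w hq hqp hφq hpure ⊤
    (fun _ _ _ => trivial)
  obtain ⟨H₂, N₂, hN₂, hH₂, hdet₂⟩ := exists_det_weight ι ρ hρ h e he w hq hqp hφq hpure W hW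
  have hcyc : toQ (cyc p Ω φ) = (l : ℚ_[p]) := by
    rw [toQ_apply, cyc_frob hl hlp hφ, PadicInt.coe_natCast]
  have hd₁ : LinearMap.det (ρ φ) ^ N₁ = (l : ℚ_[p]) ^ (-(H₁ * N₁)) := by
    have h1 := hdet₁ φ
    rw [hcyc] at h1
    have h2 : detOn ρ ⊤ (fun _ _ _ => trivial) φ = LinearMap.det (ρ φ) := by
      change LinearMap.det ((ρ φ).restrict _) = _
      rw [← LinearMap.det_conj ((ρ φ).restrict (p := ⊤) (q := ⊤) (fun _ _ => trivial))
        (Submodule.topEquiv : (⊤ : Submodule ℚ_[p] V) ≃ₗ[ℚ_[p]] V)]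
      rfl
    rw [h2] at h1
    exact h1
  have hd₂ : LinearMap.det ((ρ φ).restrict (hW φ)) ^ N₂ = (l : ℚ_[p]) ^ (-(H₂ * N₂)) := by
    have h1 := hdet₂ φ
    rw [hcyc] at h1
    exact h1
  rw [finrank_top, hm] at hH₁
  rw [hd] at hH₂
  -- the exponent comparison
  set a := (l : ℚ_[p]) ^ m * c with ha
  have key₁ : a ^ ((m + 1) * N₁) =
      (l : ℚ_[p]) ^ (((m * (m + 1) : ℕ) - (∑ i ∈ Finset.range (m + 1), i : ℕ) - H₁) * N₁ : ℤ) := by
    have h1 : a ^ (m + 1) = (l : ℚ_[p]) ^ (m * (m + 1)) * c ^ (m + 1) := by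
      rw [ha, mul_pow, ← pow_mul]
    have h2 : c ^ (m + 1) = LinearMap.det (ρ φ) *
        (l : ℚ_[p]) ^ (-((∑ i ∈ Finset.range (m + 1), i : ℕ) : ℤ)) := by
      rw [hc1, zpow_neg, zpow_natCast]
      field_simp
    rw [pow_mul, h1, h2, mul_pow, mul_pow, hd₁, ← zpow_natCast (l : ℚ_[p]) (m * (m + 1)),
      ← zpow_natCast _ N₁, ← zpow_natCast _ N₁, ← zpow_mul, ← zpow_mul, ← zpow_add₀ hl0,
      ← zpow_add₀ hl0]
    congr 1
    ring
  have key₂ : a ^ ((d + 1) * N₂) =
      (l : ℚ_[p]) ^ (((d * (d + 1) : ℕ) - (∑ i ∈ Finset.range (d + 1), i : ℕ) - H₂) * N₂ : ℤ) := by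
    have h1 : a ^ (d + 1) = (l : ℚ_[p]) ^ (d * (d + 1)) * c' ^ (d + 1) := by
      rw [hsoc, mul_pow, ← pow_mul]
    have h2 : c' ^ (d + 1) = LinearMap.det ((ρ φ).restrict (hW φ)) *
        (l : ℚ_[p]) ^ (-((∑ i ∈ Finset.range (d + 1), i : ℕ) : ℤ)) := by
      rw [hc1', zpow_neg, zpow_natCast]
      field_simp
    rw [pow_mul, h1, h2, mul_pow, mul_pow, hd₂, ← zpow_natCast (l : ℚ_[p]) (d * (d + 1)),
      ← zpow_natCast _ N₂, ← zpow_natCast _ N₂, ← zpow_mul, ← zpow_mul, ← zpow_add₀ hl0,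
      ← zpow_add₀ hl0]
    congr 1
    ring
  have key₃ : (a ^ ((m + 1) * N₁)) ^ ((d + 1) * N₂) = (a ^ ((d + 1) * N₂)) ^ ((m + 1) * N₁) := by
    rw [← pow_mul, ← pow_mul, mul_comm]
  rw [key₁, key₂, ← zpow_natCast, ← zpow_natCast, ← zpow_mul, ← zpow_mul] at key₃
  have h5 := zpow_natCast_injective hl.one_lt key₃
  have hs1 := Finset.sum_range_id_mul_two (m + 1)
  have hs2 := Finset.sum_range_id_mul_two (d + 1)
  rw [Nat.add_sub_cancel] at hs1 hs2
  have hs1' : ((∑ i ∈ Finset.range (m + 1), i : ℕ) : ℤ) * 2 = (m + 1) * m := by exact_mod_cast hs1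
  have hs2' : ((∑ i ∈ Finset.range (d + 1), i : ℕ) : ℤ) * 2 = (d + 1) * d := by exact_mod_cast hs2
  set S₁ : ℤ := ((∑ i ∈ Finset.range (m + 1), i : ℕ) : ℤ) with hS₁
  set S₂ : ℤ := ((∑ i ∈ Finset.range (d + 1), i : ℕ) : ℤ) with hS₂
  have hN₁' : (N₁ : ℤ) ≠ 0 := by exact_mod_cast hN₁.ne'
  have hN₂' : (N₂ : ℤ) ≠ 0 := by exact_mod_cast hN₂.ne'
  have hm' : ((m : ℤ) + 1) ≠ 0 := by positivity
  have hd' : ((d : ℤ) + 1) ≠ 0 := by positivity
  push_cast at h5 hH₁ hH₂
  have h6 : ((m : ℤ) - d) * (((m : ℤ) + 1) * ((d : ℤ) + 1) * N₁ * N₂) = 0 := by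
    linear_combination 2 * h5 + (((d : ℤ) + 1) * N₁ * N₂) * hs1' - (((m : ℤ) + 1) * N₁ * N₂) * hs2' +
      (((d : ℤ) + 1) * N₁ * N₂) * hH₁ - (((m : ℤ) + 1) * N₁ * N₂) * hH₂
  have h7 : (m : ℤ) - d = 0 := (mul_eq_zero.1 h6).resolve_right (by positivity)
  apply Submodule.eq_top_of_finrank_eq
  omega

/-- **Principal unipotent monodromy**: absolute irreducibility on all subgroups of finite index. -/
theorem abs_irreducible_of_principal (ι : Ω →+* PadicAlgCl p)
    (ρ : Representation ℚ_[p] Gal(Ω/ℚ) V)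
    (hρ : IsContinuousRep ρ) {n : ℕ} (h : Fin n → ℤ)
    (e : Basis (Fin n) ℂ_[p] (ℂ_[p] ⊗[ℚ_[p]] V)) (he : IsHTBasis ι ρ h e)
    (w : ℤ) {q : ℕ} (hq : q.Prime) (hqp : q ≠ p) {φq : Gal(Ω/ℚ)} (hφq : IsFrobAt q φq)
    (hpure : IsPureOp q w (ρ φq)) {l : ℕ} (hl : l.Prime) (hlp : l ≠ p) {φ τ : Gal(Ω/ℚ)}
    (hφ : IsFrobAt l φ) (N : V →ₗ[ℚ_[p]] V) (hN : IsNilpotent N) (hτ : ρ τ = nexp N)
    (hφN : ∀ x, ρ φ (N x) = (l : ℚ_[p]) • N (ρ φ x))
    (hker : finrank ℚ_[p] (LinearMap.ker N) ≤ 1) (G : Subgroup Gal(Ω/ℚ)) [hG : G.FiniteIndex] :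
    (∀ W : Submodule ℚ_[p] V, (∀ g ∈ G, ∀ x ∈ W, ρ g x ∈ W) → W = ⊥ ∨ W = ⊤) ∧
      ∀ f : V →ₗ[ℚ_[p]] V, (∀ g ∈ G, ∀ x, f (ρ g x) = ρ g (f x)) →
        ∃ c : ℚ_[p], ∀ x, f x = c • x := by
  have hirr : ∀ W : Submodule ℚ_[p] V, (∀ g ∈ G, ∀ x ∈ W, ρ g x ∈ W) → W = ⊥ ∨ W = ⊤ := by
    intro W hW
    apply irreducible_of_principal ι ρ hρ h e he w hq hqp hφq hpure hl hlp hφ N hN hτ hφN hker W
    -- the normal core
    set C := G.normalCore with hC
    have hCfin : C.FiniteIndex := inferInstance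
    obtain ⟨m, hm, _, hmC⟩ := Subgroup.exists_pow_mem_of_index_ne_zero hCfin.index_ne_zero τ
    have hpow : ρ (τ ^ m) = nexp N ^ m := by rw [map_pow, hτ]
    have hstab : ∀ W' : Submodule ℚ_[p] V, (∀ g ∈ C, ∀ x ∈ W', ρ g x ∈ W') →
        ∀ x ∈ W', N x ∈ W' := by
      intro W' hW'
      apply stable_of_mem_adjoin _ N (mem_adjoin_nexp_pow N hN m hm) W'
      intro x hx
      rw [← hpow]
      exact hW' _ hmC x hx
    have hWC : ∀ g ∈ C, ∀ x ∈ W, ρ g x ∈ W := fun g hg => hW g (Subgroup.normalCore_le G hg)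
    intro g
    -- the translate
    have hinv : ∀ x, ρ g (ρ g⁻¹ x) = x := by
      intro x
      have : ρ g (ρ g⁻¹ x) = (ρ g * ρ g⁻¹) x := rfl
      rw [this, ← map_mul, mul_inv_cancel, map_one]
      rfl
    have hinv' : ∀ x, ρ g⁻¹ (ρ g x) = x := by
      intro x
      have : ρ g⁻¹ (ρ g x) = (ρ g⁻¹ * ρ g) x := rfl
      rw [this, ← map_mul, inv_mul_cancel, map_one]
      rfl
    have hinjg : Function.Injective (ρ g) := Function.LeftInverse.injective hinv'
    have hstab2 : ∀ c ∈ C, ∀ x ∈ W.map (ρ g), ρ c x ∈ W.map (ρ g) := by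
      rintro c hc _ ⟨x, hx, rfl⟩
      refine ⟨ρ (g⁻¹ * c * g) x, ?_, ?_⟩
      · apply hWC _ _ x hx
        have hnorm : C.Normal := Subgroup.normalCore_normal G
        have := hnorm.conj_mem c hc g⁻¹
        rwa [inv_inv] at this
      · have h1 : ρ g (ρ (g⁻¹ * c * g) x) = ρ (g * (g⁻¹ * c * g)) x := by
          rw [map_mul ρ g]; rfl
        rw [h1, show g * (g⁻¹ * c * g) = c * g by group, map_mul]
        rfl
    have heq : W.map (ρ g) = W := by
      apply eq_of_finrank_eq N hN hker _ _ (hstab _ hstab2) (hstab _ hWC)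
      exact (LinearEquiv.finrank_eq (Submodule.equivMapOfInjective _ hinjg W)).symm
    intro x hx
    have h1 : ρ g x ∈ W.map (ρ g) := ⟨x, hx, rfl⟩
    rwa [heq] at h1
  refine ⟨hirr, ?_⟩
  intro f hf
  by_cases hV : finrank ℚ_[p] V = 0
  · refine ⟨0, fun x => ?_⟩
    have : Subsingleton V := finrank_zero_iff.1 hV
    exact Subsingleton.elim _ _
  set C := G with hC
  obtain ⟨m, hm, _, hmC⟩ := Subgroup.exists_pow_mem_of_index_ne_zero hG.index_ne_zero τ
  have hpow : ρ (τ ^ m) = nexp N ^ m := by rw [map_pow, hτ]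
  -- `f` commutes with `N`
  have hcomm : ∀ x, f (N x) = N (f x) := by
    have h1 := mem_adjoin_nexp_pow N hN m hm
    have h2 : ∀ T : V →ₗ[ℚ_[p]] V, T ∈ Algebra.adjoin ℚ_[p] {nexp N ^ m} →
        ∀ x, f (T x) = T (f x) := by
      intro T hT
      induction hT using Algebra.adjoin_induction with
      | mem y hy =>
        rw [Set.mem_singleton_iff] at hy
        subst hy
        intro x
        rw [← hpow]
        exact hf _ hmC x
      | algebraMap r => intro x; simp [Module.algebraMap_end_apply]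
      | add y z _ _ hy hz =>
        intro x
        rw [LinearMap.add_apply, LinearMap.add_apply, map_add, hy, hz]
      | mul y z _ _ hy hz =>
        intro x
        rw [Module.End.mul_apply, Module.End.mul_apply, hy, hz]
    exact h2 N h1
  -- an eigenvector
  obtain ⟨j, hj⟩ : ∃ m, finrank ℚ_[p] V = m + 1 := ⟨finrank ℚ_[p] V - 1, by omega⟩
  obtain ⟨hNj, v, hv⟩ := exists_cyclic N hN hker j hj
  have hxker : (N ^ j) v ∈ LinearMap.ker N := by
    rw [LinearMap.mem_ker, ← Module.End.mul_apply, ← pow_succ', hNj, LinearMap.zero_apply]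
  have hker1 : finrank ℚ_[p] (LinearMap.ker N) = 1 := by
    apply le_antisymm hker
    rw [Nat.succ_le_iff, Nat.pos_iff_ne_zero]
    intro h0
    have := Submodule.finrank_eq_zero.1 h0
    rw [this] at hxker
    exact hv ((Submodule.mem_bot _).1 hxker)
  have hfx : f ((N ^ j) v) ∈ LinearMap.ker N := by
    rw [LinearMap.mem_ker, ← hcomm, LinearMap.mem_ker.1 hxker, map_zero]
  obtain ⟨c, hc⟩ := exists_smul_eq_of_finrank_eq_one hker1
    (x := (⟨(N ^ j) v, hxker⟩ : LinearMap.ker N)) (fun h0 => hv (congrArg Subtype.val h0))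
    (⟨f ((N ^ j) v), hfx⟩ : LinearMap.ker N)
  have hc' : c • (N ^ j) v = f ((N ^ j) v) := congrArg Subtype.val hc
  refine ⟨c, ?_⟩
  rcases hirr (LinearMap.ker (f - c • LinearMap.id)) (by
    intro g hg x hx
    rw [LinearMap.mem_ker, LinearMap.sub_apply, LinearMap.smul_apply, LinearMap.id_apply,
      sub_eq_zero] at hx ⊢
    rw [hf g hg, hx, map_smul]) with h1 | h1
  · exfalso
    apply hv
    have h2 : (N ^ j) v ∈ LinearMap.ker (f - c • LinearMap.id) := by
      rw [LinearMap.mem_ker, LinearMap.sub_apply, LinearMap.smul_apply, LinearMap.id_apply, hc',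
        sub_self]
    rw [h1] at h2
    exact (Submodule.mem_bot _).1 h2
  · intro x
    have h2 : x ∈ LinearMap.ker (f - c • LinearMap.id) := by rw [h1]; trivial
    rw [LinearMap.mem_ker, LinearMap.sub_apply, LinearMap.smul_apply, LinearMap.id_apply,
      sub_eq_zero] at h2
    exact h2

end main

end Pool.Agent.GSem
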