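import Mathlib
import Pool.Agent.Lib.Helper90.GSem.Steinberg

/-!
# Weights of Frobenius on stable subspaces
-/

namespace Pool.Agent.GSem

open NumberField TensorProduct Module Polynomial Cardinal

section embedding

/-- There is an embedding of the algebraic closure of `ℚ_[p]` in `ℂ`. -/
theorem exists_embedding (p : ℕ) [hp : Fact p.Prime] :
    Nonempty (AlgebraicClosure ℚ_[p] →+* ℂ) := by
  have h1 : #(ℚ_[p]) ≤ 𝔠 := by
    have h2 : #(CauSeq ℚ (padicNorm p)) ≤ #(ℕ → ℚ) := Cardinal.mk_subtype_le _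
    have h3 : #(ℕ → ℚ) = 𝔠 := by
      rw [← Cardinal.power_def, Cardinal.mkRat, Cardinal.mk_nat, Cardinal.aleph0_power_aleph0]
    have h4 : #(ℚ_[p]) ≤ #(CauSeq ℚ (padicNorm p)) :=
      Cardinal.mk_le_of_surjective (f := fun s => (Quotient.mk _ s : ℚ_[p])) Quotient.mk_surjective
    rw [← h3]
    exact h4.trans h2
  have h2 : 𝔠 ≤ #(ℚ_[p]) := continuum_le_cardinal_of_nontriviallyNormedField ℚ_[p]
  have h3 : #(ℚ_[p]) ≤ #(AlgebraicClosure ℚ_[p]) :=
    Cardinal.mk_le_of_injective (algebraMap ℚ_[p] (AlgebraicClosure ℚ_[p])).injective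
  have h4 : #(AlgebraicClosure ℚ_[p]) ≤ 𝔠 := by
    refine (Algebra.IsAlgebraic.cardinalMk_le_max ℚ_[p] (AlgebraicClosure ℚ_[p])).trans ?_
    exact max_le h1 Cardinal.aleph0_lt_continuum.le
  have h5 : #(AlgebraicClosure ℚ_[p]) = 𝔠 := le_antisymm h4 (h2.trans h3)
  have h6 : #(AlgebraicClosure ℚ_[p]) = #ℂ := by rw [h5, Cardinal.mk_complex]
  have h7 : ℵ₀ < #(AlgebraicClosure ℚ_[p]) := by rw [h5]; exact Cardinal.aleph0_lt_continuum
  obtain ⟨E⟩ := IsAlgClosed.ringEquiv_of_equiv_of_charZero h7 (Cardinal.eq.1 h6)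
  exact ⟨E.toRingHom⟩

end embedding

section absdet

variable {k V : Type*} [Field k] [CharZero k] [AddCommGroup V] [Module k V] [FiniteDimensional k V]

/-- The absolute value of the determinant. -/
theorem norm_det (J : AlgebraicClosure k →+* ℂ) (T : V →ₗ[k] V) (q : ℕ) (i : ℤ) (P : ℚ[X])
    (hP : HasWeight q i P) (hT : aeval T (P.map (algebraMap ℚ k)) = 0) :
    ‖J (algebraMap k _ (LinearMap.det T))‖ ^ 2 = ((q : ℝ) ^ (-i)) ^ finrank k V := by
  set K := AlgebraicClosure k with hK
  set T' := T.baseChange K with hT'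
  have hT2 : aeval T' (P.map (algebraMap ℚ K)) = 0 := by
    have h1 := Polynomial.aeval_algHom_apply (Module.End.baseChangeHom k K V) T
      (P.map (algebraMap ℚ k))
    rw [hT, map_zero] at h1
    have h2 : (P.map (algebraMap ℚ k)).map (algebraMap k K) = P.map (algebraMap ℚ K) := by
      rw [Polynomial.map_map, ← IsScalarTower.algebraMap_eq]
    rw [← h2, Polynomial.aeval_map_algebraMap]
    exact h1
  have hsplit : T'.charpoly.Splits := IsAlgClosed.splits _
  have hroot : ∀ α ∈ T'.charpoly.roots, ‖J α‖ ^ 2 = (q : ℝ) ^ (-i) := by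
    intro α hα
    rw [mem_roots (LinearMap.charpoly_monic _).ne_zero,
      ← Module.End.hasEigenvalue_iff_isRoot_charpoly] at hα
    obtain ⟨v, hv⟩ := hα.exists_hasEigenvector
    have h1 := Module.End.aeval_apply_of_hasEigenvector (p := P.map (algebraMap ℚ K)) hv
    rw [hT2, LinearMap.zero_apply, eval_map_algebraMap] at h1
    have h2 : aeval α P = 0 := (smul_eq_zero.1 h1.symm).resolve_right hv.2
    apply hP.2
    have h3 : aeval (J α) P = J (aeval α P) := by
      rw [aeval_def, aeval_def, hom_eval₂]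
      congr 1
      exact RingHom.ext_rat _ _
    rw [h3, h2, map_zero]
  have hdet' : LinearMap.det T' = T'.charpoly.roots.prod :=
    Module.End.det_eq_prod_roots_charpoly_of_splits hsplit
  have hcard : T'.charpoly.roots.card = finrank k V := by
    rw [← hsplit.natDegree_eq_card_roots, LinearMap.charpoly_natDegree, finrank_baseChange]
  have h1 : algebraMap k K (LinearMap.det T) = T'.charpoly.roots.prod := by
    rw [← hdet', hT', LinearMap.det_baseChange]
  rw [h1, ← hcard]
  generalize T'.charpoly.roots = s at hroot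
  induction s using Multiset.induction_on with
  | empty => simp
  | cons a s ih =>
    rw [Multiset.prod_cons, map_mul, norm_mul, mul_pow, hroot a (Multiset.mem_cons_self a s),
      ih (fun b hb => hroot b (Multiset.mem_cons_of_mem hb)), Multiset.card_cons, pow_succ']

/-- Coprimality of polynomials of different weights. -/
theorem HasWeight.isCoprime {q : ℕ} (hq : 1 < q) {i j : ℤ} (hij : i ≠ j) {P Q : ℚ[X]}
    (hP : HasWeight q i P) (hQ : HasWeight q j Q) : IsCoprime P Q := by
  refine (Polynomial.isCoprime_iff_aeval_ne_zero_of_isAlgClosed ℚ ℂ P Q).2 ?_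
  intro z
  by_contra hcon
  push Not at hcon
  have h1 := hP.2 z hcon.1
  have h2 := hQ.2 z hcon.2
  rw [h1] at h2
  have h3 := zpow_right_injective₀ (by exact_mod_cast (by omega : 0 < q))
    (by exact_mod_cast (by omega : q ≠ 1)) h2
  exact hij (by linarith)

theorem isCoprime_map {P Q : ℚ[X]} (h : IsCoprime P Q) :
    IsCoprime (P.map (algebraMap ℚ k)) (Q.map (algebraMap ℚ k)) :=
  h.map (Polynomial.mapRingHom (algebraMap ℚ k))

omit [CharZero k] in
/-- Multiplicativity of determinants on direct sums of stable subspaces. -/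
theorem det_restrict_sup (T : V →ₗ[k] V) (A₁ A₂ A : Submodule k V) (h₁ : ∀ x ∈ A₁, T x ∈ A₁)
    (h₂ : ∀ x ∈ A₂, T x ∈ A₂) (h : ∀ x ∈ A, T x ∈ A) (hle₁ : A₁ ≤ A) (hle₂ : A₂ ≤ A)
    (hsup : A ≤ A₁ ⊔ A₂) (hdisj : Disjoint A₁ A₂) :
    LinearMap.det (T.restrict h) = LinearMap.det (T.restrict h₁) * LinearMap.det (T.restrict h₂) := by
  let F : (A₁ × A₂) →ₗ[k] A :=
    LinearMap.coprod (Submodule.inclusion hle₁) (Submodule.inclusion hle₂)
  have hF : ∀ x : A₁ × A₂, ((F x : A) : V) = (x.1 : V) + (x.2 : V) := fun x => rfl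
  have hinj : Function.Injective F := by
    rw [← LinearMap.ker_eq_bot, LinearMap.ker_eq_bot']
    rintro ⟨x, y⟩ hxy
    have h1 : (x : V) + (y : V) = 0 := by
      rw [← hF ⟨x, y⟩, hxy]; rfl
    have h2 : (x : V) ∈ A₁ ⊓ A₂ := by
      refine ⟨x.2, ?_⟩
      rw [eq_neg_of_add_eq_zero_left h1]
      exact A₂.neg_mem y.2
    rw [disjoint_iff.1 hdisj, Submodule.mem_bot] at h2
    rw [h2, zero_add] at h1
    ext
    · exact h2
    · exact h1
  have hsurj : Function.Surjective F := by
    intro z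
    obtain ⟨x, hx, y, hy, hxy⟩ := Submodule.mem_sup.1 (hsup z.2)
    exact ⟨(⟨x, hx⟩, ⟨y, hy⟩), Subtype.ext hxy⟩
  let E := LinearEquiv.ofBijective F ⟨hinj, hsurj⟩
  have h3 : (E : (A₁ × A₂) →ₗ[k] A) ∘ₗ (LinearMap.prodMap (T.restrict h₁) (T.restrict h₂)) ∘ₗ
      (E.symm : A →ₗ[k] (A₁ × A₂)) = T.restrict h := by
    ext z
    obtain ⟨x, rfl⟩ := E.surjective z
    rw [LinearMap.comp_apply, LinearMap.comp_apply, LinearEquiv.coe_coe, LinearEquiv.coe_coe,
      LinearEquiv.symm_apply_apply, LinearMap.coe_restrict_apply]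
    change ((F _ : A) : V) = T ((F x : A) : V)
    rw [hF, hF, map_add]
    rfl
  rw [← h3, LinearMap.det_conj, LinearMap.det_prodMap]

omit [CharZero k] [FiniteDimensional k V] in
/-- Kernels of polynomials on stable subspaces. -/
theorem finrank_restrict_ker (T : V →ₗ[k] V) (A : Submodule k V) (hA : ∀ x ∈ A, T x ∈ A)
    (P : k[X]) : ∀ x : A, aeval (T.restrict hA) P x = 0 ↔ aeval T P (x : V) = 0 := by
  intro x
  rw [← aeval_restrict T A hA P x]
  exact ⟨fun h => by rw [h]; rfl, fun h => Subtype.ext h⟩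

omit [CharZero k] [FiniteDimensional k V] in
theorem ker_stable (T : V →ₗ[k] V) (A : Submodule k V) (hA : ∀ x ∈ A, T x ∈ A) (P : k[X]) :
    ∀ x ∈ A ⊓ LinearMap.ker (aeval T P), T x ∈ A ⊓ LinearMap.ker (aeval T P) := by
  rintro x ⟨hx1, hx2⟩
  refine ⟨hA x hx1, ?_⟩
  have h1 : aeval T P x = 0 := hx2
  change aeval T P (T x) = 0
  have h2 : aeval T P (T x) = T (aeval T P x) := by
    have h3 : aeval T (P * X) = aeval T (X * P) := by rw [mul_comm]
    rw [map_mul, map_mul, aeval_X] at h3
    exact LinearMap.congr_fun h3 x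
  rw [h2, h1, map_zero]

/-- **Weight decomposition of determinants.** -/
theorem norm_det_weights (J : AlgebraicClosure k →+* ℂ) (T : V →ₗ[k] V) {q : ℕ} (hq : 1 < q)
    (P : ℤ → ℚ[X]) (hP : ∀ i, HasWeight q i (P i)) (S : Finset ℤ) :
    ∀ (A : Submodule k V) (hA : ∀ x ∈ A, T x ∈ A),
      (∀ x ∈ A, aeval T ((∏ i ∈ S, P i).map (algebraMap ℚ k)) x = 0) →
      ‖J (algebraMap k _ (LinearMap.det (T.restrict hA)))‖ ^ 2 =
        (q : ℝ) ^ (-∑ i ∈ S, i * (finrank k
          (A ⊓ LinearMap.ker (aeval T ((P i).map (algebraMap ℚ k))) : Submodule k V) : ℤ)) ∧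
      finrank k A = ∑ i ∈ S, finrank k
          (A ⊓ LinearMap.ker (aeval T ((P i).map (algebraMap ℚ k))) : Submodule k V) := by
  classical
  have hq0 : (q : ℝ) ≠ 0 := by
    have : (0 : ℝ) < q := by exact_mod_cast (by omega : 0 < q)
    exact this.ne'
  induction S using Finset.induction_on with
  | empty =>
    intro A hA h
    have h1 : A = ⊥ := by
      rw [eq_bot_iff]
      intro x hx
      have := h x hx
      rw [Finset.prod_empty, Polynomial.map_one, map_one] at this
      exact this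
    subst h1
    have h2 : finrank k (⊥ : Submodule k V) = 0 := finrank_bot k V
    refine ⟨?_, ?_⟩
    · have h3 : LinearMap.det (T.restrict hA) = 1 :=
        LinearMap.det_eq_one_of_finrank_eq_zero h2 _
      rw [h3, map_one, map_one, Finset.sum_empty]
      simp
    · rw [h2, Finset.sum_empty]
  | insert i S hi ih =>
    intro A hA h
    set Q₁ := (P i).map (algebraMap ℚ k) with hQ₁
    set Q₂ := (∏ j ∈ S, P j).map (algebraMap ℚ k) with hQ₂
    have hcop : IsCoprime Q₁ Q₂ := by
      apply isCoprime_map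
      apply IsCoprime.prod_right
      intro j hj
      apply HasWeight.isCoprime hq _ (hP i) (hP j)
      rintro rfl
      exact hi hj
    set A₁ := A ⊓ LinearMap.ker (aeval T Q₁) with hA₁
    set A₂ := A ⊓ LinearMap.ker (aeval T Q₂) with hA₂
    have hs₁ : ∀ x ∈ A₁, T x ∈ A₁ := ker_stable T A hA Q₁
    have hs₂ : ∀ x ∈ A₂, T x ∈ A₂ := ker_stable T A hA Q₂
    have hpolyA : ∀ (R : k[X]), ∀ x ∈ A, aeval T R x ∈ A := by
      intro R x hx
      have := aeval_restrict T A hA R ⟨x, hx⟩
      rw [← this]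
      exact Subtype.mem _
    have hdisj : Disjoint A₁ A₂ := by
      rw [disjoint_iff_inf_le]
      rintro x ⟨hx1, hx2⟩
      exact (disjoint_iff_inf_le.1 (disjoint_ker_aeval_of_isCoprime T hcop)) ⟨hx1.2, hx2.2⟩
    have hsup : A ≤ A₁ ⊔ A₂ := by
      intro x hx
      obtain ⟨a, b, hab⟩ := hcop
      have h1 : x = aeval T (b * Q₂) x + aeval T (a * Q₁) x := by
        rw [← LinearMap.add_apply, ← map_add, add_comm, hab, map_one]
        rfl
      have h0 : aeval T (Q₁ * Q₂) x = 0 := by
        have := h x hx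
        rw [Finset.prod_insert hi, Polynomial.map_mul] at this
        exact this
      rw [h1]
      refine Submodule.add_mem_sup ⟨hpolyA _ x hx, ?_⟩ ⟨hpolyA _ x hx, ?_⟩
      · change aeval T Q₁ (aeval T (b * Q₂) x) = 0
        rw [← Module.End.mul_apply, ← map_mul,
          show Q₁ * (b * Q₂) = b * (Q₁ * Q₂) by ring, map_mul, Module.End.mul_apply, h0, map_zero]
      · change aeval T Q₂ (aeval T (a * Q₁) x) = 0
        rw [← Module.End.mul_apply, ← map_mul,
          show Q₂ * (a * Q₁) = a * (Q₁ * Q₂) by ring, map_mul, Module.End.mul_apply, h0, map_zero]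
    have hdet := det_restrict_sup T A₁ A₂ A hs₁ hs₂ hA inf_le_left inf_le_left hsup hdisj
    obtain ⟨ih1, ih2⟩ := ih A₂ hs₂ (fun x hx => hx.2)
    have hker : ∀ j ∈ S, A₂ ⊓ LinearMap.ker (aeval T ((P j).map (algebraMap ℚ k))) =
        A ⊓ LinearMap.ker (aeval T ((P j).map (algebraMap ℚ k))) := by
      intro j hj
      apply le_antisymm
      · exact inf_le_inf_right _ inf_le_left
      · rintro x ⟨hx1, hx2⟩
        refine ⟨⟨hx1, ?_⟩, hx2⟩
        change aeval T Q₂ x = 0
        have h1 : Q₂ = (∏ l ∈ S.erase j, P l).map (algebraMap ℚ k) *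
            (P j).map (algebraMap ℚ k) := by
          rw [hQ₂, ← Polynomial.map_mul, Finset.prod_erase_mul _ _ hj]
        rw [h1, map_mul, Module.End.mul_apply]
        have h2 : aeval T ((P j).map (algebraMap ℚ k)) x = 0 := hx2
        rw [h2, map_zero]
    have hnorm₁ : ‖J (algebraMap k _ (LinearMap.det (T.restrict hs₁)))‖ ^ 2 =
        ((q : ℝ) ^ (-i)) ^ finrank k A₁ := by
      apply norm_det J (T.restrict hs₁) q i (P i) (hP i)
      ext x
      rw [aeval_restrict]
      exact x.2.2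
    have hfin : finrank k A = finrank k A₁ + finrank k A₂ := by
      have h1 := Submodule.finrank_sup_add_finrank_inf_eq A₁ A₂
      rw [disjoint_iff.1 hdisj, finrank_bot, add_zero] at h1
      have h2 : A = A₁ ⊔ A₂ := le_antisymm hsup (sup_le inf_le_left inf_le_left)
      exact (congrArg (fun X : Submodule k V => finrank k X) h2).trans h1
    constructor
    · rw [hdet, map_mul, map_mul, norm_mul, mul_pow, hnorm₁, ih1, Finset.sum_insert hi,
        ← zpow_natCast, ← zpow_mul, ← zpow_add₀ hq0]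
      congr 1
      rw [Finset.sum_congr rfl fun j hj => by rw [hker j hj]]
      ring
    · rw [hfin, Finset.sum_insert hi, ih2, Finset.sum_congr rfl fun j hj => by rw [hker j hj]]

end absdet

end Pool.Agent.GSem
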