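import Mathlib
import Pool.Agent.Lib.Helper90.GSem.WD

/-!
# Isotropic subspaces in pure Weil–Deligne representations
-/

namespace Pool.Agent.GSem

open NumberField TensorProduct Module Polynomial

section comb

theorem sum_Icc_symm (u : ℤ → ℤ) (w : ℤ) (K : ℕ) :
    ∑ i ∈ Finset.Icc (w - K) (w + K), (i - w) * u i =
      ∑ j ∈ Finset.range (K + 1), (j : ℤ) * (u (w + j) - u (w - j)) := by
  induction K with
  | zero => simp
  | succ K ih =>
    have h1 : Finset.Icc (w - (K + 1 : ℕ)) (w + (K + 1 : ℕ)) =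
        insert (w - (K + 1 : ℕ)) (insert (w + (K + 1 : ℕ)) (Finset.Icc (w - K) (w + K))) := by
      ext i
      simp only [Finset.mem_Icc, Finset.mem_insert]
      push_cast
      omega
    rw [h1, Finset.sum_insert, Finset.sum_insert, ih, Finset.sum_range_succ _ (K + 1)]
    · push_cast
      ring
    · rw [Finset.mem_Icc]; push_cast; omega
    · rw [Finset.mem_insert, Finset.mem_Icc]; push_cast; omega

theorem symm_of_sum (u : ℤ → ℕ) (w : ℤ) (S : Finset ℤ) (hS : ∀ i, i ∉ S → u i = 0)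
    (hle : ∀ j : ℕ, u (w + j) ≤ u (w - j))
    (hsum : ∑ i ∈ S, i * (u i : ℤ) = w * ∑ i ∈ S, (u i : ℤ)) (j : ℕ) : u (w + j) = u (w - j) := by
  obtain ⟨K, hK⟩ : ∃ K : ℕ, S ⊆ Finset.Icc (w - K) (w + K) := by
    refine ⟨∑ i ∈ S, (i - w).natAbs, ?_⟩
    intro i hi
    have h1 : (i - w).natAbs ≤ ∑ i ∈ S, (i - w).natAbs :=
      Finset.single_le_sum (f := fun i => (i - w).natAbs) (fun _ _ => Nat.zero_le _) hi
    rw [Finset.mem_Icc]
    omega
  have h1 : ∑ i ∈ Finset.Icc (w - K) (w + K), (i - w) * (u i : ℤ) = 0 := by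
    rw [← Finset.sum_subset hK (fun i _ hi => by rw [hS i hi]; simp)]
    simp only [sub_mul, Finset.sum_sub_distrib]
    rw [hsum, ← Finset.mul_sum, sub_self]
  rw [sum_Icc_symm (fun i => (u i : ℤ))] at h1
  have h2 : ∀ j ∈ Finset.range (K + 1), (j : ℤ) * ((u (w + j) : ℤ) - u (w - j)) ≤ 0 := by
    intro j _
    have := hle j
    apply mul_nonpos_of_nonneg_of_nonpos (Nat.cast_nonneg _)
    have : (u (w + j) : ℤ) ≤ u (w - j) := by exact_mod_cast this
    linarith
  have h3 := (Finset.sum_eq_zero_iff_of_nonpos h2).1 h1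
  by_cases hjK : j ≤ K
  · by_cases hj0 : j = 0
    · subst hj0; simp
    · have h4 := h3 j (Finset.mem_range.2 (by omega))
      have h5 := (mul_eq_zero.1 h4).resolve_left (by exact_mod_cast hj0)
      have h6 : (u (w + j) : ℤ) = u (w - j) := by linarith
      exact_mod_cast h6
  · have h4 : (w + j) ∉ S := by
      intro h
      have := Finset.mem_Icc.1 (hK h)
      omega
    have h5 : (w - j) ∉ S := by
      intro h
      have := Finset.mem_Icc.1 (hK h)
      omega
    rw [hS _ h4, hS _ h5]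

end comb

section pairing

variable {k V : Type*} [Field k] [CharZero k] [AddCommGroup V] [Module k V]

/-- The reversed polynomial. -/
noncomputable def revPoly (q : ℕ) (w : ℤ) (P : ℚ[X]) : ℚ[X] :=
  ∑ a ∈ Finset.range (P.natDegree + 1),
    C (P.coeff a * ((q : ℚ) ^ (-w)) ^ a) * X ^ (P.natDegree - a)

theorem HasWeight.revPoly {q : ℕ} (hq : 1 < q) {i : ℤ} {P : ℚ[X]} (hP : HasWeight q i P) (w : ℤ) :
    HasWeight q (2 * w - i) (revPoly q w P) := by
  have hq0 : (q : ℝ) ≠ 0 := by
    have : (0 : ℝ) < q := by exact_mod_cast (by omega : 0 < q)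
    exact this.ne'
  have hqQ : (q : ℚ) ≠ 0 := by exact_mod_cast (by omega : q ≠ 0)
  have hqC : (q : ℂ) ≠ 0 := by exact_mod_cast (by omega : q ≠ 0)
  have h0 : (GSem.revPoly q w P).coeff 0 =
      P.leadingCoeff * ((q : ℚ) ^ (-w)) ^ P.natDegree := by
    rw [GSem.revPoly, finsetSum_coeff, Finset.sum_eq_single P.natDegree]
    · rw [Nat.sub_self, pow_zero, mul_one, coeff_C_zero]
      rfl
    · intro a ha hne
      rw [Finset.mem_range] at ha
      rw [coeff_C_mul, coeff_X_pow, if_neg (by omega), mul_zero]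
    · intro h
      exact absurd (Finset.mem_range.2 (Nat.lt_succ_self _)) h
  have h0' : (GSem.revPoly q w P).coeff 0 ≠ 0 := by
    rw [h0]
    exact mul_ne_zero (leadingCoeff_ne_zero.2 hP.1) (pow_ne_zero _ (zpow_ne_zero _ hqQ))
  refine ⟨fun h => h0' (by rw [h, coeff_zero]), ?_⟩
  intro z hz
  have hz0 : z ≠ 0 := by
    rintro rfl
    rw [← coeff_zero_eq_aeval_zero'] at hz
    exact h0' ((map_eq_zero _).1 hz)
  have h1 : aeval ((q : ℂ) ^ (-w) / z) P = 0 := by
    have h2 : z ^ P.natDegree * aeval ((q : ℂ) ^ (-w) / z) P = aeval z (GSem.revPoly q w P) := by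
      rw [aeval_eq_sum_range, GSem.revPoly, map_sum, Finset.mul_sum]
      refine Finset.sum_congr rfl fun a ha => ?_
      rw [Finset.mem_range] at ha
      rw [map_mul, aeval_C, map_pow, aeval_X, Algebra.smul_def, map_mul, map_pow, map_zpow₀,
        map_natCast, div_pow]
      have h3 : z ^ P.natDegree = z ^ a * z ^ (P.natDegree - a) := by
        rw [← pow_add]
        congr 1
        omega
      rw [h3]
      field_simp
    rw [hz] at h2
    exact (mul_eq_zero.1 h2).resolve_left (pow_ne_zero _ hz0)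
  have h2 := hP.2 _ h1
  rw [norm_div, norm_zpow, Complex.norm_natCast, div_pow] at h2
  have hzn : ‖z‖ ^ 2 ≠ 0 := pow_ne_zero _ (norm_ne_zero_iff.2 hz0)
  rw [div_eq_iff hzn] at h2
  have h3 : ((q : ℝ) ^ (-w)) ^ 2 = (q : ℝ) ^ (-i) * (q : ℝ) ^ (-(2 * w - i)) := by
    rw [← zpow_natCast, ← zpow_mul, ← zpow_add₀ hq0]
    congr 1
    push_cast
    ring
  rw [h3] at h2
  exact (mul_left_cancel₀ (zpow_ne_zero _ hq0) h2).symm

/-- Orthogonality of the weight spaces. -/
theorem pair_orth (B : V →ₗ[k] V →ₗ[k] k) (T : V →ₗ[k] V) {q : ℕ} (hq : 1 < q) (w : ℤ)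
    (hBT : ∀ x y, B (T x) (T y) = (q : k) ^ (-w) * B x y) {i j : ℤ} (hij : i + j ≠ 2 * w)
    {P Q : ℚ[X]} (hP : HasWeight q i P) (hQ : HasWeight q j Q) (x y : V)
    (hx : aeval T (P.map (algebraMap ℚ k)) x = 0) (hy : aeval T (Q.map (algebraMap ℚ k)) y = 0) :
    B x y = 0 := by
  have hcop : IsCoprime ((revPoly q w P).map (algebraMap ℚ k)) (Q.map (algebraMap ℚ k)) :=
    isCoprime_map (HasWeight.isCoprime hq (by omega) (hP.revPoly hq w) hQ)
  obtain ⟨a, b, hab⟩ := hcop
  set R := (revPoly q w P).map (algebraMap ℚ k) with hR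
  have hy' : y = aeval T R (aeval T a y) := by
    have h1 : y = aeval T (a * R + b * (Q.map (algebraMap ℚ k))) y := by
      rw [hab, map_one]; rfl
    rw [map_add, LinearMap.add_apply, map_mul _ b, Module.End.mul_apply, hy, map_zero, add_zero,
      mul_comm, map_mul, Module.End.mul_apply] at h1
    exact h1
  have hpow : ∀ (n : ℕ) (x y : V), B ((T ^ n) x) ((T ^ n) y) = ((q : k) ^ (-w)) ^ n * B x y := by
    intro n
    induction n with
    | zero => intro x y; simp
    | succ n ih =>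
      intro x y
      rw [pow_succ', Module.End.mul_apply, Module.End.mul_apply, hBT, ih, pow_succ]
      ring
  rw [hy']
  generalize aeval T a y = y'
  -- expand
  have e1 : aeval T R = ∑ m ∈ Finset.range (P.natDegree + 1),
      (algebraMap ℚ k (P.coeff m) * ((q : k) ^ (-w)) ^ m) • T ^ (P.natDegree - m) := by
    rw [hR, revPoly, Polynomial.map_sum, map_sum]
    refine Finset.sum_congr rfl fun m _ => ?_
    rw [Polynomial.map_mul, Polynomial.map_C, Polynomial.map_pow, Polynomial.map_X, map_mul,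
      aeval_C, map_pow, aeval_X, Algebra.algebraMap_eq_smul_one, smul_mul_assoc, one_mul, map_mul,
      map_pow, map_zpow₀, map_natCast]
  rw [e1, LinearMap.sum_apply, map_sum]
  have e2 : ∀ m ∈ Finset.range (P.natDegree + 1),
      B x (((algebraMap ℚ k (P.coeff m) * ((q : k) ^ (-w)) ^ m) • T ^ (P.natDegree - m)) y') =
      B (algebraMap ℚ k (P.coeff m) • (T ^ m) x) ((T ^ P.natDegree) y') := by
    intro m hm
    rw [Finset.mem_range] at hm
    have h3 : (T ^ P.natDegree) y' = (T ^ m) ((T ^ (P.natDegree - m)) y') := by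
      rw [← Module.End.mul_apply, ← pow_add]
      congr 2
      omega
    rw [h3, LinearMap.smul_apply, map_smul (B x), map_smul B, LinearMap.smul_apply, hpow,
      smul_eq_mul, smul_eq_mul]
    ring
  rw [Finset.sum_congr rfl e2, ← LinearMap.sum_apply, ← map_sum]
  have e3 : ∑ m ∈ Finset.range (P.natDegree + 1), algebraMap ℚ k (P.coeff m) • (T ^ m) x =
      aeval T (P.map (algebraMap ℚ k)) x := by
    rw [aeval_eq_sum_range, LinearMap.sum_apply]
    rw [Polynomial.natDegree_map]
    refine Finset.sum_congr rfl fun m _ => ?_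
    rw [Polynomial.coeff_map, LinearMap.smul_apply]
  rw [e3, hx, map_zero, LinearMap.zero_apply]

end pairing

section linear

variable {k V : Type*} [Field k] [CharZero k] [AddCommGroup V] [Module k V] [FiniteDimensional k V]

omit [FiniteDimensional k V] in
theorem mem_wtPart {T : V →ₗ[k] V} {P : ℤ → ℚ[X]} {i : ℤ} {x : V} :
    x ∈ wtPart T P i ↔ aeval T ((P i).map (algebraMap ℚ k)) x = 0 := Iff.rfl

omit [FiniteDimensional k V] in
theorem wtPart_eq_bot (T : V →ₗ[k] V) {q : ℕ} (hq : 1 < q) (P : ℤ → ℚ[X])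
    (hP : ∀ i, HasWeight q i (P i)) (S : Finset ℤ)
    (hT : aeval T ((∏ i ∈ S, P i).map (algebraMap ℚ k)) = 0) (i : ℤ) (hi : i ∉ S) :
    wtPart T P i = ⊥ := by
  have hcop : IsCoprime ((P i).map (algebraMap ℚ k)) ((∏ j ∈ S, P j).map (algebraMap ℚ k)) := by
    apply isCoprime_map
    apply IsCoprime.prod_right
    intro j hj
    apply HasWeight.isCoprime hq _ (hP i) (hP j)
    rintro rfl
    exact hi hj
  have h1 := disjoint_ker_aeval_of_isCoprime T hcop
  rw [hT, LinearMap.ker_zero, disjoint_top] at h1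
  exact h1

omit [FiniteDimensional k V] in
/-- Decomposition of a stable subspace. -/
theorem le_iSup_wtPart (T : V →ₗ[k] V) {q : ℕ} (hq : 1 < q) (P : ℤ → ℚ[X])
    (hP : ∀ i, HasWeight q i (P i)) (S : Finset ℤ) :
    ∀ (A : Submodule k V), (∀ x ∈ A, T x ∈ A) →
      (∀ x ∈ A, aeval T ((∏ i ∈ S, P i).map (algebraMap ℚ k)) x = 0) →
      A ≤ ⨆ i, A ⊓ wtPart T P i := by
  classical
  induction S using Finset.induction_on with
  | empty =>
    intro A _ h x hx
    have := h x hx
    rw [Finset.prod_empty, Polynomial.map_one, map_one] at this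
    have h1 : x = 0 := this
    rw [h1]
    exact Submodule.zero_mem _
  | insert i S hi ih =>
    intro A hA h
    set Q₁ := (P i).map (algebraMap ℚ k) with hQ₁
    set Q₂ := (∏ j ∈ S, P j).map (algebraMap ℚ k) with hQ₂
    have hcop : IsCoprime Q₁ Q₂ := by
      apply isCoprime_map
      apply IsCoprime.prod_right
      intro j hj
      apply HasWeight.isCoprime hq _ (hP i) (hP j)
      rintro rfl
      exact hi hj
    have hpolyA : ∀ (R : k[X]), ∀ x ∈ A, aeval T R x ∈ A := by
      intro R x hx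
      have := aeval_restrict T A hA R ⟨x, hx⟩
      rw [← this]
      exact Subtype.mem _
    intro x hx
    obtain ⟨a, b, hab⟩ := hcop
    have h1 : x = aeval T (b * Q₂) x + aeval T (a * Q₁) x := by
      rw [← LinearMap.add_apply, ← map_add, add_comm, hab, map_one]
      rfl
    have h0 : aeval T (Q₁ * Q₂) x = 0 := by
      have := h x hx
      rw [Finset.prod_insert hi, Polynomial.map_mul] at this
      exact this
    rw [h1]
    refine Submodule.add_mem _ ?_ ?_
    · refine Submodule.mem_iSup_of_mem i ⟨hpolyA _ x hx, ?_⟩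
      change aeval T Q₁ (aeval T (b * Q₂) x) = 0
      rw [← Module.End.mul_apply, ← map_mul,
        show Q₁ * (b * Q₂) = b * (Q₁ * Q₂) by ring, map_mul, Module.End.mul_apply, h0, map_zero]
    · have h2 := ih (A ⊓ LinearMap.ker (aeval T Q₂)) (ker_stable T A hA Q₂) (fun x hx => hx.2)
      have h3 : aeval T (a * Q₁) x ∈ A ⊓ LinearMap.ker (aeval T Q₂) := by
        refine ⟨hpolyA _ x hx, ?_⟩
        change aeval T Q₂ (aeval T (a * Q₁) x) = 0
        rw [← Module.End.mul_apply, ← map_mul,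
          show Q₂ * (a * Q₁) = a * (Q₁ * Q₂) by ring, map_mul, Module.End.mul_apply, h0, map_zero]
      refine (h2.trans ?_) h3
      exact iSup_mono fun j => inf_le_inf_right _ inf_le_left

omit [CharZero k] in
theorem pairing_bound (B : V →ₗ[k] V →ₗ[k] k) (E A Z : Submodule k V) (hZ : Z ≤ A)
    (hann : ∀ u ∈ E, ∀ z ∈ Z, B u z = 0) (hnd : ∀ u ∈ E, (∀ a ∈ A, B u a = 0) → u = 0) :
    finrank k E + finrank k Z ≤ finrank k A := by
  let Z' : Submodule k A := Z.comap A.subtype
  let F : E →ₗ[k] Dual k A := (LinearMap.lcomp k k A.subtype ∘ₗ B) ∘ₗ E.subtype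
  have hF : ∀ (x : E) (y : A), F x y = B x y := fun x y => rfl
  have hinj : Function.Injective F := by
    rw [← LinearMap.ker_eq_bot, LinearMap.ker_eq_bot']
    intro x hx
    apply Subtype.ext
    apply hnd x x.2
    intro y hy
    have := LinearMap.congr_fun hx ⟨y, hy⟩
    rw [hF] at this
    exact this
  have hrange : LinearMap.range F ≤ Z'.dualAnnihilator := by
    rintro _ ⟨x, rfl⟩
    rw [Submodule.mem_dualAnnihilator]
    intro y hy
    rw [hF]
    exact hann x x.2 y hy
  have h1 : finrank k E ≤ finrank k Z'.dualAnnihilator := by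
    rw [← LinearMap.finrank_range_of_inj hinj]
    exact Submodule.finrank_mono hrange
  have h2 : finrank k Z' = finrank k Z :=
    (Submodule.comapSubtypeEquivOfLe hZ).finrank_eq
  have h3 := Subspace.finrank_add_finrank_dualAnnihilator_eq Z'
  omega

/-- **Key statement on isotropic subspaces.** -/
theorem isotropic_eq_bot (J : AlgebraicClosure k →+* ℂ) (T N : V →ₗ[k] V) {q : ℕ} (hq : 1 < q)
    (w : ℤ) (P : ℤ → ℚ[X]) (hP : ∀ i, HasWeight q i (P i)) (S : Finset ℤ)
    (hT : aeval T ((∏ i ∈ S, P i).map (algebraMap ℚ k)) = 0)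
    (hmaps : ∀ i, ∀ x ∈ wtPart T P i, N x ∈ wtPart T P (i - 2))
    (hinj : ∀ j : ℕ, ∀ x ∈ wtPart T P (w + j), (N ^ j) x = 0 → x = 0)
    (hmult : ∀ j : ℕ, finrank k (wtPart T P (w + j)) ≤ finrank k (wtPart T P (w + j + 2)) + 1)
    (B : V →ₗ[k] V →ₗ[k] k) (hB : ∀ x, (∀ y, B x y = 0) → x = 0)
    (hBT : ∀ x y, B (T x) (T y) = (q : k) ^ (-w) * B x y)
    (U : Submodule k V) (hUT : ∀ x ∈ U, T x ∈ U) (hUN : ∀ x ∈ U, N x ∈ U)
    (hpN : ∀ x ∈ perp B U, N x ∈ perp B U) (hiso : ∀ x ∈ U, ∀ y ∈ U, B x y = 0)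
    (H : ℤ) (M : ℕ) (hM : 0 < M) (hH : 2 * H = w * finrank k U)
    (hdet : (LinearMap.det (T.restrict hUT)) ^ M = (q : k) ^ (-(H * M))) : U = ⊥ := by
  classical
  have hq0 : (q : ℝ) ≠ 0 := by
    have : (0 : ℝ) < q := by exact_mod_cast (by omega : 0 < q)
    exact this.ne'
  set u : ℤ → ℕ := fun i => finrank k (U ⊓ wtPart T P i : Submodule k V) with hu
  obtain ⟨hn1, hn2⟩ := norm_det_weights J T hq P hP S U hUT (fun x _ => by rw [hT]; rfl)
  -- the sum of the weights
  have hsum : ∑ i ∈ S, i * (u i : ℤ) = w * ∑ i ∈ S, (u i : ℤ) := by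
    have h1 : (‖J (algebraMap k _ (LinearMap.det (T.restrict hUT)))‖ ^ 2) ^ M =
        (q : ℝ) ^ (-(2 * H * M)) := by
      rw [← pow_mul, mul_comm 2 M, pow_mul, ← norm_pow, ← map_pow, ← map_pow, hdet, map_zpow₀,
        map_zpow₀, map_natCast, map_natCast, norm_zpow, Complex.norm_natCast, ← zpow_natCast,
        ← zpow_mul]
      congr 1
      push_cast
      ring
    rw [hn1, ← zpow_natCast, ← zpow_mul] at h1
    have h2 := zpow_right_injective₀ (by exact_mod_cast (by omega : 0 < q))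
      (by exact_mod_cast (by omega : q ≠ 1)) h1
    have hM' : (M : ℤ) ≠ 0 := by exact_mod_cast hM.ne'
    have h3 : ∑ i ∈ S, i * (u i : ℤ) = 2 * H := by
      have h4 : (∑ i ∈ S, i * (u i : ℤ) - 2 * H) * M = 0 := by
        change -(∑ i ∈ S, i * (u i : ℤ)) * (M : ℤ) = _ at h2
        linarith
      have h5 := (mul_eq_zero.1 h4).resolve_right hM'
      linarith
    rw [h3, hH, hn2]
    push_cast
    rfl
  have hzero : ∀ i, i ∉ S → u i = 0 := by
    intro i hi
    have h1 := wtPart_eq_bot T hq P hP S hT i hi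
    simp only [hu]
    rw [h1, inf_bot_eq, finrank_bot]
  have hpowmaps : ∀ (j : ℕ) (i : ℤ), ∀ x ∈ wtPart T P i, (N ^ j) x ∈ wtPart T P (i - 2 * j) := by
    intro j
    induction j with
    | zero => intro i x hx; simpa using hx
    | succ j ih =>
      intro i x hx
      have h1 := hmaps _ _ (ih i x hx)
      rw [pow_succ', Module.End.mul_apply]
      have h2 : i - 2 * (j : ℤ) - 2 = i - 2 * ((j + 1 : ℕ) : ℤ) := by push_cast; ring
      rw [h2] at h1
      exact h1
  have hUpow : ∀ (j : ℕ), ∀ x ∈ U, (N ^ j) x ∈ U := by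
    intro j
    induction j with
    | zero => intro x hx; exact hx
    | succ j ih =>
      intro x hx
      rw [pow_succ', Module.End.mul_apply]
      exact hUN _ (ih x hx)
  have hle : ∀ j : ℕ, u (w + j) ≤ u (w - j) := by
    intro j
    have hmapsto : ∀ x ∈ (U ⊓ wtPart T P (w + j)), (N ^ j) x ∈ (U ⊓ wtPart T P (w - j)) := by
      rintro x ⟨hx1, hx2⟩
      refine ⟨hUpow j x hx1, ?_⟩
      have h1 := hpowmaps j _ x hx2
      have h2 : w + (j : ℤ) - 2 * j = w - j := by ring
      rw [h2] at h1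
      exact h1
    apply LinearMap.finrank_le_finrank_of_injective (f := (N ^ j).restrict hmapsto)
    rw [← LinearMap.ker_eq_bot, LinearMap.ker_eq_bot']
    intro x hx
    apply Subtype.ext
    exact hinj j x x.2.2 (congrArg Subtype.val hx)
  have hsymm := symm_of_sum u w S hzero hle hsum
  -- now suppose `U ≠ ⊥`
  by_contra hU0
  have hex : ∃ j : ℕ, u (w + j) ≠ 0 := by
    by_contra hcon
    push Not at hcon
    apply hU0
    apply Submodule.finrank_eq_zero.1
    rw [hn2]
    refine Finset.sum_eq_zero fun i _ => ?_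
    change u i = 0
    rcases le_total w i with h | h
    · obtain ⟨j, hj⟩ := Int.eq_ofNat_of_zero_le (sub_nonneg.2 h)
      have : i = w + j := by linarith
      rw [this, hcon j]
    · obtain ⟨j, hj⟩ := Int.eq_ofNat_of_zero_le (sub_nonneg.2 h)
      have : i = w - j := by linarith
      rw [this, ← hsymm j, hcon j]
  -- the largest such index
  obtain ⟨K, hK⟩ : ∃ K : ℕ, ∀ j : ℕ, u (w + j) ≠ 0 → j ≤ K := by
    refine ⟨∑ i ∈ S, (i - w).natAbs, ?_⟩
    intro j hj
    have hmem : (w + j) ∈ S := by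
      by_contra h
      exact hj (hzero _ h)
    have h1 : ((w + j) - w).natAbs ≤ ∑ i ∈ S, (i - w).natAbs :=
      Finset.single_le_sum (f := fun i => (i - w).natAbs) (fun _ _ => Nat.zero_le _) hmem
    have h2 : ((w + j) - w).natAbs = j := by
      have : w + (j : ℤ) - w = j := by ring
      rw [this, Int.natAbs_natCast]
    omega
  obtain ⟨j, hj, hjmax⟩ : ∃ j : ℕ, u (w + j) ≠ 0 ∧ ∀ j' : ℕ, u (w + j') ≠ 0 → j' ≤ j := by
    let F : Finset ℕ := (Finset.range (K + 1)).filter (fun j => u (w + (j : ℤ)) ≠ 0)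
    have hFne : F.Nonempty := by
      obtain ⟨j, hj⟩ := hex
      exact ⟨j, Finset.mem_filter.2 ⟨Finset.mem_range.2 (by have := hK j hj; omega), hj⟩⟩
    refine ⟨F.max' hFne, ?_, ?_⟩
    · exact (Finset.mem_filter.1 (F.max'_mem hFne)).2
    · intro j' hj'
      apply Finset.le_max'
      exact Finset.mem_filter.2 ⟨Finset.mem_range.2 (by have := hK j' hj'; omega), hj'⟩
  have hj2 : u (w + (j + 2 : ℕ)) = 0 := by
    by_contra h
    have := hjmax _ h
    omega
  have hj2' : u (w - (j + 2 : ℕ)) = 0 := by rw [← hsymm, hj2]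
  -- the subspaces of the weight part `A`
  set A := wtPart T P (w + j) with hA
  set A₂ := wtPart T P (w + j + 2) with hA₂
  have hA₂' : A₂ = wtPart T P (w + (j + 2 : ℕ)) := by
    rw [hA₂]
    congr 1
    push_cast
    ring
  set Xs := U ⊓ A with hXs
  set Ys := A₂.map N with hYs
  set Z := perp B U ⊓ A with hZ
  -- total decomposition of V
  have htotal : (⊤ : Submodule k V) ≤ ⨆ i, wtPart T P i := by
    have h1 := le_iSup_wtPart T hq P hP S ⊤ (fun _ _ => trivial) (fun x _ => by rw [hT]; rfl)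
    refine h1.trans (iSup_mono fun i => inf_le_right)
  have horth : ∀ i i' : ℤ, i + i' ≠ 2 * w → ∀ x ∈ wtPart T P i, ∀ y ∈ wtPart T P i', B x y = 0 :=
    fun i i' hii x hx y hy => pair_orth B T hq w hBT hii (hP i) (hP i') x y hx hy
  -- `A₂ ≤ perp U`
  have hA₂perp : A₂ ≤ perp B U := by
    intro y hy x₀ hx₀
    have h1 := le_iSup_wtPart T hq P hP S U hUT (fun x _ => by rw [hT]; rfl) hx₀
    clear hx₀
    induction h1 using Submodule.iSup_induction' with
    | mem i x hx =>
      by_cases hi : i + (w + j + 2) = 2 * w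
      · have h2 : i = w - (j + 2 : ℕ) := by push_cast; linarith
        have h3 : (U ⊓ wtPart T P i : Submodule k V) = ⊥ := by
          apply Submodule.finrank_eq_zero.1
          rw [h2]
          exact hj2'
        rw [h3, Submodule.mem_bot] at hx
        rw [hx, map_zero, LinearMap.zero_apply]
      · exact horth _ _ hi x hx.2 y hy
    | zero => rw [map_zero, LinearMap.zero_apply]
    | add x x' _ _ hx hx' => rw [map_add, LinearMap.add_apply, hx, hx', add_zero]
  have hYZ : Ys ≤ Z := by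
    rintro _ ⟨y, hy, rfl⟩
    refine ⟨hpN y (hA₂perp hy), ?_⟩
    have h1 := hmaps _ y hy
    have h2 : w + (j : ℤ) + 2 - 2 = w + j := by ring
    rw [h2] at h1
    exact h1
  have hXZ : Xs ≤ Z := by
    rintro x ⟨hx1, hx2⟩
    exact ⟨fun y hy => hiso y hy x hx1, hx2⟩
  have hdisj : Disjoint Xs Ys := by
    rw [disjoint_iff_inf_le]
    rintro x ⟨⟨hx1, _⟩, ⟨y, hy, rfl⟩⟩
    have hy' : y ∈ wtPart T P (w + (j + 2 : ℕ)) := by rw [← hA₂']; exact hy
    have h1 : (N ^ (j + 1)) (N y) ∈ U ⊓ wtPart T P (w - (j + 2 : ℕ)) := by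
      refine ⟨hUpow _ _ hx1, ?_⟩
      rw [← Module.End.mul_apply, ← pow_succ]
      have h2 := hpowmaps (j + 1 + 1) _ y hy'
      have h3 : w + ((j + 2 : ℕ) : ℤ) - 2 * ((j + 1 + 1 : ℕ) : ℤ) = w - (j + 2 : ℕ) := by
        push_cast; ring
      rw [h3] at h2
      exact h2
    have h2 : (U ⊓ wtPart T P (w - (j + 2 : ℕ)) : Submodule k V) = ⊥ :=
      Submodule.finrank_eq_zero.1 hj2'
    rw [h2, Submodule.mem_bot, ← Module.End.mul_apply, ← pow_succ] at h1
    have h3 := hinj (j + 2) y hy' h1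
    rw [h3, map_zero]
    exact Submodule.zero_mem _
  have hYdim : finrank k Ys = finrank k A₂ := by
    have h1 : LinearMap.range (N.domRestrict A₂) = Ys := LinearMap.range_domRestrict _ _
    rw [← h1]
    apply LinearMap.finrank_range_of_inj
    rw [← LinearMap.ker_eq_bot, LinearMap.ker_eq_bot']
    intro y hy
    apply Subtype.ext
    have hy' : (y : V) ∈ wtPart T P (w + (j + 2 : ℕ)) := by rw [← hA₂']; exact y.2
    apply hinj (j + 2) y hy'
    have h2 : N (y : V) = 0 := hy
    rw [pow_succ, Module.End.mul_apply, h2, map_zero]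
  have hZdim : u (w - j) + finrank k Z ≤ finrank k A := by
    apply pairing_bound B (U ⊓ wtPart T P (w - j)) A Z inf_le_right
    · intro x hx z hz
      exact hz.1 x hx.1
    · intro x hx hxa
      apply hB
      intro v
      have h1 := htotal (show v ∈ (⊤ : Submodule k V) from trivial)
      induction h1 using Submodule.iSup_induction' with
      | mem i v hv =>
        by_cases hi : i = w + j
        · subst hi
          exact hxa v hv
        · refine horth _ _ ?_ x hx.2 v hv
          intro h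
          apply hi
          linarith
      | zero => rw [map_zero]
      | add v v' _ _ hv hv' => rw [map_add, hv, hv', add_zero]
  have h1 : finrank k Xs + finrank k Ys ≤ finrank k Z := by
    have h2 := Submodule.finrank_sup_add_finrank_inf_eq Xs Ys
    rw [disjoint_iff.1 hdisj, finrank_bot, add_zero] at h2
    rw [← h2]
    exact Submodule.finrank_mono (sup_le hXZ hYZ)
  have h2 := hmult j
  have h3 : finrank k Xs = u (w + j) := rfl
  have h4 := hsymm j
  rw [hYdim] at h1
  rw [← hA, ← hA₂] at h2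
  omega

omit [FiniteDimensional k V] in
/-- The monodromy operator lowers the weights by two. -/
theorem monodromy_maps (T N : V →ₗ[k] V) {q : ℕ} (hq : 1 < q)
    (P : ℤ → ℚ[X]) (hP : ∀ i, HasWeight q i (P i)) (S : Finset ℤ)
    (hT : aeval T ((∏ i ∈ S, P i).map (algebraMap ℚ k)) = 0)
    (hTN : ∀ x, T (N x) = (q : k) • N (T x)) :
    ∀ i, ∀ x ∈ wtPart T P i, N x ∈ wtPart T P (i - 2) := by
  classical
  intro i x hx
  have hq0 : (q : ℝ) ≠ 0 := by
    have : (0 : ℝ) < q := by exact_mod_cast (by omega : 0 < q)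
    exact this.ne'
  have hqQ : (q : ℚ) ≠ 0 := by exact_mod_cast (by omega : q ≠ 0)
  have hqC : (q : ℂ) ≠ 0 := by exact_mod_cast (by omega : q ≠ 0)
  have hqk : (q : k) ≠ 0 := by exact_mod_cast (by omega : q ≠ 0)
  -- the scaled polynomial
  set Q : ℚ[X] := (P i).comp (C ((q : ℚ)⁻¹) * X) with hQ
  have hQw : HasWeight q (i - 2) Q := by
    constructor
    · intro h
      have h1 : Q.comp (C (q : ℚ) * X) = P i := by
        rw [hQ, comp_assoc, mul_comp, C_comp, X_comp, ← mul_assoc, ← C_mul,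
          inv_mul_cancel₀ hqQ, C_1, one_mul, comp_X]
      rw [h, zero_comp] at h1
      exact (hP i).1 h1.symm
    · intro z hz
      rw [hQ, aeval_comp, map_mul, aeval_C, aeval_X, map_inv₀, map_natCast] at hz
      have h1 := (hP i).2 _ hz
      rw [norm_mul, norm_inv, Complex.norm_natCast, mul_pow] at h1
      have h2 : (q : ℝ) ^ (-(i - 2)) = (q : ℝ) ^ 2 * (q : ℝ) ^ (-i) := by
        rw [← zpow_natCast, ← zpow_add₀ hq0]
        congr 1
        push_cast
        ring
      rw [h2, ← h1]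
      field_simp
  -- it kills `N x`
  have hNQ : aeval T (Q.map (algebraMap ℚ k)) (N x) = 0 := by
    have hcomm : ∀ R : k[X], aeval T (R.comp (C ((q : k)⁻¹) * X)) (N x) = N (aeval T R x) := by
      intro R
      have hpw : ∀ n : ℕ, (T ^ n) (N x) = (q : k) ^ n • N ((T ^ n) x) := by
        intro n
        induction n with
        | zero => simp
        | succ n ih =>
          rw [pow_succ', Module.End.mul_apply, ih, map_smul, hTN, smul_smul, Module.End.mul_apply,
            pow_succ]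
      induction R using Polynomial.induction_on' with
      | add R R' hR hR' =>
        rw [add_comp, map_add, LinearMap.add_apply, hR, hR', map_add, LinearMap.add_apply, map_add]
      | monomial n a =>
        have e1 : aeval T ((C a * X ^ n).comp (C ((q : k)⁻¹) * X)) =
            (a * ((q : k)⁻¹) ^ n) • T ^ n := by
          rw [mul_comp, C_comp, pow_comp, X_comp, mul_pow, ← C_pow, ← mul_assoc, ← C_mul, map_mul,
            aeval_C, map_pow, aeval_X, Algebra.algebraMap_eq_smul_one, smul_mul_assoc, one_mul]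
        have e2 : aeval T (C a * X ^ n) = a • T ^ n := by
          rw [map_mul, aeval_C, map_pow, aeval_X, Algebra.algebraMap_eq_smul_one, smul_mul_assoc,
            one_mul]
        rw [← C_mul_X_pow_eq_monomial, e1, e2, LinearMap.smul_apply, LinearMap.smul_apply, hpw,
          smul_smul, map_smul, mul_assoc, inv_pow, inv_mul_cancel₀ (pow_ne_zero _ hqk), mul_one]
    have h1 : Q.map (algebraMap ℚ k) =
        ((P i).map (algebraMap ℚ k)).comp (C ((q : k)⁻¹) * X) := by
      rw [hQ, Polynomial.map_comp, Polynomial.map_mul, Polynomial.map_C, Polynomial.map_X,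
        map_inv₀, map_natCast]
    rw [h1, hcomm]
    have h2 : aeval T ((P i).map (algebraMap ℚ k)) x = 0 := hx
    rw [h2, map_zero]
  have hcop : IsCoprime ((∏ j ∈ S.erase (i - 2), P j).map (algebraMap ℚ k))
      (Q.map (algebraMap ℚ k)) := by
    apply isCoprime_map
    apply IsCoprime.symm
    apply IsCoprime.prod_right
    intro j hj
    apply HasWeight.isCoprime hq _ hQw (hP j)
    rintro rfl
    exact (Finset.notMem_erase _ _) hj
  obtain ⟨a, b, hab⟩ := hcop
  set R := (∏ j ∈ S.erase (i - 2), P j).map (algebraMap ℚ k) with hR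
  have h1 : N x = aeval T (a * R) (N x) := by
    have h2 : N x = aeval T (a * R + b * (Q.map (algebraMap ℚ k))) (N x) := by
      rw [hab, map_one]; rfl
    rw [map_add, LinearMap.add_apply, map_mul _ b, Module.End.mul_apply, hNQ, map_zero,
      add_zero] at h2
    exact h2
  have h2 : aeval T ((P (i - 2)).map (algebraMap ℚ k) * R) = 0 := by
    by_cases hmem : (i - 2) ∈ S
    · rw [hR, ← Polynomial.map_mul, Finset.mul_prod_erase _ _ hmem, hT]
    · rw [hR, Finset.erase_eq_of_notMem hmem, map_mul, hT, mul_zero]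
  rw [mem_wtPart, h1, ← Module.End.mul_apply, ← map_mul,
    show (P (i - 2)).map (algebraMap ℚ k) * (a * R) = a * ((P (i - 2)).map (algebraMap ℚ k) * R) by
      ring, map_mul, h2, mul_zero, LinearMap.zero_apply]

end linear

section main

variable {p : ℕ} [hp : Fact p.Prime] {Ω : Type*} [Field Ω] [CharZero Ω] [IsAlgClosed Ω]
  [IsGalois ℚ Ω]
variable {V : Type*} [AddCommGroup V] [Module ℚ_[p] V] [FiniteDimensional ℚ_[p] V]

/-- **Distinct Jordan blocks imply semisimplicity.** -/
theorem semisimple_of_monodromy (ι : Ω →+* PadicAlgCl p)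
    (ρ : Representation ℚ_[p] Gal(Ω/ℚ) V)
    (hρ : IsContinuousRep ρ) {n : ℕ} (h : Fin n → ℤ)
    (e : Basis (Fin n) ℂ_[p] (ℂ_[p] ⊗[ℚ_[p]] V)) (he : IsHTBasis ι ρ h e)
    (w : ℤ) (B : V →ₗ[ℚ_[p]] V →ₗ[ℚ_[p]] ℚ_[p]) (hB : ∀ x, (∀ y, B x y = 0) → x = 0)
    (hBρ : ∀ g x y, B (ρ g x) (ρ g y) = toQ (cyc p Ω g) ^ (-w) * B x y)
    {q : ℕ} (hq : q.Prime) (hqp : q ≠ p) {φq : Gal(Ω/ℚ)} (hφq : IsFrobAt q φq)
    (hpure : IsPureOp q w (ρ φq)) {l : ℕ} (hl : l.Prime) (hlp : l ≠ p) {φ τ : Gal(Ω/ℚ)}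
    (hφ : IsFrobAt l φ) (N : V →ₗ[ℚ_[p]] V) (hN : IsNilpotent N) (hτ : ρ τ = nexp N)
    (hφN : ∀ x, ρ φ (N x) = (l : ℚ_[p]) • N (ρ φ x))
    (P : ℤ → ℚ[X]) (hP : ∀ i, HasWeight l i (P i)) (S : Finset ℤ)
    (hS : aeval (ρ φ) ((∏ i ∈ S, P i).map (algebraMap ℚ ℚ_[p])) = 0)
    (hinj : ∀ j : ℕ, ∀ x ∈ wtPart (ρ φ) P (w + j), (N ^ j) x = 0 → x = 0)
    (hmult : ∀ j : ℕ, finrank ℚ_[p] (wtPart (ρ φ) P (w + j)) ≤
      finrank ℚ_[p] (wtPart (ρ φ) P (w + j + 2)) + 1) : HasStableComplements ρ := by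
  apply semisimple_of_isotropic ρ w B hBρ
  intro U hU hiso
  obtain ⟨J⟩ := exists_embedding p
  have hstab : ∀ W : Submodule ℚ_[p] V, (∀ g, ∀ x ∈ W, ρ g x ∈ W) → ∀ x ∈ W, N x ∈ W :=
    fun W hW => stable_of_nexp N hN W (fun x hx => by rw [← hτ]; exact hW τ x hx)
  have hcyc : toQ (cyc p Ω φ) = (l : ℚ_[p]) := by
    rw [toQ_apply, cyc_frob hl hlp hφ, PadicInt.coe_natCast]
  obtain ⟨H, M, hM, hH, hdet⟩ := exists_det_weight ι ρ hρ h e he w hq hqp hφq hpure U hU
  refine isotropic_eq_bot J (ρ φ) N hl.one_lt w P hP S hS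
    (monodromy_maps (ρ φ) N hl.one_lt P hP S hS hφN) hinj hmult B hB
    (fun x y => by rw [hBρ, hcyc]) U (hU φ) (hstab U hU)
    (hstab _ (perp_stable ρ w B hBρ U hU)) hiso H M hM hH ?_
  have h1 := hdet φ
  rw [hcyc] at h1
  exact h1

end main

end Pool.Agent.GSem
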