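import Mathlib
import Pool.Agent.Lib.Helper90.GSem.Steinberg

/-!
# Irreducibility of pure Hodge–Tate representations with principal monodromy at one prime
-/

namespace Pool.Agent.GSem.PrincipalMonodromy

open Pool.Agent.GSem TensorProduct Module

theorem result (p : ℕ) [Fact p.Prime] (Ω : Type*) [Field Ω] [CharZero Ω] [IsAlgClosure ℚ Ω]
    (V : Type*) [AddCommGroup V] [Module ℚ_[p] V] [FiniteDimensional ℚ_[p] V]
    (ρ : Representation ℚ_[p] Gal(Ω/ℚ) V) (hρ : IsContinuousRep ρ)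
    (n : ℕ) (h : Fin n → ℤ) (hHT : IsHodgeTate ρ h)
    (w : ℤ) (hpure : IsPureSomewhere ρ w)
    (l : ℕ) (hl : l.Prime) (hlp : l ≠ p) (φ τ : Gal(Ω/ℚ)) (hφ : IsFrobAt l φ)
    (N : V →ₗ[ℚ_[p]] V) (hN : IsNilpotent N) (hτ : ρ τ = nexp N)
    (hφN : ∀ x, ρ φ (N x) = (l : ℚ_[p]) • N (ρ φ x))
    (hker : finrank ℚ_[p] (LinearMap.ker N) ≤ 1)
    (G : Subgroup Gal(Ω/ℚ)) [G.FiniteIndex] :
    (∀ W : Submodule ℚ_[p] V, (∀ g ∈ G, ∀ x ∈ W, ρ g x ∈ W) → W = ⊥ ∨ W = ⊤) ∧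
      ∀ f : V →ₗ[ℚ_[p]] V, (∀ g ∈ G, ∀ x, f (ρ g x) = ρ g (f x)) →
        ∃ c : ℚ_[p], ∀ x, f x = c • x := by
  have _ : IsAlgClosed Ω := IsAlgClosure.isAlgClosed ℚ
  have _ : Algebra.IsAlgebraic ℚ Ω := IsAlgClosure.isAlgebraic
  have _ : IsGalois ℚ Ω := IsAlgClosure.isGalois ℚ Ω
  obtain ⟨ι, e, he⟩ := hHT
  obtain ⟨q, φq, hq, hqp, hφq, hpq⟩ := hpure
  exact abs_irreducible_of_principal ι ρ hρ h e he w hq hqp hφq hpq hl hlp hφ N hN hτ hφN hker G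

end Pool.Agent.GSem.PrincipalMonodromy
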